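import Mathlib
import Pool.Agent.SMS.ConXder

/-!
# Derivations of a field of characteristic zero and algebraic closedness
-/

set_option autoImplicit false
set_option linter.unusedSectionVars false

namespace Pool.Agent.AXE

open Pool.Agent.SMS Polynomial

variable {F : Type} [Field F]

/-- the derivation `D` kills the set `S` -/
def Kills (D : Derivation ℤ F F) (S : Set F) : Prop := ∀ s ∈ S, D s = 0

theorem Kills.mono {D : Derivation ℤ F F} {S S' : Set F} (h : Kills D S') (hs : S ⊆ S') :
    Kills D S := fun s hs' => h s (hs hs')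

/-- the field of elements killed by every derivation which kills `S` -/
def cl (S : Set F) : Subfield F where
  carrier := {x | ∀ D : Derivation ℤ F F, Kills D S → D x = 0}
  mul_mem' := fun {x y} hx hy D hD => by
    rw [Derivation.leibniz, hx D hD, hy D hD, smul_zero, smul_zero, add_zero]
  one_mem' := fun D _ => D.map_one_eq_zero
  add_mem' := fun {x y} hx hy D hD => by
    rw [map_add, hx D hD, hy D hD, add_zero]
  zero_mem' := fun D _ => map_zero D
  neg_mem' := fun {x} hx D hD => by
    rw [map_neg, hx D hD, neg_zero]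
  inv_mem' := fun x hx D hD => by
    rw [Derivation.leibniz_inv, hx D hD, smul_zero]

theorem mem_cl {S : Set F} {x : F} :
    x ∈ cl S ↔ ∀ D : Derivation ℤ F F, Kills D S → D x = 0 := Iff.rfl

theorem subset_cl (S : Set F) : S ⊆ cl S := fun x hx _ hD => hD x hx

theorem kills_cl {S : Set F} {D : Derivation ℤ F F} (h : Kills D S) : Kills D (cl S) :=
  fun _ hx => hx D h

theorem cl_mono {S S' : Set F} (h : S ⊆ S') : cl S ≤ cl S' := fun _ hx D hD =>
  hx D (hD.mono h)

theorem kills_closure {S : Set F} {D : Derivation ℤ F F} (h : Kills D S) :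
    Kills D (Subfield.closure S) := by
  intro x hx
  have h1 : Subfield.closure S ≤ cl S := Subfield.closure_le.2 (subset_cl S)
  exact h1 hx D h

theorem eq_on_cl {S : Set F} {D D' : Derivation ℤ F F} (h : ∀ s ∈ S, D s = D' s) {x : F}
    (hx : x ∈ cl S) : D x = D' x := by
  have h1 := hx (D - D') (fun s hs => by rw [Derivation.sub_apply, h s hs, sub_self])
  rw [Derivation.sub_apply] at h1
  exact sub_eq_zero.1 h1

theorem stab {S : Set F} {T : Derivation ℤ F F} (h : ∀ s ∈ S, T s ∈ cl S) {x : F}
    (hx : x ∈ cl S) : T x ∈ cl S := by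
  intro D hD
  have h1 : Kills ⁅D, T⁆ S := fun s hs => by
    rw [Derivation.commutator_apply, h s hs D hD, hD s hs, map_zero, sub_zero]
  have h2 := hx _ h1
  rw [Derivation.commutator_apply, hx D hD, map_zero, sub_zero] at h2
  exact h2

/-- a derivation which kills the subfield `M`, as a derivation over `M` -/
def overM (M : Subfield F) (D : Derivation ℤ F F) (h : Kills D M) : Derivation M F F :=
  Derivation.mk'
    { toFun := D
      map_add' := map_add D
      map_smul' := fun r x => by
        have hr : D (algebraMap M F r) = 0 := h _ r.2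
        rw [Algebra.smul_def, Derivation.leibniz, hr, smul_zero, add_zero, RingHom.id_apply,
          smul_eq_mul]
        exact (Algebra.smul_def r (D x)).symm }
    (fun x y => D.leibniz x y)

theorem overM_apply (M : Subfield F) (D : Derivation ℤ F F) (h : Kills D M) (x : F) :
    overM M D h x = D x := rfl

variable [CharZero F]

theorem charZero_sub (M : Subfield F) : CharZero M :=
  ((algebraMap M F).charZero_iff (algebraMap M F).injective).2 inferInstance

theorem kills_of_isAlgebraic {M : Subfield F} {D : Derivation ℤ F F} (hD : Kills D M) {x : F}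
    (hx : IsAlgebraic M x) : D x = 0 := by
  have hc := charZero_sub M
  have h1 : aeval x (minpoly M x) = 0 := minpoly.aeval M x
  have h2 := (overM M D hD).map_aeval (minpoly M x) x
  rw [h1, map_zero] at h2
  have h3 : (minpoly M x).Separable := (minpoly.irreducible hx.isIntegral).separable
  have h4 : aeval x (derivative (minpoly M x)) ≠ 0 := h3.aeval_derivative_ne_zero h1
  have h5 := (smul_eq_zero.1 h2.symm).resolve_left h4
  exact h5

theorem mem_cl_iff {M : Subfield F} {x : F} : x ∈ cl (M : Set F) ↔ IsAlgebraic M x := by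
  constructor
  · intro h
    by_contra hx
    have hc := charZero_sub M
    obtain ⟨δ, hδ⟩ := exists_der (k := M) (L := F) x hx
    have h1 := h (δ.restrictScalars ℤ) (fun s hs => δ.map_algebraMap ⟨s, hs⟩)
    exact one_ne_zero (hδ.symm.trans h1)
  · intro h D hD
    exact kills_of_isAlgebraic hD h

/-- a derivation with prescribed values on an algebraically independent family -/
theorem exists_der_fam {k L ι : Type} [Field k] [CharZero k] [Field L] [Algebra k L] (ζ : ι → L)
    (hζ : AlgebraicIndependent k ζ) (v : ι → L) : ∃ δ : Derivation k L L, ∀ i, δ (ζ i) = v i := by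
  let R := MvPolynomial ι k
  let : Algebra R L := (MvPolynomial.aeval ζ).toAlgebra
  have ht : IsScalarTower k R L := IsScalarTower.of_algebraMap_eq' (by
    ext x
    change algebraMap k L x = MvPolynomial.aeval ζ (MvPolynomial.C x)
    rw [MvPolynomial.aeval_C])
  have hinj : Function.Injective (algebraMap R L) := hζ
  let K := FractionRing R
  let : Algebra K L := (IsFractionRing.lift (K := K) hinj).toAlgebra
  have ht2 : IsScalarTower R K L := IsScalarTower.of_algebraMap_eq (fun r =>
    (IsFractionRing.lift_algebraMap (K := K) hinj r).symm)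
  have hK : CharZero K := by
    have h0 : Function.Injective (algebraMap k K) := (algebraMap k K).injective
    exact ((algebraMap k K).charZero_iff h0).1 inferInstance
  have h1 : Algebra.FormallySmooth K L := formallySmooth_of_charZero K L
  have h2 : Algebra.FormallyEtale R K :=
    Algebra.FormallyEtale.of_isLocalization (nonZeroDivisors R)
  have h3 : Algebra.FormallySmooth R L := Algebra.FormallySmooth.comp R K L
  obtain ⟨δ, hδ⟩ := exists_der_ext h3 (MvPolynomial.mkDerivation k v)
  refine ⟨δ, fun i => ?_⟩
  have h4 := hδ (MvPolynomial.X i)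
  have h5 : algebraMap R L (MvPolynomial.X i) = ζ i := MvPolynomial.aeval_X ζ i
  rw [h5] at h4
  rw [h4]
  exact MvPolynomial.mkDerivation_X k v i

theorem exists_der_sub {ι : Type} (M : Subfield F) (x : ι → F) (hx : AlgebraicIndependent M x)
    (v : ι → F) : ∃ D : Derivation ℤ F F, Kills D M ∧ ∀ i, D (x i) = v i := by
  have hc := charZero_sub M
  obtain ⟨δ, hδ⟩ := exists_der_fam x hx v
  exact ⟨δ.restrictScalars ℤ, fun s hs => δ.map_algebraMap ⟨s, hs⟩, hδ⟩

theorem isAlgebraic_of_le {M : Subfield F} {A : Subalgebra M F} {N : Subfield F}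
    (hA : ∀ a ∈ A, a ∈ N) {z : F} (h : IsAlgebraic A z) : IsAlgebraic N z := by
  let f : A →+* N :=
    { toFun := fun a => ⟨a.1, hA a.1 a.2⟩
      map_one' := rfl
      map_mul' := fun _ _ => rfl
      map_zero' := rfl
      map_add' := fun _ _ => rfl }
  have hf : Function.Injective f := fun a b hab => by
    have h1 := congrArg (fun t : N => (t : F)) hab
    exact Subtype.ext h1
  exact h.ringHom_of_comp_eq (f := f) (g := RingHom.id F) hf rfl

theorem adjoin_le_cl {M : Subfield F} {u : Set F} {a : F} (ha : a ∈ Algebra.adjoin M u) :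
    a ∈ cl ((M : Set F) ∪ u) := by
  induction ha using Algebra.adjoin_induction with
  | mem x hx => exact subset_cl _ (Or.inr hx)
  | algebraMap r => exact subset_cl _ (Or.inl r.2)
  | add x y _ _ h1 h2 => exact add_mem h1 h2
  | mul x y _ _ h1 h2 => exact mul_mem h1 h2

theorem cl_cl (S : Set F) {x : F} (h : IsAlgebraic (cl S) x) : x ∈ cl S := by
  intro D hD
  exact kills_of_isAlgebraic (kills_cl hD) h

/-- a maximal algebraically independent subset -/
theorem exists_basis (M : Subfield F) (Z : Set F) :
    ∃ u ⊆ Z, AlgebraicIndepOn M id u ∧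
      ∀ D : Derivation ℤ F F, Kills D M → Kills D u → Kills D Z := by
  obtain ⟨u, -, hu⟩ := exists_maximal_algebraicIndependent (R := M) (A := F) ∅ Z
    (Set.empty_subset Z)
    ((algebraicIndependent_empty_iff M F).2 (algebraMap M F).injective)
  refine ⟨u, hu.prop.2, hu.prop.1, fun D hM hD z hz => ?_⟩
  by_cases hzu : z ∈ u
  · exact hD z hzu
  · have h1 : IsAlgebraic (Algebra.adjoin M (id '' u)) (id z) := by
      by_contra h2
      have h3 : AlgebraicIndepOn M id (insert z u) := hu.prop.1.insert h2
      have h4 := hu.2 ⟨h3, Set.insert_subset hz hu.prop.2⟩ (Set.subset_insert z u)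
      exact hzu (h4 (Set.mem_insert z u))
    rw [Set.image_id, id] at h1
    have h2 : IsAlgebraic (cl ((M : Set F) ∪ u)) z := isAlgebraic_of_le (fun a => adjoin_le_cl) h1
    exact cl_cl _ h2 D (fun s hs => hs.elim (hM s) (hD s))

theorem card_le_trdeg (M : Subfield F) (Z u : Set F) (hu : u ⊆ Z) (h : AlgebraicIndepOn M id u) :
    Cardinal.mk u ≤ Algebra.trdeg M (IntermediateField.adjoin M Z) := by
  let x : u → IntermediateField.adjoin M Z := fun i =>
    ⟨i.1, IntermediateField.subset_adjoin M Z (hu i.2)⟩
  have h1 : AlgebraicIndependent M x := by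
    have h2 : AlgebraicIndependent M
      ((IntermediateField.adjoin M Z).val ∘ x) := h
    exact h2.of_comp _
  exact h1.cardinalMk_le_trdeg

/-- linearly independent derivations give a lower bound for the transcendence degree -/
theorem le_trdeg {α : Type} [Fintype α] (M : Subfield F) (Z : Set F) (D : α → Derivation ℤ F F)
    (hD : ∀ a, Kills (D a) M)
    (hind : ∀ l : α → F, (∀ z ∈ Z, ∑ a, l a * D a z = 0) → ∀ a, l a = 0) :
    (Fintype.card α : Cardinal) ≤ Algebra.trdeg M (IntermediateField.adjoin M Z) := by
  obtain ⟨u, hu, hui, hk⟩ := exists_basis M Z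
  refine le_trans ?_ (card_le_trdeg M Z u hu hui)
  by_contra hlt
  rw [not_le] at hlt
  have hfin : Finite u := by
    rw [← Cardinal.mk_lt_aleph0_iff]
    exact hlt.trans (Cardinal.natCast_lt_aleph0)
  have := Fintype.ofFinite u
  rw [Cardinal.mk_fintype, Nat.cast_lt] at hlt
  let f : (α → F) →ₗ[F] (u → F) :=
    { toFun := fun l i => ∑ a, l a * D a i
      map_add' := fun l l' => by
        funext i
        simp only [Pi.add_apply, add_mul, Finset.sum_add_distrib]
      map_smul' := fun r l => by
        funext i
        simp only [Pi.smul_apply, smul_eq_mul, RingHom.id_apply, Finset.mul_sum, mul_assoc] }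
  have h1 : LinearMap.ker f ≠ ⊥ := LinearMap.ker_ne_bot_of_finrank_lt (by
    rw [Module.finrank_fintype_fun_eq_card, Module.finrank_fintype_fun_eq_card]
    exact hlt)
  obtain ⟨l, hl, hl0⟩ := (Submodule.ne_bot_iff _).1 h1
  apply hl0
  funext a
  refine hind l (fun z hz => ?_) a
  have happ : ∀ z, (∑ a, l a • D a) z = ∑ a, l a * D a z := fun z => by
    have h2 := congrFun (map_sum (Derivation.coeFnAddMonoidHom (R := ℤ) (A := F) (M := F))
      (fun a => l a • D a) Finset.univ) z
    rw [Finset.sum_apply] at h2
    exact h2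
  rw [← happ z]
  refine hk (∑ a, l a • D a) (fun m hm => ?_) (fun s hs => ?_) z hz
  · rw [happ]
    exact Finset.sum_eq_zero (fun a _ => by rw [hD a m hm, mul_zero])
  · rw [happ]
    exact congrFun (LinearMap.mem_ker.1 hl) ⟨s, hs⟩

end Pool.Agent.AXE
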