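import Mathlib
import Pool.Agent.AXE.Der

/-!
# Algebraic solutions of an inhomogeneous equation of order one descend to the base
-/

set_option autoImplicit false
set_option linter.unusedSectionVars false

namespace Pool.Agent.AXE

open Polynomial

variable {F : Type} [Field F] {M : Subfield F}

/-- coefficientwise application of an additive map -/
noncomputable def mapC (d : M →+ M) (p : M[X]) : M[X] :=
  p.sum fun i a => monomial i (d a)

theorem coeff_mapC (d : M →+ M) (p : M[X]) (i : ℕ) : (mapC d p).coeff i = d (p.coeff i) := by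
  rw [mapC, sum_def, finsetSum_coeff]
  simp only [coeff_monomial]
  rw [Finset.sum_ite_eq']
  split_ifs with h
  · rfl
  · rw [notMem_support_iff.1 h, map_zero]

theorem mapC_add (d : M →+ M) (p q : M[X]) : mapC d (p + q) = mapC d p + mapC d q := by
  ext i
  rw [coeff_mapC, coeff_add, map_add, coeff_add, coeff_mapC, coeff_mapC]

theorem mapC_monomial (d : M →+ M) (n : ℕ) (a : M) : mapC d (monomial n a) = monomial n (d a) := by
  ext i
  rw [coeff_mapC, coeff_monomial, coeff_monomial]
  split_ifs
  · rfl
  · rw [map_zero]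

/-- restriction of a derivation to a stable subfield, as an additive map -/
def restr (M : Subfield F) (D : Derivation ℤ F F) (h : ∀ m ∈ M, D m ∈ M) : M →+ M where
  toFun := fun m => ⟨D (m : F), h m m.2⟩
  map_zero' := Subtype.ext (map_zero D)
  map_add' := fun x y => Subtype.ext (map_add D (x : F) (y : F))

theorem coe_restr (D : Derivation ℤ F F) (h : ∀ m ∈ M, D m ∈ M) (m : M) :
    ((restr M D h m : M) : F) = D (m : F) := rfl

theorem der_aeval (D : Derivation ℤ F F) (h : ∀ m ∈ M, D m ∈ M) (p : M[X]) (x : F) :
    D (aeval x p) = aeval x (mapC (restr M D h) p) + aeval x (derivative p) * D x := by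
  induction p using Polynomial.induction_on' with
  | add p q hp hq =>
    rw [mapC_add, map_add, map_add, hp, hq, map_add, derivative_add, map_add]
    ring
  | monomial n a =>
    rw [mapC_monomial, aeval_monomial, aeval_monomial, derivative_monomial, aeval_monomial,
      Derivation.leibniz, Derivation.leibniz_pow]
    have h1 : (algebraMap M F) (restr M D h a) = D ((algebraMap M F) a) := rfl
    rw [h1, map_mul, map_natCast]
    simp only [smul_eq_mul, nsmul_eq_mul]
    ring

variable [CharZero F]

theorem descend (D : Derivation ℤ F F) (h : ∀ m ∈ M, D m ∈ M) (x θ ρ : F) (hx : IsAlgebraic M x)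
    (hθ : θ ∈ M) (hρ : ρ ∈ M) (hD : D x = θ + ρ * x) :
    ∃ b ∈ M, D b = θ + ρ * b := by
  have hc := charZero_sub M
  set p := minpoly M x with hp
  have hm : p.Monic := minpoly.monic hx.isIntegral
  have hn : 0 < p.natDegree := minpoly.natDegree_pos hx.isIntegral
  obtain ⟨n, hn'⟩ : ∃ n, p.natDegree = n + 1 := ⟨p.natDegree - 1, by omega⟩
  let θ' : M := ⟨θ, hθ⟩
  let ρ' : M := ⟨ρ, hρ⟩
  let q : M[X] := mapC (restr M D h) p + C θ' * derivative p + C ρ' * (X * derivative p)
    - C ((n + 1 : ℕ) * ρ') * p
  have h0 : aeval x p = 0 := minpoly.aeval M x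
  have hq0 : aeval x q = 0 := by
    have h1 := der_aeval D h p x
    rw [h0, map_zero, hD] at h1
    have h2 : aeval x q = aeval x (mapC (restr M D h) p) + aeval x (derivative p) * (θ + ρ * x)
      - aeval x (C (((n + 1 : ℕ) : M) * ρ')) * aeval x p := by
      simp only [q, map_sub, map_add, map_mul, aeval_C, aeval_X]
      have e1 : (algebraMap M F) θ' = θ := rfl
      have e2 : (algebraMap M F) ρ' = ρ := rfl
      rw [e1, e2]
      ring
    rw [h2, ← h1, h0, mul_zero, sub_zero]
  have hcoef : ∀ i, q.coeff i = restr M D h (p.coeff i) + θ' * (p.coeff (i + 1) * (i + 1))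
      + ρ' * (X * derivative p).coeff i - ((n + 1 : ℕ) * ρ') * p.coeff i := by
    intro i
    simp only [q, coeff_sub, coeff_add, coeff_C_mul, coeff_mapC, coeff_derivative]
  have hXd : ∀ i, (X * derivative p).coeff i = i * p.coeff i := by
    intro i
    cases i with
    | zero => simp
    | succ i =>
      rw [coeff_X_mul, coeff_derivative]
      push_cast
      ring
  have hdeg : q.degree < p.degree := by
    rw [degree_eq_natDegree hm.ne_zero, hn', degree_lt_iff_coeff_zero]
    intro i hi
    rw [hcoef, hXd]
    rcases Nat.lt_or_ge (n + 1) i with h1 | h1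
    · rw [coeff_eq_zero_of_natDegree_lt (by omega : p.natDegree < i),
        coeff_eq_zero_of_natDegree_lt (by omega : p.natDegree < i + 1), map_zero]
      ring
    · have h2 : i = n + 1 := le_antisymm h1 hi
      have h3 : p.coeff (n + 1) = 1 := by
        rw [← hn']
        exact hm.coeff_natDegree
      have h4 : restr M D h 1 = 0 := Subtype.ext D.map_one_eq_zero
      rw [h2, h3, coeff_eq_zero_of_natDegree_lt (by omega : p.natDegree < n + 1 + 1), h4]
      ring
  have hq : q = 0 := eq_zero_of_dvd_of_degree_lt (minpoly.dvd M x hq0) hdeg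
  have h5 := hcoef n
  rw [hq, coeff_zero, hXd] at h5
  have h3 : p.coeff (n + 1) = 1 := by
    rw [← hn']
    exact hm.coeff_natDegree
  rw [h3] at h5
  have h6 := congrArg (fun t : M => (t : F)) h5
  have h7 : (0 : F) = D (p.coeff n : F) + θ * (1 * (n + 1)) + ρ * (n * p.coeff n)
      - ((n + 1) * ρ) * p.coeff n := by
    have h8 : ((n : M) : F) = n := rfl
    simpa [coe_restr, θ', ρ', h8] using h6
  have hn1 : (n + 1 : F) ≠ 0 := by exact_mod_cast Nat.succ_ne_zero n
  refine ⟨-(p.coeff n : F) / (n + 1), M.div_mem (M.neg_mem (p.coeff n).2)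
    (by exact_mod_cast (natCast_mem M (n + 1))), ?_⟩
  have h9 : D (-(p.coeff n : F) / (n + 1)) = - D (p.coeff n : F) / (n + 1) := by
    have h10 : D ((n + 1 : F)⁻¹) = 0 := by
      rw [Derivation.leibniz_inv]
      have : D (n + 1 : F) = 0 := by
        rw [map_add, D.map_one_eq_zero, add_zero]
        exact D.map_natCast n
      rw [this, smul_zero]
    rw [div_eq_mul_inv, Derivation.leibniz, h10, smul_zero, zero_add, map_neg, smul_eq_mul]
    ring
  rw [h9]
  field_simp
  linear_combination h7

end Pool.Agent.AXE
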