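import Mathlib

/-!
# A polynomial identity without solutions
-/

set_option autoImplicit false
set_option linter.unusedSectionVars false

namespace Pool.Agent.AXE

open Polynomial

variable {k : Type} [Field k] [CharZero k]

theorem coprime_unit (f θ P Q : k[X]) (hcop : IsCoprime f (derivative f)) (hQ : Q ≠ 0)
    (hPQ : IsCoprime P Q)
    (hid : 2 * f * (derivative P * Q - P * derivative Q) =
      2 * f * θ * Q ^ 2 + derivative f * P * Q) : IsUnit Q := by
  by_contra hu
  obtain ⟨π, hπ, hπQ⟩ := WfDvdMonoid.exists_irreducible_factor hu hQ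
  have hpr : Prime π := hπ.prime
  have hsep : IsCoprime π (derivative π) := hπ.separable
  have hfin : FiniteMultiplicity π Q := FiniteMultiplicity.of_not_isUnit hπ.not_isUnit hQ
  obtain ⟨Q1, hQ1, hndvd⟩ := hfin.exists_eq_pow_mul_and_not_dvd
  have hm : multiplicity π Q ≠ 0 := by
    intro h0
    rw [h0, pow_zero, one_mul] at hQ1
    exact hndvd (hQ1 ▸ hπQ)
  obtain ⟨n, hn⟩ := Nat.exists_eq_succ_of_ne_zero hm
  rw [hn, Nat.succ_eq_add_one] at hQ1
  have hπP : ¬ π ∣ P := fun hd => hπ.not_isUnit (hPQ.isUnit_of_dvd' hd hπQ)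
  have hππ : ¬ π ∣ derivative π := fun hd => hπ.not_isUnit (hsep.isUnit_of_dvd' dvd_rfl hd)
  have hQ' : derivative Q = π ^ n * (C (n + 1 : k) * derivative π * Q1 + π * derivative Q1) := by
    rw [hQ1, derivative_mul, derivative_pow_succ]
    ring
  have hπn : π ^ n ≠ 0 := pow_ne_zero n hπ.ne_zero
  have e1 : 2 * f * (derivative P * (π * Q1) - P * (C (n + 1 : k) * derivative π * Q1
      + π * derivative Q1)) = 2 * f * θ * (π ^ (n + 2) * Q1 ^ 2)
      + derivative f * P * (π * Q1) := by
    apply mul_left_cancel₀ hπn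
    rw [hQ', hQ1] at hid
    linear_combination hid
  have hconst : ∀ c : k, c ≠ 0 → ¬ π ∣ C c := fun c hc hd =>
    hπ.not_isUnit (isUnit_of_dvd_unit hd (isUnit_C.2 (isUnit_iff_ne_zero.2 hc)))
  have hn1 : (2 * (n + 1) : k) ≠ 0 := by
    have : ((2 * (n + 1) : ℕ) : k) ≠ 0 := by
      rw [Nat.cast_ne_zero]
      omega
    exact_mod_cast this
  have hn3 : (2 * n + 3 : k) ≠ 0 := by
    have : ((2 * n + 3 : ℕ) : k) ≠ 0 := by
      rw [Nat.cast_ne_zero]
      omega
    exact_mod_cast this
  have hfac : ∀ c : k, c ≠ 0 → ∀ f0 : k[X], π ∣ f0 * (P * (C c * (derivative π * Q1))) →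
      π ∣ f0 := by
    intro c hc f0 h1
    rcases hpr.dvd_or_dvd h1 with h2 | h2
    · exact h2
    · exfalso
      rcases hpr.dvd_or_dvd h2 with h3 | h3
      · exact hπP h3
      · rcases hpr.dvd_or_dvd h3 with h4 | h4
        · exact hconst _ hc h4
        · rcases hpr.dvd_or_dvd h4 with h5 | h5
          · exact hππ h5
          · exact hndvd h5
  have hπf : π ∣ f := by
    refine hfac _ hn1 f ⟨2 * f * (derivative P * Q1 - P * derivative Q1)
      - 2 * f * θ * (π ^ (n + 1) * Q1 ^ 2) - derivative f * P * Q1, ?_⟩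
    have e3 : C (2 * (n + 1) : k) = 2 * C (n + 1 : k) := by
      rw [C_mul]
      rfl
    rw [e3]
    linear_combination -e1
  obtain ⟨f1, hf1⟩ := hπf
  have hf' : derivative f = derivative π * f1 + π * derivative f1 := by
    rw [hf1, derivative_mul]
  have e2 : 2 * f1 * (derivative P * (π * Q1) - P * (C (n + 1 : k) * derivative π * Q1
      + π * derivative Q1)) = 2 * f1 * θ * (π ^ (n + 2) * Q1 ^ 2)
      + (derivative π * f1 + π * derivative f1) * P * Q1 := by
    apply mul_left_cancel₀ hπ.ne_zero
    rw [hf', hf1] at e1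
    linear_combination e1
  have hf1d : π ∣ f1 := by
    refine hfac _ hn3 f1 ⟨2 * f1 * (derivative P * Q1 - P * derivative Q1)
      - 2 * f1 * θ * (π ^ (n + 1) * Q1 ^ 2) - derivative f1 * P * Q1, ?_⟩
    have e3 : C (2 * n + 3 : k) = 2 * C (n + 1 : k) + 1 := by
      have : (2 * n + 3 : k) = 2 * (n + 1) + 1 := by ring
      rw [this, C_add, C_mul, C_1]
      rfl
    rw [e3]
    linear_combination -e2
  exact hπ.not_isUnit (hcop.isUnit_of_dvd' ⟨f1, hf1⟩ (by
    rw [hf']
    exact dvd_add (dvd_mul_of_dvd_right hf1d _) (dvd_mul_right _ _)))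

/-- the main polynomial lemma -/
theorem pol_no_solution' (N : ℕ) (f θ P Q : k[X]) (hcop : IsCoprime f (derivative f))
    (hf : f.natDegree = N + 1) (hθ : θ.degree < N) (hQ : Q ≠ 0) (hPQ : IsCoprime P Q)
    (hid : 2 * f * (derivative P * Q - P * derivative Q) =
      2 * f * θ * Q ^ 2 + derivative f * P * Q) : θ = 0 := by
  have hunit := coprime_unit f θ P Q hcop hQ hPQ hid
  obtain ⟨c, hc, hcQ⟩ := isUnit_iff.1 hunit
  have hc0 : c ≠ 0 := hc.ne_zero
  have hCc : (C c : k[X]) ≠ 0 := C_ne_zero.2 hc0
  rw [← hcQ, derivative_C, mul_zero, sub_zero] at hid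
  have e1 : 2 * f * derivative P = 2 * f * θ * C c + derivative f * P := by
    apply mul_left_cancel₀ hCc
    linear_combination hid
  have hfP : f ∣ P := by
    refine hcop.dvd_of_dvd_mul_left ⟨2 * derivative P - 2 * θ * C c, ?_⟩
    linear_combination -e1
  obtain ⟨R, hR⟩ := hfP
  have hf0 : f ≠ 0 := by
    intro h0
    rw [h0, derivative_zero] at hcop
    exact not_isCoprime_zero_zero hcop
  have e2 : derivative f * R + 2 * f * derivative R = 2 * θ * C c := by
    apply mul_left_cancel₀ hf0
    rw [hR, derivative_mul] at e1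
    linear_combination e1
  have hR0 : R = 0 := by
    by_contra hR0
    have h3 : (derivative f * R + 2 * f * derivative R).coeff (N + R.natDegree) =
        (2 * θ * C c).coeff (N + R.natDegree) := by rw [e2]
    have h2C : (2 : k[X]) = C 2 := rfl
    rw [h2C, mul_assoc, mul_assoc, coeff_add, coeff_C_mul, coeff_C_mul] at h3
    have hf'deg : (derivative f).natDegree ≤ N := by
      have := natDegree_derivative_le f
      omega
    have hf'c : (derivative f).coeff N = (N + 1) * f.leadingCoeff := by
      rw [coeff_derivative, leadingCoeff, hf]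
      ring
    have h4 : (derivative f * R).coeff (N + R.natDegree) =
        (N + 1) * f.leadingCoeff * R.leadingCoeff := by
      rw [coeff_mul_add_eq_of_natDegree_le hf'deg le_rfl, hf'c, leadingCoeff, leadingCoeff]
    have h5 : (f * derivative R).coeff (N + R.natDegree) =
        f.leadingCoeff * (R.natDegree * R.leadingCoeff) := by
      rcases Nat.eq_zero_or_pos R.natDegree with h0 | h0
      · have : derivative R = 0 := derivative_of_natDegree_zero h0
        rw [this, mul_zero, coeff_zero, h0]
        simp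
      · obtain ⟨n, hn⟩ : ∃ n, R.natDegree = n + 1 := ⟨R.natDegree - 1, by omega⟩
        have h6 : (derivative R).natDegree ≤ n := by
          have := natDegree_derivative_le R
          omega
        have h7 : N + R.natDegree = (N + 1) + n := by omega
        rw [h7, coeff_mul_add_eq_of_natDegree_le hf.le h6, coeff_derivative, hn, leadingCoeff, hf,
          leadingCoeff, hn]
        push_cast
        ring
    have h8 : (θ * C c).coeff (N + R.natDegree) = 0 := by
      rw [coeff_mul_C, coeff_eq_zero_of_degree_lt, zero_mul]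
      refine lt_of_lt_of_le hθ ?_
      exact_mod_cast Nat.le_add_right N R.natDegree
    rw [h4, h5, h8, mul_zero] at h3
    have h9 : ((N + 1 + 2 * R.natDegree : ℕ) : k) * (f.leadingCoeff * R.leadingCoeff) = 0 := by
      push_cast
      linear_combination h3
    rcases mul_eq_zero.1 h9 with h10 | h10
    · rw [Nat.cast_eq_zero] at h10
      omega
    · rcases mul_eq_zero.1 h10 with h11 | h11
      · exact hf0 (leadingCoeff_eq_zero.1 h11)
      · exact hR0 (leadingCoeff_eq_zero.1 h11)
  rw [hR0, derivative_zero, mul_zero, mul_zero, add_zero] at e2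
  have h4 : (2 : k[X]) * C c ≠ 0 := mul_ne_zero two_ne_zero hCc
  apply mul_left_cancel₀ h4
  linear_combination -e2

end Pool.Agent.AXE
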