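import Mathlib
import Pool.Agent.AXE.Exact
import Pool.Agent.AXE.HPol

/-!
# Differentials of the second kind on a hyperelliptic curve are not exact
-/

set_option autoImplicit false
set_option linter.unusedSectionVars false

namespace Pool.Agent.AXE

open Polynomial IntermediateField

variable {F : Type} [Field F]

/-- the derivation `d` applied to the coefficients of a polynomial -/
noncomputable def coeffD (d : Derivation ℤ F F) (p : F[X]) : F[X] :=
  p.sum fun n a => monomial n (d a)

theorem coeff_coeffD (d : Derivation ℤ F F) (p : F[X]) (i : ℕ) :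
    (coeffD d p).coeff i = d (p.coeff i) := by
  rw [coeffD, sum_def, finsetSum_coeff]
  simp only [coeff_monomial]
  rw [Finset.sum_ite_eq']
  split_ifs with h
  · rfl
  · rw [notMem_support_iff.1 h, map_zero]

theorem coeffD_add (d : Derivation ℤ F F) (p q : F[X]) :
    coeffD d (p + q) = coeffD d p + coeffD d q := by
  ext i
  rw [coeff_coeffD, coeff_add, map_add, coeff_add, coeff_coeffD, coeff_coeffD]

theorem coeffD_monomial (d : Derivation ℤ F F) (n : ℕ) (a : F) :
    coeffD d (monomial n a) = monomial n (d a) := by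
  ext i
  rw [coeff_coeffD, coeff_monomial, coeff_monomial]
  split_ifs
  · rfl
  · rw [map_zero]

/-- the value of a derivation at the value of a polynomial -/
theorem der_eval (D : Derivation ℤ F F) (p : F[X]) (x : F) :
    D (p.eval x) = (coeffD D p).eval x + (derivative p).eval x * D x := by
  induction p using Polynomial.induction_on' with
  | add p q hp hq =>
    rw [coeffD_add, eval_add, map_add, hp, hq, eval_add, derivative_add, eval_add]
    ring
  | monomial n a =>
    rw [coeffD_monomial, eval_monomial, eval_monomial, derivative_monomial, eval_monomial,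
      Derivation.leibniz, Derivation.leibniz_pow]
    simp only [smul_eq_mul, nsmul_eq_mul]
    ring

theorem coeffD_eq_zero (D : Derivation ℤ F F) (p : F[X]) (h : ∀ n, D (p.coeff n) = 0) :
    coeffD D p = 0 := by
  ext n
  rw [coeff_coeffD, h, coeff_zero]

theorem der_eval' (D : Derivation ℤ F F) (p : F[X]) (h : ∀ n, D (p.coeff n) = 0) (x : F) :
    D (p.eval x) = (derivative p).eval x * D x := by
  rw [der_eval, coeffD_eq_zero D p h, eval_zero, zero_add]

theorem der_div' (D : Derivation ℤ F F) (a b : F) (hb : b ≠ 0) :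
    D (a / b) = (D a * b - a * D b) / b ^ 2 := by
  rw [div_eq_mul_inv, Derivation.leibniz, Derivation.leibniz_inv]
  simp only [smul_eq_mul]
  field_simp
  ring

theorem exists_coprime_repr' {k : Type} [Field k] (P0 Q0 : k[X]) (hQ0 : Q0 ≠ 0) :
    ∃ g P Q : k[X], g ≠ 0 ∧ P0 = g * P ∧ Q0 = g * Q ∧ IsCoprime P Q := by
  classical
  have hg : EuclideanDomain.gcd P0 Q0 ≠ 0 := fun h =>
    hQ0 (EuclideanDomain.gcd_eq_zero_iff.1 h).2
  obtain ⟨P, hP⟩ := EuclideanDomain.gcd_dvd_left P0 Q0
  obtain ⟨Q, hQ⟩ := EuclideanDomain.gcd_dvd_right P0 Q0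
  refine ⟨EuclideanDomain.gcd P0 Q0, P, Q, hg, hP, hQ, ?_⟩
  have h1 := EuclideanDomain.gcd_eq_gcd_ab P0 Q0
  refine ⟨EuclideanDomain.gcdA P0 Q0, EuclideanDomain.gcdB P0 Q0, ?_⟩
  apply mul_left_cancel₀ hg
  generalize EuclideanDomain.gcdA P0 Q0 = a at h1 ⊢
  generalize EuclideanDomain.gcdB P0 Q0 = b at h1 ⊢
  generalize EuclideanDomain.gcd P0 Q0 = g at h1 hP hQ ⊢
  rw [mul_one]
  calc g * (a * P + b * Q) = (g * P) * a + (g * Q) * b := by ring
    _ = P0 * a + Q0 * b := by rw [← hP, ← hQ]
    _ = g := h1.symm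

variable [CharZero F]

/-- lift of a polynomial with coefficients in a subfield -/
theorem exists_lift (k : Subfield F) (f : F[X]) (hf : ∀ n, f.coeff n ∈ k) :
    ∃ f' : k[X], f'.map (algebraMap k F) = f := by
  have h : f ∈ lifts (algebraMap k F) := by
    rw [lifts_iff_coeff_lifts]
    intro n
    exact ⟨⟨f.coeff n, hf n⟩, rfl⟩
  exact h

/-- a nonzero combination of the `X ^ i dX / Y` (`i < N`) is not exact -/
theorem exactness' (N : ℕ) (k : Subfield F) (D : Derivation ℤ F F) (hk : Kills D k) (X Y : F)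
    (f θ : F[X]) (g : F) (hfk : ∀ n, f.coeff n ∈ k) (hcop : IsCoprime f (derivative f))
    (hf : f.natDegree = N + 1) (hY : Y ≠ 0) (hXY : Y ^ 2 = f.eval X) (hX : X ∉ cl (k : Set F))
    (hDX : D X = Y) (hθk : ∀ n, θ.coeff n ∈ k) (hθ : θ.degree < N)
    (hg : g ∈ cl ((k : Set F) ∪ {X})) (hDg : D g = θ.eval X) : θ = 0 := by
  classical
  have hc := charZero_sub k
  have hXt : Transcendental k X := fun h => hX (mem_cl_iff.2 h)
  obtain ⟨f', hf'⟩ := exists_lift k f hfk
  obtain ⟨θ', hθ'⟩ := exists_lift k θ hθk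
  have hev : ∀ p : k[X], aeval X p = (p.map (algebraMap k F)).eval X := fun p => by
    rw [eval_map_algebraMap]
  let M : Subfield F := (IntermediateField.adjoin k {X}).toSubfield
  have hM : ∀ x : F, x ∈ M ↔ ∃ r s : k[X], x = aeval X r / aeval X s := fun x =>
    IntermediateField.mem_adjoin_simple_iff k x
  have hkM : ∀ x ∈ k, x ∈ M := fun x hx =>
    (IntermediateField.adjoin k {X}).algebraMap_mem ⟨x, hx⟩
  have hXM : X ∈ M := IntermediateField.mem_adjoin_simple_self k X
  set D' : Derivation ℤ F F := Y⁻¹ • D with hD'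
  have hD'a : ∀ x, D' x = Y⁻¹ * D x := fun x => rfl
  have hk' : Kills D' k := fun s hs => by rw [hD'a, hk s hs, mul_zero]
  have hD'X : D' X = 1 := by rw [hD'a, hDX, inv_mul_cancel₀ hY]
  have hDp : ∀ p : k[X], D' (aeval X p) = aeval X (derivative p) := fun p => by
    have h1 := (overM k D' hk').map_aeval p X
    rw [overM_apply, overM_apply, hD'X, smul_eq_mul, mul_one] at h1
    exact h1
  have haM : ∀ p : k[X], aeval X p ∈ M := fun p => (hM _).2 ⟨p, 1, by simp⟩
  have hstab : ∀ m ∈ M, D' m ∈ M := by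
    intro m hm
    obtain ⟨r, s, rfl⟩ := (hM m).1 hm
    by_cases hs : (aeval X s : F) = 0
    · rw [hs, div_zero, map_zero]
      exact M.zero_mem
    · rw [der_div' D' _ _ hs, hDp, hDp]
      exact M.div_mem (M.sub_mem (M.mul_mem (haM _) (haM _)) (M.mul_mem (haM _) (haM _)))
        (M.pow_mem (haM _) 2)
  have hDf : D (f.eval X) = (derivative f).eval X * Y := by
    rw [der_eval' D f (fun n => hk _ (hfk n)), hDX]
  have hDY : D Y = (derivative f).eval X / 2 := by
    rw [← hXY, Derivation.leibniz_pow] at hDf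
    simp only [smul_eq_mul, nsmul_eq_mul] at hDf
    push_cast at hDf
    have h2 : (2 : F) ≠ 0 := two_ne_zero
    rw [eq_div_iff h2]
    apply mul_right_cancel₀ hY
    linear_combination hDf
  have hf0 : f.eval X ≠ 0 := by
    rw [← hXY]
    exact pow_ne_zero 2 hY
  set ρ : F := (derivative f).eval X / (2 * f.eval X) with hρ
  have hn : ∀ n : ℕ, (n : F) ∈ M := fun n => natCast_mem M n
  have hfM : f.eval X ∈ M := by
    rw [← hf', ← hev]
    exact haM _
  have hdfM : (derivative f).eval X ∈ M := by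
    rw [← hf', derivative_map, ← hev]
    exact haM _
  have hθM : θ.eval X ∈ M := by
    rw [← hθ', ← hev]
    exact haM _
  have hρM : ρ ∈ M := M.div_mem hdfM (M.mul_mem (by exact_mod_cast hn 2) hfM)
  have hgM : IsAlgebraic M g := by
    rw [← mem_cl_iff]
    refine cl_mono ?_ hg
    intro x hx
    rcases hx with hx | hx
    · exact hkM x hx
    · rw [Set.mem_singleton_iff.1 hx]
      exact hXM
  have hYM : IsAlgebraic M Y := by
    rw [← mem_cl_iff]
    intro E hE
    have h1 : E (Y ^ 2) = 0 := by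
      rw [hXY]
      exact hE _ hfM
    rw [Derivation.leibniz_pow] at h1
    simp only [smul_eq_mul, nsmul_eq_mul] at h1
    have h2 : (2 : F) ≠ 0 := two_ne_zero
    simpa [h2, hY] using h1
  have hh : IsAlgebraic M (g * Y) := hgM.mul hYM
  have hDh : D' (g * Y) = θ.eval X + ρ * (g * Y) := by
    rw [Derivation.leibniz, hD'a, hD'a, hDY, hDg, hρ, ← hXY]
    simp only [smul_eq_mul]
    field_simp
    ring
  obtain ⟨b, hb, hDb⟩ := descend D' hstab (g * Y) (θ.eval X) ρ hh hθM hρM hDh
  obtain ⟨P0, Q0, hPQ0⟩ := (hM b).1 hb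
  obtain ⟨P, Q, hQ, hcop', hbPQ⟩ : ∃ P Q : k[X], Q ≠ 0 ∧ IsCoprime P Q ∧
      b = aeval X P / aeval X Q := by
    by_cases hQ0 : Q0 = 0
    · refine ⟨0, 1, one_ne_zero, isCoprime_zero_left.2 isUnit_one, ?_⟩
      rw [hPQ0, hQ0]
      simp
    · obtain ⟨c, P, Q, hc0, hP, hQ, hcop⟩ := exists_coprime_repr' P0 Q0 hQ0
      have h3 : (aeval X c : F) ≠ 0 := fun h => hc0 ((transcendental_iff.1 hXt) _ h)
      refine ⟨P, Q, ?_, hcop, ?_⟩
      · intro h
        rw [h, mul_zero] at hQ
        exact hQ0 hQ
      · rw [hPQ0, hP, hQ, map_mul, map_mul, mul_div_mul_left _ _ h3]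
  have hQX : (aeval X Q : F) ≠ 0 := fun h => hQ ((transcendental_iff.1 hXt) _ h)
  rw [hbPQ, der_div' D' _ _ hQX, hDp, hDp, hρ] at hDb
  have hinjk : Function.Injective (algebraMap k F) := (algebraMap k F).injective
  have hcopk : IsCoprime f' (derivative f') := by
    rw [← hf', derivative_map] at hcop
    exact (isCoprime_map (algebraMap k F)).1 hcop
  have hfk' : f'.natDegree = N + 1 := by
    rw [← hf', natDegree_map] at hf
    exact hf
  have hθk' : θ'.degree < N := by
    rw [← hθ', degree_map] at hθ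
    exact hθ
  have hid : 2 * f' * (derivative P * Q - P * derivative Q) =
      2 * f' * θ' * Q ^ 2 + derivative f' * P * Q := by
    have hinj := transcendental_iff_injective.1 hXt
    apply hinj
    have e1 : (aeval X f' : F) = f.eval X := by rw [hev, hf']
    have e3 : (aeval X (derivative f') : F) = (derivative f).eval X := by
      rw [hev, ← derivative_map, hf']
    have e4 : (aeval X θ' : F) = θ.eval X := by rw [hev, hθ']
    simp only [map_mul, map_sub, map_add, map_pow, e1, e3, e4]
    have e2 : (aeval X (2 : k[X]) : F) = 2 := map_ofNat _ 2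
    rw [e2]
    generalize (aeval X P : F) = p at hDb ⊢
    generalize (aeval X (derivative P) : F) = p' at hDb ⊢
    generalize (aeval X (derivative Q) : F) = q' at hDb ⊢
    generalize (aeval X Q : F) = q at hDb hQX ⊢
    generalize f.eval X = f0 at hDb hf0 ⊢
    generalize (derivative f).eval X = f1 at hDb ⊢
    generalize θ.eval X = t at hDb ⊢
    have h10 : p' * q - p * q' = (t + f1 / (2 * f0) * (p / q)) * q ^ 2 := by
      rw [← hDb]
      field_simp
    rw [h10]
    field_simp
  have h1 := pol_no_solution' N f' θ' P Q hcopk hfk' hθk' hQ hcop' hid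
  rw [← hθ', h1, Polynomial.map_zero]

end Pool.Agent.AXE
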