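import Mathlib
import Pool.Agent.AXE.HEx

/-!
# The Gauss-Manin connection of a hyperelliptic curve, points and logarithms
-/

set_option autoImplicit false
set_option linter.unusedSectionVars false

namespace Pool.Agent.AXE

open Polynomial

variable {F : Type} [Field F] [CharZero F]

/-- a hyperelliptic curve, a basis of periods, points and a logarithm of their sum -/
structure HDat (d : Derivation ℤ F F) (N : ℕ) (J P : Type) [Fintype J] [Fintype P] where
  f : F[X]
  A : Fin N → Fin N → F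
  ρ : Fin N → F[X]
  Φ : Fin N → J → F
  Ψ : J → Fin N → F
  X : P → F
  Y : P → F
  wt : P → ℤ
  x : Fin N → F
  hcop : IsCoprime f (derivative f)
  hf : f.natDegree = N + 1
  hgm : ∀ i, 2 * f * (derivative (ρ i) + ∑ j, C (A i j) * Polynomial.X ^ (j : ℕ)) =
    derivative f * ρ i - Polynomial.X ^ (i : ℕ) * coeffD d f
  hΨ : ∀ j i, d (Ψ j i) = -∑ l, Ψ j l * A l i
  hΨΦ : ∀ j, (∑ i, Ψ j i * Φ i j = 1) ∧ ∀ j', j ≠ j' → ∑ i, Ψ j i * Φ i j' = 0
  hY : ∀ p, Y p ≠ 0
  hXY : ∀ p, Y p ^ 2 = f.eval (X p)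
  hx : ∀ i, d (x i) = ∑ j, A i j * x j +
    ∑ p, (wt p : F) * ((X p ^ (i : ℕ) * d (X p) + (ρ i).eval (X p)) / Y p)

namespace HDat

variable {d : Derivation ℤ F F} {N : ℕ} {J P : Type} [Fintype J] [Fintype P] (E : HDat d N J P)

/-- the derivation `T` kills the coefficients -/
structure KC (T : Derivation ℤ F F) : Prop where
  hf : ∀ n, T (E.f.coeff n) = 0
  hA : ∀ i j, T (E.A i j) = 0
  hρ : ∀ i n, T ((E.ρ i).coeff n) = 0

/-- the logarithmic derivative of a point -/
def σ (T : Derivation ℤ F F) (p : P) : F := T (E.X p) / E.Y p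

theorem TX (T : Derivation ℤ F F) (p : P) : T (E.X p) = E.σ T p * E.Y p := by
  have := E.hY p
  unfold σ
  field_simp

theorem TY {T : Derivation ℤ F F} (hT : E.KC T) (p : P) :
    2 * T (E.Y p) = (derivative E.f).eval (E.X p) * E.σ T p := by
  have h1 := congrArg T (E.hXY p)
  rw [der_eval' T E.f hT.hf, Derivation.leibniz_pow, E.TX] at h1
  simp only [smul_eq_mul, nsmul_eq_mul] at h1
  push_cast at h1
  apply mul_right_cancel₀ (E.hY p)
  linear_combination h1

theorem dY (p : P) : 2 * E.Y p * d (E.Y p) = (derivative E.f).eval (E.X p) * d (E.X p)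
    + (coeffD d E.f).eval (E.X p) := by
  have h1 := congrArg d (E.hXY p)
  rw [der_eval d E.f, Derivation.leibniz_pow] at h1
  simp only [smul_eq_mul, nsmul_eq_mul] at h1
  push_cast at h1
  linear_combination h1

theorem TdX (T : Derivation ℤ F F) (p : P) :
    T (d (E.X p)) = d (E.σ T p) * E.Y p + E.σ T p * d (E.Y p) - E.σ ⁅d, T⁆ p * E.Y p := by
  have h2 := congrArg d (E.TX T p)
  rw [Derivation.leibniz] at h2
  simp only [smul_eq_mul] at h2
  rw [← E.TX ⁅d, T⁆ p, Derivation.commutator_apply]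
  linear_combination h2

theorem TR {T : Derivation ℤ F F} (hT : E.KC T) (p : P) (i : Fin N) :
    T ((E.X p ^ (i : ℕ) * d (E.X p) + (E.ρ i).eval (E.X p)) / E.Y p) =
      d (E.σ T p * E.X p ^ (i : ℕ)) - ∑ j, E.A i j * (E.σ T p * E.X p ^ (j : ℕ))
        - E.σ ⁅d, T⁆ p * E.X p ^ (i : ℕ) := by
  obtain ⟨q, hq1, hq2⟩ : ∃ q, (∀ D : Derivation ℤ F F, D (E.X p ^ (i : ℕ)) = q * D (E.X p)) ∧
      True := ⟨(i : ℕ) * E.X p ^ ((i : ℕ) - 1), fun D => by
        rw [Derivation.leibniz_pow]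
        simp only [smul_eq_mul, nsmul_eq_mul]
        ring, trivial⟩
  have hY := E.hY p
  rw [der_div' _ _ _ hY, map_add, Derivation.leibniz, Derivation.leibniz, hq1, hq1,
    der_eval' T (E.ρ i) (hT.hρ i), E.TdX, E.TX T]
  have hA := E.dY p
  have hB := E.TY hT p
  have hC := E.hXY p
  have hG := congrArg (fun r : F[X] => r.eval (E.X p)) (E.hgm i)
  simp only [eval_mul, eval_add, eval_sub, eval_finsetSum, eval_pow, eval_X, eval_C,
    eval_ofNat] at hG
  have hS : ∑ j, E.A i j * (E.σ T p * E.X p ^ (j : ℕ)) =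
      E.σ T p * ∑ j, E.A i j * E.X p ^ (j : ℕ) := by
    rw [Finset.mul_sum]
    exact Finset.sum_congr rfl (fun j _ => by ring)
  rw [hS]
  generalize ∑ j, E.A i j * E.X p ^ (j : ℕ) = S at hG ⊢
  generalize E.X p ^ (i : ℕ) = m at hG ⊢
  generalize (E.ρ i).eval (E.X p) = r at hG ⊢
  generalize (derivative (E.ρ i)).eval (E.X p) = r' at hG ⊢
  generalize (derivative E.f).eval (E.X p) = f' at hG hA hB ⊢
  generalize (coeffD d E.f).eval (E.X p) = fd at hG hA ⊢
  generalize E.f.eval (E.X p) = f0 at hG hC ⊢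
  generalize T (E.Y p) = TY at hB ⊢
  generalize E.σ ⁅d, T⁆ p = h
  generalize d (E.σ T p) = σ'
  generalize E.σ T p = σ at hB ⊢
  generalize d (E.Y p) = Yd at hA ⊢
  generalize d (E.X p) = Xd at hA ⊢
  generalize E.Y p = Y at *
  simp only [smul_eq_mul]
  rw [div_eq_iff (pow_ne_zero 2 hY)]
  linear_combination (m * σ / 2) * hA - ((m * Xd + r) / 2) * hB + (σ / 2) * hG
    + σ * (r' + S) * hC

/-- the defect of the logarithm -/
def B (T : Derivation ℤ F F) (i : Fin N) : F :=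
  T (E.x i) - ∑ p, (E.wt p : F) * (E.σ T p * E.X p ^ (i : ℕ))

theorem der_wt (T : Derivation ℤ F F) (n : ℤ) (z : F) : T ((n : F) * z) = (n : F) * T z := by
  rw [Derivation.leibniz, T.map_intCast]
  simp

theorem dB {T : Derivation ℤ F F} (hT : E.KC T) (i : Fin N) :
    d (E.B T i) = ∑ j, E.A i j * E.B T j + E.B ⁅d, T⁆ i := by
  have h1 := congrArg T (E.hx i)
  have h0 : ∀ p, T ((E.wt p : F) * ((E.X p ^ (i : ℕ) * d (E.X p) + (E.ρ i).eval (E.X p)) / E.Y p))
      = (E.wt p : F) * d (E.σ T p * E.X p ^ (i : ℕ)) -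
        (E.wt p : F) * ∑ j, E.A i j * (E.σ T p * E.X p ^ (j : ℕ)) -
        (E.wt p : F) * (E.σ ⁅d, T⁆ p * E.X p ^ (i : ℕ)) := fun p => by
    rw [der_wt, E.TR hT p i]
    ring
  rw [map_add, map_sum, map_sum, Finset.sum_congr rfl (fun p _ => h0 p)] at h1
  have h2 : ∀ j, T (E.A i j * E.x j) = E.A i j * T (E.x j) := fun j => by
    rw [Derivation.leibniz, hT.hA]
    simp only [smul_eq_mul]
    ring
  rw [Finset.sum_congr rfl (fun j _ => h2 j), Finset.sum_sub_distrib, Finset.sum_sub_distrib] at h1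
  unfold B
  rw [map_sub, map_sum, Derivation.commutator_apply,
    Finset.sum_congr rfl (fun p _ => der_wt d (E.wt p) (E.σ T p * E.X p ^ (i : ℕ)))]
  have h3 : ∑ j, E.A i j * (T (E.x j) - ∑ p, (E.wt p : F) * (E.σ T p * E.X p ^ (j : ℕ))) =
      ∑ j, E.A i j * T (E.x j) -
        ∑ p, (E.wt p : F) * ∑ j, E.A i j * (E.σ T p * E.X p ^ (j : ℕ)) := by
    simp only [mul_sub, Finset.mul_sum, Finset.sum_sub_distrib]
    congr 1
    rw [Finset.sum_comm]
    refine Finset.sum_congr rfl (fun p _ => Finset.sum_congr rfl (fun j _ => by ring))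
  rw [h3]
  linear_combination h1

/-- the defect of the logarithm in the basis of periods -/
def b (T : Derivation ℤ F F) (j : J) : F := ∑ i, E.Ψ j i * E.B T i

theorem db {T : Derivation ℤ F F} (hT : E.KC T) (j : J) : d (E.b T j) = E.b ⁅d, T⁆ j := by
  unfold b
  rw [map_sum]
  have h1 : ∀ i, d (E.Ψ j i * E.B T i) = E.Ψ j i * ∑ l, E.A i l * E.B T l +
      E.Ψ j i * E.B ⁅d, T⁆ i - E.B T i * ∑ l, E.Ψ j l * E.A l i := fun i => by
    rw [Derivation.leibniz, E.hΨ, E.dB hT]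
    simp only [smul_eq_mul]
    ring
  rw [Finset.sum_congr rfl (fun i _ => h1 i), Finset.sum_sub_distrib, Finset.sum_add_distrib]
  have h2 : ∑ i, E.Ψ j i * ∑ l, E.A i l * E.B T l = ∑ i, E.B T i * ∑ l, E.Ψ j l * E.A l i := by
    simp only [Finset.mul_sum]
    rw [Finset.sum_comm]
    refine Finset.sum_congr rfl (fun i _ => Finset.sum_congr rfl (fun l _ => by ring))
  rw [h2]
  ring

end HDat

end Pool.Agent.AXE
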