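import Mathlib
import Pool.Agent.AXE.HGM

/-!
# Logarithms of points of products of hyperelliptic Jacobians
-/

set_option autoImplicit false
set_option linter.unusedSectionVars false

namespace Pool.Agent.AXE

open Polynomial

variable {F : Type} [Field F] [CharZero F]

/-- a set of vectors stable under scalars and under the derivation contains a constant vector -/
theorem exists_const' (d : Derivation ℤ F F) {J : Type} [Fintype J] (S : Set (J → F))
    (hS : ∀ c ∈ S, ∀ a : F, (fun j => a * c j) ∈ S) (hD : ∀ c ∈ S, (fun j => d (c j)) ∈ S)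
    (hne : ∃ c ∈ S, c ≠ 0) : ∃ c ∈ S, c ≠ 0 ∧ ∀ j, d (c j) = 0 := by
  classical
  have key : ∀ n : ℕ, ∀ c ∈ S, c ≠ 0 → (Finset.univ.filter (fun j => c j ≠ 0)).card = n →
      ∃ c ∈ S, c ≠ 0 ∧ ∀ j, d (c j) = 0 := by
    intro n
    induction n using Nat.strong_induction_on with
    | _ n ih =>
      intro c hc hc0 hcard
      obtain ⟨j0, hj0⟩ : ∃ j, c j ≠ 0 := by
        by_contra h
        push Not at h
        exact hc0 (funext h)
      have hc1 := hS c hc (c j0)⁻¹
      set c1 : J → F := fun j => (c j0)⁻¹ * c j with hc1d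
      have hc1j : c1 j0 = 1 := inv_mul_cancel₀ hj0
      have hc10 : c1 ≠ 0 := fun h => by
        rw [h] at hc1j
        exact zero_ne_one hc1j
      by_cases hd : (fun j => d (c1 j)) = 0
      · exact ⟨c1, hc1, hc10, fun j => congrFun hd j⟩
      · refine ih _ ?_ (fun j => d (c1 j)) (hD c1 hc1) hd rfl
        rw [← hcard]
        apply Finset.card_lt_card
        rw [Finset.ssubset_iff_of_subset]
        · refine ⟨j0, Finset.mem_filter.2 ⟨Finset.mem_univ _, hj0⟩, fun h => ?_⟩
          apply (Finset.mem_filter.1 h).2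
          rw [hc1j]
          exact d.map_one_eq_zero
        · intro j hj
          refine Finset.mem_filter.2 ⟨Finset.mem_univ _, fun h => ?_⟩
          apply (Finset.mem_filter.1 hj).2
          change d ((c j0)⁻¹ * c j) = 0
          rw [h, mul_zero, map_zero]
  obtain ⟨c, hc, hc0⟩ := hne
  exact key _ c hc hc0 rfl

/-- derivations which kill `M` -/
def derM' (M : Subfield F) : Submodule F (Derivation ℤ F F) where
  carrier := {T | Kills T M}
  add_mem' := fun {a b} ha hb s hs => by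
    rw [Derivation.add_apply, ha s hs, hb s hs, add_zero]
  zero_mem' := fun s _ => rfl
  smul_mem' := fun c a ha s hs => by
    rw [Derivation.smul_apply, ha s hs, smul_zero]

theorem kills_lie' {d : Derivation ℤ F F} {M : Subfield F} (hM : ∀ m ∈ M, d m ∈ M)
    {T : Derivation ℤ F F} (hT : Kills T M) : Kills ⁅d, T⁆ M := fun s hs => by
  rw [Derivation.commutator_apply, hT s hs, map_zero, hT _ (hM s hs), sub_zero]

variable {d : Derivation ℤ F F} {ι : Type} [Fintype ι] {N : ι → ℕ} {J P : ι → Type}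
  [∀ i, Fintype (J i)] [∀ i, Fintype (P i)]

/-- the vector of defects -/
def psiH (E : ∀ i, HDat d (N i) (J i) (P i)) (T : Derivation ℤ F F) : (Σ i, J i) → F :=
  fun j => (E j.1).b T j.2

theorem HDat.b_add {N : ℕ} {J P : Type} [Fintype J] [Fintype P] (E : HDat d N J P)
    (T T' : Derivation ℤ F F) (j : J) : E.b (T + T') j = E.b T j + E.b T' j := by
  unfold HDat.b HDat.B HDat.σ
  rw [← Finset.sum_add_distrib]
  refine Finset.sum_congr rfl (fun i _ => ?_)
  rw [← mul_add]
  congr 1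
  have h1 : ∀ p, (E.wt p : F) * ((T + T') (E.X p) / E.Y p * E.X p ^ (i : ℕ)) =
      (E.wt p : F) * (T (E.X p) / E.Y p * E.X p ^ (i : ℕ)) +
      (E.wt p : F) * (T' (E.X p) / E.Y p * E.X p ^ (i : ℕ)) := fun p => by
    rw [Derivation.add_apply]
    ring
  rw [Finset.sum_congr rfl (fun p _ => h1 p), Finset.sum_add_distrib, Derivation.add_apply]
  ring

theorem HDat.b_smul {N : ℕ} {J P : Type} [Fintype J] [Fintype P] (E : HDat d N J P)
    (a : F) (T : Derivation ℤ F F) (j : J) : E.b (a • T) j = a * E.b T j := by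
  unfold HDat.b HDat.B HDat.σ
  rw [Finset.mul_sum]
  refine Finset.sum_congr rfl (fun i _ => ?_)
  have h1 : ∀ p, (E.wt p : F) * ((a • T) (E.X p) / E.Y p * E.X p ^ (i : ℕ)) =
      a * ((E.wt p : F) * (T (E.X p) / E.Y p * E.X p ^ (i : ℕ))) := fun p => by
    rw [Derivation.smul_apply, smul_eq_mul]
    ring
  rw [Finset.sum_congr rfl (fun p _ => h1 p), ← Finset.mul_sum, Derivation.smul_apply,
    smul_eq_mul]
  ring

/-- the vector of defects as a linear map -/
def psiHL (E : ∀ i, HDat d (N i) (J i) (P i)) : Derivation ℤ F F →ₗ[F] ((Σ i, J i) → F) where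
  toFun := psiH E
  map_add' := fun T T' => funext fun j => (E j.1).b_add T T' j.2
  map_smul' := fun a T => funext fun j => (E j.1).b_smul a T j.2

/-- the coefficients and the inverse period matrix lie in `M` -/
structure HDat.In {N : ℕ} {J P : Type} [Fintype J] [Fintype P] (E : HDat d N J P)
    (M : Subfield F) : Prop where
  f : ∀ n, E.f.coeff n ∈ M
  A : ∀ i j, E.A i j ∈ M
  ρ : ∀ i n, (E.ρ i).coeff n ∈ M
  Ψ : ∀ j i, E.Ψ j i ∈ M

theorem HDat.In.kc {N : ℕ} {J P : Type} [Fintype J] [Fintype P] {E : HDat d N J P}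
    {M : Subfield F} (h : E.In M) {T : Derivation ℤ F F} (hT : Kills T M) : E.KC T :=
  ⟨fun n => hT _ (h.f n), fun i j => hT _ (h.A i j), fun i n => hT _ (h.ρ i n)⟩

theorem exists_rel (E : ∀ i, HDat d (N i) (J i) (P i)) (M : Subfield F)
    (hM : ∀ m ∈ M, d m ∈ M) (hE : ∀ i, (E i).In M)
    (hV : (derM' M).map (psiHL E) ≠ ⊤) :
    ∃ c : (Σ i, J i) → F, c ≠ 0 ∧ (∀ j, d (c j) = 0) ∧
      ∀ T : Derivation ℤ F F, Kills T M → ∑ j, c j * psiH E T j = 0 := by
  classical
  obtain ⟨f, hf0, hf⟩ := Submodule.exists_le_ker_of_lt_top _ (lt_top_iff_ne_top.2 hV)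
  let S : Set ((Σ i, J i) → F) :=
    {c | ∀ T : Derivation ℤ F F, Kills T M → ∑ j, c j * psiH E T j = 0}
  have hne : ∃ c ∈ S, c ≠ 0 := by
    refine ⟨fun j => f (Pi.single j 1), fun T hT => ?_, fun h => hf0 ?_⟩
    · have h1 : f (psiH E T) = 0 := hf ⟨T, hT, rfl⟩
      have h2 : psiH E T = ∑ j, psiH E T j • (Pi.single j (1 : F) : (Σ i, J i) → F) := by
        funext j'
        rw [Finset.sum_apply]
        simp only [Pi.smul_apply, smul_eq_mul, Pi.single_apply]
        simp
      rw [h2, map_sum] at h1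
      rw [← h1]
      refine Finset.sum_congr rfl (fun j _ => ?_)
      rw [map_smul, smul_eq_mul, mul_comm]
    · refine LinearMap.pi_ext' (fun j => LinearMap.ext_ring ?_)
      exact congrFun h j
  have hS : ∀ c ∈ S, ∀ a : F, (fun j => a * c j) ∈ S := fun c hc a T hT => by
    have h1 := hc T hT
    have h2 : ∑ j, a * c j * psiH E T j = a * ∑ j, c j * psiH E T j := by
      rw [Finset.mul_sum]
      exact Finset.sum_congr rfl (fun j _ => by ring)
    rw [h2, h1, mul_zero]
  have hD : ∀ c ∈ S, (fun j => d (c j)) ∈ S := fun c hc T hT => by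
    have h1 := hc T hT
    have h2 := hc ⁅d, T⁆ (kills_lie' hM hT)
    have h3 := congrArg d h1
    rw [map_sum, map_zero] at h3
    have h4 : ∀ j, d (psiH E T j) = psiH E ⁅d, T⁆ j := fun j => (E j.1).db ((hE j.1).kc hT) j.2
    have h5 : ∑ j, d (c j * psiH E T j) =
        ∑ j, d (c j) * psiH E T j + ∑ j, c j * psiH E ⁅d, T⁆ j := by
      rw [← Finset.sum_add_distrib]
      refine Finset.sum_congr rfl (fun j _ => ?_)
      rw [Derivation.leibniz, h4]
      simp only [smul_eq_mul]
      ring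
    rw [h5, h2, add_zero] at h3
    exact h3
  obtain ⟨c, hcS, hc0, hcc⟩ := exists_const' d S hS hD hne
  exact ⟨c, hc0, hcc, hcS⟩

theorem le_of_top (E : ∀ i, HDat d (N i) (J i) (P i)) (M : Subfield F)
    (htop : (derM' M).map (psiHL E) = ⊤) (Z : Set F)
    (hZ : ∀ i, (∀ p, (E i).X p ∈ Z) ∧ ∀ l, (E i).x l ∈ Z) :
    ((Fintype.card (Σ i, J i) : ℕ) : Cardinal) ≤
      Algebra.trdeg M (IntermediateField.adjoin M Z) := by
  classical
  have hex : ∀ j : (Σ i, J i), ∃ T : Derivation ℤ F F, Kills T M ∧ psiH E T = Pi.single j 1 := by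
    intro j
    have h1 : (Pi.single j (1 : F) : (Σ i, J i) → F) ∈ (derM' M).map (psiHL E) := by
      rw [htop]
      exact Submodule.mem_top
    obtain ⟨T, hT, hTj⟩ := h1
    exact ⟨T, hT, hTj⟩
  choose T hT hTj using hex
  refine le_trdeg M Z T hT (fun l hl j => ?_)
  have h2 : psiH E (∑ j, l j • T j) = l := by
    have h3 := map_sum (psiHL E) (fun j => l j • T j) Finset.univ
    change psiH E (∑ j, l j • T j) = ∑ j, psiH E (l j • T j) at h3
    rw [h3]
    funext j'
    rw [Finset.sum_apply]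
    have h4 : ∀ j, psiH E (l j • T j) j' = l j * (Pi.single j (1 : F) : (Σ i, J i) → F) j' :=
      fun j => by
        have h5 : psiH E (l j • T j) = l j • psiH E (T j) := map_smul (psiHL E) (l j) (T j)
        rw [h5, hTj]
        rfl
    rw [Finset.sum_congr rfl (fun j _ => h4 j)]
    simp only [Pi.single_apply]
    simp
  have h4 : ∀ z ∈ Z, (∑ j, l j • T j) z = 0 := fun z hz => by
    rw [← hl z hz]
    have h2 := congrFun (map_sum (Derivation.coeFnAddMonoidHom (R := ℤ) (A := F) (M := F))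
      (fun a => l a • T a) Finset.univ) z
    rw [Finset.sum_apply] at h2
    exact h2
  have h5 : psiH E (∑ j, l j • T j) = 0 := by
    funext j
    change ∑ i, (E j.1).Ψ j.2 i * ((∑ j, l j • T j) ((E j.1).x i) -
      ∑ p, ((E j.1).wt p : F) *
        ((∑ j, l j • T j) ((E j.1).X p) / (E j.1).Y p * (E j.1).X p ^ (i : ℕ))) = 0
    refine Finset.sum_eq_zero (fun i _ => ?_)
    rw [h4 _ ((hZ j.1).2 i), Finset.sum_eq_zero (fun p _ => by
      rw [h4 _ ((hZ j.1).1 p), zero_div, zero_mul, mul_zero]), sub_zero, mul_zero]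
  rw [← h2, h5]
  rfl

/-- if each curve carries a point which is transcendental over the other ones, then the
derivations separate all directions -/
theorem map_top' (E : ∀ i, HDat d (N i) (J i) (P i)) (M : Subfield F)
    (hM : ∀ m ∈ M, d m ∈ M) (hC : ∀ a, d a = 0 → a ∈ M) (hE : ∀ i, (E i).In M)
    (hX : ∀ i, ∃ p, (E i).wt p ≠ 0 ∧ (E i).X p ∉ cl ((M : Set F) ∪
      {z | ∃ q : (Σ i, P i), q ≠ ⟨i, p⟩ ∧ z = (E q.1).X q.2})) :
    (derM' M).map (psiHL E) = ⊤ := by
  classical
  by_contra hV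
  obtain ⟨c, hc0, hcc, hcS⟩ := exists_rel E M hM hE hV
  have hcM : ∀ j, c j ∈ M := fun j => hC _ (hcc j)
  let γ : ∀ i, Fin (N i) → F := fun i l => ∑ j, c ⟨i, j⟩ * (E i).Ψ j l
  have hγM : ∀ i l, γ i l ∈ M := fun i l =>
    M.sum_mem (fun j _ => M.mul_mem (hcM _) ((hE i).Ψ j l))
  let g : F := ∑ i, ∑ l, γ i l * (E i).x l
  have hTg : ∀ T : Derivation ℤ F F, Kills T M →
      T g = ∑ i, ∑ l, γ i l * ∑ p, ((E i).wt p : F) * ((E i).σ T p * (E i).X p ^ (l : ℕ)) := by
    intro T hT
    have h1 := hcS T hT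
    rw [Fintype.sum_sigma] at h1
    have h2 : ∀ i, ∑ j, c ⟨i, j⟩ * psiH E T ⟨i, j⟩ =
        ∑ l, γ i l * (T ((E i).x l) -
          ∑ p, ((E i).wt p : F) * ((E i).σ T p * (E i).X p ^ (l : ℕ))) := fun i => by
      simp only [psiH, HDat.b, HDat.B, γ, Finset.mul_sum, Finset.sum_mul]
      rw [Finset.sum_comm]
      refine Finset.sum_congr rfl (fun l _ => Finset.sum_congr rfl (fun j _ => by ring))
    rw [Finset.sum_congr rfl (fun i _ => h2 i)] at h1
    have h3 : T g = ∑ i, ∑ l, γ i l * T ((E i).x l) := by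
      simp only [g, map_sum]
      refine Finset.sum_congr rfl (fun i _ => Finset.sum_congr rfl (fun l _ => ?_))
      rw [Derivation.leibniz, hT _ (hγM i l)]
      simp only [smul_eq_mul]
      ring
    rw [h3, ← sub_eq_zero, ← Finset.sum_sub_distrib, ← h1]
    refine Finset.sum_congr rfl (fun i _ => ?_)
    rw [← Finset.sum_sub_distrib]
    exact Finset.sum_congr rfl (fun l _ => by ring)
  obtain ⟨⟨i0, j0⟩, hj0⟩ : ∃ j, c j ≠ 0 := by
    by_contra h
    push Not at h
    exact hc0 (funext h)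
  obtain ⟨p0, hw0, hp0⟩ := hX i0
  set S0 : Set F := (M : Set F) ∪ {z | ∃ q : (Σ i, P i), q ≠ ⟨i0, p0⟩ ∧ z = (E q.1).X q.2}
    with hS0
  obtain ⟨T, hTS, hTX⟩ : ∃ T : Derivation ℤ F F, Kills T S0 ∧ T ((E i0).X p0) ≠ 0 := by
    by_contra h
    push Not at h
    exact hp0 h
  let k : Subfield F := cl S0
  have hTk : Kills T k := kills_cl hTS
  have hMk : ∀ m ∈ M, m ∈ k := fun m hm => subset_cl _ (Or.inl hm)
  have hXk : (E i0).X p0 ∉ cl (k : Set F) := fun h => hTX (h T hTk)
  have hY := (E i0).hY p0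
  set a : F := (E i0).Y p0 / T ((E i0).X p0) with ha
  let D : Derivation ℤ F F := a • T
  have hDk : Kills D k := fun s hs => by
    change a • T s = 0
    rw [hTk s hs, smul_zero]
  have hDM : Kills D M := fun m hm => hDk m (hMk m hm)
  have hDX : D ((E i0).X p0) = (E i0).Y p0 := by
    change a • T ((E i0).X p0) = _
    rw [ha, smul_eq_mul]
    field_simp
  have hw0' : ((E i0).wt p0 : F) ≠ 0 := by exact_mod_cast hw0
  let θ : F[X] := ∑ l : Fin (N i0), C (γ i0 l * ((E i0).wt p0 : F)) * Polynomial.X ^ (l : ℕ)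
  have hθc : ∀ n, θ.coeff n = if h : n < N i0 then γ i0 ⟨n, h⟩ * ((E i0).wt p0 : F) else 0 := by
    intro n
    simp only [θ, finsetSum_coeff, coeff_C_mul, coeff_X_pow]
    split_ifs with h
    · rw [Finset.sum_eq_single ⟨n, h⟩]
      · simp
      · intro l _ hl
        rw [if_neg, mul_zero]
        intro h'
        exact hl (Fin.ext h'.symm)
      · intro h'
        exact absurd (Finset.mem_univ _) h'
    · refine Finset.sum_eq_zero (fun l _ => ?_)
      rw [if_neg, mul_zero]
      intro h'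
      exact h (h' ▸ l.2)
  have hθk : ∀ n, θ.coeff n ∈ k := fun n => by
    rw [hθc]
    split_ifs with h
    · exact k.mul_mem (hMk _ (hγM _ _)) (intCast_mem k _)
    · exact k.zero_mem
  have hθdeg : θ.degree < N i0 := by
    rw [degree_lt_iff_coeff_zero]
    intro n hn
    rw [hθc, dif_neg (by omega)]
  have hgk : g ∈ cl ((k : Set F) ∪ {(E i0).X p0}) := by
    intro T' hT'
    have h1 : Kills T' M := fun m hm => hT' m (Or.inl (hMk m hm))
    rw [hTg T' h1]
    refine Finset.sum_eq_zero (fun i _ => Finset.sum_eq_zero (fun l _ => ?_))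
    rw [Finset.sum_eq_zero, mul_zero]
    intro p _
    have h2 : T' ((E i).X p) = 0 := by
      by_cases hi : (⟨i, p⟩ : Σ i, P i) = ⟨i0, p0⟩
      · have h3 : (E (⟨i, p⟩ : Σ i, P i).1).X (⟨i, p⟩ : Σ i, P i).2 = (E i0).X p0 := by rw [hi]
        have h4 : (E i).X p = (E i0).X p0 := h3
        rw [h4]
        exact hT' _ (Or.inr rfl)
      · exact hT' _ (Or.inl (subset_cl _ (Or.inr ⟨⟨i, p⟩, hi, rfl⟩)))
    unfold HDat.σ
    rw [h2, zero_div, zero_mul, mul_zero]
  have hDgv : D g = θ.eval ((E i0).X p0) := by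
    rw [hTg D hDM]
    have hσ : ∀ i p, (⟨i, p⟩ : Σ i, P i) ≠ ⟨i0, p0⟩ → (E i).σ D p = 0 := fun i p hip => by
      have h2 : D ((E i).X p) = 0 := hDk _ (subset_cl _ (Or.inr ⟨⟨i, p⟩, hip, rfl⟩))
      unfold HDat.σ
      rw [h2, zero_div]
    rw [Finset.sum_eq_single i0]
    · simp only [θ, eval_finsetSum, eval_mul, eval_C, eval_pow, eval_X]
      refine Finset.sum_congr rfl (fun l _ => ?_)
      rw [mul_assoc]
      congr 1
      rw [Finset.sum_eq_single p0]
      · unfold HDat.σ
        rw [hDX, div_self hY, one_mul]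
      · intro p _ hp
        rw [hσ i0 p (fun h => hp (by
          have := (Sigma.mk.inj_iff.1 h).2
          exact eq_of_heq this)), zero_mul, mul_zero]
      · intro h
        exact absurd (Finset.mem_univ p0) h
    · intro i _ hi
      refine Finset.sum_eq_zero (fun l _ => ?_)
      rw [Finset.sum_eq_zero (fun p _ => by
        rw [hσ i p (fun h => hi (Sigma.mk.inj_iff.1 h).1), zero_mul, mul_zero]), mul_zero]
    · intro h
      exact absurd (Finset.mem_univ i0) h
  have hθ0 := exactness' (N i0) k D hDk ((E i0).X p0) ((E i0).Y p0) (E i0).f θ g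
    (fun n => hMk _ ((hE i0).f n)) (E i0).hcop (E i0).hf hY ((E i0).hXY p0) hXk hDX hθk hθdeg
    hgk hDgv
  have hγ0 : ∀ l, γ i0 l = 0 := fun l => by
    have h1 := hθc l
    rw [hθ0, coeff_zero, dif_pos l.2] at h1
    exact (mul_eq_zero.1 h1.symm).resolve_right hw0'
  apply hj0
  have h1 : ∑ l, γ i0 l * (E i0).Φ l j0 = c ⟨i0, j0⟩ := by
    simp only [γ, Finset.sum_mul]
    rw [Finset.sum_comm, Finset.sum_eq_single j0]
    · have h2 := ((E i0).hΨΦ j0).1
      calc _ = c ⟨i0, j0⟩ * ∑ i, (E i0).Ψ j0 i * (E i0).Φ i j0 := by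
            rw [Finset.mul_sum]
            exact Finset.sum_congr rfl (fun l _ => by ring)
        _ = _ := by rw [h2, mul_one]
    · intro j _ hj
      have h2 := ((E i0).hΨΦ j).2 j0 hj
      calc _ = c ⟨i0, j⟩ * ∑ i, (E i0).Ψ j i * (E i0).Φ i j0 := by
            rw [Finset.mul_sum]
            exact Finset.sum_congr rfl (fun l _ => by ring)
        _ = _ := by rw [h2, mul_zero]
    · intro h
      exact absurd (Finset.mem_univ j0) h
  rw [← h1]
  exact Finset.sum_eq_zero (fun l _ => by rw [hγ0, zero_mul])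

end Pool.Agent.AXE
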