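import Mathlib
import Pool.Agent.AXE.HCore

/-!
# Definitions used in the statements, and the passage to the internal data
-/

set_option autoImplicit false
set_option linter.unusedSectionVars false

namespace Pool.Agent.AXE

open Polynomial

variable {F : Type} [Field F]

/-- `f` is a squarefree polynomial of degree `2g+1` over `K`, and `(A, ρ)` is the Gauss-Manin
connection of the hyperelliptic curve `Y² = f(X)` in the basis `X^i dX/Y`, `i < 2g`, of its first
de Rham cohomology: `∂(X^i dX/Y) = ∑_j A_ij X^j dX/Y + d(ρ_i(X)/Y)`. -/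
structure GaussManin (d : Derivation ℤ F F) (K : Subfield F) (g : ℕ) (f : F[X])
    (A : Matrix (Fin (2 * g)) (Fin (2 * g)) F) (ρ : Fin (2 * g) → F[X]) : Prop where
  coeff_mem : ∀ n, f.coeff n ∈ K
  natDegree : f.natDegree = 2 * g + 1
  squarefree : Squarefree f
  A_mem : ∀ i j, A i j ∈ K
  ρ_mem : ∀ i n, (ρ i).coeff n ∈ K
  eq : ∀ i, 2 * f * (derivative (ρ i) + ∑ j, C (A i j) * X ^ (j : ℕ)) =
    derivative f * ρ i - X ^ (i : ℕ) * coeffD d f

/-- `x` is a logarithm of the sum of the points `(X_p, Y_p)` with the integer weights `n_p`: the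
derivative of `x_i = ∑_p n_p ∫^(X_p, Y_p) X^i dX/Y` is the one given by the Gauss-Manin
connection. -/
def IsLog (d : Derivation ℤ F F) {g : ℕ} (A : Matrix (Fin (2 * g)) (Fin (2 * g)) F)
    (ρ : Fin (2 * g) → F[X]) {P : Type} [Fintype P] (n : P → ℤ) (X Y : P → F)
    (x : Fin (2 * g) → F) : Prop :=
  ∀ i, d (x i) = ∑ j, A i j * x j +
    ∑ p, (n p : F) * ((X p ^ (i : ℕ) * d (X p) + (ρ i).eval (X p)) / Y p)

theorem closure_stab {d : Derivation ℤ F F} {S : Set F}
    (h : ∀ s ∈ S, d s ∈ Subfield.closure S) : ∀ x ∈ Subfield.closure S,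
      d x ∈ Subfield.closure S := by
  intro x hx
  induction hx using Subfield.closure_induction with
  | mem x hx => exact h x hx
  | one => rw [d.map_one_eq_zero]; exact Subfield.zero_mem _
  | add x y hx hy h1 h2 => rw [map_add]; exact Subfield.add_mem _ h1 h2
  | neg x hx h1 => rw [map_neg]; exact Subfield.neg_mem _ h1
  | inv x hx h1 =>
    rw [Derivation.leibniz_inv, smul_eq_mul]
    exact Subfield.mul_mem _ (Subfield.neg_mem _ (Subfield.pow_mem _ (Subfield.inv_mem _ hx) 2)) h1
  | mul x y hx hy h1 h2 =>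
    rw [Derivation.leibniz, smul_eq_mul, smul_eq_mul]
    exact Subfield.add_mem _ (Subfield.mul_mem _ hx h2) (Subfield.mul_mem _ hy h1)

theorem map_mul_der {a b c : Type} [Fintype b] (d : Derivation ℤ F F) (M : Matrix a b F)
    (N : Matrix b c F) : (M * N).map d = M.map d * N + M * N.map d := by
  ext i j
  simp only [Matrix.map_apply, Matrix.mul_apply, Matrix.add_apply, map_sum,
    ← Finset.sum_add_distrib]
  refine Finset.sum_congr rfl (fun l _ => ?_)
  rw [Derivation.leibniz, smul_eq_mul, smul_eq_mul]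
  ring

theorem inv_der {a b : Type} [Fintype a] [Fintype b] [DecidableEq a] [DecidableEq b]
    (d : Derivation ℤ F F) (A : Matrix a a F) (Φ : Matrix a b F) (Ψ : Matrix b a F)
    (h1 : Ψ * Φ = 1) (h2 : Φ * Ψ = 1) (hΦ : Φ.map d = A * Φ) : Ψ.map d = -(Ψ * A) := by
  have h3 : (Ψ * Φ).map d = 0 := by
    rw [h1]
    ext i j
    rw [Matrix.map_apply, Matrix.one_apply, Matrix.zero_apply]
    split_ifs
    · exact d.map_one_eq_zero
    · exact map_zero d
  rw [map_mul_der, hΦ] at h3
  have h4 : (Ψ.map d * Φ + Ψ * (A * Φ)) * Ψ = 0 := by rw [h3, Matrix.zero_mul]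
  rw [Matrix.add_mul, Matrix.mul_assoc, h2, Matrix.mul_one, ← Matrix.mul_assoc Ψ A Φ,
    Matrix.mul_assoc (Ψ * A) Φ Ψ, h2, Matrix.mul_one] at h4
  exact eq_neg_of_add_eq_zero_left h4

variable [CharZero F]

/-- a transcendental element is not in the closure -/
theorem notMem_cl {M : Subfield F} {S : Set F} {x : F}
    (hx : Transcendental (IntermediateField.adjoin M S) x) : x ∉ cl ((M : Set F) ∪ S) := by
  intro h
  have hc := charZero_sub M
  have hc' : CharZero (IntermediateField.adjoin M S) :=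
    charZero_of_injective_algebraMap (algebraMap M (IntermediateField.adjoin M S)).injective
  obtain ⟨δ, hδ⟩ := Pool.Agent.SMS.exists_der (k := IntermediateField.adjoin M S) (L := F) x hx
  have h1 := h (δ.restrictScalars ℤ) (fun s hs => by
    have h2 : s ∈ IntermediateField.adjoin M S := by
      rcases hs with hs | hs
      · exact (IntermediateField.adjoin M S).algebraMap_mem ⟨s, hs⟩
      · exact IntermediateField.subset_adjoin M S hs
    exact δ.map_algebraMap ⟨s, h2⟩)
  exact one_ne_zero (hδ.symm.trans h1)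

/-- the internal data -/
def mkDat {d : Derivation ℤ F F} {K : Subfield F} {g : ℕ} {f : F[X]}
    {A : Matrix (Fin (2 * g)) (Fin (2 * g)) F} {ρ : Fin (2 * g) → F[X]}
    (h : GaussManin d K g f A ρ) {J : Type} [Fintype J] [DecidableEq J]
    (Φ : Matrix (Fin (2 * g)) J F) (Ψ : Matrix J (Fin (2 * g)) F)
    (h1 : Ψ * Φ = 1) (h2 : Φ * Ψ = 1) (hΦ : Φ.map d = A * Φ) {P : Type} [Fintype P]
    (n : P → ℤ) (X Y : P → F) (hY : ∀ p, Y p ≠ 0) (hXY : ∀ p, Y p ^ 2 = f.eval (X p))
    (x : Fin (2 * g) → F) (hx : IsLog d A ρ n X Y x) : HDat d (2 * g) J P where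
  f := f
  A := A
  ρ := ρ
  Φ := Φ
  Ψ := Ψ
  X := X
  Y := Y
  wt := n
  x := x
  hcop := PerfectField.separable_iff_squarefree.2 h.squarefree
  hf := h.natDegree
  hgm := h.eq
  hΨ := fun j i => by
    have h3 := congrFun (congrFun (inv_der d A Φ Ψ h1 h2 hΦ) j) i
    rw [Matrix.map_apply] at h3
    rw [h3]
    rfl
  hΨΦ := fun j => by
    constructor
    · have h3 := congrFun (congrFun h1 j) j
      rw [Matrix.one_apply_eq] at h3
      exact h3
    · intro j' hj
      have h3 := congrFun (congrFun h1 j) j'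
      rw [Matrix.one_apply_ne hj] at h3
      exact h3
  hY := hY
  hXY := hXY
  hx := hx

end Pool.Agent.AXE
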