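import Mathlib
import Pool.Agent.AXE.HDefs

/-!
# Transcendence degree and the dimension of spaces of derivations
-/

set_option autoImplicit false
set_option linter.unusedSectionVars false

namespace Pool.Agent.AXE

variable {F : Type} [Field F] [CharZero F]

theorem sum_smul_apply {α : Type} [Fintype α] (l : α → F) (D : α → Derivation ℤ F F) (z : F) :
    (∑ a, l a • D a) z = ∑ a, l a * D a z := by
  have h2 := congrFun (map_sum (Derivation.coeFnAddMonoidHom (R := ℤ) (A := F) (M := F))
    (fun a => l a • D a) Finset.univ) z
  rw [Finset.sum_apply] at h2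
  exact h2

theorem adjoin_le_cl' {M : Subfield F} {Z : Set F} {z : F}
    (hz : z ∈ IntermediateField.adjoin M Z) : z ∈ cl ((M : Set F) ∪ Z) := by
  induction hz using IntermediateField.adjoin_induction with
  | mem x hx => exact subset_cl _ (Or.inr hx)
  | algebraMap x => exact subset_cl _ (Or.inl x.2)
  | add x y _ _ h1 h2 => exact add_mem h1 h2
  | inv x _ h1 => exact inv_mem h1
  | mul x y _ _ h1 h2 => exact mul_mem h1 h2

/-- the transcendence degree is at most the dimension of the space of derivations -/
theorem trdeg_le_finrank {V : Type} [AddCommGroup V] [Module F V] [FiniteDimensional F V]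
    (M : Subfield F) (Z : Set F) (L : Derivation ℤ F F →ₗ[F] V) (W : Submodule F V)
    (hL : ∀ D, Kills D M → L D ∈ W) (hinj : ∀ D, Kills D M → L D = 0 → Kills D Z) :
    Algebra.trdeg M (IntermediateField.adjoin M Z) ≤ (Module.finrank F W : Cardinal) := by
  classical
  unfold Algebra.trdeg
  refine ciSup_le' (fun s => ?_)
  refine Cardinal.card_le_of (fun t => ?_)
  by_contra hlt
  rw [not_le] at hlt
  -- the algebraically independent family
  let y : t → F := fun i => ((i.1.1 : IntermediateField.adjoin M Z) : F)
  have hy : AlgebraicIndependent M y := by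
    have h2 : AlgebraicIndependent M (fun i : s.1 => (i.1 : IntermediateField.adjoin M Z)) := s.2
    have h3 := h2.comp (fun i : t => i.1) Subtype.val_injective
    exact h3.map' (f := (IntermediateField.adjoin M Z).val) Subtype.val_injective
  have hex : ∀ j : t, ∃ T : Derivation ℤ F F, Kills T M ∧
      ∀ i, T (y i) = (Pi.single j (1 : F) : t → F) i := fun j => exists_der_sub M y hy _
  choose T hT hTy using hex
  have hnot : ¬ LinearIndependent F (fun j : t => (⟨L (T j), hL _ (hT j)⟩ : W)) := by
    intro hli
    have h2 := hli.fintype_card_le_finrank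
    rw [Fintype.card_coe] at h2
    omega
  rw [Fintype.not_linearIndependent_iff] at hnot
  obtain ⟨l, hl, j0, hj0⟩ := hnot
  apply hj0
  have hk : Kills (∑ j, l j • T j) M := fun m hm => by
    rw [sum_smul_apply]
    exact Finset.sum_eq_zero (fun j _ => by rw [hT j m hm, mul_zero])
  have hL0 : L (∑ j, l j • T j) = 0 := by
    rw [map_sum]
    have h2 := congrArg (fun w : W => (w : V)) hl
    simp only [Submodule.coe_sum, Submodule.coe_smul, Submodule.coe_zero] at h2
    rw [← h2]
    exact Finset.sum_congr rfl (fun j _ => map_smul L (l j) (T j))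
  have hZ := hinj _ hk hL0
  have h3 : (∑ j, l j • T j) (y j0) = 0 := by
    have h4 : y j0 ∈ cl ((M : Set F) ∪ Z) := adjoin_le_cl' (j0.1.1 : IntermediateField.adjoin M Z).2
    exact h4 _ (fun s hs => hs.elim (hk s) (hZ s))
  rw [sum_smul_apply] at h3
  rw [← h3, Finset.sum_eq_single j0]
  · rw [hTy, Pi.single_eq_same, mul_one]
  · intro j _ hj
    rw [hTy, Pi.single_eq_of_ne (Ne.symm hj), mul_zero]
  · intro h
    exact absurd (Finset.mem_univ j0) h

end Pool.Agent.AXE
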