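import Mathlib

/-!
# A derivation of a discretely valued field which is bounded and logarithmic on a subfield over
which the field is algebraic is logarithmic
-/

set_option autoImplicit false
set_option linter.unusedSectionVars false

namespace Pool.Agent.AXE

open WithZero Polynomial

variable {L : Type} [Field L] [CharZero L]

/-- the iterated relation -/
theorem iter_rel (v : Valuation L ℤᵐ⁰) (δ : Derivation ℤ L L) (hQ : ∀ q : ℚ, v (q : L) ≤ 1)
    (a : L) (ha : 1 < v a) (hmax : ∀ y, v (δ y) ≤ v a * v y) (n : ℕ) (t : ℕ → L) (m : ℤᵐ⁰)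
    (hm : 0 < m) (ht : ∀ i, v (t i) ≤ m)
    (hδ : ∀ i, v (δ (t i) - (i : L) * a * t i) ≤ v (t i))
    (hrel : ∑ i ∈ Finset.range n, t i = 0) (k : ℕ) :
    ∃ s : L, ∑ i ∈ Finset.range n, (i : L) ^ k * t i + s = 0 ∧ v s < m := by
  have ha0 : a ≠ 0 := by
    intro h
    rw [h, map_zero] at ha
    exact not_lt_of_ge zero_le_one ha
  have hva : 0 < v a := lt_trans zero_lt_one ha
  induction k with
  | zero =>
    refine ⟨0, ?_, by rw [map_zero]; exact hm⟩
    rw [add_zero, ← hrel]
    exact Finset.sum_congr rfl (fun i _ => by rw [pow_zero, one_mul])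
  | succ k ih =>
    obtain ⟨s, hs, hsm⟩ := ih
    refine ⟨∑ i ∈ Finset.range n, (i : L) ^ k * ((δ (t i) - (i : L) * a * t i) / a) + δ s / a,
      ?_, ?_⟩
    · have h1 := congrArg δ hs
      rw [map_add, map_sum, map_zero] at h1
      have h2 : ∀ i : ℕ, δ ((i : L) ^ k * t i) = (i : L) ^ k * δ (t i) := fun i => by
        have h3 : δ ((i : L) ^ k) = 0 := by
          have : ((i ^ k : ℕ) : L) = (i : L) ^ k := by push_cast; rfl
          rw [← this]
          exact δ.map_natCast _
        rw [Derivation.leibniz, h3, smul_zero, add_zero, smul_eq_mul]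
      rw [Finset.sum_congr rfl (fun i _ => h2 i)] at h1
      rw [← add_assoc, ← Finset.sum_add_distrib]
      have h3 : ∀ i : ℕ, (i : L) ^ (k + 1) * t i + (i : L) ^ k * ((δ (t i) - (i : L) * a * t i) / a) =
          (i : L) ^ k * δ (t i) / a := fun i => by
        field_simp
        ring
      rw [Finset.sum_congr rfl (fun i _ => h3 i), ← Finset.sum_div, ← add_div, h1, zero_div]
    · apply Valuation.map_add_lt
      · apply Valuation.map_sum_lt _ hm.ne'
        intro i _
        rw [map_mul, map_div₀]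
        have h1 : v ((i : L) ^ k) ≤ 1 := by
          have : ((((i : ℚ) ^ k : ℚ)) : L) = (i : L) ^ k := by push_cast; rfl
          rw [← this]
          exact hQ _
        have h2 : v (δ (t i) - (i : L) * a * t i) / v a < m := by
          rw [div_lt_iff₀ hva]
          calc v (δ (t i) - (i : L) * a * t i) ≤ v (t i) := hδ i
            _ ≤ m := ht i
            _ = m * 1 := (mul_one m).symm
            _ < m * v a := by
              rw [mul_lt_mul_iff_right₀ hm]
              exact ha
        calc v ((i : L) ^ k) * (v (δ (t i) - (i : L) * a * t i) / v a) ≤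
            1 * (v (δ (t i) - (i : L) * a * t i) / v a) := mul_le_mul_left h1 _
          _ < m := by rw [one_mul]; exact h2
      · rw [map_div₀, div_lt_iff₀ hva]
        calc v (δ s) ≤ v a * v s := hmax s
          _ < v a * m := by
            rw [mul_lt_mul_iff_right₀ hva]
            exact hsm
          _ = m * v a := mul_comm _ _

/-- the relation gives arbitrary polynomial weights -/
theorem pol_rel (v : Valuation L ℤᵐ⁰) (hQ : ∀ q : ℚ, v (q : L) ≤ 1) (n : ℕ) (t : ℕ → L)
    (m : ℤᵐ⁰)
    (h : ∀ k, v (∑ i ∈ Finset.range n, (i : L) ^ k * t i) < m) (p : ℚ[X]) :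
    v (∑ i ∈ Finset.range n, ((p.eval (i : ℚ) : ℚ) : L) * t i) < m := by
  induction p using Polynomial.induction_on' with
  | add p q hp hq =>
    have h1 : ∑ i ∈ Finset.range n, (((p + q).eval (i : ℚ) : ℚ) : L) * t i =
        ∑ i ∈ Finset.range n, ((p.eval (i : ℚ) : ℚ) : L) * t i +
        ∑ i ∈ Finset.range n, ((q.eval (i : ℚ) : ℚ) : L) * t i := by
      rw [← Finset.sum_add_distrib]
      refine Finset.sum_congr rfl (fun i _ => ?_)
      rw [eval_add]
      push_cast
      ring
    rw [h1]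
    exact Valuation.map_add_lt v hp hq
  | monomial k c =>
    have h1 : ∑ i ∈ Finset.range n, (((monomial k c).eval (i : ℚ) : ℚ) : L) * t i =
        (c : L) * ∑ i ∈ Finset.range n, (i : L) ^ k * t i := by
      rw [Finset.mul_sum]
      refine Finset.sum_congr rfl (fun i _ => ?_)
      rw [eval_monomial]
      push_cast
      ring
    rw [h1, map_mul]
    calc v (c : L) * v (∑ i ∈ Finset.range n, (i : L) ^ k * t i) ≤
        1 * v (∑ i ∈ Finset.range n, (i : L) ^ k * t i) := mul_le_mul_left (hQ c) _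
      _ < m := by rw [one_mul]; exact h k

theorem log_stable (v : Valuation L ℤᵐ⁰) (δ : Derivation ℤ L L) (K0 : Subfield L)
    (hK0 : ∀ a ∈ K0, v (δ a) ≤ v a) (halg : ∀ z : L, IsAlgebraic K0 z)
    (hQ : ∀ q : ℚ, v (q : L) ≤ 1) (C : ℤᵐ⁰) (hC : ∀ z, v (δ z) ≤ C * v z) (z : L) :
    v (δ z) ≤ v z := by
  classical
  by_contra hz
  rw [not_le] at hz
  -- the set of orders
  let S : Set ℤ := {n | ∃ z : L, z ≠ 0 ∧ δ z ≠ 0 ∧ v (δ z / z) = exp n}
  have hval : ∀ z : L, z ≠ 0 → δ z ≠ 0 → ∃ n ∈ S, v (δ z / z) = exp n := by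
    intro z hz0 hδz
    have h1 : v (δ z / z) ≠ 0 := by
      rw [Valuation.ne_zero_iff]
      exact div_ne_zero hδz hz0
    exact ⟨log (v (δ z / z)), ⟨z, hz0, hδz, (exp_log h1).symm⟩, (exp_log h1).symm⟩
  have hz0 : z ≠ 0 := by
    intro h
    rw [h, map_zero δ] at hz
    exact lt_irrefl _ hz
  have hδz0 : δ z ≠ 0 := by
    intro h
    rw [h, map_zero] at hz
    exact not_lt_of_ge zero_le hz
  have hvz : ∀ z : L, z ≠ 0 → 0 < v z := fun z hz => by
    rw [zero_lt_iff, Valuation.ne_zero_iff]
    exact hz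
  have hC0 : C ≠ 0 := by
    intro h
    have h1 := hC z
    rw [h, zero_mul] at h1
    exact not_lt_of_ge h1 (hvz _ hδz0)
  have hbdd : ∀ n ∈ S, n ≤ log C := by
    rintro n ⟨y, hy0, hδy, hy⟩
    have h1 : v (δ y / y) ≤ C := by
      rw [map_div₀, div_le_iff₀ (hvz y hy0)]
      exact hC y
    rw [hy] at h1
    rw [← exp_le_exp (G := ℤ), exp_log hC0]
    exact h1
  obtain ⟨nz, hnz, hnzv⟩ := hval z hz0 hδz0
  obtain ⟨n0, hn0, hmax0⟩ := Int.exists_greatest_of_bdd (P := fun n => n ∈ S) ⟨log C, hbdd⟩ ⟨nz, hnz⟩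
  obtain ⟨z0, hz00, hδz00, hz0v⟩ := hn0
  set a := δ z0 / z0 with ha
  have ha1 : 1 < v a := by
    have h1 : 1 < v (δ z / z) := by
      rw [map_div₀, lt_div_iff₀ (hvz z hz0), one_mul]
      exact hz
    have h2 : v (δ z / z) ≤ v a := by
      rw [hnzv, hz0v, exp_le_exp]
      exact hmax0 nz hnz
    exact lt_of_lt_of_le h1 h2
  have hmax : ∀ y, v (δ y) ≤ v a * v y := by
    intro y
    by_cases hy0 : y = 0
    · rw [hy0, map_zero, map_zero, mul_zero]
    by_cases hδy : δ y = 0
    · rw [hδy, map_zero]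
      exact zero_le
    obtain ⟨n, hn, hnv⟩ := hval y hy0 hδy
    have h1 : v (δ y / y) ≤ v a := by
      rw [hnv, hz0v, exp_le_exp]
      exact hmax0 n hn
    rw [map_div₀, div_le_iff₀ (hvz y hy0)] at h1
    exact h1
  -- the algebraic relation
  obtain ⟨p, hp0, hp⟩ := halg z0
  let t : ℕ → L := fun i => (p.coeff i : L) * z0 ^ i
  have hsum : ∑ i ∈ Finset.range (p.natDegree + 1), t i = 0 := by
    rw [aeval_eq_sum_range] at hp
    rw [← hp]
    exact Finset.sum_congr rfl (fun i _ => rfl)
  obtain ⟨i1, hi1, hi1max⟩ := Finset.exists_max_image (Finset.range (p.natDegree + 1))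
    (fun i => v (t i)) ⟨p.natDegree, Finset.mem_range.2 (Nat.lt_succ_self _)⟩
  have htn : t p.natDegree ≠ 0 := by
    refine mul_ne_zero ?_ (pow_ne_zero _ hz00)
    have h1 : p.leadingCoeff ≠ 0 := leadingCoeff_ne_zero.2 hp0
    intro h2
    exact h1 (Subtype.ext h2)
  have hm : 0 < v (t i1) := lt_of_lt_of_le (hvz _ htn)
    (hi1max _ (Finset.mem_range.2 (Nat.lt_succ_self _)))
  have htm : ∀ i, v (t i) ≤ v (t i1) := by
    intro i
    by_cases hi : i ∈ Finset.range (p.natDegree + 1)
    · exact hi1max i hi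
    · have h1 : p.coeff i = 0 := coeff_eq_zero_of_natDegree_lt (by
        rw [Finset.mem_range, not_lt] at hi
        omega)
      have h2 : t i = 0 := by
        simp only [t, h1]
        simp
      rw [h2, map_zero]
      exact zero_le
  have hδt : ∀ i : ℕ, v (δ (t i) - (i : L) * a * t i) ≤ v (t i) := by
    intro i
    have h1 : δ (t i) - (i : L) * a * t i = δ (p.coeff i : L) * z0 ^ i := by
      simp only [t, ha]
      rw [Derivation.leibniz, Derivation.leibniz_pow]
      simp only [smul_eq_mul, nsmul_eq_mul]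
      cases i with
      | zero => simp
      | succ i =>
        push_cast
        field_simp
        ring
    rw [h1, map_mul, map_mul]
    exact mul_le_mul_left (hK0 _ (p.coeff i).2) _
  have h1 : ∀ k, v (∑ i ∈ Finset.range (p.natDegree + 1), (i : L) ^ k * t i) < v (t i1) := by
    intro k
    obtain ⟨s, hs, hsm⟩ := iter_rel v δ hQ a ha1 hmax (p.natDegree + 1) t (v (t i1)) hm htm hδt
      hsum k
    have h2 : ∑ i ∈ Finset.range (p.natDegree + 1), (i : L) ^ k * t i = -s :=
      eq_neg_of_add_eq_zero_left hs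
    rw [h2, Valuation.map_neg]
    exact hsm
  have h2 := pol_rel v hQ (p.natDegree + 1) t (v (t i1)) h1
    (Lagrange.basis (Finset.range (p.natDegree + 1)) (fun i : ℕ => (i : ℚ)) i1)
  rw [Finset.sum_eq_single i1] at h2
  · rw [Lagrange.eval_basis_self (fun i _ j _ h => by exact_mod_cast h) hi1] at h2
    rw [Rat.cast_one, one_mul] at h2
    exact lt_irrefl _ h2
  · intro i hi hne
    rw [Lagrange.eval_basis_of_ne (Ne.symm hne) hi, Rat.cast_zero, zero_mul]
  · intro h
    exact absurd hi1 h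

end Pool.Agent.AXE
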