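import Mathlib

/-!
# A discrete valuation of a function field with a pole at a given element
-/

set_option autoImplicit false
set_option linter.unusedSectionVars false

namespace Pool.Agent.AXE

open WithZero Polynomial IsDedekindDomain

variable {κ L : Type} [Field κ] [CharZero κ] [Field L] [Algebra κ L] [Algebra κ[X] L]
  [IsScalarTower κ κ[X] L] [FaithfulSMul κ[X] L]

/-- the value of the derivation on polynomials -/
theorem der_pol (δ : Derivation ℤ L L) (hκ : ∀ a : κ, δ (algebraMap κ L a) = 0)
    (hw : δ (algebraMap κ[X] L X) = -algebraMap κ[X] L X) (p : κ[X]) :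
    δ (algebraMap κ[X] L p) = -algebraMap κ[X] L (X * derivative p) := by
  induction p using Polynomial.induction_on' with
  | add p q hp hq =>
    rw [map_add, map_add, hp, hq, derivative_add, mul_add, map_add, neg_add]
  | monomial n a =>
    rw [← C_mul_X_pow_eq_monomial, map_mul, map_pow, Derivation.leibniz, Derivation.leibniz_pow, hw]
    have h1 : algebraMap κ[X] L (C a) = algebraMap κ L a := by
      rw [IsScalarTower.algebraMap_apply κ κ[X] L]
      rfl
    rw [h1, hκ, smul_zero, add_zero, derivative_C_mul, derivative_X_pow, map_mul, map_mul, h1,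
      map_mul, map_pow]
    simp only [smul_eq_mul, nsmul_eq_mul]
    cases n with
    | zero => simp
    | succ n =>
      have h5 : algebraMap κ[X] L (C ((n + 1 : ℕ) : κ)) = ((n + 1 : ℕ) : L) := by
        rw [C_eq_natCast]
        exact map_natCast _ _
      rw [Nat.add_sub_cancel, h5]
      ring

theorem exists_val (K : Type) [Field K] [CharZero K] [Algebra κ[X] K] [IsFractionRing κ[X] K]
    [Algebra K L] [IsScalarTower κ[X] K L] [FiniteDimensional K L] (δ : Derivation ℤ L L) (hκ : ∀ a : κ, δ (algebraMap κ L a) = 0)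
    (hw : δ (algebraMap κ[X] L X) = -algebraMap κ[X] L X) :
    ∃ v : Valuation L ℤᵐ⁰, (∀ a : κ, a ≠ 0 → v (algebraMap κ L a) = 1) ∧
      v (algebraMap κ[X] L X) < 1 ∧ ∃ C : ℤᵐ⁰, ∀ z, v (δ z) ≤ C * v z := by
  classical
  set B := integralClosure κ[X] L with hB
  have hfin : Module.Finite κ[X] B :=
    IsIntegralClosure.finite κ[X] K L B
  have hded : IsDedekindDomain B := integralClosure.isDedekindDomain κ[X] K L
  have hfrac : IsFractionRing B L :=
    integralClosure.isFractionRing_of_finite_extension K L
  have hinjL : Function.Injective (algebraMap κ[X] L) := FaithfulSMul.algebraMap_injective _ _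
  have hinj : Function.Injective (algebraMap κ[X] B) := by
    rw [IsScalarTower.algebraMap_eq κ[X] B L] at hinjL
    rw [RingHom.coe_comp] at hinjL
    exact Function.Injective.of_comp hinjL
  -- a common denominator
  obtain ⟨c, hc0, hc⟩ : ∃ c : B, c ≠ 0 ∧ ∀ y : B, ∃ y' : B, (c : L) * δ (y : L) = (y' : L) := by
    obtain ⟨s, hs⟩ := hfin.fg_top
    have hden : ∀ y : B, ∃ c : B, c ≠ 0 ∧ ∃ y' : B, (c : L) * δ (y : L) = (y' : L) := by
      intro y
      obtain ⟨a, b, hb, hab⟩ := IsFractionRing.div_surjective (A := B) (δ (y : L))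
      refine ⟨b, nonZeroDivisors.ne_zero hb, a, ?_⟩
      have hb0 : (algebraMap B L b) ≠ 0 := by
        intro h
        exact nonZeroDivisors.ne_zero hb ((IsFractionRing.injective B L) (by rw [h, map_zero]))
      rw [← hab]
      change algebraMap B L b * (algebraMap B L a / algebraMap B L b) = algebraMap B L a
      field_simp
    choose c hc0 hcy using hden
    refine ⟨∏ y ∈ s, c y, Finset.prod_ne_zero_iff.2 (fun y _ => hc0 y), ?_⟩
    let G : Submodule κ[X] B :=
      { carrier := {y | ∃ y' : B, ((∏ y ∈ s, c y : B) : L) * δ (y : L) = (y' : L)}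
        add_mem' := by
          rintro x y ⟨x', hx⟩ ⟨y', hy⟩
          refine ⟨x' + y', ?_⟩
          push_cast at hx hy ⊢
          rw [map_add, mul_add, hx, hy]
        zero_mem' := ⟨0, by push_cast; rw [map_zero, mul_zero]⟩
        smul_mem' := by
          rintro p y ⟨y', hy⟩
          refine ⟨p • y' - (X * derivative p) • ((∏ y ∈ s, c y) * y), ?_⟩
          have e1 : ((p • y : B) : L) = algebraMap κ[X] L p * (y : L) := by
            rw [← Algebra.smul_def]
            rfl
          have e2 : ((p • y' - (X * derivative p) • ((∏ y ∈ s, c y) * y) : B) : L) =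
              algebraMap κ[X] L p * (y' : L) -
              algebraMap κ[X] L (X * derivative p) * (((∏ y ∈ s, c y : B) : L) * (y : L)) := by
            rw [← Algebra.smul_def, ← Algebra.smul_def]
            rfl
          rw [e1, e2, ← hy, Derivation.leibniz, der_pol δ hκ hw]
          simp only [smul_eq_mul]
          ring }
    have hG : G = ⊤ := by
      rw [← top_le_iff, ← hs, Submodule.span_le]
      intro y hy
      refine ⟨(∏ z ∈ s.erase y, c z) * Classical.choose (hcy y), ?_⟩
      have h1 := Classical.choose_spec (hcy y)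
      rw [← Finset.mul_prod_erase s c hy]
      push_cast
      rw [← h1]
      ring
    intro y
    have h1 : y ∈ G := by
      rw [hG]
      exact Submodule.mem_top
    exact h1
  -- the prime
  have hprime : (Ideal.span {(X : κ[X])}).IsPrime := by
    rw [Ideal.span_singleton_prime X_ne_zero]
    exact prime_X
  have hmax : (Ideal.span {(X : κ[X])}).IsMaximal := by
    refine Ring.DimensionLEOne.maximalOfPrime ?_ hprime
    rw [Ne, Ideal.span_singleton_eq_bot]
    exact X_ne_zero
  have hint : Algebra.IsIntegral κ[X] B := inferInstance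
  obtain ⟨Q, hQ, hQX⟩ := Ideal.exists_ideal_over_maximal_of_isIntegral (S := B)
    (Ideal.span {(X : κ[X])}) (by
      rw [(RingHom.injective_iff_ker_eq_bot _).1 hinj]
      exact bot_le)
  have hwQ : algebraMap κ[X] B X ∈ Q := by
    have h1 : (X : κ[X]) ∈ Q.comap (algebraMap κ[X] B) := by
      rw [hQX]
      exact Ideal.mem_span_singleton_self _
    exact h1
  have hw0 : algebraMap κ[X] B X ≠ 0 := by
    intro h
    exact X_ne_zero (hinj (by rw [h, map_zero]))
  let P : HeightOneSpectrum B := ⟨Q, hQ.isPrime, fun h => hw0 (by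
    rw [h] at hwQ
    exact hwQ)⟩
  let v : Valuation L ℤᵐ⁰ := P.valuation L
  have hvB : ∀ y : B, v (y : L) ≤ 1 := fun y => P.valuation_le_one (K := L) y
  have hvQ : ∀ y : B, v (y : L) < 1 ↔ y ∈ Q := fun y => P.valuation_lt_one_iff_mem (K := L) y
  have hvw : v (algebraMap κ[X] L X) < 1 := by
    have h1 := (hvQ (algebraMap κ[X] B X)).2 hwQ
    exact h1
  have hvκ : ∀ a : κ, a ≠ 0 → v (algebraMap κ L a) = 1 := by
    have h1 : ∀ a : κ, v (algebraMap κ L a) ≤ 1 := fun a => by
      have h2 := hvB (algebraMap κ[X] B (C a))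
      have h3 : ((algebraMap κ[X] B (C a) : B) : L) = algebraMap κ L a := by
        have h4 : ((algebraMap κ[X] B (C a) : B) : L) = algebraMap κ[X] L (C a) := rfl
        rw [h4, IsScalarTower.algebraMap_apply κ κ[X] L]
        rfl
      rw [h3] at h2
      exact h2
    intro a ha
    apply le_antisymm (h1 a)
    have h2 := h1 a⁻¹
    rw [map_inv₀, map_inv₀] at h2
    have h3 : 0 < v (algebraMap κ L a) := by
      rw [zero_lt_iff, Valuation.ne_zero_iff]
      exact (_root_.map_ne_zero _).2 ha
    rwa [inv_le_one₀ h3] at h2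
  refine ⟨v, hvκ, hvw, ?_⟩
  obtain ⟨π, hπ⟩ := P.valuation_exists_uniformizer L
  have hπ0 : π ≠ 0 := by
    intro h
    rw [h, map_zero] at hπ
    exact exp_ne_zero hπ.symm
  have hcL : (c : L) ≠ 0 := by
    intro h
    exact hc0 (Subtype.ext h)
  have hvpos : ∀ z : L, z ≠ 0 → 0 < v z := fun z hz => by
    rw [zero_lt_iff, Valuation.ne_zero_iff]
    exact hz
  -- bound on the ring
  have hbd : ∀ y : B, v (δ (y : L)) ≤ (v (c : L))⁻¹ := fun y => by
    obtain ⟨y', hy'⟩ := hc y
    have h1 := hvB y'
    rw [← hy', map_mul] at h1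
    rw [← one_div, le_div_iff₀ (hvpos _ hcL), mul_comm]
    exact h1
  -- bound on units
  have hbu : ∀ u : L, v u = 1 → v (δ u) ≤ (v (c : L))⁻¹ := by
    intro u hu
    obtain ⟨n, e, hne⟩ := P.exists_primeCompl_mul_eq_of_integer u hu.le
    have he1 : v (e.1 : L) = 1 := by
      apply le_antisymm (hvB e.1)
      by_contra h
      rw [not_le] at h
      exact e.2 ((hvQ e.1).1 h)
    have hn1 : v (n : L) = 1 := by
      have h1 : v (n : L) = v (u * (e.1 : L)) := by
        rw [show (n : L) = u * (e.1 : L) from hne.symm]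
      rw [h1, map_mul, hu, he1, one_mul]
    have he0 : (e.1 : L) ≠ 0 := by
      intro h
      rw [h, map_zero] at he1
      exact zero_ne_one he1
    have hue : u * (e.1 : L) = (n : L) := hne
    have h1 := congrArg δ hue
    rw [Derivation.leibniz] at h1
    simp only [smul_eq_mul] at h1
    have h2 : (e.1 : L) * δ u = δ (n : L) - u * δ (e.1 : L) := by
      linear_combination h1
    have h3 : v ((e.1 : L) * δ u) ≤ (v (c : L))⁻¹ := by
      rw [h2]
      refine Valuation.map_sub_le v (hbd n) ?_
      rw [map_mul, hu, one_mul]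
      exact hbd e.1
    rw [map_mul, he1, one_mul] at h3
    exact h3
  refine ⟨max (v (δ π / π)) (v (c : L))⁻¹, fun z => ?_⟩
  by_cases hz : z = 0
  · rw [hz, map_zero, map_zero, mul_zero]
  have hvz : v z ≠ 0 := (hvpos z hz).ne'
  set k : ℤ := -log (v z) with hk
  set u : L := z / π ^ k with hu
  have hπk : π ^ k ≠ 0 := zpow_ne_zero _ hπ0
  have hvu : v u = 1 := by
    rw [hu, map_div₀, map_zpow₀]
    have h1 : v π = exp (-1 : ℤ) := hπ
    rw [h1, ← exp_zsmul, hk]
    have h2 : (-log (v z)) • (-1 : ℤ) = log (v z) := by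
      rw [smul_eq_mul]
      ring
    rw [h2, exp_log hvz, div_self hvz]
  have hu0 : u ≠ 0 := by
    intro h
    rw [h, map_zero] at hvu
    exact zero_ne_one hvu
  have hzu : z = u * π ^ k := by
    rw [hu]
    field_simp
  have hδ : δ z / z = δ u / u + (k : L) * (δ π / π) := by
    have h1 : δ (π ^ k) = (k : L) * π ^ k * (δ π / π) := by
      rw [Derivation.leibniz_zpow, zpow_sub_one₀ hπ0]
      simp only [smul_eq_mul, zsmul_eq_mul]
      field_simp
    have h2 : δ z = u * δ (π ^ k) + π ^ k * δ u := by
      rw [hzu, Derivation.leibniz]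
      simp only [smul_eq_mul]
    rw [h2, h1, hzu]
    field_simp
    ring
  have h1 : v (δ z / z) ≤ max (v (δ π / π)) (v (c : L))⁻¹ := by
    rw [hδ, max_comm]
    refine (v.map_add _ _).trans (max_le_max ?_ ?_)
    · rw [map_div₀, hvu, div_one]
      exact hbu u hvu
    · rw [map_mul]
      have h2 : v (k : L) ≤ 1 := by
        have h3 := hvB (k : B)
        push_cast at h3
        exact h3
      calc v (k : L) * v (δ π / π) ≤ 1 * v (δ π / π) := mul_le_mul_left h2 _
        _ = v (δ π / π) := one_mul _
  rw [map_div₀, div_le_iff₀ (hvpos z hz)] at h1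
  exact h1

end Pool.Agent.AXE
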