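import Mathlib
import Pool.Agent.AXE.HVal1
import Pool.Agent.AXE.HVal2

/-!
# Estimates for the valuation
-/

set_option autoImplicit false
set_option linter.unusedSectionVars false

namespace Pool.Agent.AXE

open WithZero Polynomial

variable {κ L : Type} [Field κ] [CharZero κ] [Field L] [CharZero L] [Algebra κ L]

theorem val_pol_le (v : Valuation L ℤᵐ⁰) (hκ : ∀ a : κ, a ≠ 0 → v (algebraMap κ L a) = 1)
    (x : L) (hx : v x ≤ 1) (p : κ[X]) : v (aeval x p) ≤ 1 := by
  rw [aeval_eq_sum_range]
  refine Valuation.map_sum_le v (fun i _ => ?_)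
  rw [Algebra.smul_def, map_mul, map_pow]
  have h1 : v (algebraMap κ L (p.coeff i)) ≤ 1 := by
    by_cases h : p.coeff i = 0
    · rw [h, map_zero, map_zero]
      exact zero_le
    · exact (hκ _ h).le
  calc v (algebraMap κ L (p.coeff i)) * v x ^ i ≤ 1 * 1 :=
        mul_le_mul' h1 (pow_le_one' hx i)
    _ = 1 := one_mul 1

theorem val_pol_eq (v : Valuation L ℤᵐ⁰) (hκ : ∀ a : κ, a ≠ 0 → v (algebraMap κ L a) = 1)
    (x : L) (hx : 1 < v x) (p : κ[X]) (hp : p ≠ 0) : v (aeval x p) = v x ^ p.natDegree := by
  have : v.IsTrivialOn κ := ⟨hκ⟩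
  exact valuation_aeval_eq_valuation_X_pow_natDegree_of_one_lt_valuation_X x hx hp

/-- the terms of the differential are integral -/
theorem term_le (v : Valuation L ℤᵐ⁰) (hκ : ∀ a : κ, a ≠ 0 → v (algebraMap κ L a) = 1)
    (δ : Derivation ℤ L L) (hδκ : ∀ a : κ, δ (algebraMap κ L a) = 0) (hlog : ∀ z, v (δ z) ≤ v z)
    (f : κ[X]) (hcop : IsCoprime f (derivative f)) (g : ℕ) (hdeg : f.natDegree = 2 * g + 1)
    (x y : L) (hy : y ≠ 0) (hxy : y ^ 2 = aeval x f) (i : ℕ) (hi : i < g) :
    v (δ x / y * x ^ i) ≤ 1 := by
  have hvpos : ∀ z : L, z ≠ 0 → 0 < v z := fun z hz => by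
    rw [zero_lt_iff, Valuation.ne_zero_iff]
    exact hz
  have hv2 : v (2 : L) = 1 := by
    have h1 := hκ 2 two_ne_zero
    rw [map_ofNat] at h1
    exact h1
  have hδf : 2 * y * δ y = aeval x (derivative f) * δ x := by
    have h1 := congrArg δ hxy
    have h2 : δ (aeval x f) = aeval x (derivative f) * δ x := by
      have h3 : ∀ p : κ[X], δ (aeval x p) = aeval x (derivative p) * δ x := fun p => by
        induction p using Polynomial.induction_on' with
        | add p q hp hq => rw [map_add, map_add, hp, hq, derivative_add, map_add, add_mul]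
        | monomial n a =>
          rw [aeval_monomial, derivative_monomial, aeval_monomial, Derivation.leibniz, hδκ,
            Derivation.leibniz_pow, smul_zero, add_zero, map_mul, map_natCast]
          simp only [smul_eq_mul, nsmul_eq_mul]
          ring
      exact h3 f
    rw [h2, Derivation.leibniz_pow] at h1
    simp only [smul_eq_mul, nsmul_eq_mul] at h1
    push_cast at h1
    linear_combination h1
  rcases le_or_gt (v x) 1 with hx | hx
  · -- `x` integral
    have hvf : v (aeval x f) ≤ 1 := val_pol_le v hκ x hx f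
    have hvy : v y ≤ 1 := by
      rw [← hxy, map_pow] at hvf
      exact (pow_le_one_iff (by norm_num)).1 hvf
    have hvx' : v (δ x) ≤ 1 := (hlog x).trans hx
    have hmain : v (δ x / y) ≤ 1 := by
      rcases eq_or_lt_of_le hvy with h1 | h1
      · rw [map_div₀, h1, div_one]
        exact hvx'
      · -- `f'(x)` is a unit
        have hvf1 : v (aeval x f) < 1 := by
          rw [← hxy, map_pow]
          exact pow_lt_one' h1 (by norm_num)
        obtain ⟨U, V, hUV⟩ := hcop
        have h2 := congrArg (fun p : κ[X] => aeval x p) hUV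
        simp only [map_add, map_mul, map_one] at h2
        have h3 : v (aeval x V * aeval x (derivative f)) = 1 := by
          have h4 : aeval x V * aeval x (derivative f) = 1 - aeval x U * aeval x f := by
            linear_combination h2
          rw [h4]
          rw [Valuation.map_sub_eq_of_lt_left, map_one]
          rw [map_one, map_mul]
          calc v (aeval x U) * v (aeval x f) ≤ 1 * v (aeval x f) :=
                mul_le_mul_left (val_pol_le v hκ x hx U) _
            _ < 1 := by rw [one_mul]; exact hvf1
        have h5 : v (aeval x (derivative f)) = 1 := by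
          apply le_antisymm (val_pol_le v hκ x hx _)
          rw [map_mul] at h3
          calc (1 : ℤᵐ⁰) = v (aeval x V) * v (aeval x (derivative f)) := h3.symm
            _ ≤ 1 * v (aeval x (derivative f)) := mul_le_mul_left (val_pol_le v hκ x hx V) _
            _ = v (aeval x (derivative f)) := one_mul _
        have h6 : v (aeval x (derivative f)) * v (δ x / y) = v (δ y) := by
          rw [← map_mul]
          have h7 : aeval x (derivative f) * (δ x / y) = 2 * δ y := by
            field_simp
            linear_combination -hδf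
          rw [h7, map_mul, hv2, one_mul]
        rw [h5, one_mul] at h6
        rw [h6]
        exact (hlog y).trans hvy
    rw [map_mul, map_pow]
    calc v (δ x / y) * v x ^ i ≤ 1 * 1 := mul_le_mul' hmain (pow_le_one' hx i)
      _ = 1 := one_mul 1
  · -- `x` has a pole
    have hf0 : f ≠ 0 := by
      intro h
      rw [h, natDegree_zero] at hdeg
      omega
    have hvf : v (aeval x f) = v x ^ (2 * g + 1) := by
      rw [val_pol_eq v hκ x hx f hf0, hdeg]
    have hx0 : 0 < v x := lt_trans zero_lt_one hx
    have hy2 : v y ^ 2 = v x ^ (2 * g + 1) := by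
      rw [← map_pow, hxy, hvf]
    have h1 : v (δ x / y * x ^ i) ^ 2 ≤ 1 := by
      rw [map_mul, map_div₀, map_pow, mul_pow, div_pow, hy2, ← pow_mul]
      have h2 : v (δ x) ^ 2 / v x ^ (2 * g + 1) * v x ^ (i * 2) ≤
          v x ^ 2 / v x ^ (2 * g + 1) * v x ^ (i * 2) := by
        apply mul_le_mul_left
        rw [div_eq_mul_inv, div_eq_mul_inv]
        exact mul_le_mul_left (pow_le_pow_left' (hlog x) 2) _
      refine h2.trans ?_
      rw [div_mul_eq_mul_div, ← pow_add, div_le_iff₀ (pow_pos hx0 _), one_mul]
      exact pow_le_pow_right₀ hx.le (by omega)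
    exact (pow_le_one_iff (by norm_num)).1 h1

end Pool.Agent.AXE
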