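import Mathlib
import Pool.Agent.AXE.HVal3

/-!
# A holomorphic differential with a transcendental primitive: the valuation argument
-/

set_option autoImplicit false
set_option linter.unusedSectionVars false

namespace Pool.Agent.AXE

open WithZero Polynomial

variable {κ L : Type} [Field κ] [CharZero κ] [Field L] [CharZero L] [Algebra κ L]
  [Algebra κ[X] L] [IsScalarTower κ κ[X] L] [FaithfulSMul κ[X] L]

theorem algebraMap_C_eq (a : κ) : algebraMap κ[X] L (C a) = algebraMap κ L a := by
  rw [IsScalarTower.algebraMap_apply κ κ[X] L]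
  rfl

theorem val_alg_le (v : Valuation L ℤᵐ⁰) (hκ : ∀ a : κ, a ≠ 0 → v (algebraMap κ L a) = 1)
    (hX : v (algebraMap κ[X] L X) < 1) (p : κ[X]) : v (algebraMap κ[X] L p) ≤ 1 := by
  have h1 : algebraMap κ[X] L p = aeval (algebraMap κ[X] L X) p := by
    have h2 := aeval_algebraMap_apply L (X : κ[X]) p
    rw [aeval_X_left_apply] at h2
    exact h2.symm
  rw [h1]
  exact val_pol_le v hκ _ hX.le p

theorem val_der_pol (v : Valuation L ℤᵐ⁰) (hκ : ∀ a : κ, a ≠ 0 → v (algebraMap κ L a) = 1)
    (hX : v (algebraMap κ[X] L X) < 1) (n : ℕ) (p : κ[X]) (hp : p.natDegree < n) :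
    v (algebraMap κ[X] L (X * derivative p)) ≤ v (algebraMap κ[X] L p) := by
  induction n generalizing p with
  | zero => omega
  | succ n ih =>
    by_cases h0 : p.coeff 0 = 0
    · obtain ⟨q, rfl⟩ := X_dvd_iff.2 h0
      by_cases hq : q = 0
      · rw [hq]
        simp
      have hd : q.natDegree < n := by
        rw [natDegree_X_mul hq] at hp
        omega
      have h1 : (X : κ[X]) * derivative (X * q) = X * q + X * (X * derivative q) := by
        rw [derivative_mul, derivative_X]
        ring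
      rw [h1, map_add]
      refine Valuation.map_add_le v le_rfl ?_
      rw [map_mul (algebraMap κ[X] L) X (X * derivative q), map_mul (algebraMap κ[X] L) X q,
        map_mul v, map_mul v]
      exact mul_le_mul_right (ih q hd) _
    · have h1 : v (algebraMap κ[X] L p) = 1 := by
        have h2 : p = C (p.coeff 0) + X * p.divX := by
          rw [add_comm, X_mul_divX_add]
        have h3 : algebraMap κ[X] L p = algebraMap κ L (p.coeff 0) +
            algebraMap κ[X] L (X * p.divX) := by
          conv_lhs => rw [h2]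
          rw [map_add, algebraMap_C_eq]
        rw [h3, Valuation.map_add_eq_of_lt_left, hκ _ h0]
        rw [hκ _ h0, map_mul, map_mul]
        calc v (algebraMap κ[X] L X) * v (algebraMap κ[X] L p.divX) ≤
            v (algebraMap κ[X] L X) * 1 := mul_le_mul_right (val_alg_le v hκ hX _) _
          _ < 1 := by rw [mul_one]; exact hX
      rw [h1]
      exact val_alg_le v hκ hX _

theorem val_der_frac (v : Valuation L ℤᵐ⁰) (hκ : ∀ a : κ, a ≠ 0 → v (algebraMap κ L a) = 1)
    (hX : v (algebraMap κ[X] L X) < 1) (K : Type) [Field K] [Algebra κ[X] K]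
    [IsFractionRing κ[X] K] [Algebra K L] [IsScalarTower κ[X] K L] (δ : Derivation ℤ L L)
    (hδκ : ∀ a : κ, δ (algebraMap κ L a) = 0)
    (hw : δ (algebraMap κ[X] L X) = -algebraMap κ[X] L X) (a : K) :
    v (δ (algebraMap K L a)) ≤ v (algebraMap K L a) := by
  obtain ⟨p, q, hq, rfl⟩ := IsFractionRing.div_surjective (A := κ[X]) a
  have hq0 : q ≠ 0 := nonZeroDivisors.ne_zero hq
  have hq1 : algebraMap κ[X] L q ≠ 0 := by
    intro h
    apply hq0
    exact FaithfulSMul.algebraMap_injective κ[X] L (by rw [h, map_zero])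
  have hδ : ∀ r : κ[X], v (δ (algebraMap κ[X] L r)) ≤ v (algebraMap κ[X] L r) := fun r => by
    rw [der_pol δ hδκ hw, Valuation.map_neg]
    exact val_der_pol v hκ hX _ r (Nat.lt_succ_self _)
  have hvq : 0 < v (algebraMap κ[X] L q) := by
    rw [zero_lt_iff, Valuation.ne_zero_iff]
    exact hq1
  rw [map_div₀, ← IsScalarTower.algebraMap_apply κ[X] K L, ← IsScalarTower.algebraMap_apply κ[X] K L]
  set P := algebraMap κ[X] L p
  set Q := algebraMap κ[X] L q
  have h1 : δ (P / Q) = (δ P * Q - P * δ Q) / Q ^ 2 := by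
    rw [div_eq_mul_inv, Derivation.leibniz, Derivation.leibniz_inv]
    simp only [smul_eq_mul]
    field_simp
    ring
  rw [h1, map_div₀, map_div₀, map_pow, div_le_div_iff₀ (pow_pos hvq 2) hvq]
  have h2 : v (δ P * Q - P * δ Q) ≤ v P * v Q := by
    refine Valuation.map_sub_le v ?_ ?_
    · rw [map_mul]
      exact mul_le_mul_left (hδ p) _
    · rw [map_mul]
      exact mul_le_mul_right (hδ q) _
  calc v (δ P * Q - P * δ Q) * v Q ≤ v P * v Q * v Q := mul_le_mul_left h2 _
    _ = v P * v Q ^ 2 := by rw [mul_assoc, pow_two]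

theorem hol_core (K : Type) [Field K] [CharZero K] [Algebra κ[X] K]
    [IsFractionRing κ[X] K] [Algebra K L] [IsScalarTower κ[X] K L] [FiniteDimensional K L]
    (δ : Derivation ℤ L L) (hδκ : ∀ a : κ, δ (algebraMap κ L a) = 0)
    (hw : δ (algebraMap κ[X] L X) = -algebraMap κ[X] L X)
    (f : κ[X]) (hcop : IsCoprime f (derivative f)) (g : ℕ) (hdeg : f.natDegree = 2 * g + 1)
    {P : Type} [Fintype P] (x y : P → L) (hy : ∀ p, y p ≠ 0) (hxy : ∀ p, y p ^ 2 = aeval (x p) f)
    (n : P → ℤ) (i : ℕ) (hi : i < g)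
    (hsum : (algebraMap κ[X] L X)⁻¹ = ∑ p, (n p : L) * (δ (x p) / y p * x p ^ i)) : False := by
  obtain ⟨v, hκ, hX, C, hC⟩ := exists_val K δ hδκ hw
  have hQ : ∀ q : ℚ, v (q : L) ≤ 1 := by
    intro q
    by_cases hq : q = 0
    · rw [hq, Rat.cast_zero, map_zero]
      exact zero_le
    · have h1 : (q : L) = algebraMap κ L (q : κ) := (map_ratCast (algebraMap κ L) q).symm
      rw [h1, hκ]
      exact Rat.cast_ne_zero.2 hq
  have hK0 : ∀ a ∈ (algebraMap K L).fieldRange, v (δ a) ≤ v a := by
    rintro _ ⟨a, rfl⟩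
    exact val_der_frac v hκ hX K δ hδκ hw a
  have halg : ∀ z : L, IsAlgebraic (algebraMap K L).fieldRange z := by
    intro z
    have h1 : IsAlgebraic K z := Algebra.IsAlgebraic.isAlgebraic z
    exact h1.ringHom_of_comp_eq (f := (algebraMap K L).rangeRestrictField)
      (g := RingHom.id L) (RingHom.injective _) rfl
  have hlog := log_stable v δ _ hK0 halg hQ C hC
  have hterm : v ((algebraMap κ[X] L X)⁻¹) ≤ 1 := by
    rw [hsum]
    refine Valuation.map_sum_le v (fun p _ => ?_)
    rw [map_mul]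
    have h1 := term_le v hκ δ hδκ hlog f hcop g hdeg (x p) (y p) (hy p) (hxy p) i hi
    have h2 : v (n p : L) ≤ 1 := by
      have h3 := hQ (n p : ℚ)
      rw [Rat.cast_intCast] at h3
      exact h3
    calc v (n p : L) * v (δ (x p) / y p * x p ^ i) ≤ 1 * 1 := mul_le_mul' h2 h1
      _ = 1 := one_mul 1
  have hX0 : algebraMap κ[X] L X ≠ 0 := by
    intro h
    exact X_ne_zero (FaithfulSMul.algebraMap_injective κ[X] L (by rw [h, map_zero]))
  have hX1 : 0 < v (algebraMap κ[X] L X) := by
    rw [zero_lt_iff, Valuation.ne_zero_iff]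
    exact hX0
  rw [map_inv₀, inv_le_one₀ hX1] at hterm
  exact not_lt_of_ge hterm hX

end Pool.Agent.AXE
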