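import Mathlib
import Pool.Agent.AXE.HHol0
import Pool.Agent.AXE.HEx

/-!
# A holomorphic differential has no transcendental primitive over its own curve
-/

set_option autoImplicit false
set_option linter.unusedSectionVars false

namespace Pool.Agent.AXE

open Polynomial

variable {F : Type} [Field F]

theorem eval_mem_sub {M N : Subfield F} (h : M ≤ N) (p : M[X]) {z : F} (hz : z ∈ N) :
    aeval z p ∈ N := by
  rw [aeval_eq_sum_range]
  refine N.sum_mem (fun i _ => ?_)
  rw [Algebra.smul_def]
  exact N.mul_mem (h (p.coeff i).2) (N.pow_mem hz i)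

variable [CharZero F]

/-- a derivation which maps `M` to itself maps an algebraic element `z` of `N ≥ M` to `N` -/
theorem stab_alg {M N : Subfield F} (h : M ≤ N) (T : Derivation ℤ F F) (hT : ∀ m ∈ M, T m ∈ M)
    {z : F} (hz : z ∈ N) (ha : IsAlgebraic M z) : T z ∈ N := by
  have hc := charZero_sub M
  have h1 : aeval z (minpoly M z) = 0 := minpoly.aeval M z
  have h2 := der_aeval T hT (minpoly M z) z
  rw [h1, map_zero] at h2
  have h3 : (minpoly M z).Separable := (minpoly.irreducible ha.isIntegral).separable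
  have h4 : aeval z (derivative (minpoly M z)) ≠ 0 := h3.aeval_derivative_ne_zero h1
  have h5 : T z = -(aeval z (mapC (restr M T hT) (minpoly M z))) /
      aeval z (derivative (minpoly M z)) := by
    field_simp
    linear_combination -h2
  rw [h5]
  exact N.div_mem (N.neg_mem (eval_mem_sub h _ hz)) (eval_mem_sub h _ hz)

theorem cl_sqrt {S : Set F} (f : F[X]) (hf : ∀ n, f.coeff n ∈ cl S) {x y : F} (hy : y ≠ 0)
    (hxy : y ^ 2 = f.eval x) (hx : x ∈ cl S) : y ∈ cl S := by
  intro D hD
  have h1 := congrArg D hxy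
  rw [der_eval' D f (fun n => hf n D hD), hx D hD, mul_zero, Derivation.leibniz_pow] at h1
  simp only [smul_eq_mul, nsmul_eq_mul] at h1
  have h2 : (2 : F) * y * D y = 0 := by
    push_cast at h1
    linear_combination h1
  exact (mul_eq_zero.1 h2).resolve_left (mul_ne_zero two_ne_zero hy)

/-- restriction of a derivation to a stable subfield -/
def restrDer (N : Subfield F) (D : Derivation ℤ F F) (h : ∀ m ∈ N, D m ∈ N) :
    Derivation ℤ N N :=
  Derivation.mk'
    { toFun := fun m => ⟨D (m : F), h m m.2⟩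
      map_add' := fun x y => Subtype.ext (map_add D (x : F) (y : F))
      map_smul' := fun r x => Subtype.ext (by
        change D (((r • x : N)) : F) = _
        have h1 : ((r • x : N) : F) = r • (x : F) := rfl
        rw [h1, map_zsmul]
        rfl) }
    (fun x y => Subtype.ext (D.leibniz (x : F) (y : F)))

theorem coe_restrDer (N : Subfield F) (D : Derivation ℤ F F) (h : ∀ m ∈ N, D m ∈ N) (x : N) :
    ((restrDer N D h x : N) : F) = D (x : F) := rfl

theorem hol (k0 : Subfield F) (D : Derivation ℤ F F) (hD : Kills D k0) {P : Type} [Fintype P]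
    (f : F[X]) (hfk : ∀ n, f.coeff n ∈ k0) (hcop : IsCoprime f (derivative f)) (g : ℕ)
    (hdeg : f.natDegree = 2 * g + 1) (x y : P → F) (hy : ∀ p, y p ≠ 0)
    (hxy : ∀ p, y p ^ 2 = f.eval (x p)) (n : P → ℤ) (i : ℕ) (hi : i < g) (h : F)
    (hx : ∀ p, x p ∈ cl ((k0 : Set F) ∪ {h}))
    (hDh : D h = ∑ p, (n p : F) * (D (x p) / y p * x p ^ i)) : D h = 0 := by
  classical
  by_contra h0
  have hc := charZero_sub k0
  have hh0 : h ≠ 0 := by
    rintro rfl
    exact h0 (map_zero D)
  have htr : Transcendental k0 h := fun ha => h0 (kills_of_isAlgebraic hD ha)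
  have htr' : Transcendental k0 h⁻¹ := fun ha => htr (by
    have := ha.inv
    rwa [inv_inv] at this)
  let aF : Algebra k0[X] F := (aeval (R := k0) h⁻¹).toAlgebra
  have haF : ∀ p : k0[X], algebraMap k0[X] F p = aeval h⁻¹ p := fun p => rfl
  have ht : IsScalarTower k0 k0[X] F := IsScalarTower.of_algebraMap_eq (fun a => by
    rw [haF]
    change algebraMap k0 F a = aeval h⁻¹ (C a)
    rw [aeval_C])
  have hinj : Function.Injective (algebraMap k0[X] F) :=
    transcendental_iff_injective.1 htr'
  have hfaith : FaithfulSMul k0[X] F := (faithfulSMul_iff_algebraMap_injective _ _).2 hinj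
  let K := FractionRing k0[X]
  let aK : Algebra K F := (IsFractionRing.lift (K := K) hinj).toAlgebra
  have ht2 : IsScalarTower k0[X] K F := IsScalarTower.of_algebraMap_eq (fun r =>
    (IsFractionRing.lift_algebraMap (K := K) hinj r).symm)
  have hK : CharZero K := inferInstance
  have hXF : algebraMap k0[X] F X = h⁻¹ := aeval_X _
  -- the range
  set R := (algebraMap K F).fieldRange with hR
  have hpR : ∀ p : k0[X], algebraMap k0[X] F p ∈ R := fun p => by
    rw [IsScalarTower.algebraMap_apply k0[X] K F]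
    exact ⟨_, rfl⟩
  have hk0R : ∀ a ∈ k0, a ∈ R := fun a ha => by
    have h1 := hpR (C ⟨a, ha⟩)
    rw [algebraMap_C_eq] at h1
    exact h1
  have hhR : h ∈ R := by
    have h1 := hpR X
    rw [hXF] at h1
    have h2 := R.inv_mem h1
    rwa [inv_inv] at h2
  -- the derivation
  let δF : Derivation ℤ F F := (h / D h) • D
  have hδF : ∀ a, δF a = h / D h * D a := fun a => rfl
  have hδk : ∀ a : k0, δF (algebraMap k0 F a) = 0 := fun a => by
    have h1 : D (algebraMap k0 F a) = 0 := hD _ a.2
    rw [hδF, h1, mul_zero]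
  have hδh : δF h = h := by
    rw [hδF]
    field_simp
  have hδw : δF (algebraMap k0[X] F X) = -algebraMap k0[X] F X := by
    rw [hXF, Derivation.leibniz_inv, hδh, smul_eq_mul]
    field_simp
  have hδp : ∀ p : k0[X], δF (algebraMap k0[X] F p) ∈ R := fun p => by
    rw [der_pol δF hδk hδw]
    exact R.neg_mem (hpR _)
  have hδR : ∀ m ∈ R, δF m ∈ R := by
    rintro _ ⟨a, rfl⟩
    obtain ⟨p, q, hq, rfl⟩ := IsFractionRing.div_surjective (A := k0[X]) a
    rw [map_div₀, ← IsScalarTower.algebraMap_apply k0[X] K F,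
      ← IsScalarTower.algebraMap_apply k0[X] K F]
    have hq1 : algebraMap k0[X] F q ≠ 0 := by
      intro h
      exact nonZeroDivisors.ne_zero hq (hinj (by rw [h, map_zero]))
    rw [der_div' δF _ _ hq1]
    exact R.div_mem (R.sub_mem (R.mul_mem (hδp _) (hpR _)) (R.mul_mem (hpR _) (hδp _)))
      (R.pow_mem (hpR _) 2)
  -- algebraic elements
  have halgR : ∀ z ∈ cl ((k0 : Set F) ∪ {h}), IsAlgebraic R z := fun z hz => by
    rw [← mem_cl_iff]
    refine cl_mono ?_ hz
    rintro s (hs | hs)
    · exact hk0R s hs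
    · rw [Set.mem_singleton_iff.1 hs]
      exact hhR
  have halgK : ∀ z : F, IsAlgebraic R z → IsAlgebraic K z := by
    rintro z ⟨p, hp0, hp⟩
    obtain ⟨q, hq⟩ := Polynomial.map_surjective (algebraMap K F).rangeRestrictField
      (RingHom.rangeRestrictField_bijective _).2 p
    refine ⟨q, ?_, ?_⟩
    · rintro rfl
      rw [Polynomial.map_zero] at hq
      exact hp0 hq.symm
    · rw [← hp, ← hq, aeval_def, aeval_def, eval₂_map]
      rfl
  have hyc : ∀ p, y p ∈ cl ((k0 : Set F) ∪ {h}) := fun p =>
    cl_sqrt f (fun n => subset_cl _ (Or.inl (hfk n))) (hy p) (hxy p) (hx p)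
  let L1 := IntermediateField.adjoin K (Set.range x ∪ Set.range y)
  have hfin : FiniteDimensional K L1 := IntermediateField.finiteDimensional_adjoin (by
    rintro s (⟨p, rfl⟩ | ⟨p, rfl⟩)
    · exact (halgK _ (halgR _ (hx p))).isIntegral
    · exact (halgK _ (halgR _ (hyc p))).isIntegral)
  have hRN : R ≤ L1.toSubfield := by
    rintro _ ⟨a, rfl⟩
    exact L1.algebraMap_mem a
  have hstab : ∀ z ∈ L1.toSubfield, δF z ∈ L1.toSubfield := by
    intro z hz
    have h1 : IsAlgebraic K (⟨z, hz⟩ : L1) := Algebra.IsAlgebraic.isAlgebraic _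
    have h2 : IsAlgebraic K z := h1.algebraMap (A := F)
    have h3 : IsAlgebraic R z := h2.ringHom_of_comp_eq (f := (algebraMap K F).rangeRestrictField)
      (g := RingHom.id F) (RingHom.injective _) rfl
    exact stab_alg hRN δF hδR hz h3
  let δ1 : Derivation ℤ L1 L1 := restrDer L1.toSubfield δF hstab
  have hδ1 : ∀ z : L1, ((δ1 z : L1) : F) = δF (z : F) := fun z => rfl
  let a1 : Algebra k0[X] L1 := ((algebraMap K L1).comp (algebraMap k0[X] K)).toAlgebra
  let a0 : Algebra k0 L1 := ((algebraMap k0[X] L1).comp C).toAlgebra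
  have ht3 : IsScalarTower k0 k0[X] L1 := IsScalarTower.of_algebraMap_eq' rfl
  have ht4 : IsScalarTower k0[X] K L1 := IsScalarTower.of_algebraMap_eq' rfl
  have hc1 : ∀ p : k0[X], ((algebraMap k0[X] L1 p : L1) : F) = algebraMap k0[X] F p := fun p => by
    rw [IsScalarTower.algebraMap_apply k0[X] K F]
    rfl
  have hfaith1 : FaithfulSMul k0[X] L1 := (faithfulSMul_iff_algebraMap_injective _ _).2
    (fun p q hpq => hinj (by rw [← hc1, ← hc1, hpq]))
  have hcL1 : CharZero L1 := charZero_of_injective_algebraMap (algebraMap K L1).injective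
  obtain ⟨f', hf'⟩ := exists_lift k0 f hfk
  let x1 : P → L1 := fun p => ⟨x p, IntermediateField.subset_adjoin K _ (Or.inl ⟨p, rfl⟩)⟩
  let y1 : P → L1 := fun p => ⟨y p, IntermediateField.subset_adjoin K _ (Or.inr ⟨p, rfl⟩)⟩
  have hcop' : IsCoprime f' (derivative f') := by
    rw [← isCoprime_map (algebraMap k0 F), ← derivative_map, hf']
    exact hcop
  have hdeg' : f'.natDegree = 2 * g + 1 := by
    rw [← hdeg, ← hf', natDegree_map]
  refine hol_core (κ := k0) (L := L1) K δ1 (fun a => ?_) ?_ f' hcop' g hdeg' x1 y1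
    (fun p hp => ?_) (fun p => ?_) n i hi ?_
  · apply Subtype.ext
    rw [hδ1]
    have h1 : ((algebraMap k0 L1 a : L1) : F) = algebraMap k0 F a := by
      have h2 := hc1 (C a)
      rw [algebraMap_C_eq, algebraMap_C_eq] at h2
      exact h2
    rw [h1, hδk]
    rfl
  · apply Subtype.ext
    rw [hδ1, hc1, hδw, ← hc1]
    rfl
  · exact hy p (congrArg (fun t : L1 => (t : F)) hp)
  · apply Subtype.ext
    have h1 : ((aeval (x1 p) f' : L1) : F) = f.eval (x p) := by
      have h2 : ∀ q : k0[X], ((aeval (x1 p) q : L1) : F) = aeval (x p) q := fun q => by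
        induction q using Polynomial.induction_on' with
        | add q r hq hr =>
          rw [map_add, map_add, ← hq, ← hr]
          rfl
        | monomial n a =>
          rw [aeval_monomial, aeval_monomial]
          have h4 := hc1 (C a)
          rw [algebraMap_C_eq, algebraMap_C_eq] at h4
          rw [← h4]
          rfl
      rw [h2, ← hf', eval_map_algebraMap]
    rw [h1, ← hxy]
    rfl
  · apply Subtype.ext
    have h1 : h = ∑ p, (n p : F) * (δF (x p) / y p * x p ^ i) := by
      have h2 : h = h / D h * ∑ p, (n p : F) * (D (x p) / y p * x p ^ i) := by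
        rw [← hDh]
        exact hδh.symm.trans (hδF h)
      refine h2.trans ?_
      rw [Finset.mul_sum]
      refine Finset.sum_congr rfl (fun p _ => ?_)
      rw [hδF]
      have := hy p
      field_simp
    have h3 : (((algebraMap k0[X] L1 X)⁻¹ : L1) : F) = h := by
      have h4 : (((algebraMap k0[X] L1 X)⁻¹ : L1) : F) = ((algebraMap k0[X] L1 X : L1) : F)⁻¹ := rfl
      rw [h4, hc1, hXF, inv_inv]
    rw [h3]
    have h5 : ((∑ p, (n p : L1) * (δ1 (x1 p) / y1 p * x1 p ^ i) : L1) : F) =
        ∑ p, (n p : F) * (δF (x p) / y p * x p ^ i) := by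
      have h6 := map_sum (algebraMap L1 F) (fun p => (n p : L1) * (δ1 (x1 p) / y1 p * x1 p ^ i))
        Finset.univ
      rw [show ((∑ p, (n p : L1) * (δ1 (x1 p) / y1 p * x1 p ^ i) : L1) : F) = _ from h6]
      refine Finset.sum_congr rfl (fun p _ => ?_)
      rw [map_mul, map_intCast, map_mul, map_div₀, map_pow]
      rfl
    rw [h5]
    exact h1

end Pool.Agent.AXE
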