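import Mathlib
import Pool.Agent.AXE.HDim
import Pool.Agent.AXE.HHol

/-!
# The Lie algebra of the differential Galois group acting on the field of periods
-/

set_option autoImplicit false
set_option linter.unusedSectionVars false

namespace Pool.Agent.AXE

open Matrix

variable {F : Type} [Field F] [CharZero F]

/-- a curve, its periods, points with weights and a logarithm -/
structure JCtx (d : Derivation ℤ F F) (K : Subfield F) (g : ℕ) (J P : Type) [Fintype J]
    [DecidableEq J] [Fintype P] where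
  hK : ∀ a ∈ K, d a ∈ K
  hC : ∀ a, d a = 0 → a ∈ K
  f : Polynomial F
  A : Matrix (Fin (2 * g)) (Fin (2 * g)) F
  ρ : Fin (2 * g) → Polynomial F
  hGM : GaussManin d K g f A ρ
  Φ : Matrix (Fin (2 * g)) J F
  Ψ : Matrix J (Fin (2 * g)) F
  ΨΦ : Ψ * Φ = 1
  ΦΨ : Φ * Ψ = 1
  hΦ : Φ.map d = A * Φ
  n : P → ℤ
  X : P → F
  Y : P → F
  hY : ∀ p, Y p ≠ 0
  hXY : ∀ p, Y p ^ 2 = f.eval (X p)
  x : Fin (2 * g) → F
  hx : IsLog d A ρ n X Y x

theorem map_zero_of {a b : Type} {T : Derivation ℤ F F} {M : Matrix a b F}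
    (h : ∀ i j, T (M i j) = 0) : M.map T = 0 := by
  ext i j
  exact h i j

theorem map_mulVec_der {a b : Type} [Fintype b] (T : Derivation ℤ F F) (M : Matrix a b F)
    (v : b → F) (i : a) : T ((M *ᵥ v) i) = (M.map T *ᵥ v) i + (M *ᵥ (fun j => T (v j))) i := by
  simp only [Matrix.mulVec, dotProduct, map_sum, Matrix.map_apply, ← Finset.sum_add_distrib]
  refine Finset.sum_congr rfl (fun l _ => ?_)
  rw [Derivation.leibniz, smul_eq_mul, smul_eq_mul]
  ring

theorem map_dotProduct_der {b : Type} [Fintype b] (T : Derivation ℤ F F) (u v : b → F) :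
    T (u ⬝ᵥ v) = (fun j => T (u j)) ⬝ᵥ v + u ⬝ᵥ (fun j => T (v j)) := by
  simp only [dotProduct, map_sum, ← Finset.sum_add_distrib]
  refine Finset.sum_congr rfl (fun l _ => ?_)
  rw [Derivation.leibniz, smul_eq_mul, smul_eq_mul]
  ring

theorem one_map_der {a : Type} [DecidableEq a] (T : Derivation ℤ F F) :
    (1 : Matrix a a F).map T = 0 := by
  ext i j
  rw [Matrix.map_apply, Matrix.one_apply, Matrix.zero_apply]
  split_ifs
  · exact T.map_one_eq_zero
  · exact map_zero T

namespace JCtx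

variable {d : Derivation ℤ F F} {K : Subfield F} {g : ℕ} {J P : Type} [Fintype J]
  [DecidableEq J] [Fintype P] (c : JCtx d K g J P)

/-- generators of the field of periods -/
def gen : Set F := (K : Set F) ∪ {z | ∃ a b, z = c.Φ a b}

/-- the relative algebraic closure of the field of periods -/
def k : Subfield F := cl c.gen

theorem K_le_k {a : F} (ha : a ∈ K) : a ∈ c.k := subset_cl _ (Or.inl ha)

theorem Φ_mem (a : Fin (2 * g)) (b : J) : c.Φ a b ∈ c.k :=
  subset_cl _ (Or.inr ⟨a, b, rfl⟩)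

theorem Ψ_map (T : Derivation ℤ F F) : c.Ψ.map T = -(c.Ψ * c.Φ.map T * c.Ψ) := by
  have h3 : (c.Ψ * c.Φ).map T = 0 := by
    rw [c.ΨΦ]
    exact one_map_der T
  rw [map_mul_der] at h3
  have h4 : (c.Ψ.map T * c.Φ + c.Ψ * c.Φ.map T) * c.Ψ = 0 := by rw [h3, Matrix.zero_mul]
  rw [Matrix.add_mul, Matrix.mul_assoc, c.ΦΨ, Matrix.mul_one] at h4
  exact eq_neg_of_add_eq_zero_left h4

theorem Ψ_mem (i : J) (j : Fin (2 * g)) : c.Ψ i j ∈ c.k := by
  intro T hT
  have h1 := c.Ψ_map T
  have h2 : c.Φ.map T = 0 := map_zero_of (fun a b => hT _ (Or.inr ⟨a, b, rfl⟩))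
  rw [h2, Matrix.mul_zero, Matrix.zero_mul, neg_zero] at h1
  exact congrFun (congrFun h1 i) j

theorem d_stab {z : F} (hz : z ∈ c.k) : d z ∈ c.k := by
  refine stab (fun s hs => ?_) hz
  rcases hs with hs | ⟨a, b, rfl⟩
  · exact c.K_le_k (c.hK s hs)
  · have h1 := congrFun (congrFun c.hΦ a) b
    rw [Matrix.map_apply, Matrix.mul_apply] at h1
    rw [h1]
    exact c.k.sum_mem (fun l _ => c.k.mul_mem (c.K_le_k (c.hGM.A_mem a l)) (c.Φ_mem l b))

/-- the internal data -/
def E : HDat d (2 * g) J P :=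
  mkDat c.hGM c.Φ c.Ψ c.ΨΦ c.ΦΨ c.hΦ c.n c.X c.Y c.hY c.hXY c.x c.hx

/-- the derivation `T` over `K` acts on the periods by the constant matrix `m` -/
structure Good (T : Derivation ℤ F F) (m : Matrix J J F) : Prop where
  kill : Kills T K
  const : ∀ i j, d (m i j) = 0
  map : c.Φ.map T = c.Φ * m

variable {c}

theorem const_mul {m m' : Matrix J J F} (h : ∀ i j, d (m i j) = 0) (h' : ∀ i j, d (m' i j) = 0)
    (i j : J) : d ((m * m') i j) = 0 := by
  have h1 : (m * m').map d = 0 := by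
    rw [map_mul_der, map_zero_of h, map_zero_of h', Matrix.zero_mul, Matrix.mul_zero, add_zero]
  exact congrFun (congrFun h1 i) j

theorem Good.lie {T T' : Derivation ℤ F F} {m m' : Matrix J J F}
    (h : c.Good T m) (h' : c.Good T' m') : c.Good ⁅T, T'⁆ (m * m' - m' * m) where
  kill := fun s hs => by
    rw [Derivation.commutator_apply, h.kill s hs, h'.kill s hs, map_zero, map_zero, sub_zero]
  const := fun i j => by
    rw [Matrix.sub_apply, map_sub, const_mul h.const h'.const, const_mul h'.const h.const,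
      sub_zero]
  map := by
    have e1 : c.Φ.map (⁅T, T'⁆ : Derivation ℤ F F) = (c.Φ.map T').map T - (c.Φ.map T).map T' := by
      ext i j
      rw [Matrix.map_apply, Derivation.commutator_apply]
      rfl
    have e2 : m'.map T = 0 := map_zero_of (fun i j => h.kill _ (c.hC _ (h'.const i j)))
    have e3 : m.map T' = 0 := map_zero_of (fun i j => h'.kill _ (c.hC _ (h.const i j)))
    rw [e1, h.map, h'.map, map_mul_der, map_mul_der, e2, e3, h.map, h'.map, Matrix.mul_zero,
      add_zero, add_zero, Matrix.mul_sub, Matrix.mul_assoc, Matrix.mul_assoc]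

theorem Good.m_mem {T : Derivation ℤ F F} {m : Matrix J J F}
    (h : c.Good T m) (i j : J) : m i j ∈ c.k := c.K_le_k (c.hC _ (h.const i j))

theorem Good.stab {T : Derivation ℤ F F} {m : Matrix J J F}
    (h : c.Good T m) {z : F} (hz : z ∈ c.k) : T z ∈ c.k := by
  refine AXE.stab (fun s hs => ?_) hz
  rcases hs with hs | ⟨a, b, rfl⟩
  · rw [h.kill s hs]
    exact c.k.zero_mem
  · have h1 := congrFun (congrFun h.map a) b
    rw [Matrix.map_apply, Matrix.mul_apply] at h1
    rw [h1]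
    exact c.k.sum_mem (fun l _ => c.k.mul_mem (c.Φ_mem a l) (h.m_mem l b))

theorem Good.comm {T : Derivation ℤ F F} {m : Matrix J J F}
    (h : c.Good T m) : Kills ⁅d, T⁆ c.k := by
  refine kills_cl (fun s hs => ?_)
  rcases hs with hs | ⟨a, b, rfl⟩
  · rw [Derivation.commutator_apply, h.kill s hs, map_zero, h.kill _ (c.hK s hs), sub_zero]
  · have e1 : c.Φ.map (⁅d, T⁆ : Derivation ℤ F F) = (c.Φ.map T).map d - (c.Φ.map d).map T := by
      ext i j
      rw [Matrix.map_apply, Derivation.commutator_apply]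
      rfl
    have e2 : m.map d = 0 := map_zero_of h.const
    have e3 : c.A.map T = 0 := map_zero_of (fun i j => h.kill _ (c.hGM.A_mem i j))
    rw [h.map, c.hΦ, map_mul_der, map_mul_der, e2, e3, h.map, c.hΦ, Matrix.mul_zero, add_zero,
      Matrix.zero_mul, zero_add, Matrix.mul_assoc, sub_self] at e1
    exact congrFun (congrFun e1 a) b

theorem Good.kc {T : Derivation ℤ F F} {m : Matrix J J F}
    (h : c.Good T m) : c.E.KC T :=
  ⟨fun m => h.kill _ (c.hGM.coeff_mem m), fun i j => h.kill _ (c.hGM.A_mem i j),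
    fun i m => h.kill _ (c.hGM.ρ_mem i m)⟩

theorem kc_of_kills {T : Derivation ℤ F F} (h : Kills T K) : c.E.KC T :=
  ⟨fun m => h _ (c.hGM.coeff_mem m), fun i j => h _ (c.hGM.A_mem i j),
    fun i m => h _ (c.hGM.ρ_mem i m)⟩

theorem kills_K {T : Derivation ℤ F F} (h : Kills T c.k) : Kills T K := fun a ha =>
  h a (c.K_le_k ha)

variable (c)

/-- logarithmic derivative of the points -/
def σ (T : Derivation ℤ F F) (p : P) : F := T (c.X p) / c.Y p

/-- the value of the differential form of index `i` -/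
def ω (T : Derivation ℤ F F) (i : ℕ) : F := ∑ p, (c.n p : F) * (c.σ T p * c.X p ^ i)

theorem B_eq (T : Derivation ℤ F F) (i : Fin (2 * g)) :
    c.E.B T i = T (c.x i) - c.ω T (i : ℕ) := rfl

theorem b_eq (T : Derivation ℤ F F) : c.E.b T = c.Ψ *ᵥ c.E.B T := rfl

theorem Φb (T : Derivation ℤ F F) : c.Φ *ᵥ c.E.b T = c.E.B T := by
  rw [b_eq, Matrix.mulVec_mulVec, c.ΦΨ, Matrix.one_mulVec]

theorem ω_zero {T : Derivation ℤ F F} (hX : ∀ p, T (c.X p) = 0) (i : ℕ) : c.ω T i = 0 := by
  unfold ω σ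
  exact Finset.sum_eq_zero (fun p _ => by rw [hX, zero_div, zero_mul, mul_zero])

theorem b_zero {T : Derivation ℤ F F} (hX : ∀ p, T (c.X p) = 0) (hx : ∀ i, T (c.x i) = 0) :
    c.E.b T = 0 := by
  rw [b_eq]
  have h1 : c.E.B T = 0 := by
    funext i
    rw [B_eq, hx, c.ω_zero hX, sub_zero]
    rfl
  rw [h1, Matrix.mulVec_zero]

theorem Tx (T : Derivation ℤ F F) (i : Fin (2 * g)) :
    T (c.x i) = (c.Φ *ᵥ c.E.b T) i + c.ω T (i : ℕ) := by
  rw [Φb, B_eq]
  ring

variable {c}

/-- the crossed relation for the differential forms -/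
theorem omega_lie {T T' : Derivation ℤ F F} (h : Kills T K) (h' : Kills T' K) (i : ℕ) :
    T (c.ω T' i) - T' (c.ω T i) = c.ω ⁅T, T'⁆ i := by
  unfold ω
  rw [map_sum, map_sum, ← Finset.sum_sub_distrib]
  refine Finset.sum_congr rfl (fun p _ => ?_)
  rw [HDat.der_wt, HDat.der_wt, ← mul_sub]
  congr 1
  have hY := c.hY p
  have hYd : ∀ {D : Derivation ℤ F F}, Kills D K →
      D (c.Y p) = (Polynomial.derivative c.f).eval (c.X p) * D (c.X p) / (2 * c.Y p) :=
        fun {D} hD => by
    have h1 := congrArg D (c.hXY p)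
    rw [der_eval' D c.f (fun n => hD _ (c.hGM.coeff_mem n)), Derivation.leibniz_pow] at h1
    simp only [smul_eq_mul, nsmul_eq_mul] at h1
    push_cast at h1
    rw [eq_div_iff (mul_ne_zero two_ne_zero hY)]
    linear_combination h1
  have hq : ∀ D : Derivation ℤ F F, D (c.X p ^ i) = (i * c.X p ^ (i - 1)) * D (c.X p) :=
      fun D => by
    rw [Derivation.leibniz_pow]
    simp only [smul_eq_mul, nsmul_eq_mul]
    ring
  unfold σ
  rw [Derivation.leibniz, Derivation.leibniz, der_div' T _ _ hY, der_div' T' _ _ hY,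
    Derivation.commutator_apply, hYd h, hYd h', hq T, hq T']
  simp only [smul_eq_mul]
  field_simp
  ring

theorem B_lie {T T' : Derivation ℤ F F} (h : Kills T K) (h' : Kills T' K) (i : Fin (2 * g)) :
    c.E.B ⁅T, T'⁆ i = T (c.E.B T' i) - T' (c.E.B T i) := by
  rw [B_eq, B_eq, B_eq, ← omega_lie h h', Derivation.commutator_apply, map_sub, map_sub]
  ring

end JCtx

end Pool.Agent.AXE
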