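import Mathlib
import Pool.Agent.AXE.JCtx

/-!
# Constants, and the constant matrices by which derivations act on the periods
-/

set_option autoImplicit false
set_option linter.unusedSectionVars false

namespace Pool.Agent.AXE

open Matrix

variable {F : Type} [Field F]

/-- the field of constants -/
def constants (d : Derivation ℤ F F) : Subfield F where
  carrier := {a | d a = 0}
  mul_mem' := fun {x y} hx hy => by
    change d (x * y) = 0
    have hx' : d x = 0 := hx
    have hy' : d y = 0 := hy
    rw [Derivation.leibniz, hx', hy', smul_zero, smul_zero, add_zero]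
  one_mem' := d.map_one_eq_zero
  add_mem' := fun {x y} hx hy => by
    change d (x + y) = 0
    have hx' : d x = 0 := hx
    have hy' : d y = 0 := hy
    rw [map_add, hx', hy', add_zero]
  zero_mem' := map_zero d
  neg_mem' := fun {x} hx => by
    change d (-x) = 0
    have hx' : d x = 0 := hx
    rw [map_neg, hx', neg_zero]
  inv_mem' := fun x hx => by
    change d x⁻¹ = 0
    have hx' : d x = 0 := hx
    rw [Derivation.leibniz_inv, hx', smul_zero]

theorem mem_constants {d : Derivation ℤ F F} {a : F} : a ∈ constants d ↔ d a = 0 := Iff.rfl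

/-- a constant vector in the span of a space of constant vectors lies in this space -/
theorem mem_of_mem_span {C : Subfield F} {I : Type} [Fintype I] (N : Submodule C (I → C))
    (w : I → C) (h : (fun i => (w i : F)) ∈
      Submodule.span F {v : I → F | ∃ u ∈ N, v = fun i => (u i : F)}) : w ∈ N := by
  classical
  by_contra hw
  obtain ⟨φ, hφw, hφN⟩ := Submodule.exists_dual_map_eq_bot_of_notMem hw inferInstance
  let ψ : (I → F) →ₗ[F] F :=
    { toFun := fun v => ∑ i, (φ (Pi.single i 1) : F) * v i
      map_add' := fun u v => by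
        simp only [Pi.add_apply, mul_add, Finset.sum_add_distrib]
      map_smul' := fun a v => by
        simp only [Pi.smul_apply, smul_eq_mul, RingHom.id_apply, Finset.mul_sum]
        exact Finset.sum_congr rfl (fun i _ => by ring) }
  have hψ : ∀ u : I → C, ψ (fun i => (u i : F)) = (φ u : F) := fun u => by
    have h1 : u = ∑ i, u i • (Pi.single i (1 : C) : I → C) := by
      funext j
      rw [Finset.sum_apply]
      simp only [Pi.smul_apply, smul_eq_mul, Pi.single_apply]
      simp
    have h2 : φ u = ∑ i, u i * φ (Pi.single i 1) := by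
      conv_lhs => rw [h1]
      rw [map_sum]
      exact Finset.sum_congr rfl (fun i _ => by rw [map_smul, smul_eq_mul])
    rw [h2]
    have h3 : ((∑ i, u i * φ (Pi.single i 1) : C) : F) = ∑ i, (u i : F) * (φ (Pi.single i 1) : F) := by
      push_cast
      rfl
    rw [h3]
    exact Finset.sum_congr rfl (fun i _ => mul_comm _ _)
  have h1 : Submodule.span F {v : I → F | ∃ u ∈ N, v = fun i => (u i : F)} ≤ LinearMap.ker ψ := by
    rw [Submodule.span_le]
    rintro v ⟨u, hu, rfl⟩
    change ψ _ = 0
    rw [hψ]
    have h2 : φ u ∈ N.map φ := ⟨u, hu, rfl⟩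
    rw [hφN] at h2
    rw [(Submodule.mem_bot C).1 h2]
    rfl
  have h2 : ψ (fun i => (w i : F)) = 0 := h1 h
  rw [hψ] at h2
  exact hφw (Subtype.ext h2)

variable [CharZero F]

/-- a space of vectors stable under the derivation is spanned by its constant vectors -/
theorem span_const (d : Derivation ℤ F F) {I : Type} [Fintype I] (S : Submodule F (I → F))
    (hS : ∀ v ∈ S, (fun i => d (v i)) ∈ S) :
    S ≤ Submodule.span F {v | v ∈ S ∧ ∀ i, d (v i) = 0} := by
  classical
  let C := constants d
  let U : Submodule C (I → C) :=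
    { carrier := {u | (fun i => (u i : F)) ∈ S}
      add_mem' := fun {a b} ha hb => S.add_mem ha hb
      zero_mem' := S.zero_mem
      smul_mem' := fun t a ha => S.smul_mem (t : F) ha }
  obtain ⟨π, hπ⟩ := U.subtype.exists_leftInverse_of_injective (Submodule.ker_subtype U)
  have hπU : ∀ u ∈ U, (π u : I → C) = u := fun u hu => by
    have h1 := LinearMap.congr_fun hπ ⟨u, hu⟩
    have h2 : π u = ⟨u, hu⟩ := h1
    rw [h2]
  let e : I → (I → F) := fun j i => ((π (Pi.single j 1) : I → C) i : F)
  have heS : ∀ j, e j ∈ S := fun j => (π (Pi.single j 1)).2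
  have hed : ∀ j i, d (e j i) = 0 := fun j i => ((π (Pi.single j 1) : I → C) i).2
  let Pm : (I → F) →ₗ[F] (I → F) :=
    { toFun := fun v => ∑ j, v j • e j
      map_add' := fun u v => by
        simp only [Pi.add_apply, add_smul, Finset.sum_add_distrib]
      map_smul' := fun a v => by
        simp only [Pi.smul_apply, smul_eq_mul, RingHom.id_apply, Finset.smul_sum, mul_smul] }
  have hPapp : ∀ v i, Pm v i = ∑ j, v j * e j i := fun v i => by
    change (∑ j, v j • e j) i = _
    rw [Finset.sum_apply]
    rfl
  have hPc : ∀ v ∈ S, (∀ i, d (v i) = 0) → Pm v = v := by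
    intro v hv hvd
    let u : I → C := fun i => ⟨v i, hvd i⟩
    have hu : u ∈ U := hv
    have h1 := hπU u hu
    have h2 : u = ∑ j, u j • (Pi.single j (1 : C) : I → C) := by
      funext i
      rw [Finset.sum_apply]
      simp only [Pi.smul_apply, smul_eq_mul, Pi.single_apply]
      simp
    rw [h2, map_sum] at h1
    funext i
    have h3 := congrArg (fun t : I → C => ((t i : C) : F)) h1
    rw [← h2] at h3
    rw [hPapp]
    have h4 : (((∑ j, π (u j • (Pi.single j (1 : C) : I → C)) : U) : I → C) i : C) =
        ∑ j, u j * (π (Pi.single j 1) : I → C) i := by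
      rw [Submodule.coe_sum, Finset.sum_apply]
      refine Finset.sum_congr rfl (fun j _ => ?_)
      rw [map_smul]
      rfl
    have h5 : ((∑ j, u j * (π (Pi.single j 1) : I → C) i : C) : F) = ∑ j, v j * e j i := by
      push_cast
      rfl
    rw [← h5, ← h4]
    exact h3
  have hPP : ∀ v, Pm (Pm v) = Pm v := fun v => by
    have h1 : Pm v = ∑ j, v j • e j := rfl
    rw [h1, map_sum]
    exact Finset.sum_congr rfl (fun j _ => by rw [map_smul, hPc _ (heS j) (hed j)])
  have hPS : ∀ v, Pm v ∈ S := fun v => S.sum_mem (fun j _ => S.smul_mem _ (heS j))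
  have hPd : ∀ v, (fun i => d (Pm v i)) = Pm (fun i => d (v i)) := fun v => by
    funext i
    rw [hPapp, hPapp, map_sum]
    refine Finset.sum_congr rfl (fun j _ => ?_)
    rw [Derivation.leibniz, hed, smul_zero, zero_add, smul_eq_mul, mul_comm]
  intro v hv
  have hv0 : v - Pm v = 0 := by
    by_contra hne
    obtain ⟨w, ⟨hwS, hwP⟩, hw0, hwd⟩ := exists_const' d {w | w ∈ S ∧ Pm w = 0}
      (fun w hw a => ⟨S.smul_mem a hw.1, by
        have h1 : (fun j => a * w j) = a • w := rfl
        rw [h1, map_smul, hw.2, smul_zero]⟩)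
      (fun w hw => ⟨hS w hw.1, by
        rw [← hPd, hw.2]
        funext i
        exact map_zero d⟩)
      ⟨v - Pm v, ⟨S.sub_mem hv (hPS v), by rw [map_sub, hPP, sub_self]⟩, hne⟩
    rw [hPc w hwS hwd] at hwP
    exact hw0 hwP
  rw [sub_eq_zero.1 hv0]
  exact Submodule.sum_mem _ (fun j _ => Submodule.smul_mem _ _
    (Submodule.subset_span ⟨heS j, hed j⟩))

/-- a space of vectors stable under all derivations over `K` contains an algebraic vector -/
theorem exists_alg_vec (K : Subfield F) {I : Type} [Fintype I] (W : Submodule F (I → F))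
    (hW : ∀ D : Derivation ℤ F F, Kills D K → ∀ v ∈ W, (fun i => D (v i)) ∈ W) (hne : W ≠ ⊥) :
    ∃ v ∈ W, v ≠ 0 ∧ ∀ i, v i ∈ cl (K : Set F) := by
  classical
  have key : ∀ n : ℕ, ∀ v ∈ W, v ≠ 0 → (Finset.univ.filter (fun j => v j ≠ 0)).card = n →
      ∃ v ∈ W, v ≠ 0 ∧ ∀ i, v i ∈ cl (K : Set F) := by
    intro n
    induction n using Nat.strong_induction_on with
    | _ n ih =>
      intro v hv hv0 hcard
      obtain ⟨j0, hj0⟩ : ∃ j, v j ≠ 0 := by
        by_contra h
        push Not at h
        exact hv0 (funext h)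
      have hv1 := W.smul_mem (v j0)⁻¹ hv
      set v1 : I → F := (v j0)⁻¹ • v with hv1d
      have hv1j : v1 j0 = 1 := inv_mul_cancel₀ hj0
      have hv10 : v1 ≠ 0 := fun h => by
        rw [h] at hv1j
        exact zero_ne_one hv1j
      by_cases hd : ∀ D : Derivation ℤ F F, Kills D K → (fun i => D (v1 i)) = 0
      · exact ⟨v1, hv1, hv10, fun i D hD => congrFun (hd D hD) i⟩
      · push Not at hd
        obtain ⟨D, hD, hne⟩ := hd
        refine ih _ ?_ (fun j => D (v1 j)) (hW D hD v1 hv1) hne rfl
        rw [← hcard]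
        apply Finset.card_lt_card
        rw [Finset.ssubset_iff_of_subset]
        · refine ⟨j0, Finset.mem_filter.2 ⟨Finset.mem_univ _, hj0⟩, fun h => ?_⟩
          apply (Finset.mem_filter.1 h).2
          rw [hv1j]
          exact D.map_one_eq_zero
        · intro j hj
          refine Finset.mem_filter.2 ⟨Finset.mem_univ _, fun h => ?_⟩
          apply (Finset.mem_filter.1 hj).2
          change D ((v j0)⁻¹ * v j) = 0
          rw [h, mul_zero, map_zero]
  obtain ⟨v, hv, hv0⟩ := (Submodule.ne_bot_iff _).1 hne
  exact key _ v hv hv0 rfl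

end Pool.Agent.AXE
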