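import Mathlib

/-!
# Cocycles with values in a faithful irreducible representation are coboundaries
-/

set_option autoImplicit false
set_option linter.unusedSectionVars false

namespace Pool.Agent.AXE

open LieModule LieAlgebra

variable {C L V : Type} [Field C] [LieRing L] [LieAlgebra C L] [AddCommGroup V] [Module C V]
  [LieRingModule L V] [LieModule C L V]

/-- Schur's lemma applied to a cocycle -/
theorem coboundary_of_commuting [IsIrreducible C L V] (β : L → V) (θ : V →ₗ[C] V)
    [Module.Finite C V] (hθ : ∀ (x : L) v, θ ⁅x, v⁆ = ⁅x, θ v⁆) (hθ0 : θ ≠ 0) (u : V)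
    (hu : ∀ x, ⁅x, u⁆ = θ (β x)) : ∃ u', ∀ x, β x = ⁅x, u'⁆ := by
  let N : LieSubmodule C L V :=
    { LinearMap.ker θ with
      lie_mem := fun {x m} hm => by
        change θ ⁅x, m⁆ = 0
        have h1 : θ m = 0 := hm
        rw [hθ, h1, lie_zero] }
  have hN : N = ⊥ := by
    refine (eq_bot_or_eq_top N).resolve_right (fun h => hθ0 ?_)
    ext v
    have h1 : v ∈ N := by
      rw [h]
      exact LieSubmodule.mem_top v
    exact h1
  have hker : LinearMap.ker θ = ⊥ := by
    rw [LinearMap.ker_eq_bot']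
    intro v hv
    have h1 : v ∈ N := hv
    rw [hN] at h1
    exact (LieSubmodule.mem_bot v).1 h1
  have hinj : Function.Injective θ := LinearMap.ker_eq_bot.1 hker
  obtain ⟨u', hu'⟩ := (LinearMap.injective_iff_surjective.1 hinj) u
  refine ⟨u', fun x => hinj ?_⟩
  rw [hθ, hu', hu]

/-- the radical of the trace form of a faithful irreducible representation of a Lie algebra with
trivial radical is zero -/
theorem traceForm_nondegenerate [CharZero C] [Module.Finite C L] [Module.Finite C V]
    [IsIrreducible C L V] [IsFaithful C L V] [HasTrivialRadical C L] :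
    (traceForm C L V).Nondegenerate := by
  have hnt : Nontrivial V := nontrivial_of_isIrreducible C L V
  let r : LieIdeal C L :=
    { carrier := {x | ∀ y, traceForm C L V x y = 0}
      add_mem' := fun {a b} ha hb y => by
        rw [map_add, LinearMap.add_apply, ha, hb, add_zero]
      zero_mem' := fun y => by rw [map_zero, LinearMap.zero_apply]
      smul_mem' := fun t a ha y => by
        rw [map_smul, LinearMap.smul_apply, ha, smul_zero]
      lie_mem := fun {x m} hm y => by
        rw [traceForm_apply_lie_apply', hm, neg_zero] }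
  have hr : ∀ x, x ∈ r ↔ ∀ y, traceForm C L V x y = 0 := fun x => Iff.rfl
  have htr : traceForm C r V = 0 := by
    ext ⟨x, hx⟩ ⟨y, hy⟩
    exact hx y
  have hnil : LieModule.IsNilpotent (derivedSeries C r 1) V :=
    isNilpotent_derivedSeries_of_traceForm_eq_zero htr
  -- the vectors killed by all brackets
  let W : LieSubmodule C L V :=
    { carrier := {v | ∀ x ∈ r, ∀ y ∈ r, ⁅⁅x, y⁆, v⁆ = 0}
      add_mem' := fun {a b} ha hb x hx y hy => by
        rw [lie_add, ha x hx y hy, hb x hx y hy, add_zero]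
      zero_mem' := fun x hx y hy => lie_zero _
      smul_mem' := fun t a ha x hx y hy => by
        rw [lie_smul, ha x hx y hy, smul_zero]
      lie_mem := fun {l m} hm x hx y hy => by
        have e1 : ⁅⁅x, y⁆, ⁅l, m⁆⁆ = ⁅⁅⁅x, y⁆, l⁆, m⁆ + ⁅l, ⁅⁅x, y⁆, m⁆⁆ := by
          rw [lie_lie ⁅x, y⁆ l m]
          abel
        have e2 : ⁅⁅x, y⁆, l⁆ = ⁅⁅x, l⁆, y⁆ + ⁅x, ⁅y, l⁆⁆ := by
          have h1 := lie_lie x y l
          have h2 := leibniz_lie l x y
          rw [← lie_skew ⁅x, y⁆ l, h2, ← lie_skew x l, ← lie_skew y l, neg_lie, lie_neg]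
          abel
        have hxl : ⁅x, l⁆ ∈ r := by
          rw [← lie_skew]
          exact r.neg_mem (r.lie_mem hx)
        have hyl : ⁅y, l⁆ ∈ r := by
          rw [← lie_skew]
          exact r.neg_mem (r.lie_mem hy)
        rw [e1, e2, add_lie, hm _ hxl _ hy, hm _ hx _ hyl, hm x hx y hy, lie_zero, add_zero,
          add_zero] }
  have hW : W ≠ ⊥ := by
    intro h
    obtain ⟨v, hv⟩ := @exists_ne _ (nontrivial_max_triv_of_isNilpotent C (derivedSeries C r 1) V) 0
    have h1 : (v : V) ∈ W := by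
      intro x hx y hy
      have h2 : (⁅(⟨x, hx⟩ : r), (⟨y, hy⟩ : r)⁆ : r) ∈ derivedSeries C r 1 := by
        have h3 : derivedSeries C r 1 = ⁅(⊤ : LieIdeal C r), (⊤ : LieIdeal C r)⁆ := rfl
        rw [h3]
        exact LieSubmodule.lie_mem_lie (LieSubmodule.mem_top _) (LieSubmodule.mem_top _)
      have h4 := (LieModule.mem_maxTrivSubmodule C (derivedSeries C r 1) V v.1).1 v.2 ⟨_, h2⟩
      exact h4
    rw [h] at h1
    exact hv (Subtype.ext ((LieSubmodule.mem_bot _).1 h1))
  have hWt : W = ⊤ := (eq_bot_or_eq_top W).resolve_left hW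
  have hab : ∀ x ∈ r, ∀ y ∈ r, ⁅x, y⁆ = 0 := by
    intro x hx y hy
    refine ext_of_isFaithful (R := C) (M := V) (fun v => ?_)
    have h1 : v ∈ W := by
      rw [hWt]
      exact LieSubmodule.mem_top v
    rw [zero_lie]
    exact h1 x hx y hy
  have hra : IsLieAbelian r := ⟨fun x y => Subtype.ext (hab x.1 x.2 y.1 y.2)⟩
  have hr0 : r = ⊥ := (hasTrivialRadical_iff_no_abelian_ideals C L).1 inferInstance r hra
  have hker : ∀ x, (∀ y, traceForm C L V x y = 0) → x = 0 := by
    intro x hx
    have h1 : x ∈ r := hx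
    rw [hr0] at h1
    exact (LieSubmodule.mem_bot x).1 h1
  refine ⟨fun x hx => hker x hx, fun x hx => hker x (fun y => ?_)⟩
  rw [traceForm_comm]
  exact hx y

/-- the invariance of the Casimir tensor -/
theorem casimir_tensor {C L W : Type} [Field C] [LieRing L] [LieAlgebra C L] [AddCommGroup W]
    [Module C W] [Module.Finite C L] (B : LinearMap.BilinForm C L) (hB : B.Nondegenerate)
    (hinv : ∀ x y z, B ⁅x, y⁆ z = B x ⁅y, z⁆) {ι : Type} [Fintype ι] [DecidableEq ι]
    (e : Module.Basis ι C L) (e' : ι → L) (he : ∀ i j, B (e' i) (e j) = if j = i then 1 else 0)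
    (θ : L →ₗ[C] L →ₗ[C] W) (x : L) :
    ∑ i, (θ ⁅x, e i⁆ (e' i) + θ (e i) ⁅x, e' i⁆) = 0 := by
  have h1 : ∀ y, y = ∑ j, B (e' j) y • e j := fun y => by
    have h2 : ∀ j, B (e' j) y = e.repr y j := fun j => by
      conv_lhs => rw [← e.sum_repr y]
      rw [map_sum]
      simp only [map_smul, he, smul_eq_mul]
      simp
    simp only [h2]
    exact (e.sum_repr y).symm
  have h3 : ∀ y, y = ∑ j, B y (e j) • e' j := fun y => by
    rw [← sub_eq_zero]
    have h4 : ∀ z, B (y - ∑ j, B y (e j) • e' j) z = 0 := by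
      intro z
      conv_lhs => rw [h1 z]
      rw [map_sum]
      refine Finset.sum_eq_zero (fun i _ => ?_)
      rw [map_smul, map_sub, LinearMap.sub_apply, map_sum, LinearMap.sum_apply]
      simp only [map_smul, LinearMap.smul_apply, he, smul_eq_mul]
      simp
    exact hB.1 _ h4
  have h5 : ∀ i, θ ⁅x, e i⁆ (e' i) = ∑ j, B (e' j) ⁅x, e i⁆ • θ (e j) (e' i) := fun i => by
    conv_lhs => rw [h1 ⁅x, e i⁆]
    rw [map_sum, LinearMap.sum_apply]
    exact Finset.sum_congr rfl (fun j _ => by rw [map_smul, LinearMap.smul_apply])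
  have h6 : ∀ i, θ (e i) ⁅x, e' i⁆ = ∑ j, B ⁅x, e' i⁆ (e j) • θ (e i) (e' j) := fun i => by
    conv_lhs => rw [h3 ⁅x, e' i⁆]
    rw [map_sum]
    exact Finset.sum_congr rfl (fun j _ => by rw [map_smul])
  rw [Finset.sum_add_distrib, Finset.sum_congr rfl (fun i _ => h5 i),
    Finset.sum_congr rfl (fun i _ => h6 i)]
  rw [Finset.sum_comm, ← Finset.sum_add_distrib]
  refine Finset.sum_eq_zero (fun i _ => ?_)
  rw [← Finset.sum_add_distrib]
  refine Finset.sum_eq_zero (fun j _ => ?_)
  have h7 : B ⁅x, e' i⁆ (e j) = -B (e' i) ⁅x, e j⁆ := by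
    rw [← lie_skew, map_neg, LinearMap.neg_apply, hinv]
  rw [h7, neg_smul, add_neg_cancel]

/-- vanishing of the first cohomology of a faithful irreducible representation -/
theorem whitehead [CharZero C] [IsAlgClosed C] [Module.Finite C L] [Module.Finite C V]
    [IsIrreducible C L V] [IsFaithful C L V] (β : L →ₗ[C] V)
    (hβ : ∀ x y, β ⁅x, y⁆ = ⁅x, β y⁆ - ⁅y, β x⁆) : ∃ u, ∀ x, β x = ⁅x, u⁆ := by
  classical
  by_cases hL : Subsingleton L
  · exact ⟨0, fun x => by rw [Subsingleton.elim x 0, map_zero, zero_lie]⟩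
  rw [not_subsingleton_iff_nontrivial] at hL
  obtain ⟨hcr, -⟩ := hasCentralRadical_and_of_isIrreducible_of_isFaithful C L V
  by_cases hz : center C L = ⊥
  · -- trivial centre
    have hrad : HasTrivialRadical C L := by
      rw [hasTrivialRadical_iff, (hasCentralRadical_iff C L).1 hcr, hz]
    have hB : (traceForm C L V).Nondegenerate := traceForm_nondegenerate
    let e := Module.finBasis C L
    let e' := (traceForm C L V).dualBasis hB e
    have he : ∀ i j, traceForm C L V (e' i) (e j) = if j = i then 1 else 0 := fun i j =>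
      LinearMap.BilinForm.apply_dualBasis_left hB e i j
    have hinv : ∀ x y z, traceForm C L V ⁅x, y⁆ z = traceForm C L V x ⁅y, z⁆ :=
      traceForm_apply_lie_apply C L V
    let Ω : V →ₗ[C] V := ∑ i, (toEnd C L V (e i)) ∘ₗ (toEnd C L V (e' i))
    have hΩ : ∀ v, Ω v = ∑ i, ⁅e i, ⁅e' i, v⁆⁆ := fun v => by
      simp only [Ω, LinearMap.sum_apply]
      rfl
    refine coboundary_of_commuting (C := C) β Ω (fun x v => ?_) (fun h0 => ?_)
      (∑ i, ⁅e i, β (e' i)⁆) (fun x => ?_)
    · let θ : L →ₗ[C] L →ₗ[C] V := LinearMap.mk₂ C (fun a b => ⁅a, ⁅b, v⁆⁆)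
        (fun a a' b => add_lie _ _ _) (fun t a b => smul_lie _ _ _)
        (fun a b b' => by rw [add_lie, lie_add]) (fun t a b => by rw [smul_lie, lie_smul])
      have h1 := casimir_tensor (traceForm C L V) hB hinv e e' he θ x
      have h2 : ∀ a b, θ a b = ⁅a, ⁅b, v⁆⁆ := fun a b => rfl
      simp only [h2] at h1
      rw [hΩ, hΩ, lie_sum, ← sub_eq_zero, ← neg_eq_zero, ← h1, ← Finset.sum_sub_distrib,
        ← Finset.sum_neg_distrib]
      refine Finset.sum_congr rfl (fun i _ => ?_)
      rw [lie_lie x (e i), lie_lie x (e' i), lie_sub]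
      abel
    · have h1 : LinearMap.trace C V Ω = (Fintype.card (Fin (Module.finrank C L)) : C) := by
        have h2 : ∀ i, LinearMap.trace C V ((toEnd C L V (e i)) ∘ₗ (toEnd C L V (e' i))) = 1 := by
          intro i
          rw [← traceForm_apply_apply, traceForm_comm, he, if_pos rfl]
        rw [map_sum, Finset.sum_congr rfl (fun i _ => h2 i)]
        simp
      rw [h0, map_zero, Fintype.card_fin] at h1
      have h3 : 0 < Module.finrank C L := Module.finrank_pos
      have h4 : Module.finrank C L = 0 := by exact_mod_cast h1.symm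
      omega
    · let θ : L →ₗ[C] L →ₗ[C] V := LinearMap.mk₂ C (fun a b => ⁅a, β b⁆)
        (fun a a' b => add_lie _ _ _) (fun t a b => smul_lie _ _ _)
        (fun a b b' => by rw [map_add, lie_add]) (fun t a b => by rw [map_smul, lie_smul])
      have h1 := casimir_tensor (traceForm C L V) hB hinv e e' he θ x
      have h2 : ∀ a b, θ a b = ⁅a, β b⁆ := fun a b => rfl
      simp only [h2] at h1
      rw [hΩ, lie_sum, ← sub_eq_zero, ← h1, ← Finset.sum_sub_distrib]
      refine Finset.sum_congr rfl (fun i _ => ?_)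
      rw [lie_lie x (e i), hβ, lie_sub]
      abel
  · -- a central element
    obtain ⟨z, hzc, hz0⟩ : ∃ z ∈ center C L, z ≠ 0 := by
      by_contra h
      push Not at h
      exact hz ((LieSubmodule.eq_bot_iff _).2 h)
    have hzx : ∀ x, ⁅x, z⁆ = 0 := fun x => (LieModule.mem_maxTrivSubmodule C L L z).1 hzc x
    refine coboundary_of_commuting (C := C) β (toEnd C L V z) (fun x v => ?_) (fun h0 => ?_)
      (β z) (fun x => ?_)
    · have h1 := lie_lie x z v
      rw [hzx, zero_lie] at h1
      exact (sub_eq_zero.1 h1.symm).symm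
    · exact hz0 ((toEnd_eq_zero_iff (R := C) (L := L) (M := V)).1 h0)
    · have h1 := hβ x z
      rw [hzx, map_zero] at h1
      exact sub_eq_zero.1 h1.symm

end Pool.Agent.AXE
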