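import Mathlib
import Pool.Agent.AXE.JConst
import Pool.Agent.AXE.LWhite

/-!
# Irreducible connections: descent of invariant subspaces, vanishing of the cocycle class
-/

set_option autoImplicit false
set_option linter.unusedSectionVars false

namespace Pool.Agent.AXE

open Matrix

variable {F : Type} [Field F]

/-- the connection `∂ - A` is irreducible over the field `L`: no subspace of `L^N` other than
`0` and `L^N` is stable under `v ↦ ∂v - Av` -/
def IrredOver (d : Derivation ℤ F F) (L : Subfield F) {N : ℕ} (A : Matrix (Fin N) (Fin N) F) :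
    Prop :=
  ∀ U : Submodule L (Fin N → F), (∀ u ∈ U, ∀ i, u i ∈ L) →
    (∀ u ∈ U, (fun i => d (u i) - (A *ᵥ u) i) ∈ U) →
    U = ⊥ ∨ ∀ u : Fin N → F, (∀ i, u i ∈ L) → u ∈ U

theorem mulVec_mem {a b : Type} [Fintype b] (M : Subfield F) (A : Matrix a b F) (u : b → F)
    (hA : ∀ i j, A i j ∈ M) (hu : ∀ j, u j ∈ M) (i : a) : (A *ᵥ u) i ∈ M := by
  change ∑ j, A i j * u j ∈ M
  exact M.sum_mem (fun j _ => M.mul_mem (hA i j) (hu j))

theorem vecMul_mem {a b : Type} [Fintype a] (M : Subfield F) (A : Matrix a b F) (u : a → F)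
    (hA : ∀ i j, A i j ∈ M) (hu : ∀ j, u j ∈ M) (i : b) : (u ᵥ* A) i ∈ M := by
  change ∑ j, u j * A j i ∈ M
  exact M.sum_mem (fun j _ => M.mul_mem (hu j) (hA j i))

variable [CharZero F]

/-- for an irreducible connection, a non-zero space of column vectors over `F` which is stable
under all derivations over `K` and under the connection is everything -/
theorem IrredOver.top {d : Derivation ℤ F F} {K : Subfield F} {N : ℕ}
    {A : Matrix (Fin N) (Fin N) F} (hirr : IrredOver d (cl (K : Set F)) A)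
    (W : Submodule F (Fin N → F))
    (hW : ∀ D : Derivation ℤ F F, Kills D K → ∀ v ∈ W, (fun i => D (v i)) ∈ W)
    (hd : ∀ v ∈ W, (fun i => d (v i) - (A *ᵥ v) i) ∈ W)
    (hdK : ∀ a ∈ K, d a ∈ K) (hA : ∀ i j, A i j ∈ K) (hne : W ≠ ⊥) : W = ⊤ := by
  classical
  obtain ⟨v, hv, hv0, hvK⟩ := exists_alg_vec K W hW hne
  have hAcl : ∀ i j, A i j ∈ cl (K : Set F) := fun i j => subset_cl _ (hA i j)
  have hdcl : ∀ a ∈ cl (K : Set F), d a ∈ cl (K : Set F) := fun a ha =>
    stab (fun s hs => subset_cl _ (hdK s hs)) ha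
  let R : Submodule (cl (K : Set F)) (Fin N → F) :=
    { carrier := {v | v ∈ W ∧ ∀ i, v i ∈ cl (K : Set F)}
      add_mem' := fun {a b} ha hb => ⟨W.add_mem ha.1 hb.1, fun i => add_mem (ha.2 i) (hb.2 i)⟩
      zero_mem' := ⟨W.zero_mem, fun i => zero_mem _⟩
      smul_mem' := fun t a ha => ⟨W.smul_mem (t : F) ha.1, fun i => mul_mem t.2 (ha.2 i)⟩ }
  rcases hirr R (fun u hu i => hu.2 i) (fun u hu => ⟨hd u hu.1, fun i =>
    sub_mem (hdcl _ (hu.2 i)) (mulVec_mem _ A u hAcl hu.2 i)⟩) with h | h
  · exfalso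
    have h1 : v ∈ R := ⟨hv, hvK⟩
    rw [h] at h1
    exact hv0 ((Submodule.mem_bot _).1 h1)
  · rw [eq_top_iff]
    intro w _
    have h1 : w = ∑ i, w i • (Pi.single i (1 : F) : Fin N → F) := by
      funext j
      rw [Finset.sum_apply]
      simp only [Pi.smul_apply, smul_eq_mul, Pi.single_apply]
      simp
    rw [h1]
    refine W.sum_mem (fun i _ => W.smul_mem _ ?_)
    exact (h (Pi.single i 1) (fun j => by
      rw [Pi.single_apply]
      split_ifs
      · exact one_mem _
      · exact zero_mem _)).1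

/-- the same for row vectors -/
theorem IrredOver.top_row {d : Derivation ℤ F F} {K : Subfield F} {N : ℕ}
    {A : Matrix (Fin N) (Fin N) F} (hirr : IrredOver d (cl (K : Set F)) A)
    (W : Submodule F (Fin N → F))
    (hW : ∀ D : Derivation ℤ F F, Kills D K → ∀ v ∈ W, (fun i => D (v i)) ∈ W)
    (hd : ∀ v ∈ W, (fun i => d (v i) + (v ᵥ* A) i) ∈ W)
    (hdK : ∀ a ∈ K, d a ∈ K) (hA : ∀ i j, A i j ∈ K) (hne : W ≠ ⊥) : W = ⊤ := by
  classical
  obtain ⟨v, hv, hv0, hvK⟩ := exists_alg_vec K W hW hne
  have hAcl : ∀ i j, A i j ∈ cl (K : Set F) := fun i j => subset_cl _ (hA i j)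
  have hdcl : ∀ a ∈ cl (K : Set F), d a ∈ cl (K : Set F) := fun a ha =>
    stab (fun s hs => subset_cl _ (hdK s hs)) ha
  -- the algebraic vectors of `W`
  let R : Submodule (cl (K : Set F)) (Fin N → cl (K : Set F)) :=
    { carrier := {v | (fun i => (v i : F)) ∈ W}
      add_mem' := fun {a b} ha hb => W.add_mem ha hb
      zero_mem' := W.zero_mem
      smul_mem' := fun t a ha => W.smul_mem (t : F) ha }
  -- the annihilator
  let U : Submodule (cl (K : Set F)) (Fin N → F) :=
    { carrier := {u | (∀ r ∈ R, (fun i => (r i : F)) ⬝ᵥ u = 0) ∧ ∀ i, u i ∈ cl (K : Set F)}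
      add_mem' := fun {a b} ha hb => ⟨fun r hr => by
        rw [dotProduct_add, ha.1 r hr, hb.1 r hr, add_zero], fun i => add_mem (ha.2 i) (hb.2 i)⟩
      zero_mem' := ⟨fun r hr => dotProduct_zero _, fun i => zero_mem _⟩
      smul_mem' := fun t a ha => ⟨fun r hr => by
        have h1 : (t • a : Fin N → F) = (t : F) • a := rfl
        rw [h1, dotProduct_smul, ha.1 r hr, smul_zero], fun i => mul_mem t.2 (ha.2 i)⟩ }
  have hUd : ∀ u ∈ U, (fun i => d (u i) - (A *ᵥ u) i) ∈ U := by
    intro u hu
    refine ⟨fun r hr => ?_, fun i => sub_mem (hdcl _ (hu.2 i)) (mulVec_mem _ A u hAcl hu.2 i)⟩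
    let r' : Fin N → cl (K : Set F) := fun i => ⟨d (r i : F) + ((fun i => (r i : F)) ᵥ* A) i,
      add_mem (hdcl _ (r i).2) (vecMul_mem _ A _ hAcl (fun j => (r j).2) i)⟩
    have hr' : r' ∈ R := hd _ hr
    have h1 := hu.1 r' hr'
    have h2 := congrArg d (hu.1 r hr)
    rw [map_dotProduct_der, map_zero] at h2
    have h3 : (fun i => (r' i : F)) = (fun i => d (r i : F)) + (fun i => (r i : F)) ᵥ* A := rfl
    rw [h3, add_dotProduct, ← Matrix.dotProduct_mulVec] at h1
    have h4 : (fun i => d (u i) - (A *ᵥ u) i) = (fun i => d (u i)) - A *ᵥ u := rfl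
    rw [h4, dotProduct_sub]
    linear_combination h2 - h1
  rcases hirr U (fun u hu i => hu.2 i) hUd with h | h
  · -- the annihilator is zero
    have hR : R = ⊤ := by
      by_contra hRt
      obtain ⟨φ, hφ0, hφ⟩ := Submodule.exists_le_ker_of_lt_top R (lt_top_iff_ne_top.2 hRt)
      let u : Fin N → F := fun i => (φ (Pi.single i 1) : F)
      have hu : u ∈ U := by
        refine ⟨fun r hr => ?_, fun i => (φ (Pi.single i 1)).2⟩
        have h1 : φ r = 0 := hφ hr
        have h2 : r = ∑ i, r i • (Pi.single i (1 : cl (K : Set F)) : Fin N → cl (K : Set F)) := by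
          funext j
          rw [Finset.sum_apply]
          simp only [Pi.smul_apply, smul_eq_mul, Pi.single_apply]
          simp
        rw [h2, map_sum] at h1
        have h3 := congrArg (fun t : cl (K : Set F) => (t : F)) h1
        simp only [map_smul, smul_eq_mul] at h3
        push_cast at h3
        exact h3
      rw [h] at hu
      have hu0 : u = 0 := (Submodule.mem_bot _).1 hu
      apply hφ0
      refine LinearMap.pi_ext' (fun j => LinearMap.ext_ring ?_)
      exact Subtype.ext (congrFun hu0 j)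
    rw [eq_top_iff]
    intro w _
    have h1 : w = ∑ i, w i • (Pi.single i (1 : F) : Fin N → F) := by
      funext j
      rw [Finset.sum_apply]
      simp only [Pi.smul_apply, smul_eq_mul, Pi.single_apply]
      simp
    rw [h1]
    refine W.sum_mem (fun i _ => W.smul_mem _ ?_)
    have h2 : (Pi.single i (1 : cl (K : Set F)) : Fin N → cl (K : Set F)) ∈ R := by
      rw [hR]
      exact Submodule.mem_top
    have h3 : (fun j => ((Pi.single i (1 : cl (K : Set F)) : Fin N → cl (K : Set F)) j : F)) =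
        (Pi.single i (1 : F) : Fin N → F) := by
      funext j
      rw [Pi.single_apply, Pi.single_apply]
      split_ifs <;> rfl
    rw [← h3]
    exact h2
  · -- the annihilator is everything
    exfalso
    apply hv0
    let v' : Fin N → cl (K : Set F) := fun i => ⟨v i, hvK i⟩
    have hv' : v' ∈ R := hv
    funext i
    have h1 := (h (Pi.single i 1) (fun j => by
      rw [Pi.single_apply]
      split_ifs
      · exact one_mem _
      · exact zero_mem _)).1 v' hv'
    rw [dotProduct_single, mul_one] at h1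
    exact h1

end Pool.Agent.AXE
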