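import Mathlib
import Pool.Agent.AXE.HHol

/-!
# Forms which are regular on a projective variety have no transcendental primitive on a curve
-/

set_option autoImplicit false
set_option linter.unusedSectionVars false

namespace Pool.Agent.AXE

open WithZero Polynomial

section core

variable {κ L : Type} [Field κ] [CharZero κ] [Field L] [CharZero L] [Algebra κ L]
  [Algebra κ[X] L] [IsScalarTower κ κ[X] L] [FaithfulSMul κ[X] L]

/-- the sums of `s ds'` with `s`, `s'` in the algebra generated by the ratios `τ_b / τ_a` -/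
def regSums (κ : Type) {L : Type} [Field κ] [Field L] [Algebra κ L] {I : Type} (τ : I → L) (a : I)
    (δ : L → L) : AddSubgroup L :=
  AddSubgroup.closure {z | ∃ s ∈ Algebra.adjoin κ (Set.range fun b => τ b / τ a),
    ∃ s' ∈ Algebra.adjoin κ (Set.range fun b => τ b / τ a), z = s * δ s'}

theorem hol_core_gen (K : Type) [Field K] [CharZero K] [Algebra κ[X] K]
    [IsFractionRing κ[X] K] [Algebra K L] [IsScalarTower κ[X] K L] [FiniteDimensional K L]
    (δ : Derivation ℤ L L) (hδκ : ∀ a : κ, δ (algebraMap κ L a) = 0)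
    (hw : δ (algebraMap κ[X] L X) = -algebraMap κ[X] L X)
    {I : Type} [Finite I] (τ : I → L) (hτ : ∃ a, τ a ≠ 0)
    (hsum : ∀ a, τ a ≠ 0 → (algebraMap κ[X] L X)⁻¹ ∈ regSums κ τ a δ) : False := by
  obtain ⟨v, hκ, hX, C, hC⟩ := exists_val K δ hδκ hw
  have hQ : ∀ q : ℚ, v (q : L) ≤ 1 := by
    intro q
    by_cases hq : q = 0
    · rw [hq, Rat.cast_zero, map_zero]
      exact zero_le
    · have h1 : (q : L) = algebraMap κ L (q : κ) := (map_ratCast (algebraMap κ L) q).symm
      rw [h1, hκ]
      exact Rat.cast_ne_zero.2 hq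
  have hK0 : ∀ a ∈ (algebraMap K L).fieldRange, v (δ a) ≤ v a := by
    rintro _ ⟨a, rfl⟩
    exact val_der_frac v hκ hX K δ hδκ hw a
  have halg : ∀ z : L, IsAlgebraic (algebraMap K L).fieldRange z := by
    intro z
    have h1 : IsAlgebraic K z := Algebra.IsAlgebraic.isAlgebraic z
    exact h1.ringHom_of_comp_eq (f := (algebraMap K L).rangeRestrictField)
      (g := RingHom.id L) (RingHom.injective _) rfl
  have hlog := log_stable v δ _ hK0 halg hQ C hC
  -- a chart in which the point is integral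
  obtain ⟨a, ha, hmax⟩ : ∃ a, τ a ≠ 0 ∧ ∀ b, v (τ b) ≤ v (τ a) := by
    obtain ⟨a0, ha0⟩ := hτ
    have : Nonempty I := ⟨a0⟩
    obtain ⟨a, ha⟩ := Finite.exists_max (fun b => v (τ b))
    refine ⟨a, ?_, ha⟩
    intro h
    have h1 := ha a0
    simp only [h, map_zero] at h1
    exact ha0 ((Valuation.zero_iff v).1 (le_antisymm h1 zero_le))
  have hva : 0 < v (τ a) := by
    rw [zero_lt_iff, Valuation.ne_zero_iff]
    exact ha
  have hint : ∀ s ∈ Algebra.adjoin κ (Set.range fun b => τ b / τ a), v s ≤ 1 := by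
    intro s hs
    induction hs using Algebra.adjoin_induction with
    | mem x hx =>
      obtain ⟨b, rfl⟩ := hx
      change v (τ b / τ a) ≤ 1
      rw [map_div₀, div_le_iff₀ hva, one_mul]
      exact hmax b
    | algebraMap r =>
      by_cases hr : r = 0
      · rw [hr, map_zero, map_zero]
        exact zero_le
      · exact (hκ r hr).le
    | add x y _ _ hx hy => exact Valuation.map_add_le v hx hy
    | mul x y _ _ hx hy =>
      rw [map_mul]
      exact mul_le_one' hx hy
  have hreg : ∀ z ∈ regSums κ τ a δ, v z ≤ 1 := by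
    intro z hz
    induction hz using AddSubgroup.closure_induction with
    | mem x hx =>
      obtain ⟨s, hs, s', hs', rfl⟩ := hx
      rw [map_mul]
      exact mul_le_one' (hint s hs) ((hlog s').trans (hint s' hs'))
    | zero =>
      rw [map_zero]
      exact zero_le
    | add x y _ _ hx hy => exact Valuation.map_add_le v hx hy
    | neg x _ hx =>
      rw [Valuation.map_neg]
      exact hx
  have h1 := hreg _ (hsum a ha)
  have hX0 : algebraMap κ[X] L X ≠ 0 := by
    intro h
    exact X_ne_zero (FaithfulSMul.algebraMap_injective κ[X] L (by rw [h, map_zero]))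
  have hX1 : 0 < v (algebraMap κ[X] L X) := by
    rw [zero_lt_iff, Valuation.ne_zero_iff]
    exact hX0
  rw [map_inv₀, inv_le_one₀ hX1] at h1
  exact not_lt_of_ge h1 hX

end core

variable {F : Type} [Field F] [CharZero F]

/-- a form which is regular in all charts and has the primitive `h`, at a point which is algebraic
over `k0(h)` -/
theorem hol_gen (k0 : Subfield F) (D : Derivation ℤ F F) (hD : Kills D k0) {I : Type} [Finite I]
    (τ : I → F) (hτ : ∃ a, τ a ≠ 0) (φ : Derivation ℤ F F → F)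
    (hφ : ∀ (c : F) T, φ (c • T) = c * φ T)
    (hreg : ∀ a, τ a ≠ 0 → ∀ T : Derivation ℤ F F, Kills T k0 → φ T ∈ regSums k0 τ a T)
    (h : F) (hx : ∀ b, τ b ∈ cl ((k0 : Set F) ∪ {h})) (hDh : D h = φ D) : D h = 0 := by
  classical
  by_contra h0
  have hc := charZero_sub k0
  have hh0 : h ≠ 0 := by
    rintro rfl
    exact h0 (map_zero D)
  have htr : Transcendental k0 h := fun ha => h0 (kills_of_isAlgebraic hD ha)
  have htr' : Transcendental k0 h⁻¹ := fun ha => htr (by
    have := ha.inv
    rwa [inv_inv] at this)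
  let aF : Algebra k0[X] F := (aeval (R := k0) h⁻¹).toAlgebra
  have haF : ∀ p : k0[X], algebraMap k0[X] F p = aeval h⁻¹ p := fun p => rfl
  have ht : IsScalarTower k0 k0[X] F := IsScalarTower.of_algebraMap_eq (fun a => by
    rw [haF]
    change algebraMap k0 F a = aeval h⁻¹ (C a)
    rw [aeval_C])
  have hinj : Function.Injective (algebraMap k0[X] F) :=
    transcendental_iff_injective.1 htr'
  have hfaith : FaithfulSMul k0[X] F := (faithfulSMul_iff_algebraMap_injective _ _).2 hinj
  let K := FractionRing k0[X]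
  let aK : Algebra K F := (IsFractionRing.lift (K := K) hinj).toAlgebra
  have ht2 : IsScalarTower k0[X] K F := IsScalarTower.of_algebraMap_eq (fun r =>
    (IsFractionRing.lift_algebraMap (K := K) hinj r).symm)
  have hK : CharZero K := inferInstance
  have hXF : algebraMap k0[X] F X = h⁻¹ := aeval_X _
  -- the range
  set R := (algebraMap K F).fieldRange with hR
  have hpR : ∀ p : k0[X], algebraMap k0[X] F p ∈ R := fun p => by
    rw [IsScalarTower.algebraMap_apply k0[X] K F]
    exact ⟨_, rfl⟩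
  have hk0R : ∀ a ∈ k0, a ∈ R := fun a ha => by
    have h1 := hpR (C ⟨a, ha⟩)
    rw [algebraMap_C_eq] at h1
    exact h1
  have hhR : h ∈ R := by
    have h1 := hpR X
    rw [hXF] at h1
    have h2 := R.inv_mem h1
    rwa [inv_inv] at h2
  -- the derivation
  let δF : Derivation ℤ F F := (h / D h) • D
  have hδF : ∀ a, δF a = h / D h * D a := fun a => rfl
  have hδk : ∀ a : k0, δF (algebraMap k0 F a) = 0 := fun a => by
    have h1 : D (algebraMap k0 F a) = 0 := hD _ a.2
    rw [hδF, h1, mul_zero]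
  have hδh : δF h = h := by
    rw [hδF]
    field_simp
  have hδw : δF (algebraMap k0[X] F X) = -algebraMap k0[X] F X := by
    rw [hXF, Derivation.leibniz_inv, hδh, smul_eq_mul]
    field_simp
  have hδp : ∀ p : k0[X], δF (algebraMap k0[X] F p) ∈ R := fun p => by
    rw [der_pol δF hδk hδw]
    exact R.neg_mem (hpR _)
  have hδR : ∀ m ∈ R, δF m ∈ R := by
    rintro _ ⟨a, rfl⟩
    obtain ⟨p, q, hq, rfl⟩ := IsFractionRing.div_surjective (A := k0[X]) a
    rw [map_div₀, ← IsScalarTower.algebraMap_apply k0[X] K F,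
      ← IsScalarTower.algebraMap_apply k0[X] K F]
    have hq1 : algebraMap k0[X] F q ≠ 0 := by
      intro h
      exact nonZeroDivisors.ne_zero hq (hinj (by rw [h, map_zero]))
    rw [der_div' δF _ _ hq1]
    exact R.div_mem (R.sub_mem (R.mul_mem (hδp _) (hpR _)) (R.mul_mem (hpR _) (hδp _)))
      (R.pow_mem (hpR _) 2)
  -- algebraic elements
  have halgR : ∀ z ∈ cl ((k0 : Set F) ∪ {h}), IsAlgebraic R z := fun z hz => by
    rw [← mem_cl_iff]
    refine cl_mono ?_ hz
    rintro s (hs | hs)
    · exact hk0R s hs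
    · rw [Set.mem_singleton_iff.1 hs]
      exact hhR
  have halgK : ∀ z : F, IsAlgebraic R z → IsAlgebraic K z := by
    rintro z ⟨p, hp0, hp⟩
    obtain ⟨q, hq⟩ := Polynomial.map_surjective (algebraMap K F).rangeRestrictField
      (RingHom.rangeRestrictField_bijective _).2 p
    refine ⟨q, ?_, ?_⟩
    · rintro rfl
      rw [Polynomial.map_zero] at hq
      exact hp0 hq.symm
    · rw [← hp, ← hq, aeval_def, aeval_def, eval₂_map]
      rfl
  let L1 := IntermediateField.adjoin K (Set.range τ)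
  have hfin : FiniteDimensional K L1 := IntermediateField.finiteDimensional_adjoin (by
    rintro s ⟨p, rfl⟩
    exact (halgK _ (halgR _ (hx p))).isIntegral)
  have hRN : R ≤ L1.toSubfield := by
    rintro _ ⟨a, rfl⟩
    exact L1.algebraMap_mem a
  have hstab : ∀ z ∈ L1.toSubfield, δF z ∈ L1.toSubfield := by
    intro z hz
    have h1 : IsAlgebraic K (⟨z, hz⟩ : L1) := Algebra.IsAlgebraic.isAlgebraic _
    have h2 : IsAlgebraic K z := h1.algebraMap (A := F)
    have h3 : IsAlgebraic R z := h2.ringHom_of_comp_eq (f := (algebraMap K F).rangeRestrictField)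
      (g := RingHom.id F) (RingHom.injective _) rfl
    exact stab_alg hRN δF hδR hz h3
  let δ1 : Derivation ℤ L1 L1 := restrDer L1.toSubfield δF hstab
  have hδ1 : ∀ z : L1, ((δ1 z : L1) : F) = δF (z : F) := fun z => rfl
  let a1 : Algebra k0[X] L1 := ((algebraMap K L1).comp (algebraMap k0[X] K)).toAlgebra
  let a0 : Algebra k0 L1 := ((algebraMap k0[X] L1).comp C).toAlgebra
  have ht3 : IsScalarTower k0 k0[X] L1 := IsScalarTower.of_algebraMap_eq' rfl
  have ht4 : IsScalarTower k0[X] K L1 := IsScalarTower.of_algebraMap_eq' rfl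
  have hc1 : ∀ p : k0[X], ((algebraMap k0[X] L1 p : L1) : F) = algebraMap k0[X] F p := fun p => by
    rw [IsScalarTower.algebraMap_apply k0[X] K F]
    rfl
  have hfaith1 : FaithfulSMul k0[X] L1 := (faithfulSMul_iff_algebraMap_injective _ _).2
    (fun p q hpq => hinj (by rw [← hc1, ← hc1, hpq]))
  have hcL1 : CharZero L1 := charZero_of_injective_algebraMap (algebraMap K L1).injective
  have hc0 : ∀ a : k0, ((algebraMap k0 L1 a : L1) : F) = algebraMap k0 F a := fun a => by
    have h2 := hc1 (C a)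
    rw [algebraMap_C_eq, algebraMap_C_eq] at h2
    exact h2
  let τ1 : I → L1 := fun b => ⟨τ b, IntermediateField.subset_adjoin K _ ⟨b, rfl⟩⟩
  -- the inclusion as a homomorphism of algebras
  let ι : L1 →ₐ[k0] F := { L1.val.toRingHom with commutes' := hc0 }
  have hι : ∀ z : L1, ι z = (z : F) := fun z => rfl
  have hadj : ∀ a, ∀ s ∈ Algebra.adjoin k0 (Set.range fun b => τ b / τ a),
      ∃ s1 ∈ Algebra.adjoin k0 (Set.range fun b => τ1 b / τ1 a), ((s1 : L1) : F) = s := by
    intro a s hs
    have h1 : (Algebra.adjoin k0 (Set.range fun b => τ1 b / τ1 a)).map ι =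
        Algebra.adjoin k0 (Set.range fun b => τ b / τ a) := by
      rw [AlgHom.map_adjoin, ← Set.range_comp]
      rfl
    rw [← h1] at hs
    obtain ⟨s1, hs1, hs1'⟩ := hs
    exact ⟨s1, hs1, hs1'⟩
  have hw0 : (((algebraMap k0[X] L1 X)⁻¹ : L1) : F) = h := by
    have h4 : (((algebraMap k0[X] L1 X)⁻¹ : L1) : F) = ((algebraMap k0[X] L1 X : L1) : F)⁻¹ := rfl
    rw [h4, hc1, hXF, inv_inv]
  have hsums : ∀ a, ∀ z ∈ regSums k0 τ a δF, ∃ z1 ∈ regSums k0 τ1 a δ1, ((z1 : L1) : F) = z := by
    intro a z hz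
    induction hz using AddSubgroup.closure_induction with
    | mem x hx =>
      obtain ⟨s, hs, s', hs', rfl⟩ := hx
      obtain ⟨s1, hs1, hs1'⟩ := hadj a s hs
      obtain ⟨s2, hs2, hs2'⟩ := hadj a s' hs'
      refine ⟨s1 * δ1 s2, AddSubgroup.subset_closure ⟨s1, hs1, s2, hs2, rfl⟩, ?_⟩
      rw [← hs1', ← hs2', ← hδ1]
      rfl
    | zero => exact ⟨0, AddSubgroup.zero_mem _, rfl⟩
    | add x y _ _ hx hy =>
      obtain ⟨x1, hx1, hx1'⟩ := hx
      obtain ⟨y1, hy1, hy1'⟩ := hy
      exact ⟨x1 + y1, AddSubgroup.add_mem _ hx1 hy1, by rw [← hx1', ← hy1']; rfl⟩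
    | neg x _ hx =>
      obtain ⟨x1, hx1, hx1'⟩ := hx
      exact ⟨-x1, AddSubgroup.neg_mem _ hx1, by rw [← hx1']; rfl⟩
  refine hol_core_gen (κ := k0) (L := L1) K δ1 (fun a => ?_) ?_ τ1 ?_ (fun a ha => ?_)
  · apply Subtype.ext
    rw [hδ1, hc0, hδk]
    rfl
  · apply Subtype.ext
    rw [hδ1, hc1, hδw, ← hc1]
    rfl
  · obtain ⟨a, ha⟩ := hτ
    exact ⟨a, fun h => ha (congrArg (fun t : L1 => (t : F)) h)⟩
  · have ha' : τ a ≠ 0 := fun h => ha (Subtype.ext h)
    have h1 : h ∈ regSums k0 τ a δF := by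
      have h2 : φ δF = h := by
        change φ ((h / D h) • D) = h
        rw [hφ, ← hDh]
        field_simp
      rw [← h2]
      exact hreg a ha' δF (fun s hs => hδk ⟨s, hs⟩)
    obtain ⟨z1, hz1, hz1'⟩ := hsums a h h1
    have h3 : (algebraMap k0[X] L1 X)⁻¹ = z1 := Subtype.ext (by rw [hw0, hz1'])
    rw [h3]
    exact hz1

end Pool.Agent.AXE
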