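import Mathlib
import Pool.Agent.AXE.KHol

/-!
# Points whose regular forms are exact are algebraic over the base
-/

set_option autoImplicit false
set_option linter.unusedSectionVars false

namespace Pool.Agent.AXE

open Polynomial

variable {F : Type} [Field F] [CharZero F]

/-- a basis of a set of elements containing a given transcendental element -/
theorem exists_basis_through (M : Subfield F) (Z : Set F) (z0 : F) (hz0 : z0 ∈ Z)
    (htr : z0 ∉ cl (M : Set F)) :
    ∃ u : Set F, z0 ∈ u ∧ AlgebraicIndepOn M id u ∧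
      ∀ D : Derivation ℤ F F, Kills D M → Kills D u → Kills D Z := by
  have htr' : Transcendental M z0 := fun h => htr (mem_cl_iff.2 h)
  have hs : AlgebraicIndepOn M id ({z0} : Set F) :=
    (algebraicIndependent_unique_type_iff (R := M)).2 htr'
  obtain ⟨u, hu0, hu⟩ := exists_maximal_algebraicIndependent (R := M) (A := F) {z0} Z
    (Set.singleton_subset_iff.2 hz0) hs
  refine ⟨u, hu0 rfl, hu.prop.1, fun D hM hD z hz => ?_⟩
  by_cases hzu : z ∈ u
  · exact hD z hzu
  · have h1 : IsAlgebraic (Algebra.adjoin M (id '' u)) (id z) := by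
      by_contra h2
      have h3 : AlgebraicIndepOn M id (insert z u) := hu.prop.1.insert h2
      have h4 := hu.2 ⟨h3, Set.insert_subset hz hu.prop.2⟩ (Set.subset_insert z u)
      exact hzu (h4 (Set.mem_insert z u))
    rw [Set.image_id, id] at h1
    have h2 : IsAlgebraic (cl ((M : Set F) ∪ u)) z := isAlgebraic_of_le (fun a => adjoin_le_cl) h1
    exact cl_cl _ h2 D (fun s hs => hs.elim (hM s) (hD s))

/-- if the values at a point of regular forms which separate tangent vectors are exact over `k1`,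
the point is algebraic over `k1` -/
theorem hol_base_gen (k1 : Subfield F) (V : Set F) {I ι : Type} [Finite I] (τ : I → F)
    (hτ : ∃ a, τ a ≠ 0) (hτV : ∀ b, τ b ∈ V) (φ : ι → Derivation ℤ F F → F)
    (hφ : ∀ i (c : F) T, φ i (c • T) = c * φ i T)
    (hreg : ∀ i a, τ a ≠ 0 → ∀ T : Derivation ℤ F F, Kills T k1 → φ i T ∈ regSums k1 τ a T)
    (hzero : ∀ T : Derivation ℤ F F, Kills T k1 → Kills T V → ∀ i, φ i T = 0)
    (hnd : ∀ T : Derivation ℤ F F, Kills T k1 → (∀ i, φ i T = 0) → Kills T V)
    (h : ι → F) (hT : ∀ T : Derivation ℤ F F, Kills T k1 → ∀ i, T (h i) = φ i T) :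
    ∀ v ∈ V, v ∈ cl (k1 : Set F) := by
  classical
  by_contra hcon
  push Not at hcon
  obtain ⟨v0, hv0, hv0k⟩ := hcon
  obtain ⟨u, hvu, hui, hu⟩ := exists_basis_through k1 V v0 hv0 hv0k
  obtain ⟨D, hDk1, hDu⟩ := exists_der_sub k1 (fun i : u => (i : F)) hui
    (fun i => if (i : F) = v0 then 1 else 0)
  have hDv0 : D v0 = 1 := by
    have h1 := hDu ⟨v0, hvu⟩
    rw [if_pos rfl] at h1
    exact h1
  set S0 : Set F := (k1 : Set F) ∪ (u \ {v0}) with hS0
  have hDS : Kills D S0 := by
    rintro s (hs | ⟨hs, hs'⟩)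
    · exact hDk1 s hs
    · have h1 := hDu ⟨s, hs⟩
      exact h1.trans (if_neg hs')
  let k' : Subfield F := cl S0
  have hk1 : ∀ a ∈ k1, a ∈ k' := fun a ha => subset_cl _ (Or.inl ha)
  have hDk' : Kills D k' := kills_cl hDS
  -- derivations killing `S0` and `v0` kill `V`
  have hall : ∀ T : Derivation ℤ F F, Kills T S0 → T v0 = 0 → Kills T V := fun T hTS hT0 =>
    hu T (fun a ha => hTS a (Or.inl ha)) (fun a ha => by
      by_cases h0 : a = v0
      · rw [h0]
        exact hT0
      · exact hTS a (Or.inr ⟨ha, h0⟩))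
  have hh : ∀ i, D (h i) = 0 := by
    intro i
    by_contra hne
    refine hne (hol_gen k' D hDk' τ hτ (φ i) (hφ i) (fun a ha T hT => ?_) (h i)
      (fun b D1 hD1 => ?_) (hT D hDk1 i))
    · -- enlarge the field of coefficients
      have h1 := hreg i a ha T (fun s hs => hT s (hk1 s hs))
      have hle : ∀ s ∈ Algebra.adjoin k1 (Set.range fun b => τ b / τ a),
          s ∈ Algebra.adjoin k' (Set.range fun b => τ b / τ a) := by
        intro s hs
        induction hs using Algebra.adjoin_induction with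
        | mem x hx => exact Algebra.subset_adjoin hx
        | algebraMap r => exact Subalgebra.algebraMap_mem _ (⟨r.1, hk1 r.1 r.2⟩ : k')
        | add x y _ _ hx hy => exact add_mem hx hy
        | mul x y _ _ hx hy => exact mul_mem hx hy
      refine (AddSubgroup.closure_mono ?_) h1
      rintro z ⟨s, hs, s', hs', rfl⟩
      exact ⟨s, hle s hs, s', hle s' hs', rfl⟩
    · have hD1S : Kills D1 S0 := fun s hs => hD1 s (Or.inl (subset_cl _ hs))
      set D2 : Derivation ℤ F F := D1 - D1 v0 • D with hD2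
      have hD2a : ∀ a, D2 a = D1 a - D1 v0 * D a := fun a => rfl
      have hD2S : Kills D2 S0 := fun s hs => by rw [hD2a, hD1S s hs, hDS s hs, mul_zero, sub_zero]
      have hD2v : D2 v0 = 0 := by rw [hD2a, hDv0, mul_one, sub_self]
      have hD2V := hall D2 hD2S hD2v
      have hD2k1 : Kills D2 k1 := fun a ha => hD2S a (Or.inl ha)
      have hD2h : D2 (h i) = 0 := by rw [hT D2 hD2k1 i, hzero D2 hD2k1 hD2V i]
      have hD1h : D1 (h i) = 0 := hD1 _ (Or.inr rfl)
      rw [hD2a, hD1h, zero_sub, neg_eq_zero] at hD2h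
      have h0 := (mul_eq_zero.1 hD2h).resolve_right hne
      have h1 := hD2V _ (hτV b)
      rw [hD2a, h0, zero_mul, sub_zero] at h1
      exact h1
  have h1 := hnd D hDk1 (fun i => by rw [← hT D hDk1 i, hh i]) v0 hv0
  rw [hDv0] at h1
  exact one_ne_zero h1

end Pool.Agent.AXE
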