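import Mathlib
import Pool.Agent.AXE.JLie
import Pool.Agent.AXE.KBase

/-!
# Differential forms, their primitives and periods: the abstract set-up
-/

set_option autoImplicit false
set_option linter.unusedSectionVars false

namespace Pool.Agent.AXE

open Matrix

variable {F : Type} [Field F] [CharZero F]

/-- values of closed forms at a point, a connection, its solutions and a logarithm of the point -/
structure ACtx (d : Derivation ℤ F F) (K : Subfield F) (N : ℕ) (J : Type) [Fintype J]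
    [DecidableEq J] where
  hK : ∀ a ∈ K, d a ∈ K
  hC : ∀ a, d a = 0 → a ∈ K
  A : Matrix (Fin N) (Fin N) F
  hA : ∀ i j, A i j ∈ K
  Φ : Matrix (Fin N) J F
  Ψ : Matrix J (Fin N) F
  ΨΦ : Ψ * Φ = 1
  ΦΨ : Φ * Ψ = 1
  hΦ : Φ.map d = A * Φ
  ω : Derivation ℤ F F → Fin N → F
  ω_add : ∀ T T' i, ω (T + T') i = ω T i + ω T' i
  ω_smul : ∀ (a : F) T i, ω (a • T) i = a * ω T i
  closed : ∀ T T', Kills T K → Kills T' K → ∀ i, T (ω T' i) - T' (ω T i) = ω ⁅T, T'⁆ i
  r : Fin N → F
  gm : ∀ T, Kills T K → ∀ i, d (ω T i) - ω ⁅d, T⁆ i = ∑ j, A i j * ω T j + T (r i)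
  x : Fin N → F
  hx : ∀ i, d (x i) = ∑ j, A i j * x j + r i
  V : Set F
  zero : ∀ T, Kills T K → Kills T V → ∀ i, ω T i = 0
  point : ∀ k1 : Subfield F, K ≤ k1 → ∀ h : Fin N → F,
    (∀ T, Kills T k1 → ∀ i, T (h i) = ω T i) → ∀ v ∈ V, v ∈ cl (k1 : Set F)

namespace ACtx

variable {d : Derivation ℤ F F} {K : Subfield F} {N : ℕ} {J : Type} [Fintype J]
  [DecidableEq J] (c : ACtx d K N J)

/-- generators of the field of periods -/
def gen : Set F := (K : Set F) ∪ {z | ∃ a b, z = c.Φ a b}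

/-- the relative algebraic closure of the field of periods -/
def k : Subfield F := cl c.gen

theorem K_le_k {a : F} (ha : a ∈ K) : a ∈ c.k := subset_cl _ (Or.inl ha)

theorem Φ_mem (a : Fin N) (b : J) : c.Φ a b ∈ c.k :=
  subset_cl _ (Or.inr ⟨a, b, rfl⟩)

theorem Ψ_map (T : Derivation ℤ F F) : c.Ψ.map T = -(c.Ψ * c.Φ.map T * c.Ψ) := by
  have h3 : (c.Ψ * c.Φ).map T = 0 := by
    rw [c.ΨΦ]
    exact one_map_der T
  rw [map_mul_der] at h3
  have h4 : (c.Ψ.map T * c.Φ + c.Ψ * c.Φ.map T) * c.Ψ = 0 := by rw [h3, Matrix.zero_mul]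
  rw [Matrix.add_mul, Matrix.mul_assoc, c.ΦΨ, Matrix.mul_one] at h4
  exact eq_neg_of_add_eq_zero_left h4

/-- the defect of the logarithm -/
def B (T : Derivation ℤ F F) (i : Fin N) : F := T (c.x i) - c.ω T i

/-- the defect of the logarithm in the basis of periods -/
def b (T : Derivation ℤ F F) : J → F := c.Ψ *ᵥ c.B T

theorem B_eq (T : Derivation ℤ F F) (i : Fin N) : c.B T i = T (c.x i) - c.ω T i := rfl

theorem b_eq (T : Derivation ℤ F F) : c.b T = c.Ψ *ᵥ c.B T := rfl

theorem Φb (T : Derivation ℤ F F) : c.Φ *ᵥ c.b T = c.B T := by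
  rw [b_eq, Matrix.mulVec_mulVec, c.ΦΨ, Matrix.one_mulVec]

theorem B_add (T T' : Derivation ℤ F F) : c.B (T + T') = c.B T + c.B T' := by
  funext i
  rw [Pi.add_apply, B_eq, B_eq, B_eq, c.ω_add, Derivation.add_apply]
  ring

theorem B_smul (a : F) (T : Derivation ℤ F F) : c.B (a • T) = a • c.B T := by
  funext i
  rw [Pi.smul_apply, B_eq, B_eq, c.ω_smul, Derivation.smul_apply, smul_eq_mul, smul_eq_mul]
  ring

theorem b_add (T T' : Derivation ℤ F F) : c.b (T + T') = c.b T + c.b T' := by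
  rw [b_eq, B_add, Matrix.mulVec_add]
  rfl

theorem b_smul (a : F) (T : Derivation ℤ F F) : c.b (a • T) = a • c.b T := by
  rw [b_eq, B_smul, Matrix.mulVec_smul]
  rfl

/-- the defect as a linear map -/
def bL : Derivation ℤ F F →ₗ[F] (J → F) where
  toFun := c.b
  map_add' := c.b_add
  map_smul' := c.b_smul

theorem Ψ_d : c.Ψ.map d = -(c.Ψ * c.A) := by
  rw [c.Ψ_map, c.hΦ, ← Matrix.mul_assoc, Matrix.mul_assoc (c.Ψ * c.A), c.ΦΨ, Matrix.mul_one]

theorem dB {T : Derivation ℤ F F} (hT : Kills T K) (i : Fin N) :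
    d (c.B T i) = (c.A *ᵥ c.B T) i + c.B ⁅d, T⁆ i := by
  have h1 := congrArg T (c.hx i)
  rw [map_add, map_sum] at h1
  have h2 : ∀ j, T (c.A i j * c.x j) = c.A i j * T (c.x j) := fun j => by
    rw [Derivation.leibniz, hT _ (c.hA i j)]
    simp only [smul_eq_mul]
    ring
  rw [Finset.sum_congr rfl (fun j _ => h2 j)] at h1
  have h3 := c.gm T hT i
  have h4 : (c.A *ᵥ c.B T) i = ∑ j, c.A i j * T (c.x j) - ∑ j, c.A i j * c.ω T j := by
    rw [← Finset.sum_sub_distrib]
    change ∑ j, c.A i j * c.B T j = _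
    exact Finset.sum_congr rfl (fun j _ => by rw [B_eq, mul_sub])
  rw [h4, B_eq, B_eq, map_sub, Derivation.commutator_apply]
  linear_combination h1 - h3

theorem db {T : Derivation ℤ F F} (hT : Kills T K) (j : J) : d (c.b T j) = c.b ⁅d, T⁆ j := by
  rw [b_eq, map_mulVec_der, c.Ψ_d]
  have h1 : (fun i => d (c.B T i)) = c.A *ᵥ c.B T + c.B ⁅d, T⁆ := funext fun i => c.dB hT i
  rw [h1, Matrix.mulVec_add, Matrix.neg_mulVec, Matrix.mulVec_mulVec, Pi.add_apply, Pi.neg_apply,
    ← b_eq]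
  ring

theorem B_lie {T T' : Derivation ℤ F F} (h : Kills T K) (h' : Kills T' K) (i : Fin N) :
    c.B ⁅T, T'⁆ i = T (c.B T' i) - T' (c.B T i) := by
  rw [B_eq, B_eq, B_eq, ← c.closed T T' h h' i, Derivation.commutator_apply, map_sub, map_sub]
  ring

/-- the derivation `T` over `K` acts on the periods by the constant matrix `m` -/
structure Good (T : Derivation ℤ F F) (m : Matrix J J F) : Prop where
  kill : Kills T K
  const : ∀ i j, d (m i j) = 0
  map : c.Φ.map T = c.Φ * m

variable {c}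

theorem const_mul {m m' : Matrix J J F} (h : ∀ i j, d (m i j) = 0) (h' : ∀ i j, d (m' i j) = 0)
    (i j : J) : d ((m * m') i j) = 0 := by
  have h1 : (m * m').map d = 0 := by
    rw [map_mul_der, map_zero_of h, map_zero_of h', Matrix.zero_mul, Matrix.mul_zero, add_zero]
  exact congrFun (congrFun h1 i) j

theorem Good.lie {T T' : Derivation ℤ F F} {m m' : Matrix J J F}
    (h : c.Good T m) (h' : c.Good T' m') : c.Good ⁅T, T'⁆ (m * m' - m' * m) where
  kill := fun s hs => by
    rw [Derivation.commutator_apply, h.kill s hs, h'.kill s hs, map_zero, map_zero, sub_zero]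
  const := fun i j => by
    rw [Matrix.sub_apply, map_sub, const_mul h.const h'.const, const_mul h'.const h.const,
      sub_zero]
  map := by
    have e1 : c.Φ.map (⁅T, T'⁆ : Derivation ℤ F F) = (c.Φ.map T').map T - (c.Φ.map T).map T' := by
      ext i j
      rw [Matrix.map_apply, Derivation.commutator_apply]
      rfl
    have e2 : m'.map T = 0 := map_zero_of (fun i j => h.kill _ (c.hC _ (h'.const i j)))
    have e3 : m.map T' = 0 := map_zero_of (fun i j => h'.kill _ (c.hC _ (h.const i j)))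
    rw [e1, h.map, h'.map, map_mul_der, map_mul_der, e2, e3, h.map, h'.map, Matrix.mul_zero,
      add_zero, add_zero, Matrix.mul_sub, Matrix.mul_assoc, Matrix.mul_assoc]

theorem Good.m_mem {T : Derivation ℤ F F} {m : Matrix J J F}
    (h : c.Good T m) (i j : J) : m i j ∈ c.k := c.K_le_k (c.hC _ (h.const i j))

theorem Good.stab {T : Derivation ℤ F F} {m : Matrix J J F}
    (h : c.Good T m) {z : F} (hz : z ∈ c.k) : T z ∈ c.k := by
  refine AXE.stab (fun s hs => ?_) hz
  rcases hs with hs | ⟨a, b, rfl⟩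
  · rw [h.kill s hs]
    exact c.k.zero_mem
  · have h1 := congrFun (congrFun h.map a) b
    rw [Matrix.map_apply, Matrix.mul_apply] at h1
    rw [h1]
    exact c.k.sum_mem (fun l _ => c.k.mul_mem (c.Φ_mem a l) (h.m_mem l b))

theorem Good.comm {T : Derivation ℤ F F} {m : Matrix J J F}
    (h : c.Good T m) : Kills ⁅d, T⁆ c.k := by
  refine kills_cl (fun s hs => ?_)
  rcases hs with hs | ⟨a, b, rfl⟩
  · rw [Derivation.commutator_apply, h.kill s hs, map_zero, h.kill _ (c.hK s hs), sub_zero]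
  · have e1 : c.Φ.map (⁅d, T⁆ : Derivation ℤ F F) = (c.Φ.map T).map d - (c.Φ.map d).map T := by
      ext i j
      rw [Matrix.map_apply, Derivation.commutator_apply]
      rfl
    have e2 : m.map d = 0 := map_zero_of h.const
    have e3 : c.A.map T = 0 := map_zero_of (fun i j => h.kill _ (c.hA i j))
    rw [h.map, c.hΦ, map_mul_der, map_mul_der, e2, e3, h.map, c.hΦ, Matrix.mul_zero, add_zero,
      Matrix.zero_mul, zero_add, Matrix.mul_assoc, sub_self] at e1
    exact congrFun (congrFun e1 a) b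

theorem kills_K {T : Derivation ℤ F F} (h : Kills T c.k) : Kills T K := fun a ha =>
  h a (c.K_le_k ha)

end ACtx

end Pool.Agent.AXE
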