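import Mathlib
import Pool.Agent.AXE.AWhite

/-!
# The dichotomy for an irreducible connection
-/

set_option autoImplicit false
set_option linter.unusedSectionVars false

namespace Pool.Agent.AXE

open Matrix

variable {F : Type} [Field F] [CharZero F] {d : Derivation ℤ F F} {K : Subfield F} {N : ℕ}
  {J : Type} [Fintype J] [DecidableEq J]

namespace ACtx

variable {c : ACtx d K N J}

/-- the corrected logarithm is a primitive of the differential forms over `K` -/
theorem xhat (hV : ∀ v ∈ c.V, v ∈ c.k) (hx : ∀ i, c.x i ∈ c.k) (u0 : J → F)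
    (hu0 : ∀ j, d (u0 j) = 0) (hb : ∀ T m, c.Good T m → c.b T = m *ᵥ u0)
    (D : Derivation ℤ F F) (hD : Kills D K) (i : Fin N) :
    D (c.x i - (c.Φ *ᵥ u0) i) = c.ω D i := by
  obtain ⟨D', hD', hDD'⟩ := c.exists_dec hD
  have hu0K : ∀ j, u0 j ∈ K := fun j => c.hC _ (hu0 j)
  have hxk : c.x i - (c.Φ *ᵥ u0) i ∈ c.k :=
    c.k.sub_mem (hx i) (mulVec_mem _ _ _ c.Φ_mem (fun j => c.K_le_k (hu0K j)) i)
  have h1 : D (c.x i - (c.Φ *ᵥ u0) i) = D' (c.x i - (c.Φ *ᵥ u0) i) := by
    have h := hDD' _ hxk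
    rw [Derivation.sub_apply, sub_eq_zero] at h
    exact h
  have h2 : c.ω D i = c.ω D' i := by
    have h : c.ω (D - D') i = 0 := ω_of_kills hDD' hV i
    have h3 : D = (D - D') + D' := by rw [sub_add_cancel]
    rw [h3, c.ω_add, h, zero_add]
  rw [h1, h2]
  let Q : Submodule F (Derivation ℤ F F) :=
    { carrier := {T | T (c.x i - (c.Φ *ᵥ u0) i) = c.ω T i}
      add_mem' := fun {a b} ha hb => by
        have ha' : a (c.x i - (c.Φ *ᵥ u0) i) = c.ω a i := ha
        have hb' : b (c.x i - (c.Φ *ᵥ u0) i) = c.ω b i := hb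
        change (a + b) (c.x i - (c.Φ *ᵥ u0) i) = c.ω (a + b) i
        rw [Derivation.add_apply, ha', hb', c.ω_add]
      zero_mem' := by
        change (0 : Derivation ℤ F F) _ = c.ω 0 i
        rw [ω_of_kills (fun s _ => rfl) hV]
        rfl
      smul_mem' := fun t a ha => by
        have ha' : a (c.x i - (c.Φ *ᵥ u0) i) = c.ω a i := ha
        change (t • a) (c.x i - (c.Φ *ᵥ u0) i) = c.ω (t • a) i
        rw [Derivation.smul_apply, ha', c.ω_smul, smul_eq_mul] }
  have hQ : c.GS ≤ Q := Submodule.span_le.2 (fun T hT => by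
    obtain ⟨m, hm⟩ := hT
    change T (c.x i - (c.Φ *ᵥ u0) i) = c.ω T i
    have h4 : (c.Φ *ᵥ c.b T) i = c.B T i := by rw [c.Φb]
    rw [hb T m hm, B_eq, Matrix.mulVec_mulVec] at h4
    rw [map_sub, map_mulVec_der, hm.map]
    have h3 : (fun j => T (u0 j)) = 0 := funext fun j => hm.kill _ (hu0K j)
    rw [h3, Matrix.mulVec_zero, Pi.zero_apply, add_zero, h4]
    ring)
  exact hQ hD'

theorem algebraic (hirr : IrredOver d (cl (K : Set F)) c.A) [IsAlgClosed (constants d)]
    (hne : ∃ a ∈ c.Ann, a ≠ 0) :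
    (∀ v ∈ c.V, v ∈ cl (K : Set F)) ∧ ∃ u0 : J → F, (∀ j, d (u0 j) = 0) ∧
      ∀ i, c.x i - (c.Φ *ᵥ u0) i ∈ cl (K : Set F) := by
  have hB := B_zero hirr hne
  have hV := V_mem hB
  have hx := x_mem hV hB
  obtain ⟨u0, hu0, hb⟩ := exists_u0 hirr hV hx
  have hxh := xhat hV hx u0 hu0 hb
  have hVK : ∀ v ∈ c.V, v ∈ cl (K : Set F) := c.point K le_rfl
    (fun i => c.x i - (c.Φ *ᵥ u0) i) hxh
  refine ⟨hVK, u0, hu0, fun i D hD => ?_⟩
  rw [hxh D hD i]
  exact c.zero D hD (fun v hv => hVK v hv D hD) i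

/-- a missing direction gives a constant relation -/
theorem exists_rel (c : ACtx d K N J) (M : Subfield F) (hKM : K ≤ M) (hM : ∀ m ∈ M, d m ∈ M)
    (hV : (derM' M).map c.bL ≠ ⊤) :
    ∃ a : J → F, a ≠ 0 ∧ (∀ j, d (a j) = 0) ∧
      ∀ T : Derivation ℤ F F, Kills T M → a ⬝ᵥ c.b T = 0 := by
  classical
  obtain ⟨f, hf0, hf⟩ := Submodule.exists_le_ker_of_lt_top _ (lt_top_iff_ne_top.2 hV)
  let S : Set (J → F) := {a | ∀ T : Derivation ℤ F F, Kills T M → a ⬝ᵥ c.b T = 0}
  have hne : ∃ a ∈ S, a ≠ 0 := by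
    refine ⟨fun j => f (Pi.single j 1), fun T hT => ?_, fun h => hf0 ?_⟩
    · have h1 : f (c.b T) = 0 := hf ⟨T, hT, rfl⟩
      have h2 : c.b T = ∑ j, c.b T j • (Pi.single j (1 : F) : J → F) := by
        funext j'
        rw [Finset.sum_apply]
        simp only [Pi.smul_apply, smul_eq_mul, Pi.single_apply]
        simp
      rw [h2, map_sum] at h1
      rw [← h1]
      refine Finset.sum_congr rfl (fun j _ => ?_)
      rw [map_smul, smul_eq_mul, mul_comm]
    · refine LinearMap.pi_ext' (fun j => LinearMap.ext_ring ?_)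
      exact congrFun h j
  have hS : ∀ a ∈ S, ∀ t : F, (fun j => t * a j) ∈ S := fun a ha t T hT => by
    have h1 : (fun j => t * a j) = t • a := rfl
    rw [h1, smul_dotProduct, ha T hT, smul_zero]
  have hD : ∀ a ∈ S, (fun j => d (a j)) ∈ S := fun a ha T hT => by
    have h3 := congrArg d (ha T hT)
    rw [map_dotProduct_der, map_zero] at h3
    have h4 : (fun j => d (c.b T j)) = c.b ⁅d, T⁆ :=
      funext fun j => c.db (fun s hs => hT s (hKM hs)) j
    rw [h4, ha _ (kills_lie' hM hT), add_zero] at h3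
    exact h3
  obtain ⟨a, haS, ha0, had⟩ := exists_const' d S hS hD hne
  exact ⟨a, ha0, had, haS⟩

theorem le_of_top (c : ACtx d K N J) (M : Subfield F) (hKM : K ≤ M)
    (htop : (derM' M).map c.bL = ⊤) (Z : Set F) (hxZ : ∀ i, c.x i ∈ Z) (hVZ : c.V ⊆ Z) :
    ((Fintype.card J : ℕ) : Cardinal) ≤ Algebra.trdeg M (IntermediateField.adjoin M Z) := by
  classical
  have hex : ∀ j : J, ∃ T : Derivation ℤ F F, Kills T M ∧ c.b T = Pi.single j 1 := by
    intro j
    have h1 : (Pi.single j (1 : F) : J → F) ∈ (derM' M).map c.bL := by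
      rw [htop]
      exact Submodule.mem_top
    obtain ⟨T, hT, hTj⟩ := h1
    exact ⟨T, hT, hTj⟩
  choose T hT hTj using hex
  refine le_trdeg M Z T hT (fun l hl j => ?_)
  have h2 : c.b (∑ j, l j • T j) = l := by
    have h3 := map_sum c.bL (fun j => l j • T j) Finset.univ
    change c.b (∑ j, l j • T j) = ∑ j, c.b (l j • T j) at h3
    rw [h3]
    funext j'
    rw [Finset.sum_apply]
    have h4 : ∀ j, c.b (l j • T j) j' = l j * (Pi.single j (1 : F) : J → F) j' :=
      fun j => by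
        rw [c.b_smul, hTj]
        rfl
    rw [Finset.sum_congr rfl (fun j _ => h4 j)]
    simp only [Pi.single_apply]
    simp
  have h4 : ∀ z ∈ Z, (∑ j, l j • T j) z = 0 := fun z hz => by
    rw [sum_smul_apply]
    exact hl z hz
  have hk : Kills (∑ j, l j • T j) K := fun s hs => by
    rw [sum_smul_apply]
    exact Finset.sum_eq_zero (fun j _ => by rw [hT j s (hKM hs), mul_zero])
  have h5 : c.b (∑ j, l j • T j) = 0 := by
    have h6 : c.B (∑ j, l j • T j) = 0 := by
      funext i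
      rw [B_eq, h4 _ (hxZ i), c.zero _ hk (fun v hv => h4 v (hVZ hv)), sub_zero]
      rfl
    rw [b_eq, h6, Matrix.mulVec_zero]
  have h6 := congrFun (h2.symm.trans h5) j
  exact h6

/-- the dichotomy -/
theorem main (c : ACtx d K N J) (hirr : IrredOver d (cl (K : Set F)) c.A)
    [IsAlgClosed (constants d)] (Z : Set F) (hxZ : ∀ i, c.x i ∈ Z) (hVZ : c.V ⊆ Z) :
    ((Fintype.card J : ℕ) : Cardinal) ≤ Algebra.trdeg (Subfield.closure c.gen)
      (IntermediateField.adjoin (Subfield.closure c.gen) Z) ∨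
    ((∀ v ∈ c.V, v ∈ cl (K : Set F)) ∧ ∃ u0 : J → F, (∀ j, d (u0 j) = 0) ∧
      ∀ i, c.x i - (c.Φ *ᵥ u0) i ∈ cl (K : Set F)) := by
  set M := Subfield.closure c.gen with hM
  have hKM : K ≤ M := fun a ha => Subfield.subset_closure (Or.inl ha)
  have hMd : ∀ a ∈ M, d a ∈ M := closure_stab (by
    intro s hs
    rcases hs with hs | ⟨a, b, rfl⟩
    · exact hKM (c.hK s hs)
    · have h1 := congrFun (congrFun c.hΦ a) b
      rw [Matrix.map_apply, Matrix.mul_apply] at h1
      rw [h1]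
      exact M.sum_mem (fun l _ => M.mul_mem (hKM (c.hA a l))
        (Subfield.subset_closure (Or.inr ⟨l, b, rfl⟩))))
  by_cases htop : (derM' M).map c.bL = ⊤
  · exact Or.inl (c.le_of_top M hKM htop Z hxZ hVZ)
  · right
    obtain ⟨a, ha0, had, ha⟩ := c.exists_rel M hKM hMd htop
    exact algebraic hirr ⟨a, ⟨had, fun T hT => ha T (fun s hs => by
      have h2 : Kills T M := kills_closure (fun s hs => hT s (subset_cl _ hs))
      exact h2 s hs)⟩, ha0⟩

end ACtx

end Pool.Agent.AXE
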