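import Mathlib
import Pool.Agent.AXE.HHol

/-!
# Points whose holomorphic differentials are exact are algebraic over the base
-/

set_option autoImplicit false
set_option linter.unusedSectionVars false

namespace Pool.Agent.AXE

open Polynomial

variable {F : Type} [Field F] [CharZero F]

/-- exchange property -/
theorem cl_exchange {S : Set F} {x y : F} (hx : x ∉ cl S) (hxy : x ∈ cl (S ∪ {y})) :
    y ∈ cl (S ∪ {x}) := by
  intro D hD
  by_contra hDy
  obtain ⟨D', hD', hD'x⟩ : ∃ D' : Derivation ℤ F F, Kills D' S ∧ D' x ≠ 0 := by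
    by_contra h
    push Not at h
    exact hx h
  have h1 : Kills (D' - (D' y / D y) • D) (S ∪ {y}) := by
    rintro s (hs | hs)
    · change D' s - (D' y / D y) • D s = 0
      rw [hD' s hs, hD s (Or.inl hs), smul_zero, sub_zero]
    · rw [Set.mem_singleton_iff.1 hs]
      change D' y - (D' y / D y) • D y = 0
      rw [smul_eq_mul]
      field_simp
      ring
  have h2 := hxy _ h1
  have h3 : D' x - (D' y / D y) • D x = 0 := h2
  rw [hD x (Or.inr rfl), smul_zero, sub_zero] at h3
  exact hD'x h3

theorem vandermonde_zero {P : Type} [Fintype P] (X v : P → F) (hX : Function.Injective X) (g : ℕ)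
    (hg : Fintype.card P ≤ g) (h : ∀ i < g, ∑ p, v p * X p ^ i = 0) (p : P) : v p = 0 := by
  let e := Fintype.equivFin P
  have h1 : (fun j => v (e.symm j)) = 0 :=
    Matrix.eq_zero_of_forall_pow_sum_mul_pow_eq_zero (f := fun j => X (e.symm j))
      (fun a b hab => e.symm.injective (hX hab)) (fun i => by
        rw [← h i (lt_of_lt_of_le i.2 hg)]
        exact Fintype.sum_equiv e.symm _ _ (fun j => rfl))
  have h2 := congrFun h1 (e p)
  rw [Equiv.symm_apply_apply] at h2
  exact h2

/-- if the values of the holomorphic differential forms at the points are exact over `k1`, the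
points are algebraic over `k1` -/
theorem hol_base (k1 : Subfield F) {P : Type} [Fintype P] (f : F[X])
    (hfk : ∀ n, f.coeff n ∈ k1) (hcop : IsCoprime f (derivative f)) (g : ℕ)
    (hdeg : f.natDegree = 2 * g + 1) (x y : P → F) (hy : ∀ p, y p ≠ 0)
    (hxy : ∀ p, y p ^ 2 = f.eval (x p)) (n : P → ℤ) (hn : ∀ p, n p ≠ 0)
    (hx : Function.Injective x) (hcard : Fintype.card P ≤ g) (z : ℕ → F)
    (hT : ∀ T : Derivation ℤ F F, Kills T k1 → ∀ i < g,
      T (z i) = ∑ p, (n p : F) * (T (x p) / y p * x p ^ i)) (p : P) : x p ∈ cl (k1 : Set F) := by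
  classical
  by_contra hp
  -- a maximal set of points over which the point is transcendental
  let Q : Finset P → Prop := fun I => x p ∉ cl ((k1 : Set F) ∪ x '' (I : Set P))
  obtain ⟨I, hI, hmax⟩ := Finset.exists_max_image (Finset.univ.filter Q) Finset.card
    ⟨∅, by
      rw [Finset.mem_filter]
      refine ⟨Finset.mem_univ _, ?_⟩
      change x p ∉ cl ((k1 : Set F) ∪ x '' ((∅ : Finset P) : Set P))
      rw [Finset.coe_empty, Set.image_empty, Set.union_empty]
      exact hp⟩
  have hI' : x p ∉ cl ((k1 : Set F) ∪ x '' (I : Set P)) := (Finset.mem_filter.1 hI).2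
  set S0 : Set F := (k1 : Set F) ∪ x '' (I : Set P) with hS0
  let k' : Subfield F := cl S0
  have hk1 : ∀ a ∈ k1, a ∈ k' := fun a ha => subset_cl _ (Or.inl ha)
  have hall : ∀ q, x q ∈ cl (S0 ∪ {x p}) := by
    intro q
    by_cases hq : q ∈ I
    · exact subset_cl _ (Or.inl (Or.inr ⟨q, hq, rfl⟩))
    · refine cl_exchange hI' ?_
      by_contra h
      have h1 : insert q I ∈ Finset.univ.filter Q := by
        rw [Finset.mem_filter]
        refine ⟨Finset.mem_univ _, ?_⟩
        change x p ∉ cl ((k1 : Set F) ∪ x '' ((insert q I : Finset P) : Set P))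
        have h2 : (k1 : Set F) ∪ x '' ((insert q I : Finset P) : Set P) = S0 ∪ {x q} := by
          rw [Finset.coe_insert, Set.image_insert_eq, hS0, Set.union_insert, Set.union_singleton]
        rw [h2]
        exact h
      have h3 := hmax _ h1
      rw [Finset.card_insert_of_notMem hq] at h3
      omega
  obtain ⟨D, hD, hDp⟩ : ∃ D : Derivation ℤ F F, Kills D S0 ∧ D (x p) ≠ 0 := by
    by_contra h
    push Not at h
    exact hI' h
  have hDk' : Kills D k' := kills_cl hD
  have hDk1 : Kills D k1 := fun a ha => hDk' a (hk1 a ha)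
  have hz : ∀ i < g, D (z i) = 0 := by
    intro i hi
    by_contra hne
    refine hne (hol k' D hDk' f (fun n => hk1 _ (hfk n)) hcop g hdeg x y hy hxy n i hi (z i)
      (fun q D1 hD1 => ?_) (hT D hDk1 i hi))
    have hD1S : Kills D1 S0 := fun s hs => hD1 s (Or.inl (subset_cl _ hs))
    set D2 : Derivation ℤ F F := D1 - (D1 (x p) / D (x p)) • D with hD2
    have hD2a : ∀ a, D2 a = D1 a - D1 (x p) / D (x p) * D a := fun a => rfl
    have hD2S : Kills D2 (S0 ∪ {x p}) := by
      rintro s (hs | hs)
      · rw [hD2a, hD1S s hs, hD s hs, mul_zero, sub_zero]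
      · rw [Set.mem_singleton_iff.1 hs, hD2a]
        field_simp
        ring
    have hD2x : ∀ q, D2 (x q) = 0 := fun q => hall q D2 hD2S
    have hD2z : D2 (z i) = 0 := by
      rw [hT D2 (fun a ha => hD2S a (Or.inl (Or.inl ha))) i hi]
      exact Finset.sum_eq_zero (fun q _ => by rw [hD2x, zero_div, zero_mul, mul_zero])
    have hD1z : D1 (z i) = 0 := hD1 _ (Or.inr rfl)
    rw [hD2a, hD1z, zero_sub, neg_eq_zero] at hD2z
    have h0 := (mul_eq_zero.1 hD2z).resolve_right hne
    have h1 := hD2x q
    rw [hD2a, h0, zero_mul, sub_zero] at h1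
    exact h1
  have hv := vandermonde_zero x (fun q => (n q : F) * (D (x q) / y q)) hx g hcard (fun i hi => by
    have h1 := hT D hDk1 i hi
    rw [hz i hi] at h1
    rw [h1]
    exact Finset.sum_congr rfl (fun q _ => by ring)) p
  have hn' : (n p : F) ≠ 0 := by exact_mod_cast hn p
  exact (div_ne_zero hDp (hy p)) ((mul_eq_zero.1 hv).resolve_left hn')

end Pool.Agent.AXE
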