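import Mathlib
import Pool.Agent.AXE.JGood
import Pool.Agent.AXE.JHol

/-!
# Divisors with too many relations over an irreducible connection
-/

set_option autoImplicit false
set_option linter.unusedSectionVars false

namespace Pool.Agent.AXE

open Matrix

variable {F : Type} [Field F] [CharZero F] {d : Derivation ℤ F F} {K : Subfield F} {g : ℕ}
  {J P : Type} [Fintype J] [DecidableEq J] [Fintype P]

namespace JCtx

variable {c : JCtx d K g J P}

/-- the cocycle relation in general form -/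
theorem b_lie_gen {S T : Derivation ℤ F F} (hS : Kills S K) (hT : Kills T K)
    {m m' : Matrix J J F} (h : c.Φ.map S = c.Φ * m) (h' : c.Φ.map T = c.Φ * m') :
    c.E.b ⁅S, T⁆ = m *ᵥ c.E.b T + (fun j => S (c.E.b T j)) - (m' *ᵥ c.E.b S +
      fun j => T (c.E.b S j)) := by
  have h1 : c.E.B ⁅S, T⁆ = c.Φ *ᵥ (m *ᵥ c.E.b T + (fun j => S (c.E.b T j)) -
      (m' *ᵥ c.E.b S + fun j => T (c.E.b S j))) := by
    funext i
    rw [B_lie hS hT]
    have e1 : S (c.E.B T i) = (c.Φ *ᵥ (m *ᵥ c.E.b T + fun j => S (c.E.b T j))) i := by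
      rw [← c.Φb T, map_mulVec_der, h, Matrix.mulVec_add, Matrix.mulVec_mulVec, Pi.add_apply]
    have e2 : T (c.E.B S i) = (c.Φ *ᵥ (m' *ᵥ c.E.b S + fun j => T (c.E.b S j))) i := by
      rw [← c.Φb S, map_mulVec_der, h', Matrix.mulVec_add, Matrix.mulVec_mulVec, Pi.add_apply]
    rw [e1, e2, Matrix.mulVec_sub, Pi.sub_apply]
  rw [b_eq, h1, Matrix.mulVec_mulVec, c.ΨΦ, Matrix.one_mulVec]

theorem map_of_kills {T : Derivation ℤ F F} (hT : Kills T c.k) :
    c.Φ.map T = c.Φ * (0 : Matrix J J F) := by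
  rw [Matrix.mul_zero]
  exact map_zero_of (fun a b => hT _ (c.Φ_mem a b))

/-- the constant vectors orthogonal to all defects over the field of periods -/
def Ann (c : JCtx d K g J P) : Set (J → F) :=
  {a | (∀ j, d (a j) = 0) ∧ ∀ T : Derivation ℤ F F, Kills T c.k → a ⬝ᵥ c.E.b T = 0}

theorem Ann_stab (T : Derivation ℤ F F) (m : Matrix J J F) (hT : c.Good T m) (a : J → F)
    (ha : a ∈ c.Ann) : a ᵥ* m ∈ c.Ann := by
  obtain ⟨had, ha⟩ := ha
  have haK : ∀ j, a j ∈ K := fun j => c.hC _ (had j)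
  refine ⟨fun j => ?_, fun U hU => ?_⟩
  · change d (a ⬝ᵥ fun i => m i j) = 0
    rw [map_dotProduct_der]
    have h1 : (fun j => d (a j)) = 0 := funext had
    have h2 : (fun i => d (m i j)) = 0 := funext fun i => hT.const i j
    rw [h1, h2, zero_dotProduct, dotProduct_zero, add_zero]
  · have hUK : Kills U K := kills_K hU
    -- the bracket kills `k`
    have hTU : Kills ⁅T, U⁆ c.k := fun z hz => by
      rw [Derivation.commutator_apply, hU z hz, map_zero, hU _ (hT.stab hz), sub_zero]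
    have h1 := ha _ hTU
    rw [b_lie_gen hT.kill hUK hT.map (map_of_kills hU), Matrix.zero_mulVec, zero_add,
      dotProduct_sub, dotProduct_add, Matrix.dotProduct_mulVec] at h1
    have h2 : a ⬝ᵥ (fun j => T (c.E.b U j)) = 0 := by
      have h3 := map_dotProduct_der T a (c.E.b U)
      rw [ha U hU, map_zero] at h3
      have h4 : (fun j => T (a j)) = 0 := funext fun j => hT.kill _ (haK j)
      rw [h4, zero_dotProduct, zero_add] at h3
      exact h3.symm
    have h5 : a ⬝ᵥ (fun j => U (c.E.b T j)) = 0 := by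
      have h3 := map_dotProduct_der U a (c.E.b T)
      have h4 : (fun j => U (a j)) = 0 := funext fun j => hUK _ (haK j)
      rw [h4, zero_dotProduct, zero_add] at h3
      rw [← h3]
      apply hUK
      apply c.hC
      rw [map_dotProduct_der]
      have h6 : (fun j => d (a j)) = 0 := funext had
      have h7 : (fun j => d (c.E.b T j)) = c.E.b ⁅d, T⁆ := funext fun j => c.E.db hT.kc j
      rw [h6, zero_dotProduct, zero_add, h7]
      exact ha _ hT.comm
    rw [h2, h5, add_zero, sub_zero] at h1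
    exact h1

/-- one relation gives all relations -/
theorem B_zero (hirr : IrredOver d (cl (K : Set F)) c.A) (hne : ∃ a ∈ c.Ann, a ≠ 0)
    (T : Derivation ℤ F F) (hT : Kills T c.k) (i : Fin (2 * g)) : c.E.B T i = 0 := by
  obtain ⟨a, ha, ha0⟩ := hne
  have hd : ∀ u ∈ c.Ann, ∀ j, d (u j) = 0 := fun u hu => hu.1
  have htop := hirr.top_row (Submodule.span F {v | ∃ u ∈ c.Ann, v = u ᵥ* c.Ψ})
    (fun D hD v hv => c.row_stab c.Ann hd (fun T m hT u hu => Ann_stab T m hT u hu) D hD v hv)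
    (fun v hv => c.row_conn c.Ann hd v hv) c.hK c.hGM.A_mem (fun h => by
      have h1 : a ᵥ* c.Ψ ∈ Submodule.span F {v | ∃ u ∈ c.Ann, v = u ᵥ* c.Ψ} :=
        Submodule.subset_span ⟨a, ha, rfl⟩
      rw [h, Submodule.mem_bot] at h1
      apply ha0
      have h2 : (a ᵥ* c.Ψ) ᵥ* c.Φ = a := by
        rw [Matrix.vecMul_vecMul, c.ΨΦ, Matrix.vecMul_one]
      rw [← h2, h1, Matrix.zero_vecMul])
  let Q : Submodule F (Fin (2 * g) → F) :=
    { carrier := {v | v ⬝ᵥ c.E.B T = 0}
      add_mem' := fun {a b} ha hb => by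
        change (a + b) ⬝ᵥ c.E.B T = 0
        have ha' : a ⬝ᵥ c.E.B T = 0 := ha
        have hb' : b ⬝ᵥ c.E.B T = 0 := hb
        rw [add_dotProduct, ha', hb', add_zero]
      zero_mem' := zero_dotProduct _
      smul_mem' := fun t a ha => by
        change (t • a) ⬝ᵥ c.E.B T = 0
        have ha' : a ⬝ᵥ c.E.B T = 0 := ha
        rw [smul_dotProduct, ha', smul_zero] }
  have hQ : Submodule.span F {v | ∃ u ∈ c.Ann, v = u ᵥ* c.Ψ} ≤ Q := Submodule.span_le.2 (by
    rintro v ⟨u, hu, rfl⟩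
    change (u ᵥ* c.Ψ) ⬝ᵥ c.E.B T = 0
    rw [← Matrix.dotProduct_mulVec]
    exact hu.2 T hT)
  rw [htop] at hQ
  have h1 : (Pi.single i (1 : F) : Fin (2 * g) → F) ∈ Q := hQ Submodule.mem_top
  have h2 : (Pi.single i (1 : F) : Fin (2 * g) → F) ⬝ᵥ c.E.B T = 0 := h1
  rw [single_dotProduct, one_mul] at h2
  exact h2

/-- the conditions on the divisor -/
structure Red (c : JCtx d K g J P) : Prop where
  n : ∀ p, c.n p ≠ 0
  X : Function.Injective c.X
  card : Fintype.card P ≤ g

theorem hcop (c : JCtx d K g J P) : IsCoprime c.f (Polynomial.derivative c.f) :=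
  PerfectField.separable_iff_squarefree.2 c.hGM.squarefree

theorem X_mem (hr : c.Red) (hB : ∀ T : Derivation ℤ F F, Kills T c.k → ∀ i, c.E.B T i = 0) (p : P) :
    c.X p ∈ c.k := by
  have h1 := hol_base c.k c.f (fun n => c.K_le_k (c.hGM.coeff_mem n)) c.hcop g c.hGM.natDegree
    c.X c.Y c.hY c.hXY c.n hr.n hr.X hr.card
    (fun i => if h : i < 2 * g then c.x ⟨i, h⟩ else 0) (fun T hT i hi => by
      rw [dif_pos (by omega)]
      have h2 := hB T hT ⟨i, by omega⟩
      rw [B_eq, sub_eq_zero] at h2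
      exact h2) p
  intro D hD
  exact h1 D (kills_cl hD)

theorem x_mem (hX : ∀ p, c.X p ∈ c.k)
    (hB : ∀ T : Derivation ℤ F F, Kills T c.k → ∀ i, c.E.B T i = 0) (i : Fin (2 * g)) :
    c.x i ∈ c.k := by
  intro D hD
  have hDk : Kills D c.k := kills_cl hD
  have h1 := hB D hDk i
  rw [B_eq, c.ω_zero (fun p => hX p D hD), sub_zero] at h1
  exact h1

theorem b_of_kills {T : Derivation ℤ F F} (hT : Kills T c.k) (hX : ∀ p, c.X p ∈ c.k)
    (hx : ∀ i, c.x i ∈ c.k) : c.E.b T = 0 :=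
  c.b_zero (fun p => hT _ (hX p)) (fun i => hT _ (hx i))

theorem Good.b_const {T : Derivation ℤ F F} {m : Matrix J J F} (h : c.Good T m)
    (hX : ∀ p, c.X p ∈ c.k) (hx : ∀ i, c.x i ∈ c.k) (j : J) : d (c.E.b T j) = 0 := by
  rw [c.E.db h.kc, b_of_kills h.comm hX hx]
  rfl

theorem Good.b_lie {T T' : Derivation ℤ F F} {m m' : Matrix J J F} (h : c.Good T m)
    (h' : c.Good T' m') (hX : ∀ p, c.X p ∈ c.k) (hx : ∀ i, c.x i ∈ c.k) :
    c.E.b ⁅T, T'⁆ = m *ᵥ c.E.b T' - m' *ᵥ c.E.b T := by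
  rw [b_lie_gen h.kill h'.kill h.map h'.map]
  have h1 : (fun j => T (c.E.b T' j)) = 0 :=
    funext fun j => h.kill _ (c.hC _ (h'.b_const hX hx j))
  have h2 : (fun j => T' (c.E.b T j)) = 0 :=
    funext fun j => h'.kill _ (c.hC _ (h.b_const hX hx j))
  rw [h1, h2, add_zero, add_zero]

theorem Good.b_unique {T T' : Derivation ℤ F F} {m : Matrix J J F} (h : c.Good T m)
    (h' : c.Good T' m) (hX : ∀ p, c.X p ∈ c.k) (hx : ∀ i, c.x i ∈ c.k) :
    c.E.b T = c.E.b T' := by
  have hk : Kills (T - T') c.k := kills_cl (fun s hs => by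
    rcases hs with hs | ⟨a, b, rfl⟩
    · rw [Derivation.sub_apply, h.kill s hs, h'.kill s hs, sub_zero]
    · have h1 := congrFun (congrFun (h.map.trans h'.map.symm) a) b
      rw [Matrix.map_apply, Matrix.map_apply] at h1
      rw [Derivation.sub_apply, h1, sub_self])
  have h1 : c.E.b T = c.E.b ((T - T') + T') := by rw [sub_add_cancel]
  rw [h1]
  funext j
  rw [c.E.b_add, b_of_kills hk hX hx, Pi.zero_apply, zero_add]

end JCtx

end Pool.Agent.AXE
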