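import Mathlib
import Pool.Agent.AXE.JMain

/-!
# The cocycle of a divisor over the Lie algebra of the differential Galois group
-/

set_option autoImplicit false
set_option linter.unusedSectionVars false

namespace Pool.Agent.AXE

open Matrix LieModule

attribute [local instance 100] LieRing.ofAssociativeRing

variable {F : Type} [Field F] [CharZero F] {d : Derivation ℤ F F} {K : Subfield F} {g : ℕ}
  {J P : Type} [Fintype J] [DecidableEq J] [Fintype P]

namespace JCtx

variable (c : JCtx d K g J P)

/-- matrices of constants as matrices over `F` -/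
def up (m : Matrix J J (constants d)) : Matrix J J F := fun i j => (m i j : F)

theorem up_apply (m : Matrix J J (constants d)) (i j : J) : up m i j = (m i j : F) := rfl

theorem up_add (m m' : Matrix J J (constants d)) : up (m + m') = up m + up m' := rfl

theorem up_smul (t : constants d) (m : Matrix J J (constants d)) :
    up (t • m) = (t : F) • up m := rfl

theorem up_mul (m m' : Matrix J J (constants d)) : up (m * m') = up m * up m' := by
  ext i j
  rw [up_apply, Matrix.mul_apply, Matrix.mul_apply]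
  push_cast
  rfl

theorem up_sub (m m' : Matrix J J (constants d)) : up (m - m') = up m - up m' := rfl

theorem up_mulVec (m : Matrix J J (constants d)) (u : J → constants d) (i : J) :
    (((m *ᵥ u) i : constants d) : F) = (up m *ᵥ fun j => (u j : F)) i := by
  change ((∑ j, m i j * u j : constants d) : F) = ∑ j, up m i j * (u j : F)
  push_cast
  rfl

/-- the Lie algebra of the matrices by which derivations act on the periods -/
def lieAlg : LieSubalgebra (constants d) (Matrix J J (constants d)) where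
  carrier := {m | ∃ T, c.Good T (up m)}
  add_mem' := by
    rintro m m' ⟨T, hT⟩ ⟨T', hT'⟩
    refine ⟨T + T', fun s hs => ?_, fun i j => ((m + m') i j).2, ?_⟩
    · rw [Derivation.add_apply, hT.kill s hs, hT'.kill s hs, add_zero]
    · have h1 : c.Φ.map (T + T' : Derivation ℤ F F) = c.Φ.map T + c.Φ.map T' := rfl
      rw [h1, hT.map, hT'.map, up_add, Matrix.mul_add]
  zero_mem' := by
    refine ⟨0, fun s hs => rfl, fun i j => (0 : constants d).2, ?_⟩
    have h1 : c.Φ.map (0 : Derivation ℤ F F) = 0 := rfl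
    have h2 : up (0 : Matrix J J (constants d)) = (0 : Matrix J J F) := rfl
    rw [h1, h2, Matrix.mul_zero]
  smul_mem' := by
    rintro t m ⟨T, hT⟩
    refine ⟨(t : F) • T, fun s hs => ?_, fun i j => ((t • m) i j).2, ?_⟩
    · rw [Derivation.smul_apply, hT.kill s hs, smul_zero]
    · have h1 : c.Φ.map ((t : F) • T : Derivation ℤ F F) = (t : F) • c.Φ.map T := rfl
      rw [h1, hT.map, up_smul, Matrix.mul_smul]
  lie_mem' := by
    rintro m m' ⟨T, hT⟩ ⟨T', hT'⟩
    refine ⟨⁅T, T'⁆, ?_⟩
    have h1 : up ⁅m, m'⁆ = up m * up m' - up m' * up m := by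
      rw [LieRing.of_associative_ring_bracket, up_sub, up_mul, up_mul]
    rw [h1]
    exact hT.lie hT'

theorem mem_lieAlg (m : Matrix J J (constants d)) : m ∈ c.lieAlg ↔ ∃ T, c.Good T (up m) := Iff.rfl

theorem lie_vec (m : c.lieAlg) (u : J → constants d) :
    ⁅m, u⁆ = (m : Matrix J J (constants d)) *ᵥ u := rfl

/-- irreducibility of the constant representation -/
theorem irreducible (hirr : IrredOver d (cl (K : Set F)) c.A) [Nonempty J] :
    IsIrreducible (constants d) c.lieAlg (J → constants d) := by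
  have hnt : Nontrivial (J → constants d) := inferInstance
  refine IsIrreducible.mk (fun N hN => ?_)
  let S : Set (J → F) := {v | ∃ u ∈ N, v = fun j => (u j : F)}
  have hSd : ∀ u ∈ S, ∀ j, d (u j) = 0 := by
    rintro _ ⟨u, hu, rfl⟩ j
    exact (u j).2
  have hSs : ∀ T m, c.Good T m → ∀ u ∈ S, m *ᵥ u ∈ S := by
    rintro T m hT _ ⟨u, hu, rfl⟩
    let m' : Matrix J J (constants d) := fun i j => ⟨m i j, hT.const i j⟩
    have hm' : m' ∈ c.lieAlg := ⟨T, hT⟩
    have h1 : ⁅(⟨m', hm'⟩ : c.lieAlg), u⁆ ∈ N := N.lie_mem hu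
    refine ⟨_, h1, ?_⟩
    funext i
    exact (up_mulVec m' u i).symm
  have htop := hirr.top (Submodule.span F {v | ∃ u ∈ S, v = c.Φ *ᵥ u})
    (fun D hD v hv => c.col_stab S hSd hSs D hD v hv)
    (fun v hv => c.col_conn S hSd v hv) c.hK c.hGM.A_mem (fun h => by
      apply hN
      rw [LieSubmodule.eq_bot_iff]
      intro u hu
      have h1 : c.Φ *ᵥ (fun j => (u j : F)) ∈ Submodule.span F {v | ∃ u ∈ S, v = c.Φ *ᵥ u} :=
        Submodule.subset_span ⟨_, ⟨u, hu, rfl⟩, rfl⟩
      rw [h, Submodule.mem_bot] at h1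
      have h2 : c.Ψ *ᵥ (c.Φ *ᵥ (fun j => (u j : F))) = fun j => (u j : F) := by
        rw [Matrix.mulVec_mulVec, c.ΨΦ, Matrix.one_mulVec]
      rw [h1, Matrix.mulVec_zero] at h2
      funext j
      exact Subtype.ext (congrFun h2 j).symm)
  rw [eq_top_iff]
  intro w _
  have h1 : c.Φ *ᵥ (fun j => (w j : F)) ∈ Submodule.span F {v | ∃ u ∈ S, v = c.Φ *ᵥ u} := by
    rw [htop]
    exact Submodule.mem_top
  have h2 : Submodule.span F {v | ∃ u ∈ S, v = c.Φ *ᵥ u} ≤
      (Submodule.span F {v : J → F | ∃ u ∈ (N : Submodule (constants d) (J → constants d)),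
        v = fun i => (u i : F)}).comap (Matrix.mulVecLin c.Ψ) := Submodule.span_le.2 (by
    rintro _ ⟨_, ⟨u, hu, rfl⟩, rfl⟩
    rw [SetLike.mem_coe, Submodule.mem_comap, Matrix.mulVecLin_apply, Matrix.mulVec_mulVec, c.ΨΦ,
      Matrix.one_mulVec]
    exact Submodule.subset_span ⟨u, hu, rfl⟩)
  have h3 := h2 h1
  rw [Submodule.mem_comap, Matrix.mulVecLin_apply, Matrix.mulVec_mulVec, c.ΨΦ,
    Matrix.one_mulVec] at h3
  exact mem_of_mem_span _ w h3

variable {c}

/-- the cocycle is a coboundary -/
theorem exists_u0 (hirr : IrredOver d (cl (K : Set F)) c.A) [IsAlgClosed (constants d)]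
    (hX : ∀ p, c.X p ∈ c.k) (hx : ∀ i, c.x i ∈ c.k) :
    ∃ u0 : J → F, (∀ j, d (u0 j) = 0) ∧ ∀ T m, c.Good T m → c.E.b T = m *ᵥ u0 := by
  classical
  rcases isEmpty_or_nonempty J with hJ | hJ
  · exact ⟨fun _ => 0, fun j => map_zero d, fun T m _ => by
      funext j
      exact hJ.elim j⟩
  have hch : ∀ m : c.lieAlg, ∃ T, c.Good T (up m.1) := fun m => m.2
  choose T hT using hch
  let β : c.lieAlg →ₗ[constants d] (J → constants d) :=
    { toFun := fun m j => ⟨c.E.b (T m) j, (hT m).b_const hX hx j⟩
      map_add' := fun m m' => by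
        funext j
        apply Subtype.ext
        have h1 : c.Good (T m + T m') (up (m + m').1) := by
          refine ⟨fun s hs => ?_, fun i j => ((m + m').1 i j).2, ?_⟩
          · rw [Derivation.add_apply, (hT m).kill s hs, (hT m').kill s hs, add_zero]
          · have h1 : c.Φ.map (T m + T m' : Derivation ℤ F F) = c.Φ.map (T m) + c.Φ.map (T m') :=
              rfl
            have h2 : up (m + m').1 = up m.1 + up m'.1 := rfl
            rw [h1, (hT m).map, (hT m').map, h2, Matrix.mul_add]
        have h2 := (hT (m + m')).b_unique h1 hX hx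
        change c.E.b (T (m + m')) j = c.E.b (T m) j + c.E.b (T m') j
        rw [h2, c.E.b_add]
      map_smul' := fun t m => by
        funext j
        apply Subtype.ext
        have h1 : c.Good ((t : F) • T m) (up (t • m).1) := by
          refine ⟨fun s hs => ?_, fun i j => ((t • m).1 i j).2, ?_⟩
          · rw [Derivation.smul_apply, (hT m).kill s hs, smul_zero]
          · have h1 : c.Φ.map ((t : F) • T m : Derivation ℤ F F) = (t : F) • c.Φ.map (T m) := rfl
            have h2 : up (t • m).1 = (t : F) • up m.1 := rfl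
            rw [h1, (hT m).map, h2, Matrix.mul_smul]
        have h2 := (hT (t • m)).b_unique h1 hX hx
        change c.E.b (T (t • m)) j = (t : F) * c.E.b (T m) j
        rw [h2, c.E.b_smul] }
  have hβ : ∀ m j, ((β m j : constants d) : F) = c.E.b (T m) j := fun m j => rfl
  have hirr' := c.irreducible hirr
  obtain ⟨u, hu⟩ := whitehead (C := constants d) (L := c.lieAlg) (V := J → constants d) β
    (fun m m' => by
      funext j
      apply Subtype.ext
      rw [hβ]
      have h0 : up (⁅m, m'⁆ : c.lieAlg).1 = up m.1 * up m'.1 - up m'.1 * up m.1 := by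
        rw [LieSubalgebra.coe_bracket, LieRing.of_associative_ring_bracket, up_sub, up_mul, up_mul]
      have h1 : c.Good ⁅T m, T m'⁆ (up (⁅m, m'⁆ : c.lieAlg).1) := by
        rw [h0]
        exact (hT m).lie (hT m')
      rw [(hT ⁅m, m'⁆).b_unique h1 hX hx, (hT m).b_lie (hT m') hX hx]
      rw [lie_vec, lie_vec, Pi.sub_apply, Pi.sub_apply]
      push_cast
      rw [up_mulVec, up_mulVec]
      rfl)
  refine ⟨fun j => (u j : F), fun j => (u j).2, fun S m hS => ?_⟩
  let m' : Matrix J J (constants d) := fun i j => ⟨m i j, hS.const i j⟩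
  have hm' : m' ∈ c.lieAlg := ⟨S, hS⟩
  have h1 : c.Good (T ⟨m', hm'⟩) m := hT ⟨m', hm'⟩
  rw [hS.b_unique h1 hX hx]
  funext j
  have h2 := congrArg (fun v : J → constants d => ((v j : constants d) : F)) (hu ⟨m', hm'⟩)
  rw [← hβ]
  refine h2.trans ?_
  exact up_mulVec m' u j

end JCtx

end Pool.Agent.AXE
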