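import Mathlib
import Pool.Agent.AXE.JWhite

/-!
# Divisors with too few independent coordinates are algebraic over the base
-/

set_option autoImplicit false
set_option linter.unusedSectionVars false

namespace Pool.Agent.AXE

open Matrix

variable {F : Type} [Field F] [CharZero F] {d : Derivation ℤ F F} {K : Subfield F} {g : ℕ}
  {J P : Type} [Fintype J] [DecidableEq J] [Fintype P]

namespace JCtx

variable {c : JCtx d K g J P}

theorem ω_add (c : JCtx d K g J P) (T T' : Derivation ℤ F F) (i : ℕ) :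
    c.ω (T + T') i = c.ω T i + c.ω T' i := by
  unfold ω σ
  rw [← Finset.sum_add_distrib]
  refine Finset.sum_congr rfl (fun p _ => ?_)
  rw [Derivation.add_apply]
  ring

theorem ω_smul (c : JCtx d K g J P) (a : F) (T : Derivation ℤ F F) (i : ℕ) :
    c.ω (a • T) i = a * c.ω T i := by
  unfold ω σ
  rw [Finset.mul_sum]
  refine Finset.sum_congr rfl (fun p _ => ?_)
  rw [Derivation.smul_apply, smul_eq_mul]
  ring

/-- the corrected logarithm is a primitive of the differential forms over `K` -/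
theorem xhat (hX : ∀ p, c.X p ∈ c.k) (hx : ∀ i, c.x i ∈ c.k) (u0 : J → F)
    (hu0 : ∀ j, d (u0 j) = 0) (hb : ∀ T m, c.Good T m → c.E.b T = m *ᵥ u0)
    (D : Derivation ℤ F F) (hD : Kills D K) (i : Fin (2 * g)) :
    D (c.x i - (c.Φ *ᵥ u0) i) = c.ω D (i : ℕ) := by
  obtain ⟨D', hD', hDD'⟩ := c.exists_dec hD
  have hu0K : ∀ j, u0 j ∈ K := fun j => c.hC _ (hu0 j)
  have hxk : c.x i - (c.Φ *ᵥ u0) i ∈ c.k :=
    c.k.sub_mem (hx i) (mulVec_mem _ _ _ c.Φ_mem (fun j => c.K_le_k (hu0K j)) i)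
  have h1 : D (c.x i - (c.Φ *ᵥ u0) i) = D' (c.x i - (c.Φ *ᵥ u0) i) := by
    have h := hDD' _ hxk
    rw [Derivation.sub_apply, sub_eq_zero] at h
    exact h
  have h2 : c.ω D (i : ℕ) = c.ω D' (i : ℕ) := by
    have h : c.ω (D - D') (i : ℕ) = 0 := c.ω_zero (fun p => hDD' _ (hX p)) _
    have h3 : D = (D - D') + D' := by rw [sub_add_cancel]
    rw [h3, ω_add, h, zero_add]
  rw [h1, h2]
  let Q : Submodule F (Derivation ℤ F F) :=
    { carrier := {T | T (c.x i - (c.Φ *ᵥ u0) i) = c.ω T (i : ℕ)}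
      add_mem' := fun {a b} ha hb => by
        have ha' : a (c.x i - (c.Φ *ᵥ u0) i) = c.ω a (i : ℕ) := ha
        have hb' : b (c.x i - (c.Φ *ᵥ u0) i) = c.ω b (i : ℕ) := hb
        change (a + b) (c.x i - (c.Φ *ᵥ u0) i) = c.ω (a + b) (i : ℕ)
        rw [Derivation.add_apply, ha', hb', ω_add]
      zero_mem' := by
        change (0 : Derivation ℤ F F) _ = c.ω 0 (i : ℕ)
        rw [c.ω_zero (fun p => rfl)]
        rfl
      smul_mem' := fun t a ha => by
        have ha' : a (c.x i - (c.Φ *ᵥ u0) i) = c.ω a (i : ℕ) := ha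
        change (t • a) (c.x i - (c.Φ *ᵥ u0) i) = c.ω (t • a) (i : ℕ)
        rw [Derivation.smul_apply, ha', ω_smul, smul_eq_mul] }
  have hQ : c.GS ≤ Q := Submodule.span_le.2 (fun T hT => by
    obtain ⟨m, hm⟩ := hT
    change T (c.x i - (c.Φ *ᵥ u0) i) = c.ω T (i : ℕ)
    rw [map_sub, c.Tx T i, hb T m hm, map_mulVec_der, hm.map]
    have h3 : (fun j => T (u0 j)) = 0 := funext fun j => hm.kill _ (hu0K j)
    rw [h3, Matrix.mulVec_zero, Pi.zero_apply, add_zero, Matrix.mulVec_mulVec]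
    ring)
  exact hQ hD'

theorem algebraic (hirr : IrredOver d (cl (K : Set F)) c.A) [IsAlgClosed (constants d)]
    (hr : c.Red) (hne : ∃ a ∈ c.Ann, a ≠ 0) :
    (∀ p, c.X p ∈ cl (K : Set F)) ∧ ∃ u0 : J → F, (∀ j, d (u0 j) = 0) ∧
      ∀ i, c.x i - (c.Φ *ᵥ u0) i ∈ cl (K : Set F) := by
  have hB := B_zero hirr hne
  have hX := X_mem hr hB
  have hx := x_mem hX hB
  obtain ⟨u0, hu0, hb⟩ := exists_u0 hirr hX hx
  have hxh := xhat hX hx u0 hu0 hb
  have hXK : ∀ p, c.X p ∈ cl (K : Set F) := fun p =>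
    hol_base K c.f c.hGM.coeff_mem c.hcop g c.hGM.natDegree
      c.X c.Y c.hY c.hXY c.n hr.n hr.X hr.card
      (fun i => if h : i < 2 * g then c.x ⟨i, h⟩ - (c.Φ *ᵥ u0) ⟨i, h⟩ else 0)
      (fun T hT i hi => by
        rw [dif_pos (by omega)]
        exact hxh T hT ⟨i, by omega⟩) p
  refine ⟨hXK, u0, hu0, fun i D hD => ?_⟩
  rw [hxh D hD i]
  exact c.ω_zero (fun p => hXK p D hD) _

end JCtx

end Pool.Agent.AXE
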