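import Mathlib
import Pool.Agent.AXE.SCtx

/-!
# Good derivations span all derivations over `K`; stable spaces of vectors
-/

set_option autoImplicit false
set_option linter.unusedSectionVars false

namespace Pool.Agent.AXE

open Matrix

variable {F : Type} [Field F] [CharZero F] {d : Derivation ℤ F F} {K : Subfield F} {I : Type}
  [Fintype I] [DecidableEq I]
  {J : Type} [Fintype J] [DecidableEq J]

namespace SCtx

variable (c : SCtx d K I J)

/-- the span of the good derivations -/
def GS : Submodule F (Derivation ℤ F F) := Submodule.span F {T | ∃ m, c.Good T m}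

/-- the matrix by which a derivation acts on the periods, as a vector -/
def nL : Derivation ℤ F F →ₗ[F] (J × J → F) where
  toFun := fun D p => (c.Ψ * c.Φ.map D) p.1 p.2
  map_add' := fun D D' => by
    funext p
    have h1 : c.Φ.map (D + D' : Derivation ℤ F F) = c.Φ.map D + c.Φ.map D' := rfl
    rw [h1, Matrix.mul_add]
    rfl
  map_smul' := fun a D => by
    funext p
    have h1 : c.Φ.map (a • D : Derivation ℤ F F) = a • c.Φ.map D := rfl
    rw [h1, Matrix.mul_smul]
    rfl

theorem nL_apply (D : Derivation ℤ F F) (p : J × J) :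
    c.nL D p = (c.Ψ * c.Φ.map D) p.1 p.2 := rfl

theorem Φ_lie {D : Derivation ℤ F F} (hD : Kills D K) :
    c.Φ.map (⁅d, D⁆ : Derivation ℤ F F) = (c.Φ.map D).map d - c.A * c.Φ.map D := by
  have e1 : c.Φ.map (⁅d, D⁆ : Derivation ℤ F F) = (c.Φ.map D).map d - (c.Φ.map d).map D := by
    ext i j
    rw [Matrix.map_apply, Derivation.commutator_apply]
    rfl
  have e3 : c.A.map D = 0 := map_zero_of (fun i j => hD _ (c.hA i j))
  rw [e1, c.hΦ, map_mul_der, e3, Matrix.zero_mul, zero_add]

theorem exists_dec {D : Derivation ℤ F F} (hD : Kills D K) :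
    ∃ D' ∈ c.GS, Kills (D - D') c.k := by
  let S : Submodule F (J × J → F) := (derM' K).map c.nL
  have hS : ∀ v ∈ S, (fun i => d (v i)) ∈ S := by
    rintro v ⟨D, hD, rfl⟩
    have hD' : Kills D K := hD
    refine ⟨⁅d, D⁆, kills_lie' c.hK hD', ?_⟩
    funext p
    rw [nL_apply, nL_apply, c.Φ_lie hD']
    have h1 : (c.Ψ * c.Φ.map D).map d = c.Ψ * ((c.Φ.map D).map d - c.A * c.Φ.map D) := by
      rw [map_mul_der, c.Ψ_d, Matrix.mul_sub, Matrix.neg_mul, ← Matrix.mul_assoc]
      abel
    rw [← h1]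
    rfl
  have h1 := span_const d S hS (⟨D, hD, rfl⟩ : c.nL D ∈ S)
  have h2 : {v | v ∈ S ∧ ∀ i, d (v i) = 0} ⊆ c.nL '' {T | ∃ m, c.Good T m} := by
    rintro v ⟨⟨T, hT, rfl⟩, hv⟩
    have hT' : Kills T K := hT
    refine ⟨T, ⟨c.Ψ * c.Φ.map T, hT', fun i j => hv (i, j), ?_⟩, rfl⟩
    rw [← Matrix.mul_assoc, c.ΦΨ, Matrix.one_mul]
  have h3 := Submodule.span_mono (R := F) h2 h1
  rw [← Submodule.map_span] at h3
  obtain ⟨D', hD', hDD'⟩ := h3
  refine ⟨D', hD', kills_cl (fun s hs => ?_)⟩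
  have hD'K : Kills D' K := by
    have h4 : c.GS ≤ derM' K := Submodule.span_le.2 (fun T hT => by
      obtain ⟨m, hm⟩ := hT
      exact hm.kill)
    exact h4 hD'
  rcases hs with hs | ⟨a, b, rfl⟩
  · rw [Derivation.sub_apply, hD s hs, hD'K s hs, sub_zero]
  · have h5 : c.Ψ * c.Φ.map D' = c.Ψ * c.Φ.map D := by
      ext i j
      exact congrFun hDD' (i, j)
    have h6 : c.Φ.map D' = c.Φ.map D := by
      calc c.Φ.map D' = c.Φ * (c.Ψ * c.Φ.map D') := by
            rw [← Matrix.mul_assoc, c.ΦΨ, Matrix.one_mul]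
        _ = c.Φ * (c.Ψ * c.Φ.map D) := by rw [h5]
        _ = c.Φ.map D := by rw [← Matrix.mul_assoc, c.ΦΨ, Matrix.one_mul]
    have h7 := congrFun (congrFun h6 a) b
    rw [Matrix.map_apply, Matrix.map_apply] at h7
    rw [Derivation.sub_apply, h7, sub_self]

theorem map_sub_kills {D D' : Derivation ℤ F F} (h : Kills (D - D') c.k) :
    c.Φ.map D = c.Φ.map D' := by
  ext a b
  have h1 := h _ (c.Φ_mem a b)
  rw [Derivation.sub_apply, sub_eq_zero] at h1
  exact h1

/-- the column space spanned by a stable set of constant vectors is stable under derivations -/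
theorem col_stab (U : Set (J → F)) (hUd : ∀ u ∈ U, ∀ j, d (u j) = 0)
    (hU : ∀ T m, c.Good T m → ∀ u ∈ U, m *ᵥ u ∈ U) (D : Derivation ℤ F F) (hD : Kills D K)
    (v : I → F) (hv : v ∈ Submodule.span F {v | ∃ u ∈ U, v = c.Φ *ᵥ u}) :
    (fun i => D (v i)) ∈ Submodule.span F {v | ∃ u ∈ U, v = c.Φ *ᵥ u} := by
  set W := Submodule.span F {v | ∃ u ∈ U, v = c.Φ *ᵥ u} with hW
  have hgen : ∀ u ∈ U, c.Φ.map D *ᵥ u ∈ W := by
    intro u hu
    obtain ⟨D', hD', hDD'⟩ := c.exists_dec hD
    rw [c.map_sub_kills hDD']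
    let Q : Submodule F (Derivation ℤ F F) :=
      { carrier := {T | c.Φ.map T *ᵥ u ∈ W}
        add_mem' := fun {a b} ha hb => by
          have h1 : c.Φ.map (a + b : Derivation ℤ F F) = c.Φ.map a + c.Φ.map b := rfl
          change c.Φ.map (a + b : Derivation ℤ F F) *ᵥ u ∈ W
          rw [h1, Matrix.add_mulVec]
          exact W.add_mem ha hb
        zero_mem' := by
          have h1 : c.Φ.map (0 : Derivation ℤ F F) = 0 := rfl
          change c.Φ.map (0 : Derivation ℤ F F) *ᵥ u ∈ W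
          rw [h1, Matrix.zero_mulVec]
          exact W.zero_mem
        smul_mem' := fun t a ha => by
          have h1 : c.Φ.map (t • a : Derivation ℤ F F) = t • c.Φ.map a := rfl
          change c.Φ.map (t • a : Derivation ℤ F F) *ᵥ u ∈ W
          rw [h1, Matrix.smul_mulVec]
          exact W.smul_mem t ha }
    have hQ : c.GS ≤ Q := Submodule.span_le.2 (fun T hT => by
      obtain ⟨m, hm⟩ := hT
      change c.Φ.map T *ᵥ u ∈ W
      rw [hm.map, ← Matrix.mulVec_mulVec]
      exact Submodule.subset_span ⟨_, hU T m hm u hu, rfl⟩)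
    exact hQ hD'
  induction hv using Submodule.span_induction with
  | mem v hv =>
    obtain ⟨u, hu, rfl⟩ := hv
    have h1 : (fun i => D ((c.Φ *ᵥ u) i)) = c.Φ.map D *ᵥ u := by
      funext i
      rw [map_mulVec_der]
      have h2 : (fun j => D (u j)) = 0 := by
        funext j
        exact hD _ (c.hC _ (hUd u hu j))
      rw [h2, Matrix.mulVec_zero, Pi.zero_apply, add_zero]
    rw [h1]
    exact hgen u hu
  | zero =>
    have h1 : (fun i : I => D ((0 : I → F) i)) = 0 := by
      funext i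
      exact map_zero D
    rw [h1]
    exact W.zero_mem
  | add x y _ _ hx hy =>
    have h1 : (fun i => D ((x + y) i)) = (fun i => D (x i)) + fun i => D (y i) := by
      funext i
      exact map_add D _ _
    rw [h1]
    exact W.add_mem hx hy
  | smul a x hx' hx =>
    have h1 : (fun i => D ((a • x) i)) = a • (fun i => D (x i)) + D a • x := by
      funext i
      change D (a * x i) = a * D (x i) + D a * x i
      rw [Derivation.leibniz, smul_eq_mul, smul_eq_mul]
      ring
    rw [h1]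
    exact W.add_mem (W.smul_mem _ hx) (W.smul_mem _ hx')

theorem row_stab (U : Set (J → F)) (hUd : ∀ u ∈ U, ∀ j, d (u j) = 0)
    (hU : ∀ T m, c.Good T m → ∀ u ∈ U, u ᵥ* m ∈ U) (D : Derivation ℤ F F) (hD : Kills D K)
    (v : I → F) (hv : v ∈ Submodule.span F {v | ∃ u ∈ U, v = u ᵥ* c.Ψ}) :
    (fun i => D (v i)) ∈ Submodule.span F {v | ∃ u ∈ U, v = u ᵥ* c.Ψ} := by
  set W := Submodule.span F {v | ∃ u ∈ U, v = u ᵥ* c.Ψ} with hW
  have hgen : ∀ u ∈ U, u ᵥ* (c.Ψ * c.Φ.map D * c.Ψ) ∈ W := by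
    intro u hu
    obtain ⟨D', hD', hDD'⟩ := c.exists_dec hD
    rw [c.map_sub_kills hDD']
    let Q : Submodule F (Derivation ℤ F F) :=
      { carrier := {T | u ᵥ* (c.Ψ * c.Φ.map T * c.Ψ) ∈ W}
        add_mem' := fun {a b} ha hb => by
          have h1 : c.Φ.map (a + b : Derivation ℤ F F) = c.Φ.map a + c.Φ.map b := rfl
          change u ᵥ* (c.Ψ * c.Φ.map (a + b : Derivation ℤ F F) * c.Ψ) ∈ W
          rw [h1, Matrix.mul_add, Matrix.add_mul, Matrix.vecMul_add]
          exact W.add_mem ha hb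
        zero_mem' := by
          have h1 : c.Φ.map (0 : Derivation ℤ F F) = 0 := rfl
          change u ᵥ* (c.Ψ * c.Φ.map (0 : Derivation ℤ F F) * c.Ψ) ∈ W
          rw [h1, Matrix.mul_zero, Matrix.zero_mul, Matrix.vecMul_zero]
          exact W.zero_mem
        smul_mem' := fun t a ha => by
          have h1 : c.Φ.map (t • a : Derivation ℤ F F) = t • c.Φ.map a := rfl
          change u ᵥ* (c.Ψ * c.Φ.map (t • a : Derivation ℤ F F) * c.Ψ) ∈ W
          rw [h1, Matrix.mul_smul, Matrix.smul_mul, Matrix.vecMul_smul]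
          exact W.smul_mem t ha }
    have hQ : c.GS ≤ Q := Submodule.span_le.2 (fun T hT => by
      obtain ⟨m, hm⟩ := hT
      change u ᵥ* (c.Ψ * c.Φ.map T * c.Ψ) ∈ W
      rw [hm.map, ← Matrix.mul_assoc, c.ΨΦ, Matrix.one_mul, ← Matrix.vecMul_vecMul]
      exact Submodule.subset_span ⟨_, hU T m hm u hu, rfl⟩)
    exact hQ hD'
  induction hv using Submodule.span_induction with
  | mem v hv =>
    obtain ⟨u, hu, rfl⟩ := hv
    have h1 : (fun i => D ((u ᵥ* c.Ψ) i)) = -(u ᵥ* (c.Ψ * c.Φ.map D * c.Ψ)) := by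
      funext i
      have h2 : (fun j => D (u j)) = 0 := by
        funext j
        exact hD _ (c.hC _ (hUd u hu j))
      have h3 : D ((u ᵥ* c.Ψ) i) = (u ᵥ* c.Ψ.map D) i := by
        change D (u ⬝ᵥ fun j => c.Ψ j i) = u ⬝ᵥ fun j => D (c.Ψ j i)
        rw [map_dotProduct_der, h2, zero_dotProduct, zero_add]
      rw [h3, c.Ψ_map, Matrix.vecMul_neg]
    rw [h1]
    exact W.neg_mem (hgen u hu)
  | zero =>
    have h1 : (fun i : I => D ((0 : I → F) i)) = 0 := by
      funext i
      exact map_zero D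
    rw [h1]
    exact W.zero_mem
  | add x y _ _ hx hy =>
    have h1 : (fun i => D ((x + y) i)) = (fun i => D (x i)) + fun i => D (y i) := by
      funext i
      exact map_add D _ _
    rw [h1]
    exact W.add_mem hx hy
  | smul a x hx' hx =>
    have h1 : (fun i => D ((a • x) i)) = a • (fun i => D (x i)) + D a • x := by
      funext i
      change D (a * x i) = a * D (x i) + D a * x i
      rw [Derivation.leibniz, smul_eq_mul, smul_eq_mul]
      ring
    rw [h1]
    exact W.add_mem (W.smul_mem _ hx) (W.smul_mem _ hx')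

/-- the column space is stable under the connection -/
theorem col_conn (U : Set (J → F)) (hUd : ∀ u ∈ U, ∀ j, d (u j) = 0)
    (v : I → F) (hv : v ∈ Submodule.span F {v | ∃ u ∈ U, v = c.Φ *ᵥ u}) :
    (fun i => d (v i) - (c.A *ᵥ v) i) ∈ Submodule.span F {v | ∃ u ∈ U, v = c.Φ *ᵥ u} := by
  set W := Submodule.span F {v | ∃ u ∈ U, v = c.Φ *ᵥ u} with hW
  induction hv using Submodule.span_induction with
  | mem v hv =>
    obtain ⟨u, hu, rfl⟩ := hv
    have h1 : (fun i => d ((c.Φ *ᵥ u) i) - (c.A *ᵥ (c.Φ *ᵥ u)) i) = 0 := by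
      funext i
      rw [map_mulVec_der]
      have h2 : (fun j => d (u j)) = 0 := by
        funext j
        exact hUd u hu j
      rw [h2, Matrix.mulVec_zero, c.hΦ, Matrix.mulVec_mulVec, Pi.zero_apply, add_zero, sub_self]
    rw [h1]
    exact W.zero_mem
  | zero =>
    have h1 : (fun i : I => d ((0 : I → F) i) -
        (c.A *ᵥ (0 : I → F)) i) = 0 := by
      funext i
      rw [Matrix.mulVec_zero, Pi.zero_apply, map_zero, sub_zero]
    rw [h1]
    exact W.zero_mem
  | add x y _ _ hx hy =>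
    have h1 : (fun i => d ((x + y) i) - (c.A *ᵥ (x + y)) i) =
        (fun i => d (x i) - (c.A *ᵥ x) i) + fun i => d (y i) - (c.A *ᵥ y) i := by
      funext i
      rw [Matrix.mulVec_add, Pi.add_apply, Pi.add_apply, Pi.add_apply, map_add]
      ring
    rw [h1]
    exact W.add_mem hx hy
  | smul a x hx' hx =>
    have h1 : (fun i => d ((a • x) i) - (c.A *ᵥ (a • x)) i) =
        a • (fun i => d (x i) - (c.A *ᵥ x) i) + d a • x := by
      funext i
      rw [Matrix.mulVec_smul]
      change d (a * x i) - a * (c.A *ᵥ x) i = a * (d (x i) - (c.A *ᵥ x) i) + d a * x i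
      rw [Derivation.leibniz, smul_eq_mul, smul_eq_mul]
      ring
    rw [h1]
    exact W.add_mem (W.smul_mem _ hx) (W.smul_mem _ hx')

/-- the row space is stable under the dual connection -/
theorem row_conn (U : Set (J → F)) (hUd : ∀ u ∈ U, ∀ j, d (u j) = 0)
    (v : I → F) (hv : v ∈ Submodule.span F {v | ∃ u ∈ U, v = u ᵥ* c.Ψ}) :
    (fun i => d (v i) + (v ᵥ* c.A) i) ∈ Submodule.span F {v | ∃ u ∈ U, v = u ᵥ* c.Ψ} := by
  set W := Submodule.span F {v | ∃ u ∈ U, v = u ᵥ* c.Ψ} with hW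
  induction hv using Submodule.span_induction with
  | mem v hv =>
    obtain ⟨u, hu, rfl⟩ := hv
    have h1 : (fun i => d ((u ᵥ* c.Ψ) i) + ((u ᵥ* c.Ψ) ᵥ* c.A) i) = 0 := by
      funext i
      have h2 : (fun j => d (u j)) = 0 := by
        funext j
        exact hUd u hu j
      have h3 : d ((u ᵥ* c.Ψ) i) = (u ᵥ* c.Ψ.map d) i := by
        change d (u ⬝ᵥ fun j => c.Ψ j i) = u ⬝ᵥ fun j => d (c.Ψ j i)
        rw [map_dotProduct_der, h2, zero_dotProduct, zero_add]
      rw [h3, c.Ψ_d, Matrix.vecMul_neg, Matrix.vecMul_vecMul, Pi.neg_apply, neg_add_cancel]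
      rfl
    rw [h1]
    exact W.zero_mem
  | zero =>
    have h1 : (fun i : I => d ((0 : I → F) i) +
        ((0 : I → F) ᵥ* c.A) i) = 0 := by
      funext i
      rw [Matrix.zero_vecMul, Pi.zero_apply, map_zero, add_zero]
    rw [h1]
    exact W.zero_mem
  | add x y _ _ hx hy =>
    have h1 : (fun i => d ((x + y) i) + ((x + y) ᵥ* c.A) i) =
        (fun i => d (x i) + (x ᵥ* c.A) i) + fun i => d (y i) + (y ᵥ* c.A) i := by
      funext i
      rw [Matrix.add_vecMul, Pi.add_apply, Pi.add_apply, Pi.add_apply, map_add]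
      ring
    rw [h1]
    exact W.add_mem hx hy
  | smul a x hx' hx =>
    have h1 : (fun i => d ((a • x) i) + ((a • x) ᵥ* c.A) i) =
        a • (fun i => d (x i) + (x ᵥ* c.A) i) + d a • x := by
      funext i
      rw [Matrix.smul_vecMul]
      change d (a * x i) + a * (x ᵥ* c.A) i = a * (d (x i) + (x ᵥ* c.A) i) + d a * x i
      rw [Derivation.leibniz, smul_eq_mul, smul_eq_mul]
      ring
    rw [h1]
    exact W.add_mem (W.smul_mem _ hx) (W.smul_mem _ hx')

end SCtx

end Pool.Agent.AXE
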