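import Mathlib
import Pool.Agent.AXE.SGood

/-!
# The annihilator of the defects
-/

set_option autoImplicit false
set_option linter.unusedSectionVars false

namespace Pool.Agent.AXE

open Matrix

variable {F : Type} [Field F] [CharZero F] {d : Derivation ℤ F F} {K : Subfield F} {I : Type}
  [Fintype I] [DecidableEq I]
  {J : Type} [Fintype J] [DecidableEq J]

namespace SCtx

variable {c : SCtx d K I J}

/-- the cocycle relation in general form -/
theorem b_lie_gen {S T : Derivation ℤ F F} (hS : Kills S K) (hT : Kills T K)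
    {m m' : Matrix J J F} (h : c.Φ.map S = c.Φ * m) (h' : c.Φ.map T = c.Φ * m') :
    c.b ⁅S, T⁆ = m *ᵥ c.b T + (fun j => S (c.b T j)) - (m' *ᵥ c.b S +
      fun j => T (c.b S j)) := by
  have h1 : c.B ⁅S, T⁆ = c.Φ *ᵥ (m *ᵥ c.b T + (fun j => S (c.b T j)) -
      (m' *ᵥ c.b S + fun j => T (c.b S j))) := by
    funext i
    rw [c.B_lie hS hT]
    have e1 : S (c.B T i) = (c.Φ *ᵥ (m *ᵥ c.b T + fun j => S (c.b T j))) i := by
      rw [← c.Φb T, map_mulVec_der, h, Matrix.mulVec_add, Matrix.mulVec_mulVec, Pi.add_apply]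
    have e2 : T (c.B S i) = (c.Φ *ᵥ (m' *ᵥ c.b S + fun j => T (c.b S j))) i := by
      rw [← c.Φb S, map_mulVec_der, h', Matrix.mulVec_add, Matrix.mulVec_mulVec, Pi.add_apply]
    rw [e1, e2, Matrix.mulVec_sub, Pi.sub_apply]
  rw [b_eq, h1, Matrix.mulVec_mulVec, c.ΨΦ, Matrix.one_mulVec]

theorem map_of_kills {T : Derivation ℤ F F} (hT : Kills T c.k) :
    c.Φ.map T = c.Φ * (0 : Matrix J J F) := by
  rw [Matrix.mul_zero]
  exact map_zero_of (fun a b => hT _ (c.Φ_mem a b))

/-- the constant vectors orthogonal to all defects over the field of periods -/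
def Ann (c : SCtx d K I J) : Set (J → F) :=
  {a | (∀ j, d (a j) = 0) ∧ ∀ T : Derivation ℤ F F, Kills T c.k → a ⬝ᵥ c.b T = 0}

theorem Ann_stab (T : Derivation ℤ F F) (m : Matrix J J F) (hT : c.Good T m) (a : J → F)
    (ha : a ∈ c.Ann) : a ᵥ* m ∈ c.Ann := by
  obtain ⟨had, ha⟩ := ha
  have haK : ∀ j, a j ∈ K := fun j => c.hC _ (had j)
  refine ⟨fun j => ?_, fun U hU => ?_⟩
  · change d (a ⬝ᵥ fun i => m i j) = 0
    rw [map_dotProduct_der]
    have h1 : (fun j => d (a j)) = 0 := funext had
    have h2 : (fun i => d (m i j)) = 0 := funext fun i => hT.const i j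
    rw [h1, h2, zero_dotProduct, dotProduct_zero, add_zero]
  · have hUK : Kills U K := kills_K hU
    -- the bracket kills `k`
    have hTU : Kills ⁅T, U⁆ c.k := fun z hz => by
      rw [Derivation.commutator_apply, hU z hz, map_zero, hU _ (hT.stab hz), sub_zero]
    have h1 := ha _ hTU
    rw [b_lie_gen hT.kill hUK hT.map (map_of_kills hU), Matrix.zero_mulVec, zero_add,
      dotProduct_sub, dotProduct_add, Matrix.dotProduct_mulVec] at h1
    have h2 : a ⬝ᵥ (fun j => T (c.b U j)) = 0 := by
      have h3 := map_dotProduct_der T a (c.b U)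
      rw [ha U hU, map_zero] at h3
      have h4 : (fun j => T (a j)) = 0 := funext fun j => hT.kill _ (haK j)
      rw [h4, zero_dotProduct, zero_add] at h3
      exact h3.symm
    have h5 : a ⬝ᵥ (fun j => U (c.b T j)) = 0 := by
      have h3 := map_dotProduct_der U a (c.b T)
      have h4 : (fun j => U (a j)) = 0 := funext fun j => hUK _ (haK j)
      rw [h4, zero_dotProduct, zero_add] at h3
      rw [← h3]
      apply hUK
      apply c.hC
      rw [map_dotProduct_der]
      have h6 : (fun j => d (a j)) = 0 := funext had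
      have h7 : (fun j => d (c.b T j)) = c.b ⁅d, T⁆ := funext fun j => c.db hT.kill j
      rw [h6, zero_dotProduct, zero_add, h7]
      exact ha _ hT.comm
    rw [h2, h5, add_zero, sub_zero] at h1
    exact h1

end SCtx

end Pool.Agent.AXE
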