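import Mathlib
import Pool.Agent.AXE.SAnn

/-!
# The Lie algebra of the differential Galois group
-/

set_option autoImplicit false
set_option linter.unusedSectionVars false

namespace Pool.Agent.AXE

open Matrix LieModule

attribute [local instance 100] LieRing.ofAssociativeRing

variable {F : Type} [Field F] [CharZero F] {d : Derivation ℤ F F} {K : Subfield F} {I : Type}
  [Fintype I] [DecidableEq I]
  {J : Type} [Fintype J] [DecidableEq J]

namespace SCtx

variable (c : SCtx d K I J)

/-- matrices of constants as matrices over `F` -/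
def up (m : Matrix J J (constants d)) : Matrix J J F := fun i j => (m i j : F)

theorem up_apply (m : Matrix J J (constants d)) (i j : J) : up m i j = (m i j : F) := rfl

theorem up_add (m m' : Matrix J J (constants d)) : up (m + m') = up m + up m' := rfl

theorem up_smul (t : constants d) (m : Matrix J J (constants d)) :
    up (t • m) = (t : F) • up m := rfl

theorem up_mul (m m' : Matrix J J (constants d)) : up (m * m') = up m * up m' := by
  ext i j
  rw [up_apply, Matrix.mul_apply, Matrix.mul_apply]
  push_cast
  rfl

theorem up_sub (m m' : Matrix J J (constants d)) : up (m - m') = up m - up m' := rfl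

theorem up_mulVec (m : Matrix J J (constants d)) (u : J → constants d) (i : J) :
    (((m *ᵥ u) i : constants d) : F) = (up m *ᵥ fun j => (u j : F)) i := by
  change ((∑ j, m i j * u j : constants d) : F) = ∑ j, up m i j * (u j : F)
  push_cast
  rfl

/-- the Lie algebra of the matrices by which derivations act on the periods -/
def lieAlg : LieSubalgebra (constants d) (Matrix J J (constants d)) where
  carrier := {m | ∃ T, c.Good T (up m)}
  add_mem' := by
    rintro m m' ⟨T, hT⟩ ⟨T', hT'⟩
    refine ⟨T + T', fun s hs => ?_, fun i j => ((m + m') i j).2, ?_⟩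
    · rw [Derivation.add_apply, hT.kill s hs, hT'.kill s hs, add_zero]
    · have h1 : c.Φ.map (T + T' : Derivation ℤ F F) = c.Φ.map T + c.Φ.map T' := rfl
      rw [h1, hT.map, hT'.map, up_add, Matrix.mul_add]
  zero_mem' := by
    refine ⟨0, fun s hs => rfl, fun i j => (0 : constants d).2, ?_⟩
    have h1 : c.Φ.map (0 : Derivation ℤ F F) = 0 := rfl
    have h2 : up (0 : Matrix J J (constants d)) = (0 : Matrix J J F) := rfl
    rw [h1, h2, Matrix.mul_zero]
  smul_mem' := by
    rintro t m ⟨T, hT⟩
    refine ⟨(t : F) • T, fun s hs => ?_, fun i j => ((t • m) i j).2, ?_⟩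
    · rw [Derivation.smul_apply, hT.kill s hs, smul_zero]
    · have h1 : c.Φ.map ((t : F) • T : Derivation ℤ F F) = (t : F) • c.Φ.map T := rfl
      rw [h1, hT.map, up_smul, Matrix.mul_smul]
  lie_mem' := by
    rintro m m' ⟨T, hT⟩ ⟨T', hT'⟩
    refine ⟨⁅T, T'⁆, ?_⟩
    have h1 : up ⁅m, m'⁆ = up m * up m' - up m' * up m := by
      rw [LieRing.of_associative_ring_bracket, up_sub, up_mul, up_mul]
    rw [h1]
    exact hT.lie hT'

theorem mem_lieAlg (m : Matrix J J (constants d)) : m ∈ c.lieAlg ↔ ∃ T, c.Good T (up m) := Iff.rfl

theorem lie_vec (m : c.lieAlg) (u : J → constants d) :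
    ⁅m, u⁆ = (m : Matrix J J (constants d)) *ᵥ u := rfl

end SCtx

end Pool.Agent.AXE
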