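import Mathlib
import Pool.Agent.AXE.SLie

/-!
# Relations from a small transcendence degree
-/

set_option autoImplicit false
set_option linter.unusedSectionVars false

namespace Pool.Agent.AXE

open Matrix

variable {F : Type} [Field F] [CharZero F] {d : Derivation ℤ F F} {K : Subfield F} {I : Type}
  [Fintype I] [DecidableEq I]
  {J : Type} [Fintype J] [DecidableEq J]

namespace SCtx

variable {c : SCtx d K I J}

/-- a missing direction gives a constant relation -/
theorem exists_rel (c : SCtx d K I J) (M : Subfield F) (hKM : K ≤ M) (hM : ∀ m ∈ M, d m ∈ M)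
    (hV : (derM' M).map c.bL ≠ ⊤) :
    ∃ a : J → F, a ≠ 0 ∧ (∀ j, d (a j) = 0) ∧
      ∀ T : Derivation ℤ F F, Kills T M → a ⬝ᵥ c.b T = 0 := by
  classical
  obtain ⟨f, hf0, hf⟩ := Submodule.exists_le_ker_of_lt_top _ (lt_top_iff_ne_top.2 hV)
  let S : Set (J → F) := {a | ∀ T : Derivation ℤ F F, Kills T M → a ⬝ᵥ c.b T = 0}
  have hne : ∃ a ∈ S, a ≠ 0 := by
    refine ⟨fun j => f (Pi.single j 1), fun T hT => ?_, fun h => hf0 ?_⟩
    · have h1 : f (c.b T) = 0 := hf ⟨T, hT, rfl⟩
      have h2 : c.b T = ∑ j, c.b T j • (Pi.single j (1 : F) : J → F) := by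
        funext j'
        rw [Finset.sum_apply]
        simp only [Pi.smul_apply, smul_eq_mul, Pi.single_apply]
        simp
      rw [h2, map_sum] at h1
      rw [← h1]
      refine Finset.sum_congr rfl (fun j _ => ?_)
      rw [map_smul, smul_eq_mul, mul_comm]
    · refine LinearMap.pi_ext' (fun j => LinearMap.ext_ring ?_)
      exact congrFun h j
  have hS : ∀ a ∈ S, ∀ t : F, (fun j => t * a j) ∈ S := fun a ha t T hT => by
    have h1 : (fun j => t * a j) = t • a := rfl
    rw [h1, smul_dotProduct, ha T hT, smul_zero]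
  have hD : ∀ a ∈ S, (fun j => d (a j)) ∈ S := fun a ha T hT => by
    have h3 := congrArg d (ha T hT)
    rw [map_dotProduct_der, map_zero] at h3
    have h4 : (fun j => d (c.b T j)) = c.b ⁅d, T⁆ :=
      funext fun j => c.db (fun s hs => hT s (hKM hs)) j
    rw [h4, ha _ (kills_lie' hM hT), add_zero] at h3
    exact h3
  obtain ⟨a, haS, ha0, had⟩ := exists_const' d S hS hD hne
  exact ⟨a, ha0, had, haS⟩

theorem le_of_top (c : SCtx d K I J) (M : Subfield F) (hKM : K ≤ M)
    (htop : (derM' M).map c.bL = ⊤) (Z : Set F) (hxZ : ∀ i, c.x i ∈ Z) (hVZ : c.V ⊆ Z) :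
    ((Fintype.card J : ℕ) : Cardinal) ≤ Algebra.trdeg M (IntermediateField.adjoin M Z) := by
  classical
  have hex : ∀ j : J, ∃ T : Derivation ℤ F F, Kills T M ∧ c.b T = Pi.single j 1 := by
    intro j
    have h1 : (Pi.single j (1 : F) : J → F) ∈ (derM' M).map c.bL := by
      rw [htop]
      exact Submodule.mem_top
    obtain ⟨T, hT, hTj⟩ := h1
    exact ⟨T, hT, hTj⟩
  choose T hT hTj using hex
  refine le_trdeg M Z T hT (fun l hl j => ?_)
  have h2 : c.b (∑ j, l j • T j) = l := by
    have h3 := map_sum c.bL (fun j => l j • T j) Finset.univ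
    change c.b (∑ j, l j • T j) = ∑ j, c.b (l j • T j) at h3
    rw [h3]
    funext j'
    rw [Finset.sum_apply]
    have h4 : ∀ j, c.b (l j • T j) j' = l j * (Pi.single j (1 : F) : J → F) j' :=
      fun j => by
        rw [c.b_smul, hTj]
        rfl
    rw [Finset.sum_congr rfl (fun j _ => h4 j)]
    simp only [Pi.single_apply]
    simp
  have h4 : ∀ z ∈ Z, (∑ j, l j • T j) z = 0 := fun z hz => by
    rw [sum_smul_apply]
    exact hl z hz
  have hk : Kills (∑ j, l j • T j) K := fun s hs => by
    rw [sum_smul_apply]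
    exact Finset.sum_eq_zero (fun j _ => by rw [hT j s (hKM hs), mul_zero])
  have h5 : c.b (∑ j, l j • T j) = 0 := by
    have h6 : c.B (∑ j, l j • T j) = 0 := by
      funext i
      rw [B_eq, h4 _ (hxZ i), c.zero _ hk (fun v hv => h4 v (hVZ hv)), sub_zero]
      rfl
    rw [b_eq, h6, Matrix.mulVec_zero]
  have h6 := congrFun (h2.symm.trans h5) j
  exact h6

end SCtx

end Pool.Agent.AXE
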