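import Mathlib
import Pool.Agent.AXE.SRel

/-!
# Descent of spaces stable under all derivations over `K`
-/

set_option autoImplicit false
set_option linter.unusedSectionVars false

namespace Pool.Agent.AXE

open Matrix

variable {F : Type} [Field F] [CharZero F]

/-- a vector of elements of `L` in the `F`-span of a space of vectors over `L` lies in this
space -/
theorem mem_of_mem_span' {L : Subfield F} {I : Type} [Fintype I] (N : Submodule L (I → F))
    (hN : ∀ u ∈ N, ∀ i, u i ∈ L) (w : I → F) (hw : ∀ i, w i ∈ L)
    (h : w ∈ Submodule.span F (N : Set (I → F))) : w ∈ N := by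
  let N' : Submodule L (I → L) :=
    { carrier := {u | (fun i => (u i : F)) ∈ N}
      add_mem' := fun {a b} ha hb => N.add_mem ha hb
      zero_mem' := N.zero_mem
      smul_mem' := fun t a ha => N.smul_mem t ha }
  let w' : I → L := fun i => ⟨w i, hw i⟩
  have h1 : w' ∈ N' := by
    refine mem_of_mem_span N' w' ?_
    refine (Submodule.span_mono (R := F) ?_) h
    intro u hu
    exact ⟨fun i => ⟨u i, hN u hu i⟩, hu, rfl⟩
  exact h1

/-- a space of vectors stable under all derivations over `K` is spanned by its algebraic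
vectors -/
theorem span_alg (K : Subfield F) {I : Type} [Fintype I] (S : Submodule F (I → F))
    (hS : ∀ D : Derivation ℤ F F, Kills D K → ∀ v ∈ S, (fun i => D (v i)) ∈ S) :
    S ≤ Submodule.span F {v | v ∈ S ∧ ∀ i, v i ∈ cl (K : Set F)} := by
  classical
  let C := cl (K : Set F)
  let U : Submodule C (I → C) :=
    { carrier := {u | (fun i => (u i : F)) ∈ S}
      add_mem' := fun {a b} ha hb => S.add_mem ha hb
      zero_mem' := S.zero_mem
      smul_mem' := fun t a ha => S.smul_mem (t : F) ha }
  obtain ⟨π, hπ⟩ := U.subtype.exists_leftInverse_of_injective (Submodule.ker_subtype U)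
  have hπU : ∀ u ∈ U, (π u : I → C) = u := fun u hu => by
    have h1 := LinearMap.congr_fun hπ ⟨u, hu⟩
    have h2 : π u = ⟨u, hu⟩ := h1
    rw [h2]
  let e : I → (I → F) := fun j i => ((π (Pi.single j 1) : I → C) i : F)
  have heS : ∀ j, e j ∈ S := fun j => (π (Pi.single j 1)).2
  have hed : ∀ j i, e j i ∈ C := fun j i => ((π (Pi.single j 1) : I → C) i).2
  let Pm : (I → F) →ₗ[F] (I → F) :=
    { toFun := fun v => ∑ j, v j • e j
      map_add' := fun u v => by
        simp only [Pi.add_apply, add_smul, Finset.sum_add_distrib]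
      map_smul' := fun a v => by
        simp only [Pi.smul_apply, smul_eq_mul, RingHom.id_apply, Finset.smul_sum, mul_smul] }
  have hPapp : ∀ v i, Pm v i = ∑ j, v j * e j i := fun v i => by
    change (∑ j, v j • e j) i = _
    rw [Finset.sum_apply]
    rfl
  have hPc : ∀ v ∈ S, (∀ i, v i ∈ C) → Pm v = v := by
    intro v hv hvd
    let u : I → C := fun i => ⟨v i, hvd i⟩
    have hu : u ∈ U := hv
    have h1 := hπU u hu
    have h2 : u = ∑ j, u j • (Pi.single j (1 : C) : I → C) := by
      funext i
      rw [Finset.sum_apply]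
      simp only [Pi.smul_apply, smul_eq_mul, Pi.single_apply]
      simp
    rw [h2, map_sum] at h1
    funext i
    have h3 := congrArg (fun t : I → C => ((t i : C) : F)) h1
    rw [← h2] at h3
    rw [hPapp]
    have h4 : (((∑ j, π (u j • (Pi.single j (1 : C) : I → C)) : U) : I → C) i : C) =
        ∑ j, u j * (π (Pi.single j 1) : I → C) i := by
      rw [Submodule.coe_sum, Finset.sum_apply]
      refine Finset.sum_congr rfl (fun j _ => ?_)
      rw [map_smul]
      rfl
    have h5 : ((∑ j, u j * (π (Pi.single j 1) : I → C) i : C) : F) = ∑ j, v j * e j i := by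
      push_cast
      rfl
    rw [← h5, ← h4]
    exact h3
  have hPP : ∀ v, Pm (Pm v) = Pm v := fun v => by
    have h1 : Pm v = ∑ j, v j • e j := rfl
    rw [h1, map_sum]
    exact Finset.sum_congr rfl (fun j _ => by rw [map_smul, hPc _ (heS j) (hed j)])
  have hPS : ∀ v, Pm v ∈ S := fun v => S.sum_mem (fun j _ => S.smul_mem _ (heS j))
  have hPd : ∀ D : Derivation ℤ F F, Kills D K → ∀ v, (fun i => D (Pm v i)) =
      Pm (fun i => D (v i)) := fun D hD v => by
    funext i
    rw [hPapp, hPapp, map_sum]
    refine Finset.sum_congr rfl (fun j _ => ?_)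
    rw [Derivation.leibniz, hed j i D hD, smul_zero, zero_add, smul_eq_mul, mul_comm]
  intro v hv
  have hv0 : v - Pm v = 0 := by
    by_contra hne
    let W : Submodule F (I → F) := S ⊓ LinearMap.ker Pm
    obtain ⟨w, ⟨hwS, hwP⟩, hw0, hwd⟩ := exists_alg_vec K W
      (fun D hD w hw => ⟨hS D hD w hw.1, by
        have h1 : Pm w = 0 := hw.2
        change Pm _ = 0
        rw [← hPd D hD, h1]
        funext i
        exact map_zero D⟩)
      (fun h => hne (by
        have h1 : v - Pm v ∈ W := ⟨S.sub_mem hv (hPS v), by
          change Pm _ = 0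
          rw [map_sub, hPP, sub_self]⟩
        rw [h] at h1
        exact (Submodule.mem_bot _).1 h1))
    have hwP' : Pm w = 0 := hwP
    rw [hPc w hwS hwd] at hwP'
    exact hw0 hwP'
  rw [sub_eq_zero.1 hv0]
  exact Submodule.sum_mem _ (fun j _ => Submodule.smul_mem _ _
    (Submodule.subset_span ⟨heS j, hed j⟩))

end Pool.Agent.AXE
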