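import Mathlib
import Pool.Agent.AXE.SDesc

/-!
# Descent of an exact combination of forms from the algebraic closure to the base field
-/

set_option autoImplicit false
set_option linter.unusedSectionVars false

namespace Pool.Agent.AXE

open Polynomial

variable {F : Type} [Field F]

/-- the derivative of the value of a polynomial -/
theorem der_aeval_sum (M : Subfield F) (D : Derivation ℤ F F) (P : M[X]) (v : F) :
    D (aeval v P) = aeval v (derivative P) * D v +
      ∑ i ∈ Finset.range (P.natDegree + 1), D (P.coeff i : F) * v ^ i := by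
  have hP : aeval v P = ∑ i ∈ Finset.range (P.natDegree + 1), (P.coeff i : F) * v ^ i := by
    rw [aeval_eq_sum_range]
    rfl
  have hP' : aeval v (derivative P) =
      ∑ i ∈ Finset.range (P.natDegree + 1), (P.coeff i : F) * (i * v ^ (i - 1)) := by
    conv_lhs => rw [P.as_sum_range_C_mul_X_pow]
    rw [derivative_sum, map_sum]
    refine Finset.sum_congr rfl (fun i _ => ?_)
    rw [derivative_C_mul_X_pow, map_mul, map_pow, aeval_X, aeval_C, map_mul]
    have h1 : algebraMap M F (P.coeff i) = (P.coeff i : F) := rfl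
    rw [h1, map_natCast]
    ring
  rw [hP, hP', map_sum, Finset.sum_mul, ← Finset.sum_add_distrib]
  refine Finset.sum_congr rfl (fun i _ => ?_)
  rw [Derivation.leibniz, Derivation.leibniz_pow, smul_eq_mul, smul_eq_mul, smul_eq_mul,
    nsmul_eq_mul]
  ring

variable [CharZero F]

/-- the derivative of an algebraic element -/
theorem der_alg_mem {E00 E0 : Subfield F} (hle : E00 ≤ E0) {D : Derivation ℤ F F}
    (hD : ∀ s ∈ E00, D s ∈ E0) {v : F} (hv : v ∈ E0) (hva : IsAlgebraic E00 v) : D v ∈ E0 := by
  have hc := charZero_sub E00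
  have h1 : aeval v (minpoly E00 v) = 0 := minpoly.aeval E00 v
  have h3 : (minpoly E00 v).Separable := (minpoly.irreducible hva.isIntegral).separable
  have h4 : aeval v (derivative (minpoly E00 v)) ≠ 0 := h3.aeval_derivative_ne_zero h1
  have h2 := der_aeval_sum E00 D (minpoly E00 v) v
  rw [h1, map_zero] at h2
  have h5 : D v = -(∑ i ∈ Finset.range ((minpoly E00 v).natDegree + 1),
      D ((minpoly E00 v).coeff i : F) * v ^ i) / aeval v (derivative (minpoly E00 v)) := by
    rw [eq_div_iff h4]
    linear_combination -h2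
  rw [h5]
  refine E0.div_mem (E0.neg_mem (E0.sum_mem (fun i _ => E0.mul_mem (hD _ (Subtype.mem _))
    (E0.pow_mem hv i)))) ?_
  have h6 : ∀ Q : E00[X], aeval v Q ∈ E0 := fun Q => by
    rw [aeval_eq_sum_range]
    exact E0.sum_mem (fun i _ => E0.mul_mem (hle (Subtype.mem _)) (E0.pow_mem hv i))
  exact h6 _

/-- the normalized trace: an algebraic element whose derivatives lie in `E` may be replaced by an
element of `E` -/
theorem exists_trace {E : Subfield F} {α : Type} (D : α → Derivation ℤ F F)
    (hD : ∀ a, ∀ s ∈ E, D a s ∈ E) {f : F} (hf : IsAlgebraic E f) (hDf : ∀ a, D a f ∈ E) :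
    ∃ f' ∈ E, ∀ a, D a f' = D a f := by
  have hc := charZero_sub E
  set P := minpoly E f with hP
  have hmon : P.Monic := minpoly.monic hf.isIntegral
  have hr : 0 < P.natDegree := minpoly.natDegree_pos hf.isIntegral
  obtain ⟨r, hr'⟩ : ∃ r, P.natDegree = r + 1 := ⟨P.natDegree - 1, by omega⟩
  have hlead : P.coeff (r + 1) = 1 := by
    rw [← hr']
    exact hmon.coeff_natDegree
  have hr0 : ((r : F) + 1) ≠ 0 := by exact_mod_cast Nat.succ_ne_zero r
  refine ⟨-(P.coeff r : F) / ((r : F) + 1), E.div_mem (E.neg_mem (Subtype.mem _))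
    (E.add_mem (natCast_mem E r) E.one_mem), fun a => ?_⟩
  -- the polynomial of small degree which vanishes at `f`
  let Q : E[X] := ∑ i ∈ Finset.range (r + 1),
    monomial i ((⟨D a (P.coeff i : F), hD a _ (Subtype.mem _)⟩ : E) +
      ⟨D a f, hDf a⟩ * ((i + 1 : ℕ) : E) * P.coeff (i + 1))
  have hQdeg : Q.degree < (r + 1 : ℕ) := by
    refine lt_of_le_of_lt (degree_sum_le _ _) ?_
    rw [Finset.sup_lt_iff (by exact_mod_cast WithBot.bot_lt_coe (r + 1))]
    intro i hi
    refine lt_of_le_of_lt (degree_monomial_le _ _) ?_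
    exact_mod_cast Finset.mem_range.1 hi
  have hQ0 : aeval f Q = 0 := by
    have h1 : aeval f P = 0 := minpoly.aeval E f
    have h2 := der_aeval_sum E (D a) P f
    rw [h1, map_zero, hr', Finset.sum_range_succ, hlead] at h2
    have h3 : D a ((1 : E) : F) = 0 := (D a).map_one_eq_zero
    rw [h3, zero_mul, add_zero] at h2
    have hP' : aeval f (derivative P) =
        ∑ i ∈ Finset.range (r + 1), ((i + 1 : ℕ) : F) * (P.coeff (i + 1) : F) * f ^ i := by
      rw [aeval_eq_sum_range' (n := r + 1) (by
        have := natDegree_derivative_lt (p := P) (by omega)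
        omega)]
      refine Finset.sum_congr rfl (fun i _ => ?_)
      rw [coeff_derivative, Algebra.smul_def]
      have h4 : algebraMap E F (P.coeff (i + 1) * ((i : E) + 1)) =
          (P.coeff (i + 1) : F) * ((i : F) + 1) := by
        rw [map_mul, map_add, map_natCast, map_one]
        rfl
      rw [h4]
      push_cast
      ring
    rw [hP', Finset.sum_mul, ← Finset.sum_add_distrib] at h2
    rw [map_sum]
    refine Eq.trans ?_ h2.symm
    refine Finset.sum_congr rfl (fun i _ => ?_)
    rw [aeval_monomial]
    have h5 : algebraMap E F ((⟨D a (P.coeff i : F), hD a _ (Subtype.mem _)⟩ : E) +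
      ⟨D a f, hDf a⟩ * ((i + 1 : ℕ) : E) * P.coeff (i + 1)) =
        D a (P.coeff i : F) + D a f * ((i + 1 : ℕ) : F) * (P.coeff (i + 1) : F) := by
      rw [map_add, map_mul, map_mul, map_natCast]
      rfl
    rw [h5]
    ring
  have hQz : Q = 0 := by
    by_contra hne
    have h1 := minpoly.degree_le_of_ne_zero E f hne hQ0
    rw [← hP, degree_eq_natDegree hmon.ne_zero, hr'] at h1
    exact absurd (lt_of_le_of_lt h1 hQdeg) (lt_irrefl _)
  have hcoef : Q.coeff r = (⟨D a (P.coeff r : F), hD a _ (Subtype.mem _)⟩ : E) +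
      ⟨D a f, hDf a⟩ * ((r + 1 : ℕ) : E) * P.coeff (r + 1) := by
    rw [finsetSum_coeff, Finset.sum_eq_single r]
    · rw [coeff_monomial, if_pos rfl]
    · intro i _ hi
      rw [coeff_monomial, if_neg hi]
    · intro h
      exact absurd (Finset.mem_range.2 (Nat.lt_succ_self r)) h
  rw [hQz, coeff_zero, hlead, mul_one] at hcoef
  have h1 := congrArg (fun t : E => (t : F)) hcoef
  have h2 : (0 : F) = D a (P.coeff r : F) + D a f * ((r : F) + 1) := by
    refine h1.trans ?_
    push_cast
    rfl
  have h3 : D a (-(P.coeff r : F) / ((r : F) + 1)) = -D a (P.coeff r : F) / ((r : F) + 1) := by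
    have h4 : D a ((r : F) + 1) = 0 := by
      rw [map_add, Derivation.map_natCast, Derivation.map_one_eq_zero, add_zero]
    have h5 : (-(P.coeff r : F) / ((r : F) + 1)) * ((r : F) + 1) = -(P.coeff r : F) :=
      div_mul_cancel₀ _ hr0
    have h6 := congrArg (D a) h5
    rw [Derivation.leibniz, h4, smul_zero, zero_add, smul_eq_mul, map_neg] at h6
    rw [eq_div_iff hr0, mul_comm]
    exact h6
  rw [h3, div_eq_iff hr0]
  linear_combination h2

/-- linear disjointness from the algebraic closure -/
theorem lin_disj {K E0 : Subfield F} {α : Type} (D : α → Derivation ℤ F F)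
    (hDE : ∀ a, ∀ s ∈ E0, D a s ∈ E0) (hDK : ∀ a, Kills (D a) (cl (K : Set F)))
    (hconst : ∀ s ∈ E0, (∀ a, D a s = 0) → s ∈ K) {ι : Type} (β : ι → F)
    (hβ : ∀ i, β i ∈ cl (K : Set F)) (hli : LinearIndependent K β) : LinearIndependent E0 β := by
  classical
  rw [linearIndependent_iff']
  have key : ∀ n : ℕ, ∀ s : Finset ι, s.card = n → ∀ g : ι → F, (∀ i ∈ s, g i ∈ E0) →
      ∑ i ∈ s, g i * β i = 0 → ∀ i ∈ s, g i = 0 := by
    intro n
    induction n with
    | zero =>
      intro s hs g _ _ i hi
      rw [Finset.card_eq_zero.1 hs] at hi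
      exact absurd hi (Finset.notMem_empty i)
    | succ n ih =>
      intro s hs g hg h0
      by_contra hne
      push Not at hne
      obtain ⟨i0, hi0, hgi0⟩ := hne
      -- normalize
      let g' : ι → F := fun i => g i / g i0
      have hg' : ∀ i ∈ s, g' i ∈ E0 := fun i hi => E0.div_mem (hg i hi) (hg i0 hi0)
      have h1 : ∑ i ∈ s, g' i * β i = 0 := by
        have h2 : ∑ i ∈ s, g' i * β i = (∑ i ∈ s, g i * β i) / g i0 := by
          rw [Finset.sum_div]
          exact Finset.sum_congr rfl (fun i _ => by
            change g i / g i0 * β i = _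
            ring)
        rw [h2, h0, zero_div]
      have hg'0 : g' i0 = 1 := div_self hgi0
      have h3 : ∀ a, ∀ i ∈ s, D a (g' i) = 0 := by
        intro a
        have h4 : ∑ i ∈ s.erase i0, D a (g' i) * β i = 0 := by
          have h5 := congrArg (D a) h1
          rw [map_sum, map_zero] at h5
          have h6 : ∀ i, D a (g' i * β i) = D a (g' i) * β i := fun i => by
            rw [Derivation.leibniz, hDK a _ (hβ i), smul_zero, zero_add, smul_eq_mul, mul_comm]
          rw [Finset.sum_congr rfl (fun i _ => h6 i), ← Finset.add_sum_erase s _ hi0, hg'0,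
            Derivation.map_one_eq_zero, zero_mul, zero_add] at h5
          exact h5
        have h7 := ih (s.erase i0) (by rw [Finset.card_erase_of_mem hi0, hs]; rfl)
          (fun i => D a (g' i)) (fun i hi => hDE a _ (hg' i (Finset.mem_of_mem_erase hi))) h4
        intro i hi
        by_cases hii : i = i0
        · rw [hii, hg'0]
          exact (D a).map_one_eq_zero
        · exact h7 i (Finset.mem_erase.2 ⟨hii, hi⟩)
      have h8 : ∀ i ∈ s, g' i ∈ K := fun i hi => hconst _ (hg' i hi) (fun a => h3 a i hi)
      let c : ι → K := fun i => if h : i ∈ s then ⟨g' i, h8 i h⟩ else 0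
      have h9 : ∑ i ∈ s, c i • β i = 0 := by
        rw [← h1]
        refine Finset.sum_congr rfl (fun i hi => ?_)
        change (c i : F) * β i = _
        have h10 : c i = ⟨g' i, h8 i hi⟩ := dif_pos hi
        rw [h10]
      have h11 := linearIndependent_iff'.1 hli s c h9 i0 hi0
      have h12 : c i0 = ⟨g' i0, h8 i0 hi0⟩ := dif_pos hi0
      rw [h12] at h11
      have h13 := congrArg (fun t : K => (t : F)) h11
      have h14 : g' i0 = 0 := h13
      rw [hg'0] at h14
      exact one_ne_zero h14
  intro s g h i hi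
  have h1 := key s.card s rfl (fun i => (g i : F)) (fun i _ => (g i).2) h i hi
  exact Subtype.ext h1

end Pool.Agent.AXE
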