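import Mathlib
import Pool.Agent.AXE.KDesc

/-!
# Descent of an exact combination of forms: the theorem
-/

set_option autoImplicit false
set_option linter.unusedSectionVars false

namespace Pool.Agent.AXE

variable {F : Type} [Field F] [CharZero F]

theorem descend_exact {K : Subfield F} {P : Type} [Finite P] (v : P → F) {n : ℕ}
    (ω : Derivation ℤ F F → Fin n → F)
    (ω_add : ∀ T T' i, ω (T + T') i = ω T i + ω T' i)
    (ω_smul : ∀ (a : F) T i, ω (a • T) i = a * ω T i)
    (zero : ∀ T, Kills T K → (∀ p, T (v p) = 0) → ∀ i, ω T i = 0)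
    (mem : ∀ T, Kills T K → (∀ s ∈ Subfield.closure ((K : Set F) ∪ Set.range v),
      T s ∈ Subfield.closure ((K : Set F) ∪ Set.range v)) → ∀ i,
      ω T i ∈ Subfield.closure ((K : Set F) ∪ Set.range v))
    (hgeo : ∀ s ∈ Subfield.closure ((K : Set F) ∪ Set.range v), s ∈ cl (K : Set F) → s ∈ K)
    (γ : Fin n → F) (hγ : ∀ i, γ i ∈ cl (K : Set F)) (hγ0 : γ ≠ 0) (f : F)
    (hf : ∀ T, Kills T K → T f = ∑ i, γ i * ω T i) :
    ∃ g : Fin n → F, (∀ i, g i ∈ K) ∧ g ≠ 0 ∧
      ∃ h ∈ Subfield.closure ((K : Set F) ∪ Set.range v),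
        ∀ T, Kills T K → T h = ∑ i, g i * ω T i := by
  classical
  set E0 := Subfield.closure ((K : Set F) ∪ Set.range v) with hE0
  have hKE : K ≤ E0 := fun a ha => Subfield.subset_closure (Or.inl ha)
  have hvE : ∀ p, v p ∈ E0 := fun p => Subfield.subset_closure (Or.inr ⟨p, rfl⟩)
  obtain ⟨u, hu, hui, hk⟩ := exists_basis K (Set.range v)
  have hfin : Finite u := (Set.finite_range v).subset hu
  have _ := Fintype.ofFinite u
  have hex : ∀ b : u, ∃ D : Derivation ℤ F F, Kills D K ∧
      ∀ i : u, D (i : F) = if i = b then 1 else 0 := fun b =>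
    exists_der_sub K (fun i : u => (i : F)) hui (fun i => if i = b then 1 else 0)
  choose D hDK hDu using hex
  set E00 := Subfield.closure ((K : Set F) ∪ u) with hE00
  have hle : E00 ≤ E0 := by
    refine Subfield.closure_le.2 ?_
    rintro s (hs | hs)
    · exact hKE hs
    · obtain ⟨p, rfl⟩ := hu hs
      exact hvE p
  have hD00 : ∀ b, ∀ s ∈ E00, D b s ∈ E0 := fun b s hs => by
    refine hle (closure_stab (S := (K : Set F) ∪ u) ?_ s hs)
    rintro s (hs | hs)
    · rw [hDK b s hs]
      exact Subfield.zero_mem _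
    · rw [hDu b ⟨s, hs⟩]
      split_ifs
      · exact Subfield.one_mem _
      · exact Subfield.zero_mem _
  have hDE : ∀ b, ∀ s ∈ E0, D b s ∈ E0 := fun b s hs => by
    refine closure_stab (S := (K : Set F) ∪ Set.range v) ?_ s hs
    rintro s (hs | ⟨p, rfl⟩)
    · rw [hDK b s hs]
      exact Subfield.zero_mem _
    · refine der_alg_mem hle (hD00 b) (hvE p) (mem_cl_iff.1 (fun T hT => ?_))
      exact hk T (fun s hs => hT s (Subfield.subset_closure (Or.inl hs)))
        (fun s hs => hT s (Subfield.subset_closure (Or.inr hs))) _ ⟨p, rfl⟩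
  -- decomposition of derivations
  have hdec : ∀ T : Derivation ℤ F F, Kills T K →
      Kills (T - ∑ b : u, T (b : F) • D b) E0 := by
    intro T hT
    have h1 : ∀ s, (T - ∑ b : u, T (b : F) • D b) s = T s - ∑ b : u, T (b : F) * D b s := fun s => by
      rw [Derivation.sub_apply, sum_smul_apply]
    refine kills_closure (fun s hs => ?_)
    have hKk : Kills (T - ∑ b : u, T (b : F) • D b) K := fun s hs => by
      rw [h1, hT s hs, zero_sub, neg_eq_zero]
      exact Finset.sum_eq_zero (fun b _ => by rw [hDK b s hs, mul_zero])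
    rcases hs with hs | hs
    · exact hKk s hs
    · refine hk _ hKk (fun s hs => ?_) s hs
      rw [h1, Finset.sum_eq_single (⟨s, hs⟩ : u)]
      · have h2 := hDu ⟨s, hs⟩ ⟨s, hs⟩
        rw [if_pos rfl] at h2
        have h3 : D ⟨s, hs⟩ s = 1 := h2
        rw [h3, mul_one, sub_self]
      · intro b _ hb
        have h2 := hDu b ⟨s, hs⟩
        rw [if_neg (fun h => hb h.symm)] at h2
        have h3 : D b s = 0 := h2
        rw [h3, mul_zero]
      · intro h
        exact absurd (Finset.mem_univ _) h
  have happ : ∀ T : Derivation ℤ F F, Kills T K → ∀ x ∈ cl (E0 : Set F),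
      T x = ∑ b : u, T (b : F) * D b x := by
    intro T hT x hx
    have h1 := hx _ (hdec T hT)
    rw [Derivation.sub_apply, sum_smul_apply, sub_eq_zero] at h1
    exact h1
  have hω : ∀ T : Derivation ℤ F F, Kills T K → ∀ i,
      ω T i = ∑ b : u, T (b : F) * ω (D b) i := by
    intro T hT i
    have h0 : ∀ T : Derivation ℤ F F, T = 0 → ω T i = 0 := by
      rintro T rfl
      have h1 := ω_smul 0 0 i
      rw [zero_smul, zero_mul] at h1
      exact h1
    have hsum : ∀ s : Finset u, ω (∑ b ∈ s, T (b : F) • D b) i =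
        ∑ b ∈ s, T (b : F) * ω (D b) i := by
      intro s
      induction s using Finset.induction_on with
      | empty =>
        rw [Finset.sum_empty, Finset.sum_empty]
        exact h0 0 rfl
      | insert a s ha ih =>
        rw [Finset.sum_insert ha, Finset.sum_insert ha, ω_add, ω_smul, ih]
    have hT' := hdec T hT
    have h1 : ω (T - ∑ b : u, T (b : F) • D b) i = 0 :=
      zero _ (fun s hs => hT' s (hKE hs)) (fun p => hT' _ (hvE p)) i
    have h2 : T = (T - ∑ b : u, T (b : F) • D b) + ∑ b : u, T (b : F) • D b := by rw [sub_add_cancel]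
    conv_lhs => rw [h2]
    rw [ω_add, h1, zero_add, hsum]
  have hfE : f ∈ cl (E0 : Set F) := fun T hT => by
    have hTK : Kills T K := fun s hs => hT s (hKE hs)
    rw [hf T hTK]
    exact Finset.sum_eq_zero (fun i _ => by
      rw [zero T hTK (fun p => hT _ (hvE p)) i, mul_zero])
  -- the compositum
  let E1 := IntermediateField.adjoin E0 (cl (K : Set F) : Set F)
  have halg : ∀ x ∈ (cl (K : Set F) : Set F), IsAlgebraic E0 x := fun x hx =>
    mem_cl_iff.1 (fun T hT => hx T (fun s hs => hT s (hKE hs)))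
  have hspan : ∀ x ∈ E1, x ∈ Submodule.span E0 (cl (K : Set F) : Set F) := by
    intro x hx
    have h1 : x ∈ Algebra.adjoin E0 (cl (K : Set F) : Set F) := by
      rw [← IntermediateField.adjoin_toSubalgebra_of_isAlgebraic halg]
      exact hx
    have h2 : x ∈ Subalgebra.toSubmodule (Algebra.adjoin E0 (cl (K : Set F) : Set F)) := h1
    rw [Algebra.adjoin_eq_span] at h2
    have h3 : (Submonoid.closure (cl (K : Set F) : Set F) : Set F) ⊆ (cl (K : Set F) : Set F) := by
      have h4 : Submonoid.closure (cl (K : Set F) : Set F) ≤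
          (cl (K : Set F)).toSubring.toSubsemiring.toSubmonoid := Submonoid.closure_le.2 (fun _ h => h)
      exact h4
    exact Submodule.span_mono h3 h2
  have hclE1 : ∀ x ∈ cl (K : Set F), x ∈ E1 := fun x hx =>
    IntermediateField.subset_adjoin _ _ hx
  have hE0E1 : ∀ x ∈ E0, x ∈ E1 := fun x hx => E1.algebraMap_mem ⟨x, hx⟩
  have hDE1 : ∀ b, ∀ s ∈ E1.toSubfield, D b s ∈ E1.toSubfield := by
    intro b s hs
    have h1 := hspan s hs
    have h2 : D b s ∈ E1 ∧ s ∈ E1 := by
      induction h1 using Submodule.span_induction with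
      | mem x hx =>
        rw [hx (D b) (hDK b)]
        exact ⟨E1.zero_mem, hclE1 x hx⟩
      | zero =>
        rw [map_zero]
        exact ⟨E1.zero_mem, E1.zero_mem⟩
      | add x y hx hy ihx ihy =>
        have hx1 : x ∈ E1 := by
          have h3 : Submodule.span E0 (cl (K : Set F) : Set F) ≤
              Subalgebra.toSubmodule E1.toSubalgebra := Submodule.span_le.2 hclE1
          exact h3 hx
        have hy1 : y ∈ E1 := by
          have h3 : Submodule.span E0 (cl (K : Set F) : Set F) ≤
              Subalgebra.toSubmodule E1.toSubalgebra := Submodule.span_le.2 hclE1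
          exact h3 hy
        rw [map_add]
        exact ⟨E1.add_mem (ihx hx1).1 (ihy hy1).1, E1.add_mem hx1 hy1⟩
      | smul a x hx ihx =>
        have hx1 : x ∈ E1 := by
          have h3 : Submodule.span E0 (cl (K : Set F) : Set F) ≤
              Subalgebra.toSubmodule E1.toSubalgebra := Submodule.span_le.2 hclE1
          exact h3 hx
        have h4 : a • x = (a : F) * x := rfl
        rw [h4, Derivation.leibniz, smul_eq_mul, smul_eq_mul]
        exact ⟨E1.add_mem (E1.mul_mem (hE0E1 _ a.2) (ihx hx1).1)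
          (E1.mul_mem hx1 (hE0E1 _ (hDE b _ a.2))), E1.mul_mem (hE0E1 _ a.2) hx1⟩
    exact h2.1
  have hωmem : ∀ b i, ω (D b) i ∈ E0 := fun b i => mem (D b) (hDK b) (hDE b) i
  have hDf : ∀ b, D b f ∈ E1.toSubfield := fun b => by
    rw [hf _ (hDK b)]
    exact E1.toSubfield.sum_mem (fun i _ => E1.toSubfield.mul_mem (hclE1 _ (hγ i))
      (hE0E1 _ (hωmem b i)))
  have hfalg : IsAlgebraic E1.toSubfield f := mem_cl_iff.1 (fun T hT => hfE T (fun s hs =>
    hT s (hE0E1 s hs)))
  obtain ⟨f', hf'E, hf'⟩ := exists_trace D hDE1 hfalg hDf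
  -- the basis of the algebraic closure
  let Cm : Submodule K F :=
    { carrier := (cl (K : Set F) : Set F)
      add_mem' := fun ha hb => (cl (K : Set F)).add_mem ha hb
      zero_mem' := (cl (K : Set F)).zero_mem
      smul_mem' := fun t a ha => (cl (K : Set F)).mul_mem (subset_cl _ t.2) ha }
  let e := Module.Free.chooseBasis K Cm
  let ι := Module.Free.ChooseBasisIndex K Cm
  let β : ι → F := fun k => (e k : F)
  have hβ : ∀ k, β k ∈ cl (K : Set F) := fun k => (e k).2
  have hli : LinearIndependent K β :=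
    e.linearIndependent.map' Cm.subtype (Submodule.ker_subtype Cm)
  have hliE : LinearIndependent E0 β := lin_disj D hDE (fun b => kills_cl (hDK b))
    (fun s hs h0 => hgeo s hs (fun T hT => by
      rw [happ T hT s (subset_cl _ hs)]
      exact Finset.sum_eq_zero (fun b _ => by rw [h0 b, mul_zero]))) β hβ hli
  have hrep : ∀ x (hx : x ∈ cl (K : Set F)), ∃ G : ι →₀ K, x = G.sum (fun k a => (a : F) * β k) := by
    intro x hx
    refine ⟨e.repr ⟨x, hx⟩, ?_⟩
    have h1 := e.linearCombination_repr ⟨x, hx⟩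
    have h2 := congrArg (fun t : Cm => (t : F)) h1
    rw [Finsupp.linearCombination_apply] at h2
    refine h2.symm.trans ?_
    have h3 := map_finsuppSum Cm.subtype (e.repr ⟨x, hx⟩) (fun k a => a • e k)
    exact h3
  have hf'span : f' ∈ Submodule.span E0 (Set.range β) := by
    have h1 := hspan f' hf'E
    refine (Submodule.span_le.2 ?_) h1
    intro x hx
    obtain ⟨G, hG⟩ := hrep x hx
    rw [hG]
    refine Submodule.sum_mem _ (fun k _ => ?_)
    exact Submodule.smul_mem _ (⟨(G k : F), hKE (G k).2⟩ : E0) (Submodule.subset_span ⟨k, rfl⟩)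
  obtain ⟨c, hc⟩ := Finsupp.mem_span_range_iff_exists_finsupp.1 hf'span
  choose G hG using fun i => hrep (γ i) (hγ i)
  let s : Finset ι := c.support ∪ Finset.univ.biUnion (fun i => (G i).support)
  have hcs : f' = ∑ k ∈ s, (c k : F) * β k := by
    rw [← hc, Finsupp.sum]
    refine Finset.sum_subset Finset.subset_union_left (fun k _ hk => ?_)
    rw [Finsupp.notMem_support_iff.1 hk, zero_smul]
  have hGs : ∀ i, γ i = ∑ k ∈ s, (G i k : F) * β k := by
    intro i
    conv_lhs => rw [hG i]
    rw [Finsupp.sum]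
    refine Finset.sum_subset (fun k hk => Finset.mem_union_right _
      (Finset.mem_biUnion.2 ⟨i, Finset.mem_univ i, hk⟩)) (fun k _ hk => ?_)
    rw [Finsupp.notMem_support_iff.1 hk]
    exact zero_mul _
  have hcoef : ∀ b, ∀ k ∈ s, D b (c k : F) = ∑ i, (G i k : F) * ω (D b) i := by
    intro b
    have h1 : ∑ k ∈ s, (D b (c k : F) - ∑ i, (G i k : F) * ω (D b) i) * β k = 0 := by
      have h2 : D b f' = ∑ k ∈ s, D b (c k : F) * β k := by
        rw [hcs, map_sum]
        refine Finset.sum_congr rfl (fun k _ => ?_)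
        rw [Derivation.leibniz, hβ k (D b) (hDK b), smul_zero, zero_add, smul_eq_mul, mul_comm]
      have h3 : ∑ i, γ i * ω (D b) i = ∑ k ∈ s, (∑ i, (G i k : F) * ω (D b) i) * β k := by
        have h4 : ∀ i, γ i * ω (D b) i = ∑ k ∈ s, (G i k : F) * ω (D b) i * β k := fun i => by
          conv_lhs => rw [hGs i]
          rw [Finset.sum_mul]
          exact Finset.sum_congr rfl (fun k _ => by ring)
        rw [Finset.sum_congr rfl (fun i _ => h4 i), Finset.sum_comm]
        exact Finset.sum_congr rfl (fun k _ => by rw [Finset.sum_mul])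
      have h5 := hf' b
      rw [hf _ (hDK b), h2, h3] at h5
      rw [← sub_eq_zero.2 h5, ← Finset.sum_sub_distrib]
      exact Finset.sum_congr rfl (fun k _ => by ring)
    have hmemE : ∀ k, D b (c k : F) - ∑ i, (G i k : F) * ω (D b) i ∈ E0 := fun k =>
      E0.sub_mem (hDE b _ (c k).2) (E0.sum_mem (fun i _ => E0.mul_mem (hKE (G i k).2)
        (hωmem b i)))
    intro k hk
    have h6 := linearIndependent_iff'.1 hliE s
      (fun k => ⟨D b (c k : F) - ∑ i, (G i k : F) * ω (D b) i, hmemE k⟩) h1 k hk
    have h7 := congrArg (fun t : E0 => (t : F)) h6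
    exact sub_eq_zero.1 h7
  -- a non-zero coefficient
  obtain ⟨i0, hi0⟩ : ∃ i, γ i ≠ 0 := by
    by_contra h
    push Not at h
    exact hγ0 (funext h)
  obtain ⟨k, hks, hk0⟩ : ∃ k ∈ s, (G i0 k : F) ≠ 0 := by
    by_contra h
    push Not at h
    apply hi0
    rw [hGs i0]
    exact Finset.sum_eq_zero (fun k hk => by rw [h k hk, zero_mul])
  refine ⟨fun i => (G i k : F), fun i => (G i k).2, fun h => hk0 (congrFun h i0), (c k : F),
    (c k).2, fun T hT => ?_⟩
  rw [happ T hT _ (subset_cl _ (c k).2)]
  have h1 : ∀ i, (G i k : F) * ω T i = ∑ b : u, T (b : F) * ((G i k : F) * ω (D b) i) := fun i => by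
    rw [hω T hT i, Finset.mul_sum]
    exact Finset.sum_congr rfl (fun b _ => by ring)
  rw [Finset.sum_congr rfl (fun i _ => h1 i), Finset.sum_comm]
  refine Finset.sum_congr rfl (fun b _ => ?_)
  rw [hcoef b k hks, Finset.mul_sum]

end Pool.Agent.AXE
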