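import Mathlib
import Pool.Agent.AXE.AEnd

/-!
# Forms on an affine open subset of a projective variety
-/

set_option autoImplicit false
set_option linter.unusedSectionVars false

namespace Pool.Agent.AXE

open KaehlerDifferential
open scoped TensorProduct

section forms

variable {K : Type} [Field K] {R : Type} [CommRing R] [Algebra K R] {B : ℕ}

/-- the differential form `∑ q_b dz_b` on `Spec R` -/
noncomputable def dform (K : Type) [Field K] {R : Type} [CommRing R] [Algebra K R] {B : ℕ}
    (q z : Fin B → R) : Ω[R⁄K] :=
  ∑ b, q b • D K R (z b)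

/-- the differential form `∑ q_b dz_b` is closed: `∑ dq_b ∧ dz_b = 0` -/
def ClosedForm (K : Type) [Field K] {R : Type} [CommRing R] [Algebra K R] {B : ℕ}
    (q z : Fin B → R) : Prop :=
  ∑ b, (D K R (q b) ⊗ₜ[R] D K R (z b) - D K R (z b) ⊗ₜ[R] D K R (q b)) = 0

/-- the Lie derivative of the differential form `∑ q_b dz_b` with respect to `δ` -/
noncomputable def lieForm (K : Type) [Field K] {R : Type} [CommRing R] [Algebra K R] {B : ℕ}
    (δ : Derivation ℤ R R) (q z : Fin B → R) : Ω[R⁄K] :=
  ∑ b, (δ (q b) • D K R (z b) + q b • D K R (δ (z b)))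

/-- the ring of functions on the standard chart `t_a ≠ 0` of the projective variety with
homogeneous coordinates `t` -/
noncomputable def ratios (K : Type) [Field K] {R : Type} [CommRing R] [Algebra K R] {N : ℕ}
    (t : Fin (N + 1) → R) (a : Fin (N + 1)) : Subalgebra K (Localization.Away (t a)) :=
  Algebra.adjoin K (Set.range fun b =>
    algebraMap R (Localization.Away (t a)) (t b) * IsLocalization.Away.invSelf (t a))

/-- the differential form `η` is regular on the standard chart `t_a ≠ 0` -/
def RegularOn {K : Type} [Field K] {R : Type} [CommRing R] [Algebra K R] {N : ℕ}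
    (t : Fin (N + 1) → R) (a : Fin (N + 1)) (η : Ω[R⁄K]) : Prop :=
  KaehlerDifferential.map K K R (Localization.Away (t a)) η ∈
    AddSubgroup.closure {θ | ∃ s ∈ ratios K t a, ∃ s' ∈ ratios K t a,
      θ = s • D K (Localization.Away (t a)) s'}

end forms

/-- The Gauss-Manin connection on `n` closed differential forms `ω_i = ∑ q_ib dz_b` on an affine
variety `U = Spec R` over `K`: a lift `δ` of the derivation of `K` to `R`, a matrix `A` over `K` and
functions `ρ_i` on `U` such that the Lie derivative of `ω_i` is `∑ A_ij ω_j + dρ_i`. -/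
structure FormChart {F : Type} [Field F] (d : Derivation ℤ F F) (K : Subfield F)
    (hK : ∀ a ∈ K, d a ∈ K) (n B : ℕ) (R : Type) [CommRing R] [Algebra K R] where
  z : Fin B → R
  q : Fin n → Fin B → R
  δ : Derivation ℤ R R
  A : Matrix (Fin n) (Fin n) K
  ρ : Fin n → R
  lift : ∀ a : K, δ (algebraMap K R a) = algebraMap K R ⟨d a, hK a a.2⟩
  closed : ∀ i, ClosedForm K (q i) z
  gaussManin : ∀ i, lieForm K δ (q i) z = ∑ j, A i j • dform K (q j) z + D K R (ρ i)

/-- The Gauss-Manin connection of an abelian variety `A` over `K` of dimension `g` on an affine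
open subset `U = Spec R`: functions `t_a` on `U` which give the homogeneous coordinates of `A` in
projective space and `2g` forms `ω_i` as in `FormChart`; the first `g` of them generate the
differential forms on `U` and are regular on every standard chart `t_a ≠ 0` of the projective
variety. -/
structure AbelianChart {F : Type} [Field F] (d : Derivation ℤ F F) (K : Subfield F)
    (hK : ∀ a ∈ K, d a ∈ K) (g N B : ℕ) (R : Type) [CommRing R] [Algebra K R] extends
    FormChart d K hK (2 * g) B R where
  t : Fin (N + 1) → R
  generate : Submodule.span R {η | ∃ i : Fin (2 * g), (i : ℕ) < g ∧ η = dform K (q i) z} = ⊤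
  regular : ∀ i : Fin (2 * g), (i : ℕ) < g → ∀ a, RegularOn t a (dform K (q i) z)

end Pool.Agent.AXE
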