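import Mathlib
import Pool.Agent.AXE.KForms

/-!
# The values of the forms at a point
-/

set_option autoImplicit false
set_option linter.unusedSectionVars false

namespace Pool.Agent.AXE

open KaehlerDifferential
open scoped TensorProduct

variable {F : Type} [Field F]

section lifting

variable {K : Subfield F} {R : Type} [CommRing R] [Algebra K R] (y : R →ₐ[K] F)

/-- derivations of `R` along the point `y` -/
structure IsDer (e : R → F) : Prop where
  add : ∀ a b, e (a + b) = e a + e b
  mul : ∀ a b, e (a * b) = y a * e b + y b * e a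
  const : ∀ a : K, e (algebraMap K R a) = 0

variable {y}

theorem IsDer.exists_lift {e : R → F} (he : IsDer y e) :
    ∃ l : Ω[R⁄K] →+ F, (∀ r η, l (r • η) = y r * l η) ∧ ∀ s, l (D K R s) = e s := by
  let _ : Algebra R F := y.toRingHom.toAlgebra
  have hy : ∀ r, algebraMap R F r = y r := fun r => rfl
  have _ : IsScalarTower K R F := IsScalarTower.of_algebraMap_eq (fun a => (y.commutes a).symm)
  let D' : Derivation K R F := Derivation.mk'
    { toFun := e
      map_add' := he.add
      map_smul' := fun a r => by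
        rw [Algebra.smul_def, he.mul, he.const, mul_zero, add_zero, y.commutes, RingHom.id_apply,
          Algebra.smul_def] }
    (fun a b => by
      rw [Algebra.smul_def, Algebra.smul_def, hy, hy]
      exact he.mul a b)
  refine ⟨D'.liftKaehlerDifferential.toAddMonoidHom, fun r η => ?_, fun s => ?_⟩
  · change D'.liftKaehlerDifferential (r • η) = y r * D'.liftKaehlerDifferential η
    rw [map_smul, Algebra.smul_def, hy]
  · exact D'.liftKaehlerDifferential_comp_D s

theorem exists_tensor {l l' : Ω[R⁄K] →+ F} (h : ∀ r η, l (r • η) = y r * l η)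
    (h' : ∀ r η, l' (r • η) = y r * l' η) :
    ∃ m : Ω[R⁄K] ⊗[R] Ω[R⁄K] →+ F, ∀ u v, m (u ⊗ₜ v) = l u * l' v := by
  let _ : Algebra R F := y.toRingHom.toAlgebra
  have hy : ∀ r, algebraMap R F r = y r := fun r => rfl
  let b : Ω[R⁄K] →ₗ[R] Ω[R⁄K] →ₗ[R] F := LinearMap.mk₂ R (fun u v => l u * l' v)
    (fun u u' v => by rw [map_add, add_mul]) (fun r u v => by
      rw [h, Algebra.smul_def, hy, mul_assoc])
    (fun u v v' => by rw [map_add, mul_add]) (fun r u v => by
      rw [h', Algebra.smul_def, hy]
      ring)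
  refine ⟨(TensorProduct.lift b).toAddMonoidHom, fun u v => ?_⟩
  change TensorProduct.lift b (u ⊗ₜ[R] v) = l u * l' v
  rw [TensorProduct.lift.tmul]
  rfl

theorem closed_apply {B : ℕ} {q z : Fin B → R} {e e' : R → F} (he : IsDer y e) (he' : IsDer y e')
    (hc : ClosedForm K q z) : ∑ b, (e (q b) * e' (z b) - e (z b) * e' (q b)) = 0 := by
  unfold ClosedForm at hc
  obtain ⟨l, hl, hl'⟩ := he.exists_lift
  obtain ⟨m, hm, hm'⟩ := he'.exists_lift
  obtain ⟨n, hn⟩ := exists_tensor hl hm
  have h1 := congrArg n hc
  rw [map_sum, map_zero] at h1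
  rw [← h1]
  refine Finset.sum_congr rfl (fun b _ => ?_)
  rw [map_sub, hn, hn, hl', hl', hm', hm']

theorem isDer_of_kills {T : Derivation ℤ F F} (hT : Kills T K) : IsDer y (fun s => T (y s)) where
  add := fun a b => by rw [map_add, map_add]
  mul := fun a b => by
    rw [map_mul, Derivation.leibniz, smul_eq_mul, smul_eq_mul]
  const := fun a => by
    rw [y.commutes]
    exact hT _ a.2

theorem isDer_diff {d : Derivation ℤ F F} {hK : ∀ a ∈ K, d a ∈ K} {δ : Derivation ℤ R R}
    (hδ : ∀ a : K, δ (algebraMap K R a) = algebraMap K R ⟨d a, hK a a.2⟩) :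
    IsDer y (fun s => d (y s) - y (δ s)) where
  add := fun a b => by
    rw [map_add, map_add, map_add, map_add]
    ring
  mul := fun a b => by
    rw [map_mul, Derivation.leibniz, Derivation.leibniz, map_add]
    simp only [smul_eq_mul, map_mul]
    ring
  const := fun a => by
    rw [y.commutes, hδ, y.commutes]
    exact sub_self _

end lifting

namespace FormChart

variable {d : Derivation ℤ F F} {K : Subfield F} {hK : ∀ a ∈ K, d a ∈ K} {n B : ℕ} {R : Type}
  [CommRing R] [Algebra K R] (c : FormChart d K hK n B R) (y : R →ₐ[K] F)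

/-- the logarithmic derivative of the point `y` -/
def dlog (i : Fin n) : F :=
  ∑ b, y (c.q i b) * (d (y (c.z b)) - y (c.δ (c.z b))) + y (c.ρ i)

/-- the values of the forms at the point -/
def val (T : Derivation ℤ F F) (i : Fin n) : F := ∑ b, y (c.q i b) * T (y (c.z b))

theorem val_closed {T T' : Derivation ℤ F F} (hT : Kills T K) (hT' : Kills T' K)
    (i : Fin n) : T (c.val y T' i) - T' (c.val y T i) = c.val y ⁅T, T'⁆ i := by
  have h1 := closed_apply (isDer_of_kills (y := y) hT) (isDer_of_kills (y := y) hT') (c.closed i)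
  unfold val
  rw [map_sum, map_sum, ← sub_eq_zero, ← h1, ← Finset.sum_sub_distrib, ← Finset.sum_sub_distrib]
  refine Finset.sum_congr rfl (fun b _ => ?_)
  rw [Derivation.leibniz, Derivation.leibniz, Derivation.commutator_apply]
  simp only [smul_eq_mul]
  ring

theorem val_gm {T : Derivation ℤ F F} (hT : Kills T K) (i : Fin n) :
    d (c.val y T i) - c.val y ⁅d, T⁆ i =
      ∑ j, (c.A i j : F) * c.val y T j + T (c.dlog y i) := by
  have he := isDer_of_kills (y := y) hT
  have h1 := closed_apply (isDer_diff (y := y) c.lift) he (c.closed i)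
  obtain ⟨l, hl, hl'⟩ := he.exists_lift
  have h2 := congrArg l (c.gaussManin i)
  unfold lieForm dform at h2
  rw [map_sum, map_add, map_sum, hl'] at h2
  have h3 : ∀ b, l (c.δ (c.q i b) • D K R (c.z b) + c.q i b • D K R (c.δ (c.z b))) =
      y (c.δ (c.q i b)) * T (y (c.z b)) + y (c.q i b) * T (y (c.δ (c.z b))) := fun b => by
    rw [map_add, hl, hl, hl', hl']
  have h4 : ∀ j, l (c.A i j • ∑ b, c.q j b • D K R (c.z b)) = (c.A i j : F) * c.val y T j := by
    intro j
    rw [← algebraMap_smul R (c.A i j), hl, y.commutes, map_sum]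
    congr 1
    exact Finset.sum_congr rfl (fun b _ => by rw [hl, hl'])
  rw [Finset.sum_congr rfl (fun b _ => h3 b), Finset.sum_congr rfl (fun j _ => h4 j)] at h2
  have h5 : T (c.dlog y i) = ∑ b, (T (y (c.q i b)) * (d (y (c.z b)) - y (c.δ (c.z b))) +
      y (c.q i b) * T (d (y (c.z b)) - y (c.δ (c.z b)))) + T (y (c.ρ i)) := by
    unfold dlog
    rw [map_add, map_sum]
    congr 1
    refine Finset.sum_congr rfl (fun b _ => ?_)
    rw [Derivation.leibniz, smul_eq_mul, smul_eq_mul]
    ring
  have h6 : d (c.val y T i) - c.val y ⁅d, T⁆ i =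
      ∑ b, (d (y (c.q i b)) * T (y (c.z b)) + y (c.q i b) * T (d (y (c.z b)))) := by
    unfold FormChart.val
    rw [map_sum, ← Finset.sum_sub_distrib]
    refine Finset.sum_congr rfl (fun b _ => ?_)
    rw [Derivation.leibniz, Derivation.commutator_apply]
    simp only [smul_eq_mul]
    ring
  have h7 : ∑ b, (d (y (c.q i b)) * T (y (c.z b)) + y (c.q i b) * T (d (y (c.z b)))) -
      ∑ b, (T (y (c.q i b)) * (d (y (c.z b)) - y (c.δ (c.z b))) +
        y (c.q i b) * T (d (y (c.z b)) - y (c.δ (c.z b)))) -
      ∑ b, (y (c.δ (c.q i b)) * T (y (c.z b)) + y (c.q i b) * T (y (c.δ (c.z b)))) = 0 := by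
    rw [← h1, ← Finset.sum_sub_distrib, ← Finset.sum_sub_distrib]
    refine Finset.sum_congr rfl (fun b _ => ?_)
    rw [map_sub]
    ring
  rw [h6, h5]
  linear_combination h7 + h2

theorem val_add (T T' : Derivation ℤ F F) (i : Fin n) :
    c.val y (T + T') i = c.val y T i + c.val y T' i := by
  unfold val
  rw [← Finset.sum_add_distrib]
  exact Finset.sum_congr rfl (fun b _ => by rw [Derivation.add_apply, mul_add])

theorem val_smul (a : F) (T : Derivation ℤ F F) (i : Fin n) :
    c.val y (a • T) i = a * c.val y T i := by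
  unfold val
  rw [Finset.mul_sum]
  refine Finset.sum_congr rfl (fun b _ => ?_)
  rw [Derivation.smul_apply, smul_eq_mul]
  ring

theorem val_zero {T : Derivation ℤ F F} (hT : ∀ s, T (y s) = 0) (i : Fin n) :
    c.val y T i = 0 := by
  unfold val
  exact Finset.sum_eq_zero (fun b _ => by rw [hT, mul_zero])

end FormChart

namespace AbelianChart

variable {d : Derivation ℤ F F} {K : Subfield F} {hK : ∀ a ∈ K, d a ∈ K} {g N B : ℕ} {R : Type}
  [CommRing R] [Algebra K R] (c : AbelianChart d K hK g N B R) (y : R →ₐ[K] F) [CharZero F]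

/-- the first `g` forms separate tangent vectors -/
theorem val_generate {T : Derivation ℤ F F} (hT : Kills T K)
    (h0 : ∀ i : Fin (2 * g), (i : ℕ) < g → c.val y T i = 0) (s : R) : T (y s) = 0 := by
  obtain ⟨l, hl, hl'⟩ := (isDer_of_kills (y := y) hT).exists_lift
  have h1 : D K R s ∈ Submodule.span R {η | ∃ i : Fin (2 * g), (i : ℕ) < g ∧
      η = dform K (c.q i) c.z} := by
    rw [c.generate]
    exact Submodule.mem_top
  have h2 : ∀ η ∈ Submodule.span R {η | ∃ i : Fin (2 * g), (i : ℕ) < g ∧
      η = dform K (c.q i) c.z}, l η = 0 := by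
    intro η hη
    induction hη using Submodule.span_induction with
    | mem η hη =>
      obtain ⟨i, hi, rfl⟩ := hη
      unfold dform
      rw [map_sum, ← h0 i hi]
      exact Finset.sum_congr rfl (fun b _ => by rw [hl, hl'])
    | zero => exact map_zero l
    | add u v _ _ hu hv => rw [map_add, hu, hv, add_zero]
    | smul r u _ hu => rw [hl, hu, mul_zero]
  rw [← hl']
  exact h2 _ h1

/-- the first `g` forms are regular in all charts -/
theorem val_regular (i : Fin (2 * g)) (hi : (i : ℕ) < g) (a : Fin (N + 1)) (ha : y (c.t a) ≠ 0)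
    {T : Derivation ℤ F F} (hT : Kills T K) :
    c.val y T i ∈ regSums K (fun b => y (c.t b)) a T := by
  let L := Localization.Away (c.t a)
  have hunit : ∀ m : Submonoid.powers (c.t a), IsUnit (y.toRingHom (m : R)) := by
    rintro ⟨_, n, rfl⟩
    change IsUnit (y (c.t a ^ n))
    rw [map_pow]
    exact (isUnit_iff_ne_zero.2 ha).pow n
  let yl : L →+* F := IsLocalization.lift hunit
  have hyl : ∀ s : R, yl (algebraMap R L s) = y s := fun s => IsLocalization.lift_eq hunit s
  let yL : L →ₐ[K] F :=
    { yl with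
      commutes' := fun r => by
        change yl (algebraMap K L r) = _
        rw [IsScalarTower.algebraMap_apply K R L, hyl]
        exact y.commutes r }
  have hyL : ∀ s : R, yL (algebraMap R L s) = y s := hyl
  have hinv : yL (IsLocalization.Away.invSelf (c.t a)) = (y (c.t a))⁻¹ := by
    have h1 := IsLocalization.Away.mul_invSelf (S := L) (c.t a)
    have h2 := congrArg yL h1
    rw [map_mul, hyL, map_one] at h2
    exact eq_inv_of_mul_eq_one_right h2
  obtain ⟨l, hl, hl'⟩ := (isDer_of_kills (y := yL) hT).exists_lift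
  have h1 : l (KaehlerDifferential.map K K R L (dform K (c.q i) c.z)) = c.val y T i := by
    unfold dform
    rw [map_sum, map_sum]
    unfold FormChart.val
    refine Finset.sum_congr rfl (fun b _ => ?_)
    rw [map_smul, KaehlerDifferential.map_D, ← algebraMap_smul L (c.q i b), hl, hl', hyL, hyL]
  rw [← h1]
  have h2 : ∀ s ∈ Algebra.adjoin K (Set.range fun b => algebraMap R L (c.t b) *
      IsLocalization.Away.invSelf (c.t a)), yL s ∈
      Algebra.adjoin K (Set.range fun b => y (c.t b) / y (c.t a)) := by
    intro s hs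
    have h3 : (Algebra.adjoin K (Set.range fun b => algebraMap R L (c.t b) *
      IsLocalization.Away.invSelf (c.t a))).map yL =
      Algebra.adjoin K (Set.range fun b => y (c.t b) / y (c.t a)) := by
      rw [AlgHom.map_adjoin, ← Set.range_comp]
      congr 1
      congr 1
      funext b
      change yL (algebraMap R L (c.t b) * IsLocalization.Away.invSelf (c.t a)) = _
      rw [map_mul, hyL, hinv, div_eq_mul_inv]
    rw [← h3]
    exact ⟨s, hs, rfl⟩
  have h4 := c.regular i hi a
  unfold RegularOn ratios at h4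
  generalize KaehlerDifferential.map K K R L (dform K (c.q i) c.z) = η at h4 ⊢
  induction h4 using AddSubgroup.closure_induction with
  | mem η hη =>
    obtain ⟨s, hs, s', hs', rfl⟩ := hη
    exact AddSubgroup.subset_closure ⟨yL s, h2 s hs, yL s', h2 s' hs', by rw [hl, hl']⟩
  | zero =>
    rw [map_zero]
    exact AddSubgroup.zero_mem _
  | add u v _ _ hu hv =>
    rw [map_add]
    exact AddSubgroup.add_mem _ hu hv
  | neg u _ hu =>
    rw [map_neg]
    exact AddSubgroup.neg_mem _ hu

end AbelianChart

end Pool.Agent.AXE
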