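import Mathlib
import Pool.Agent.AXE.LWhite

/-!
# The first cohomology of a Lie algebra with trivial radical; a criterion for trivial radical
-/

set_option autoImplicit false
set_option linter.unusedSectionVars false

namespace Pool.Agent.AXE

open LieModule LieAlgebra

attribute [local instance 100] LieRing.ofAssociativeRing

variable {C L V : Type} [Field C] [LieRing L] [LieAlgebra C L] [AddCommGroup V] [Module C V]
  [LieRingModule L V] [LieModule C L V]

/-- an ideal of a Lie algebra with trivial radical is perfect -/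
theorem ideal_perfect [CharZero C] [Module.Finite C L] [HasTrivialRadical C L] (I : LieIdeal C L) :
    I ≤ ⁅I, I⁆ := by
  have h1 : IsLieAbelian (I ⊓ ⁅I, I⁆ᶜ : LieIdeal C L) := by
    refine ⟨fun x y => Subtype.ext ?_⟩
    have hx := x.2
    have hy := y.2
    rw [LieSubmodule.mem_inf] at hx hy
    have h2 : ⁅(x : L), (y : L)⁆ ∈ ⁅I, I⁆ := LieSubmodule.lie_mem_lie hx.1 hy.1
    have h3 : ⁅(x : L), (y : L)⁆ ∈ ⁅I, I⁆ᶜ := LieSubmodule.lie_mem _ hy.2
    have h4 : ⁅(x : L), (y : L)⁆ ∈ (⁅I, I⁆ ⊓ ⁅I, I⁆ᶜ : LieIdeal C L) :=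
      (LieSubmodule.mem_inf _ _ _).2 ⟨h2, h3⟩
    rw [inf_compl_eq_bot] at h4
    exact (LieSubmodule.mem_bot _).1 h4
  have h2 := (hasTrivialRadical_iff_no_abelian_ideals C L).1 inferInstance _ h1
  exact disjoint_compl_right_iff.1 (disjoint_iff.2 h2)

theorem whitehead_irred [CharZero C] [IsAlgClosed C] [Module.Finite C L] [Module.Finite C V]
    [IsIrreducible C L V] [HasTrivialRadical C L] (β : L →ₗ[C] V)
    (hβ : ∀ x y, β ⁅x, y⁆ = ⁅x, β y⁆ - ⁅y, β x⁆) : ∃ u, ∀ x, β x = ⁅x, u⁆ := by
  classical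
  let I : LieIdeal C L := (toEnd C L V).ker
  have hI : ∀ x ∈ I, ∀ v : V, ⁅x, v⁆ = 0 := fun x hx v => by
    have h1 : toEnd C L V x = 0 := LieHom.mem_ker.1 hx
    exact LinearMap.congr_fun h1 v
  have hβI : ∀ x ∈ I, β x = 0 := by
    have h1 : (⁅I, I⁆ : LieIdeal C L).toSubmodule ≤ LinearMap.ker β := by
      rw [LieSubmodule.lieIdeal_oper_eq_linear_span', Submodule.span_le]
      rintro _ ⟨x, hx, y, hy, rfl⟩
      change β ⁅x, y⁆ = 0
      rw [hβ, hI x hx, hI y hy, sub_zero]
    exact fun x hx => h1 (ideal_perfect I hx)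
  let L' := (toEnd C L V).range
  let f : L →ₗ[C] L' := ((toEnd C L V).rangeRestrict : L →ₗ[C] L')
  have hf : ∀ x, ((f x : L') : Module.End C V) = toEnd C L V x := fun x => rfl
  have hfs : LinearMap.range f = ⊤ := by
    rw [LinearMap.range_eq_top]
    exact (toEnd C L V).surjective_rangeRestrict
  obtain ⟨g, hg⟩ := f.exists_rightInverse_of_surjective hfs
  have hβf : ∀ x, β (g (f x)) = β x := fun x => by
    have h1 : g (f x) - x ∈ I := by
      rw [LieHom.mem_ker, ← hf, map_sub]
      have h2 : f (g (f x)) = f x := LinearMap.congr_fun hg (f x)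
      rw [h2, sub_self]
      rfl
    have h2 := hβI _ h1
    rw [map_sub, sub_eq_zero] at h2
    exact h2
  have hlie : ∀ (x : L) (v : V), ⁅f x, v⁆ = ⁅x, v⁆ := fun x v => rfl
  have hsurj : ∀ y : L', ∃ x, f x = y := fun y => LinearMap.range_eq_top.1 hfs y
  have hfb : ∀ x y, f ⁅x, y⁆ = ⁅f x, f y⁆ := fun x y => (toEnd C L V).rangeRestrict.map_lie x y
  have hnt : Nontrivial V := nontrivial_of_isIrreducible C L V
  have hirr : IsIrreducible C L' V := by
    refine IsIrreducible.mk (fun N hN => ?_)
    let N' : LieSubmodule C L V :=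
      { N.toSubmodule with
        lie_mem := fun {x m} hm => by
          have h1 : ⁅f x, m⁆ ∈ N := N.lie_mem hm
          exact h1 }
    have hmem : ∀ v, v ∈ N' ↔ v ∈ N := fun v => Iff.rfl
    have h1 : N' = ⊤ := (eq_bot_or_eq_top N').resolve_left (fun h => hN (by
      rw [LieSubmodule.eq_bot_iff]
      intro v hv
      have h2 : v ∈ N' := hv
      rw [h] at h2
      exact (LieSubmodule.mem_bot v).1 h2))
    rw [eq_top_iff]
    intro v _
    have h2 : v ∈ N' := by
      rw [h1]
      exact LieSubmodule.mem_top v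
    exact h2
  have hfa : IsFaithful C L' V := by
    refine (isFaithful_iff C L' V).2 (fun x y hxy => Subtype.ext (LinearMap.ext fun v => ?_))
    have h1 := LinearMap.congr_fun hxy v
    exact h1
  have hfin : Module.Finite C L' := Module.Finite.of_surjective f (LinearMap.range_eq_top.1 hfs)
  obtain ⟨u, hu⟩ := whitehead (C := C) (L := L') (V := V) (β ∘ₗ g) (fun x y => by
    obtain ⟨x, rfl⟩ := hsurj x
    obtain ⟨y, rfl⟩ := hsurj y
    rw [← hfb, LinearMap.comp_apply, LinearMap.comp_apply, LinearMap.comp_apply, hβf, hβf, hβf,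
      hlie, hlie, hβ])
  refine ⟨u, fun x => ?_⟩
  have h1 := hu (f x)
  rw [LinearMap.comp_apply, hβf, hlie] at h1
  exact h1

/-- Whitehead's first lemma -/
theorem whitehead_all (C L : Type) [Field C] [LieRing L] [LieAlgebra C L] [CharZero C]
    [IsAlgClosed C] [Module.Finite C L] [HasTrivialRadical C L] (n : ℕ) :
    ∀ (V : Type) [AddCommGroup V] [Module C V] [LieRingModule L V] [LieModule C L V]
      [Module.Finite C V], Module.finrank C V = n → ∀ β : L →ₗ[C] V,
      (∀ x y, β ⁅x, y⁆ = ⁅x, β y⁆ - ⁅y, β x⁆) → ∃ u, ∀ x, β x = ⁅x, u⁆ := by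
  induction n using Nat.strong_induction_on with
  | _ n ih =>
    intro V _ _ _ _ _ hn β hβ
    rcases subsingleton_or_nontrivial V with hV | hV
    · exact ⟨0, fun x => Subsingleton.elim _ _⟩
    by_cases hirr : IsIrreducible C L V
    · exact whitehead_irred β hβ
    obtain ⟨N, hN0, hN1⟩ : ∃ N : LieSubmodule C L V, N ≠ ⊥ ∧ N ≠ ⊤ := by
      by_contra h
      push Not at h
      exact hirr (IsIrreducible.mk h)
    have hN0' : N.toSubmodule ≠ ⊥ := fun h => hN0 (by
      rw [← LieSubmodule.toSubmodule_eq_bot]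
      exact h)
    have hN1' : N.toSubmodule ≠ ⊤ := fun h => hN1 (by
      rw [← LieSubmodule.toSubmodule_eq_top]
      exact h)
    have hlt : Module.finrank C N < n := by
      rw [← hn]
      exact Submodule.finrank_lt hN1'
    have hltq : Module.finrank C (V ⧸ N) < n := by
      have h1 := Submodule.finrank_quotient_add_finrank N.toSubmodule
      have h2 : 0 < Module.finrank C N.toSubmodule :=
        Module.finrank_pos_iff.2 (Submodule.nontrivial_iff_ne_bot.2 hN0')
      have h3 : Module.finrank C (V ⧸ N) = Module.finrank C (V ⧸ N.toSubmodule) := rfl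
      omega
    have hfq : Module.Finite C (V ⧸ N) := inferInstanceAs (Module.Finite C (V ⧸ N.toSubmodule))
    let q : V →ₗ[C] V ⧸ N := N.toSubmodule.mkQ
    have hq : ∀ (x : L) (v : V), q ⁅x, v⁆ = ⁅x, q v⁆ := fun x v => rfl
    obtain ⟨u1, hu1⟩ := ih _ hltq (V ⧸ N) rfl (q ∘ₗ β) (fun x y => by
      rw [LinearMap.comp_apply, LinearMap.comp_apply, LinearMap.comp_apply, hβ, map_sub, hq, hq])
    obtain ⟨w, hw⟩ := Submodule.mkQ_surjective N.toSubmodule u1
    have hmem : ∀ x, β x - ⁅x, w⁆ ∈ N := fun x => by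
      have h1 : q (β x - ⁅x, w⁆) = 0 := by
        have h2 : q w = u1 := hw
        rw [map_sub, hq, h2, ← hu1, LinearMap.comp_apply, sub_self]
      exact (Submodule.Quotient.mk_eq_zero N.toSubmodule).1 h1
    let β' : L →ₗ[C] N :=
      { toFun := fun x => ⟨β x - ⁅x, w⁆, hmem x⟩
        map_add' := fun x y => Subtype.ext (by
          change β (x + y) - ⁅x + y, w⁆ = β x - ⁅x, w⁆ + (β y - ⁅y, w⁆)
          rw [map_add, add_lie]
          abel)
        map_smul' := fun t x => Subtype.ext (by
          change β (t • x) - ⁅t • x, w⁆ = t • (β x - ⁅x, w⁆)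
          rw [map_smul, smul_lie, smul_sub]) }
    have hβ' : ∀ x, ((β' x : N) : V) = β x - ⁅x, w⁆ := fun x => rfl
    obtain ⟨u2, hu2⟩ := ih _ hlt N rfl β' (fun x y => Subtype.ext (by
      rw [AddSubgroupClass.coe_sub, LieSubmodule.coe_bracket, LieSubmodule.coe_bracket, hβ', hβ',
        hβ', hβ, lie_sub, lie_sub, lie_lie]
      abel))
    refine ⟨w + u2, fun x => ?_⟩
    have h1 := congrArg (Subtype.val) (hu2 x)
    rw [hβ', LieSubmodule.coe_bracket] at h1
    rw [lie_add, ← h1]
    abel

/-- a Lie algebra with a faithful semisimple module on whose submodules all traces vanish has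
trivial radical -/
theorem trivial_radical [CharZero C] [IsAlgClosed C] [Module.Finite C L] [Module.Finite C V]
    [IsFaithful C L V] (hss : ∀ W : LieSubmodule C L V, ∃ W' : LieSubmodule C L V, IsCompl W W')
    (htr : ∀ (N : LieSubmodule C L V) (x : L), LinearMap.trace C N (toEnd C L N x) = 0) :
    HasTrivialRadical C L := by
  classical
  let r := radical C L
  have hr : ∀ N : LieSubmodule C L V, IsIrreducible C L N → ∀ x ∈ r, ∀ v ∈ N, ⁅x, v⁆ = 0 := by
    intro N hN
    have hnt : Nontrivial N := nontrivial_of_isIrreducible C L N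
    obtain ⟨χ, hχ⟩ : ∃ χ : Module.Dual C r, Nontrivial (weightSpace N χ) :=
      exists_nontrivial_weightSpace_of_isSolvable C r N
    let W : LieSubmodule C L N := weightSpaceOfIsLieTower C N χ
    have hWn : Nontrivial W := hχ
    have hW : W = ⊤ := W.eq_top_of_isIrreducible C L N
    have hact : ∀ (x : L) (hx : x ∈ r) (v : N), ⁅x, v⁆ = χ ⟨x, hx⟩ • v := by
      intro x hx v
      have h1 : v ∈ W := by
        rw [hW]
        exact LieSubmodule.mem_top v
      have h2 : ∀ y : r, ⁅y, v⁆ = χ y • v := (mem_weightSpace (M := N) (χ := χ) v).1 h1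
      exact h2 ⟨x, hx⟩
    have hχ0 : ∀ (x : L) (hx : x ∈ r), χ ⟨x, hx⟩ = 0 := by
      intro x hx
      have h1 : toEnd C L N x = χ ⟨x, hx⟩ • LinearMap.id := LinearMap.ext (fun v => hact x hx v)
      have h2 := htr N x
      rw [h1, map_smul, LinearMap.trace_id, smul_eq_mul] at h2
      have h3 : (Module.finrank C N : C) ≠ 0 := by
        exact_mod_cast (Module.finrank_pos (R := C) (M := N)).ne'
      exact (mul_eq_zero.1 h2).resolve_right h3
    intro x hx v hv
    have h1 := congrArg Subtype.val (hact x hx ⟨v, hv⟩)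
    rw [hχ0 x hx, zero_smul] at h1
    exact h1
  let W : LieSubmodule C L V :=
    { carrier := {v | ∀ x ∈ r, ⁅x, v⁆ = 0}
      add_mem' := fun {a b} ha hb x hx => by rw [lie_add, ha x hx, hb x hx, add_zero]
      zero_mem' := fun x hx => lie_zero _
      smul_mem' := fun t a ha x hx => by rw [lie_smul, ha x hx, smul_zero]
      lie_mem := fun {y m} hm x hx => by
        have h1 : ⁅x, y⁆ ∈ r := by
          rw [← lie_skew]
          exact r.neg_mem (r.lie_mem hx)
        rw [leibniz_lie, hm _ h1, hm x hx, lie_zero, add_zero] }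
  have hWt : W = ⊤ := by
    obtain ⟨W', hW'⟩ := hss W
    by_cases h0 : W' = ⊥
    · have h1 := hW'.sup_eq_top
      rw [h0, sup_bot_eq] at h1
      exact h1
    · exfalso
      obtain ⟨N, hN, hNW⟩ := (eq_bot_or_exists_atom_le W').resolve_left h0
      have hirr : IsIrreducible C L N := by
        have hnt : Nontrivial N := (LieSubmodule.nontrivial_iff_ne_bot C L V).2 hN.1
        refine IsIrreducible.mk (fun U hU => ?_)
        let U' : LieSubmodule C L V := U.map N.incl
        have h1 : U' ≤ N := by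
          rintro _ ⟨u, _, rfl⟩
          exact u.2
        have h2 : U' ≠ ⊥ := fun h => hU (by
          rw [LieSubmodule.eq_bot_iff]
          intro u hu
          have h3 : (u : V) ∈ U' := ⟨u, hu, rfl⟩
          rw [h] at h3
          exact Subtype.ext ((LieSubmodule.mem_bot _).1 h3))
        have h3 : U' = N := by
          rcases h1.lt_or_eq with h | h
          · exact absurd (hN.2 _ h) h2
          · exact h
        rw [eq_top_iff]
        intro n _
        have h4 : (n : V) ∈ U' := by
          rw [h3]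
          exact n.2
        obtain ⟨u, hu, hun⟩ := h4
        have h5 : u = n := Subtype.ext hun
        rw [← h5]
        exact hu
      have h1 : N ≤ W := fun v hv x hx => hr N hirr x hx v hv
      have h2 : N ≤ W ⊓ W' := le_inf h1 hNW
      rw [hW'.inf_eq_bot] at h2
      exact hN.1 (le_bot_iff.1 h2)
  refine ⟨?_⟩
  rw [LieSubmodule.eq_bot_iff]
  intro x hx
  refine ext_of_isFaithful (R := C) (M := V) (fun v => ?_)
  have h1 : v ∈ W := by
    rw [hWt]
    exact LieSubmodule.mem_top v
  rw [zero_lie]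
  exact h1 x hx

end Pool.Agent.AXE
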