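import Mathlib
import Pool.Agent.AXE.SDesc

/-!
# Semisimple connections and semisimplicity of the constant representation
-/

set_option autoImplicit false
set_option linter.unusedSectionVars false

namespace Pool.Agent.AXE

open Matrix LieModule

attribute [local instance 100] LieRing.ofAssociativeRing

variable {F : Type} [Field F]

/-- the connection `∂ - A` is semisimple over the field `L`: every subspace of `L^I` stable under
`v ↦ ∂v - Av` has a stable complement -/
def SemisimpleOver (d : Derivation ℤ F F) (L : Subfield F) {I : Type} [Fintype I]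
    (A : Matrix I I F) : Prop :=
  ∀ U : Submodule L (I → F), (∀ u ∈ U, ∀ i, u i ∈ L) →
    (∀ u ∈ U, (fun i => d (u i) - (A *ᵥ u) i) ∈ U) →
    ∃ U' : Submodule L (I → F), (∀ u ∈ U', ∀ i, u i ∈ L) ∧
      (∀ u ∈ U', (fun i => d (u i) - (A *ᵥ u) i) ∈ U') ∧ U ⊓ U' = ⊥ ∧
      ∀ u : I → F, (∀ i, u i ∈ L) → u ∈ U ⊔ U'

variable [CharZero F] {d : Derivation ℤ F F} {K : Subfield F} {I : Type}
  [Fintype I] [DecidableEq I]
  {J : Type} [Fintype J] [DecidableEq J]

/-- the span of a space of vectors over `L` is stable under derivations which kill `L` -/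
theorem span_stab {L : Subfield F} {I : Type} [Fintype I] (U : Submodule L (I → F))
    (hU : ∀ u ∈ U, ∀ i, u i ∈ L) (D : Derivation ℤ F F) (hD : Kills D L) (v : I → F)
    (hv : v ∈ Submodule.span F (U : Set (I → F))) :
    (fun i => D (v i)) ∈ Submodule.span F (U : Set (I → F)) := by
  set W := Submodule.span F (U : Set (I → F)) with hW
  induction hv using Submodule.span_induction with
  | mem v hv =>
    have h1 : (fun i => D (v i)) = 0 := by
      funext i
      exact hD _ (hU v hv i)
    rw [h1]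
    exact W.zero_mem
  | zero =>
    have h1 : (fun i : I => D ((0 : I → F) i)) = 0 := by
      funext i
      exact map_zero D
    rw [h1]
    exact W.zero_mem
  | add x y _ _ hx hy =>
    have h1 : (fun i => D ((x + y) i)) = (fun i => D (x i)) + fun i => D (y i) := by
      funext i
      exact map_add D _ _
    rw [h1]
    exact W.add_mem hx hy
  | smul a x hx' hx =>
    have h1 : (fun i => D ((a • x) i)) = a • (fun i => D (x i)) + D a • x := by
      funext i
      change D (a * x i) = a * D (x i) + D a * x i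
      rw [Derivation.leibniz, smul_eq_mul, smul_eq_mul]
      ring
    rw [h1]
    exact W.add_mem (W.smul_mem _ hx) (W.smul_mem _ hx')

theorem span_conn {L : Subfield F} (A : Matrix I I F) (U : Submodule L (I → F))
    (hU : ∀ u ∈ U, (fun i => d (u i) - (A *ᵥ u) i) ∈ U) (v : I → F)
    (hv : v ∈ Submodule.span F (U : Set (I → F))) :
    (fun i => d (v i) - (A *ᵥ v) i) ∈ Submodule.span F (U : Set (I → F)) := by
  set W := Submodule.span F (U : Set (I → F)) with hW
  induction hv using Submodule.span_induction with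
  | mem v hv => exact Submodule.subset_span (hU v hv)
  | zero =>
    have h1 : (fun i : I => d ((0 : I → F) i) -
        (A *ᵥ (0 : I → F)) i) = 0 := by
      funext i
      rw [Matrix.mulVec_zero, Pi.zero_apply, map_zero, sub_zero]
    rw [h1]
    exact W.zero_mem
  | add x y _ _ hx hy =>
    have h1 : (fun i => d ((x + y) i) - (A *ᵥ (x + y)) i) =
        (fun i => d (x i) - (A *ᵥ x) i) + fun i => d (y i) - (A *ᵥ y) i := by
      funext i
      rw [Matrix.mulVec_add, Pi.add_apply, Pi.add_apply, Pi.add_apply, map_add]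
      ring
    rw [h1]
    exact W.add_mem hx hy
  | smul a x hx' hx =>
    have h1 : (fun i => d ((a • x) i) - (A *ᵥ (a • x)) i) =
        a • (fun i => d (x i) - (A *ᵥ x) i) + d a • x := by
      funext i
      rw [Matrix.mulVec_smul]
      change d (a * x i) - a * (A *ᵥ x) i = a * (d (x i) - (A *ᵥ x) i) + d a * x i
      rw [Derivation.leibniz, smul_eq_mul, smul_eq_mul]
      ring
    rw [h1]
    exact W.add_mem (W.smul_mem _ hx) (W.smul_mem _ hx')

namespace SCtx

variable (c : SCtx d K I J)

/-- the vectors over `F` of a space of constant vectors -/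
def upSet (W : Submodule (constants d) (J → constants d)) : Set (J → F) :=
  {v | ∃ u ∈ W, v = fun j => (u j : F)}

theorem upSet_const (W : Submodule (constants d) (J → constants d)) :
    ∀ u ∈ upSet W, ∀ j, d (u j) = 0 := by
  rintro _ ⟨u, hu, rfl⟩ j
  exact (u j).2

theorem upSet_stab (W : LieSubmodule (constants d) c.lieAlg (J → constants d)) :
    ∀ T m, c.Good T m → ∀ u ∈ upSet W.toSubmodule, m *ᵥ u ∈ upSet W.toSubmodule := by
  rintro T m hT _ ⟨u, hu, rfl⟩
  let m' : Matrix J J (constants d) := fun i j => ⟨m i j, hT.const i j⟩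
  have hm' : m' ∈ c.lieAlg := ⟨T, hT⟩
  have h1 : ⁅(⟨m', hm'⟩ : c.lieAlg), u⁆ ∈ W := W.lie_mem hu
  refine ⟨_, h1, ?_⟩
  funext i
  exact (up_mulVec m' u i).symm

/-- the constant representation of a semisimple connection is semisimple -/
theorem semisimple (hss : SemisimpleOver d (cl (K : Set F)) c.A)
    (W : LieSubmodule (constants d) c.lieAlg (J → constants d)) :
    ∃ W' : LieSubmodule (constants d) c.lieAlg (J → constants d), IsCompl W W' := by
  classical
  set L := cl (K : Set F) with hL
  have hAcl : ∀ i j, c.A i j ∈ L := fun i j => subset_cl _ (c.hA i j)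
  have hdcl : ∀ a ∈ L, d a ∈ L := fun a ha => stab (fun s hs => subset_cl _ (c.hK s hs)) ha
  set X := Submodule.span F {v | ∃ u ∈ upSet W.toSubmodule, v = c.Φ *ᵥ u} with hX
  have hXD : ∀ D : Derivation ℤ F F, Kills D K → ∀ v ∈ X, (fun i => D (v i)) ∈ X :=
    fun D hD v hv => c.col_stab _ (upSet_const _) (c.upSet_stab W) D hD v hv
  have hXd : ∀ v ∈ X, (fun i => d (v i) - (c.A *ᵥ v) i) ∈ X :=
    fun v hv => c.col_conn _ (upSet_const _) v hv
  let U : Submodule L (I → F) :=
    { carrier := {v | v ∈ X ∧ ∀ i, v i ∈ L}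
      add_mem' := fun {a b} ha hb => ⟨X.add_mem ha.1 hb.1, fun i => add_mem (ha.2 i) (hb.2 i)⟩
      zero_mem' := ⟨X.zero_mem, fun i => zero_mem _⟩
      smul_mem' := fun t a ha => ⟨X.smul_mem (t : F) ha.1, fun i => mul_mem t.2 (ha.2 i)⟩ }
  obtain ⟨U', hU'L, hU'd, hinf, hsup⟩ := hss U (fun u hu i => hu.2 i)
    (fun u hu => ⟨hXd u hu.1, fun i => sub_mem (hdcl _ (hu.2 i)) (mulVec_mem _ _ u hAcl hu.2 i)⟩)
  set X' := Submodule.span F (U' : Set (I → F)) with hX'
  have hX'D : ∀ D : Derivation ℤ F F, Kills D K → ∀ v ∈ X', (fun i => D (v i)) ∈ X' :=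
    fun D hD v hv => span_stab U' hU'L D (kills_cl hD) v hv
  have hX'd : ∀ v ∈ X', (fun i => d (v i) - (c.A *ᵥ v) i) ∈ X' :=
    fun v hv => span_conn c.A U' hU'd v hv
  have hdisj : ∀ v ∈ X, v ∈ X' → v = 0 := by
    intro v hv hv'
    by_contra hv0
    obtain ⟨w, hw, hw0, hwL⟩ := exists_alg_vec K (X ⊓ X')
      (fun D hD v hv => ⟨hXD D hD v hv.1, hX'D D hD v hv.2⟩)
      (fun h => hv0 (by
        have h1 : v ∈ X ⊓ X' := ⟨hv, hv'⟩
        rw [h] at h1
        exact (Submodule.mem_bot _).1 h1))
    have h1 : w ∈ U := ⟨hw.1, hwL⟩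
    have h2 : w ∈ U' := mem_of_mem_span' U' hU'L w hwL hw.2
    have h3 : w ∈ U ⊓ U' := ⟨h1, h2⟩
    rw [hinf] at h3
    exact hw0 ((Submodule.mem_bot _).1 h3)
  have hcod : ∀ v : I → F, v ∈ X ⊔ X' := by
    intro v
    have h1 : v = ∑ i, v i • (Pi.single i (1 : F) : I → F) := by
      funext j
      rw [Finset.sum_apply]
      simp only [Pi.smul_apply, smul_eq_mul, Pi.single_apply]
      simp
    rw [h1]
    refine Submodule.sum_mem _ (fun i _ => Submodule.smul_mem _ _ ?_)
    have h2 := hsup (Pi.single i 1) (fun j => by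
      rw [Pi.single_apply]
      split_ifs
      · exact one_mem _
      · exact zero_mem _)
    obtain ⟨a, ha, b, hb, hab⟩ := Submodule.mem_sup.1 h2
    rw [← hab]
    exact Submodule.add_mem_sup ha.1 (Submodule.subset_span hb)
  let W' : LieSubmodule (constants d) c.lieAlg (J → constants d) :=
    { carrier := {u | c.Φ *ᵥ (fun j => (u j : F)) ∈ X'}
      add_mem' := fun {a b} ha hb => by
        have h1 : (fun j => ((a + b) j : F)) = (fun j => (a j : F)) + fun j => (b j : F) := rfl
        change c.Φ *ᵥ (fun j => ((a + b) j : F)) ∈ X'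
        rw [h1, Matrix.mulVec_add]
        exact X'.add_mem ha hb
      zero_mem' := by
        have h1 : (fun j => ((0 : J → constants d) j : F)) = 0 := rfl
        change c.Φ *ᵥ (fun j => ((0 : J → constants d) j : F)) ∈ X'
        rw [h1, Matrix.mulVec_zero]
        exact X'.zero_mem
      smul_mem' := fun t a ha => by
        have h1 : (fun j => ((t • a) j : F)) = (t : F) • (fun j => (a j : F)) := rfl
        change c.Φ *ᵥ (fun j => ((t • a) j : F)) ∈ X'
        rw [h1, Matrix.mulVec_smul]
        exact X'.smul_mem _ ha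
      lie_mem := fun {m u} hu => by
        obtain ⟨T, hT⟩ := m.2
        have h1 := hX'D T hT.kill _ hu
        have h2 : (fun i => T ((c.Φ *ᵥ fun j => (u j : F)) i)) =
            c.Φ *ᵥ (fun j => ((⁅m, u⁆ : J → constants d) j : F)) := by
          funext i
          rw [map_mulVec_der, hT.map]
          have h3 : (fun j => T (u j : F)) = 0 := by
            funext j
            exact hT.kill _ (c.hC _ (u j).2)
          rw [h3, Matrix.mulVec_zero, Pi.zero_apply, add_zero, ← Matrix.mulVec_mulVec]
          have h4 : (fun j => ((⁅m, u⁆ : J → constants d) j : F)) =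
              up m.1 *ᵥ fun j => (u j : F) := by
            funext j
            exact up_mulVec m.1 u j
          rw [h4]
        rw [h2] at h1
        exact h1 }
  have hW' : ∀ u, u ∈ W' ↔ c.Φ *ᵥ (fun j => (u j : F)) ∈ X' := fun u => Iff.rfl
  refine ⟨W', ⟨?_, ?_⟩⟩
  · rw [disjoint_iff, LieSubmodule.eq_bot_iff]
    intro u hu
    rw [LieSubmodule.mem_inf] at hu
    have h1 : c.Φ *ᵥ (fun j => (u j : F)) ∈ X := Submodule.subset_span ⟨_, ⟨u, hu.1, rfl⟩, rfl⟩
    have h2 := hdisj _ h1 ((hW' u).1 hu.2)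
    have h3 : c.Ψ *ᵥ (c.Φ *ᵥ (fun j => (u j : F))) = fun j => (u j : F) := by
      rw [Matrix.mulVec_mulVec, c.ΨΦ, Matrix.one_mulVec]
    rw [h2, Matrix.mulVec_zero] at h3
    funext j
    exact Subtype.ext (congrFun h3 j).symm
  · rw [codisjoint_iff, eq_top_iff]
    intro w _
    have hYd : ∀ y ∈ X'.comap (Matrix.mulVecLin c.Φ), (fun j => d (y j)) ∈
        X'.comap (Matrix.mulVecLin c.Φ) := by
      intro y hy
      rw [Submodule.mem_comap, Matrix.mulVecLin_apply] at hy ⊢
      have h1 := hX'd _ hy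
      have h2 : (fun i => d ((c.Φ *ᵥ y) i) - (c.A *ᵥ (c.Φ *ᵥ y)) i) =
          c.Φ *ᵥ fun j => d (y j) := by
        funext i
        rw [map_mulVec_der, c.hΦ, Matrix.mulVec_mulVec]
        ring
      rw [h2] at h1
      exact h1
    have hspan : ∀ v : I → F, c.Ψ *ᵥ v ∈ Submodule.span F
        {v : J → F | ∃ u ∈ (W ⊔ W').toSubmodule, v = fun i => (u i : F)} := by
      intro v
      obtain ⟨a, ha, b, hb, hab⟩ := Submodule.mem_sup.1 (hcod v)
      rw [← hab, Matrix.mulVec_add]
      refine Submodule.add_mem _ ?_ ?_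
      · have h1 : X ≤ (Submodule.span F
            {v : J → F | ∃ u ∈ (W ⊔ W').toSubmodule, v = fun i => (u i : F)}).comap
            (Matrix.mulVecLin c.Ψ) := Submodule.span_le.2 (by
          rintro _ ⟨_, ⟨u, hu, rfl⟩, rfl⟩
          rw [SetLike.mem_coe, Submodule.mem_comap, Matrix.mulVecLin_apply, Matrix.mulVec_mulVec,
            c.ΨΦ, Matrix.one_mulVec]
          have h2 : u ∈ W ⊔ W' := le_sup_left (b := W') hu
          exact Submodule.subset_span ⟨u, h2, rfl⟩)
        exact h1 ha
      · have h1 : c.Ψ *ᵥ b ∈ X'.comap (Matrix.mulVecLin c.Φ) := by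
          rw [Submodule.mem_comap, Matrix.mulVecLin_apply, Matrix.mulVec_mulVec, c.ΦΨ,
            Matrix.one_mulVec]
          exact hb
        refine (Submodule.span_mono (R := F) ?_) (span_const d _ hYd h1)
        rintro y ⟨hy, hyd⟩
        let u : J → constants d := fun j => ⟨y j, hyd j⟩
        have hu : u ∈ W' := by
          rw [hW']
          exact hy
        have h2 : u ∈ W ⊔ W' := le_sup_right (a := W) hu
        exact ⟨u, h2, rfl⟩
    have h1 := hspan (c.Φ *ᵥ (fun j => (w j : F)))
    rw [Matrix.mulVec_mulVec, c.ΨΦ, Matrix.one_mulVec] at h1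
    exact mem_of_mem_span (W ⊔ W').toSubmodule w h1

end SCtx

end Pool.Agent.AXE
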