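import Mathlib
import Pool.Agent.AXE.SSem
import Pool.Agent.AXE.LRad

/-!
# Determinants of periods; the traces of the Galois Lie algebra
-/

set_option autoImplicit false
set_option linter.unusedSectionVars false

namespace Pool.Agent.AXE

open Matrix LieModule LieAlgebra

attribute [local instance 100] LieRing.ofAssociativeRing

section det

variable {F : Type} [Field F]

theorem der_prod {ι : Type} [DecidableEq ι] (T : Derivation ℤ F F) (s : Finset ι) (f : ι → F) :
    T (∏ i ∈ s, f i) = ∑ j ∈ s, (∏ i ∈ s.erase j, f i) * T (f j) := by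
  induction s using Finset.induction_on with
  | empty => simp
  | insert a s ha ih =>
    rw [Finset.prod_insert ha, Derivation.leibniz, ih, Finset.sum_insert ha,
      Finset.erase_insert ha, smul_eq_mul, smul_eq_mul, Finset.mul_sum, add_comm]
    congr 1
    refine Finset.sum_congr rfl (fun j hj => ?_)
    have hja : a ≠ j := fun h => ha (h ▸ hj)
    rw [Finset.erase_insert_of_ne hja, Finset.prod_insert (fun h => ha (Finset.mem_of_mem_erase h))]
    ring

theorem der_det {ι : Type} [Fintype ι] [DecidableEq ι] (T : Derivation ℤ F F)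
    (P : Matrix ι ι F) : T P.det = ∑ j, (P.updateCol j (fun i => T (P i j))).det := by
  rw [Matrix.det_apply', map_sum]
  have h1 : ∀ j, (P.updateCol j (fun i => T (P i j))).det =
      ∑ σ : Equiv.Perm ι, ((Equiv.Perm.sign σ : ℤ) : F) *
        ((∏ i ∈ Finset.univ.erase j, P (σ i) i) * T (P (σ j) j)) := by
    intro j
    rw [Matrix.det_apply']
    refine Finset.sum_congr rfl (fun σ _ => ?_)
    congr 1
    rw [← Finset.mul_prod_erase Finset.univ _ (Finset.mem_univ j), Matrix.updateCol_self, mul_comm]
    congr 1
    refine Finset.prod_congr rfl (fun i hi => ?_)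
    rw [Matrix.updateCol_ne (Finset.ne_of_mem_erase hi)]
  rw [Finset.sum_congr rfl (fun j _ => h1 j), Finset.sum_comm]
  refine Finset.sum_congr rfl (fun σ _ => ?_)
  rw [Derivation.leibniz, smul_eq_mul, smul_eq_mul, ← Finset.mul_sum]
  have h2 : T ((Equiv.Perm.sign σ : ℤ) : F) = 0 := T.map_intCast _
  rw [h2, mul_zero, add_zero, der_prod]

/-- the derivative of a determinant -/
theorem der_det_of_mul {ι : Type} [Fintype ι] [DecidableEq ι] (T : Derivation ℤ F F)
    (P μ : Matrix ι ι F) (h : P.map T = P * μ) : T P.det = μ.trace * P.det := by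
  rw [der_det, Matrix.trace, Finset.sum_mul]
  refine Finset.sum_congr rfl (fun j _ => ?_)
  have h1 : (fun i => T (P i j)) = fun k => ∑ i, (μ i j) • P k i := by
    funext k
    have h2 := congrFun (congrFun h k) j
    rw [Matrix.map_apply, Matrix.mul_apply] at h2
    rw [h2]
    exact Finset.sum_congr rfl (fun i _ => mul_comm _ _)
  rw [h1, Matrix.det_updateCol_sum P j (fun i => μ i j), smul_eq_mul, Matrix.diag_apply]

/-- a matrix with a left inverse has a non-zero maximal minor -/
theorem exists_minor {ι κ : Type} [Fintype ι] [DecidableEq ι] [Fintype κ] [DecidableEq κ]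
    (M : Matrix κ ι F) (Q : Matrix ι κ F) (h : Q * M = 1) :
    ∃ I : ι → κ, (M.submatrix I id).det ≠ 0 := by
  by_contra hc
  push Not at hc
  have h1 : (Q * M).det = ∑ p : ι → κ, (∏ i, Q i (p i)) * (M.submatrix p id).det := by
    have h2 : (Q * M : Matrix ι ι F) = fun i => ∑ k, Q i k • M k := by
      funext i j
      rw [Matrix.mul_apply, Finset.sum_apply]
      rfl
    have h3 : (Q * M).det = (Matrix.detRowAlternating : (ι → F) [⋀^ι]→ₗ[F] F).toMultilinearMap
        (fun i => ∑ k, Q i k • M k) := by
      rw [h2]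
      rfl
    rw [h3, MultilinearMap.map_sum]
    refine Finset.sum_congr rfl (fun p _ => ?_)
    rw [MultilinearMap.map_smul_univ]
    rfl
  rw [h, Matrix.det_one] at h1
  rw [Finset.sum_eq_zero (fun p _ => by rw [hc p, mul_zero])] at h1
  exact one_ne_zero h1

theorem det_mem {ι : Type} [Fintype ι] [DecidableEq ι] (M : Subfield F) (P : Matrix ι ι F)
    (h : ∀ i j, P i j ∈ M) : P.det ∈ M := by
  rw [Matrix.det_apply']
  refine M.sum_mem (fun σ _ => M.mul_mem (intCast_mem M _) (M.prod_mem (fun i _ => h _ _)))

/-- the field `M` contains no exponentials over `K`: if `∂f/f` is algebraic over `K`, then so is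
`f` -/
def NoExponential (d : Derivation ℤ F F) (K M : Subfield F) : Prop :=
  ∀ f ∈ M, f ≠ 0 → IsAlgebraic K (d f / f) → IsAlgebraic K f

end det

variable {F : Type} [Field F] [CharZero F] {d : Derivation ℤ F F} {K : Subfield F} {I : Type}
  [Fintype I] [DecidableEq I]
  {J : Type} [Fintype J] [DecidableEq J]

namespace SCtx

variable (c : SCtx d K I J)

/-- an element of the field of periods which is an eigenvector of all good derivations is an
exponential -/
theorem exp_of_eigen {f : F} (hf : f ∈ c.k) (hf0 : f ≠ 0)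
    (h : ∀ T m, c.Good T m → ∃ t, d t = 0 ∧ T f = t * f) : d f / f ∈ cl (K : Set F) := by
  set g := d f / f with hg
  have hgf : g * f = d f := div_mul_cancel₀ _ hf0
  have hdk : ∀ a ∈ c.k, d a ∈ c.k := fun a ha => stab (fun s hs => by
    rcases hs with hs | ⟨a, b, rfl⟩
    · exact c.K_le_k (c.hK s hs)
    · have h1 := congrFun (congrFun c.hΦ a) b
      rw [Matrix.map_apply, Matrix.mul_apply] at h1
      rw [h1]
      exact c.k.sum_mem (fun l _ => c.k.mul_mem (c.K_le_k (c.hA a l)) (c.Φ_mem l b))) ha
  have hgk : g ∈ c.k := c.k.div_mem (hdk f hf) hf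
  have hgood : ∀ T m, c.Good T m → T g = 0 := by
    intro T m hT
    obtain ⟨t, ht, hTf⟩ := h T m hT
    have h1 := hT.comm f hf
    rw [Derivation.commutator_apply, hTf, Derivation.leibniz, ht, smul_zero, add_zero,
      smul_eq_mul] at h1
    have h2 := congrArg T hgf
    rw [Derivation.leibniz, smul_eq_mul, smul_eq_mul, hTf] at h2
    have h3 : f * T g = 0 := by
      rw [← sub_eq_zero.1 h1, ← hgf] at h2
      linear_combination h2
    exact (mul_eq_zero.1 h3).resolve_left hf0
  intro D hD
  obtain ⟨D', hD', hDD'⟩ := c.exists_dec hD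
  let Q : Submodule F (Derivation ℤ F F) :=
    { carrier := {T | T g = 0}
      add_mem' := fun {a b} ha hb => by
        have ha' : a g = 0 := ha
        have hb' : b g = 0 := hb
        change (a + b) g = 0
        rw [Derivation.add_apply, ha', hb', add_zero]
      zero_mem' := rfl
      smul_mem' := fun t a ha => by
        have ha' : a g = 0 := ha
        change (t • a) g = 0
        rw [Derivation.smul_apply, ha', smul_zero] }
  have hQ : c.GS ≤ Q := Submodule.span_le.2 (fun T hT => by
    obtain ⟨m, hm⟩ := hT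
    exact hgood T m hm)
  have h1 : D' g = 0 := hQ hD'
  have h2 := hDD' g hgk
  rw [Derivation.sub_apply, h1, sub_zero] at h2
  exact h2

/-- without exponentials, the Galois Lie algebra acts without trace on all submodules -/
theorem trace_zero (hexp : NoExponential d K (Subfield.closure c.gen))
    (W : LieSubmodule (constants d) c.lieAlg (J → constants d)) (x : c.lieAlg) :
    LinearMap.trace (constants d) W (toEnd (constants d) c.lieAlg W x) = 0 := by
  classical
  let C := constants d
  let b := Module.finBasis C W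
  let r := Module.finrank C W
  let μ : c.lieAlg → Matrix (Fin r) (Fin r) C := fun y =>
    LinearMap.toMatrix b b (toEnd C c.lieAlg W y)
  have htr : ∀ y, LinearMap.trace C W (toEnd C c.lieAlg W y) = (μ y).trace := fun y =>
    LinearMap.trace_eq_matrix_trace C b _
  have hμ : ∀ y l, (⁅y, (b l : J → C)⁆ : J → C) = ∑ k, μ y k l • (b k : J → C) := fun y l => by
    have h1 : toEnd C c.lieAlg W y (b l) = ∑ k, μ y k l • b k := by
      conv_lhs => rw [← b.sum_repr (toEnd C c.lieAlg W y (b l))]
      refine Finset.sum_congr rfl (fun k _ => ?_)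
      rw [← LinearMap.toMatrix_apply b b (toEnd C c.lieAlg W y) k l]
    have h2 := congrArg (fun w : W => (w : J → C)) h1
    have h3 : ((toEnd C c.lieAlg W y (b l) : W) : J → C) = ⁅y, (b l : J → C)⁆ := rfl
    rw [← h3]
    refine h2.trans ?_
    have h4 := map_sum W.toSubmodule.subtype (fun k => μ y k l • b k) Finset.univ
    refine h4.trans (Finset.sum_congr rfl (fun k _ => rfl))
  let Um : Matrix J (Fin r) F := fun j l => ((b l : J → C) j : F)
  let P : Matrix I (Fin r) F := c.Φ * Um
  let μF : c.lieAlg → Matrix (Fin r) (Fin r) F := fun y k l => (μ y k l : F)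
  -- the left inverse
  obtain ⟨π, hπ⟩ := W.toSubmodule.subtype.exists_leftInverse_of_injective
    (Submodule.ker_subtype W.toSubmodule)
  have hπW : ∀ w : W, π (w : J → C) = w := fun w => LinearMap.congr_fun hπ w
  let Rm : Matrix (Fin r) J F := fun k j => ((b.repr (π (Pi.single j 1)) k : C) : F)
  have hRU : Rm * Um = 1 := by
    ext k l
    rw [Matrix.mul_apply, Matrix.one_apply]
    have h1 : ∑ j, b.repr (π (Pi.single j (1 : C))) k * (b l : J → C) j =
        b.repr (π (b l : J → C)) k := by
      have h2 : (b l : J → C) = ∑ j, (b l : J → C) j • (Pi.single j (1 : C) : J → C) := by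
        funext j
        rw [Finset.sum_apply]
        simp only [Pi.smul_apply, smul_eq_mul, Pi.single_apply]
        simp
      conv_rhs => rw [h2]
      rw [map_sum, map_sum, Finsupp.finsetSum_apply]
      refine Finset.sum_congr rfl (fun j _ => ?_)
      rw [map_smul, map_smul, Finsupp.smul_apply, smul_eq_mul, mul_comm]
    rw [hπW, b.repr_self, Finsupp.single_apply] at h1
    have h2 : ((∑ j, b.repr (π (Pi.single j (1 : C))) k * (b l : J → C) j : C) : F) =
        ∑ j, Rm k j * Um j l := by
      push_cast
      rfl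
    rw [← h2, h1]
    by_cases hkl : l = k
    · rw [if_pos hkl, if_pos hkl.symm]
      rfl
    · rw [if_neg hkl, if_neg (fun h => hkl h.symm)]
      rfl
  obtain ⟨sel, hI⟩ := exists_minor P (Rm * c.Ψ) (by
    change Rm * c.Ψ * (c.Φ * Um) = 1
    rw [Matrix.mul_assoc, ← Matrix.mul_assoc c.Ψ, c.ΨΦ, Matrix.one_mul, hRU])
  let f : F := (P.submatrix sel id).det
  have hf0 : f ≠ 0 := hI
  -- the action of the good derivations
  have hT : ∀ (T : Derivation ℤ F F) (y : c.lieAlg), c.Good T (up y.1) →
      T f = ((μ y).trace : C) * f := by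
    intro T y hT
    have h1 : P.map T = P * μF y := by
      ext i l
      have h2 : (c.Φ * Um).map T = c.Φ.map T * Um + c.Φ * Um.map T := map_mul_der T _ _
      have h3 : Um.map T = 0 := map_zero_of (fun j l => hT.kill _ (c.hC _ ((b l : J → C) j).2))
      have h4 : up y.1 * Um = Um * μF y := by
        ext j l
        have h5 := congrArg (fun v : J → C => ((v j : C) : F)) (hμ y l)
        have h6 : ((⁅y, (b l : J → C)⁆ : J → C) j : F) =
            (up y.1 *ᵥ fun j => ((b l : J → C) j : F)) j := up_mulVec y.1 _ j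
        rw [Matrix.mul_apply, Matrix.mul_apply]
        change ∑ i, up y.1 j i * ((b l : J → C) i : F) = _
        refine h6.symm.trans (h5.trans ?_)
        rw [Finset.sum_apply]
        push_cast
        exact Finset.sum_congr rfl (fun k _ => mul_comm _ _)
      change (c.Φ * Um).map T i l = (c.Φ * Um * μF y) i l
      rw [h2, h3, Matrix.mul_zero, add_zero, hT.map, Matrix.mul_assoc, h4, Matrix.mul_assoc]
    have h2 := der_det_of_mul T (P.submatrix sel id) (μF y) (by
      ext i l
      exact congrFun (congrFun h1 (sel i)) l)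
    change T (P.submatrix sel id).det = _
    rw [h2]
    congr 1
    rw [Matrix.trace, Matrix.trace]
    push_cast
    rfl
  have hfM : f ∈ Subfield.closure c.gen := det_mem _ _ (fun i l => by
    change ∑ j, c.Φ (sel i) j * Um j l ∈ _
    refine Subfield.sum_mem _ (fun j _ => Subfield.mul_mem _
      (Subfield.subset_closure (Or.inr ⟨_, _, rfl⟩))
      (Subfield.subset_closure (Or.inl (c.hC _ ((b l : J → C) j).2)))))
  have hfk : f ∈ c.k := by
    have h1 : Subfield.closure c.gen ≤ c.k := Subfield.closure_le.2 (subset_cl _)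
    exact h1 hfM
  have hg := c.exp_of_eigen hfk hf0 (fun T m hT' => by
    let m' : Matrix J J C := fun i j => ⟨m i j, hT'.const i j⟩
    have hm' : m' ∈ c.lieAlg := ⟨T, hT'⟩
    exact ⟨_, ((μ ⟨m', hm'⟩).trace).2, hT T ⟨m', hm'⟩ hT'⟩)
  have hfK : f ∈ cl (K : Set F) := mem_cl_iff.2 (hexp f hfM hf0 (mem_cl_iff.1 hg))
  obtain ⟨T, hTx⟩ := x.2
  have h1 := hT T x hTx
  rw [hfK T hTx.kill] at h1
  have h2 := (mul_eq_zero.1 h1.symm).resolve_right hf0
  rw [htr]
  exact Subtype.ext h2

end SCtx

end Pool.Agent.AXE
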