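import Mathlib
import Pool.Agent.AXE.STr

/-!
# The cocycle of the defects modulo the annihilator
-/

set_option autoImplicit false
set_option linter.unusedSectionVars false

namespace Pool.Agent.AXE

open Matrix LieModule LieAlgebra

attribute [local instance 100] LieRing.ofAssociativeRing

variable {F : Type} [Field F] [CharZero F] {d : Derivation ℤ F F} {K : Subfield F} {I : Type}
  [Fintype I] [DecidableEq I]
  {J : Type} [Fintype J] [DecidableEq J]

namespace SCtx

variable (c : SCtx d K I J)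

theorem Ann_unique {T T' : Derivation ℤ F F} {m : Matrix J J F} (h : c.Good T m)
    (h' : c.Good T' m) {a : J → F} (ha : a ∈ c.Ann) : a ⬝ᵥ c.b T = a ⬝ᵥ c.b T' := by
  have hk : Kills (T - T') c.k := kills_cl (fun s hs => by
    rcases hs with hs | ⟨a, b, rfl⟩
    · rw [Derivation.sub_apply, h.kill s hs, h'.kill s hs, sub_zero]
    · have h1 := congrFun (congrFun (h.map.trans h'.map.symm) a) b
      rw [Matrix.map_apply, Matrix.map_apply] at h1
      rw [Derivation.sub_apply, h1, sub_self])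
  have h1 : c.b T = c.b ((T - T') + T') := by rw [sub_add_cancel]
  rw [h1, c.b_add, dotProduct_add, ha.2 _ hk, zero_add]

theorem Ann_const {T : Derivation ℤ F F} {m : Matrix J J F} (h : c.Good T m)
    {a : J → F} (ha : a ∈ c.Ann) : d (a ⬝ᵥ c.b T) = 0 := by
  rw [map_dotProduct_der]
  have h6 : (fun j => d (a j)) = 0 := funext ha.1
  have h7 : (fun j => d (c.b T j)) = c.b ⁅d, T⁆ := funext fun j => c.db h.kill j
  rw [h6, zero_dotProduct, zero_add, h7]
  exact ha.2 _ h.comm

theorem Ann_lie {T T' : Derivation ℤ F F} {m m' : Matrix J J F} (h : c.Good T m)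
    (h' : c.Good T' m') {a : J → F} (ha : a ∈ c.Ann) :
    a ⬝ᵥ c.b ⁅T, T'⁆ = (a ᵥ* m) ⬝ᵥ c.b T' - (a ᵥ* m') ⬝ᵥ c.b T := by
  have haK : ∀ j, a j ∈ K := fun j => c.hC _ (ha.1 j)
  have key : ∀ {S S' : Derivation ℤ F F} {n n' : Matrix J J F}, c.Good S n → c.Good S' n' →
      a ⬝ᵥ (fun j => S (c.b S' j)) = 0 := by
    intro S S' n n' hS hS'
    have h3 := map_dotProduct_der S a (c.b S')
    have h4 : (fun j => S (a j)) = 0 := funext fun j => hS.kill _ (haK j)
    rw [h4, zero_dotProduct, zero_add] at h3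
    rw [← h3]
    exact hS.kill _ (c.hC _ (c.Ann_const hS' ha))
  rw [b_lie_gen h.kill h'.kill h.map h'.map, dotProduct_sub, dotProduct_add, dotProduct_add,
    key h h', key h' h, add_zero, add_zero, Matrix.dotProduct_mulVec, Matrix.dotProduct_mulVec]

/-- the constant vectors orthogonal to the annihilator -/
def perp : LieSubmodule (constants d) c.lieAlg (J → constants d) where
  carrier := {u | ∀ a ∈ c.Ann, a ⬝ᵥ (fun j => (u j : F)) = 0}
  add_mem' := fun {u v} hu hv a ha => by
    have h1 : (fun j => ((u + v) j : F)) = (fun j => (u j : F)) + fun j => (v j : F) := rfl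
    rw [h1, dotProduct_add, hu a ha, hv a ha, add_zero]
  zero_mem' := fun a _ => by
    have h1 : (fun j => ((0 : J → constants d) j : F)) = 0 := rfl
    rw [h1, dotProduct_zero]
  smul_mem' := fun t u hu a ha => by
    have h1 : (fun j => ((t • u) j : F)) = (t : F) • (fun j => (u j : F)) := rfl
    rw [h1, dotProduct_smul, hu a ha, smul_zero]
  lie_mem := fun {x u} hu a ha => by
    obtain ⟨T, hT⟩ := x.2
    have h4 : (fun j => ((⁅x, u⁆ : J → constants d) j : F)) = up x.1 *ᵥ fun j => (u j : F) := by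
      funext j
      exact up_mulVec x.1 u j
    rw [h4, Matrix.dotProduct_mulVec]
    exact hu _ (Ann_stab T _ hT a ha)

theorem mem_perp (u : J → constants d) :
    u ∈ c.perp ↔ ∀ a ∈ c.Ann, a ⬝ᵥ (fun j => (u j : F)) = 0 := Iff.rfl

/-- a constant vector which represents the defect on the annihilator -/
theorem exists_repr {T : Derivation ℤ F F} {m : Matrix J J F} (h : c.Good T m) :
    ∃ w : J → constants d, ∀ a ∈ c.Ann, a ⬝ᵥ (fun j => (w j : F)) = a ⬝ᵥ c.b T := by
  classical
  let C := constants d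
  let U : Submodule C (J → C) :=
    { carrier := {a | (fun j => (a j : F)) ∈ c.Ann}
      add_mem' := fun {a b} ha hb => ⟨fun j => ((a + b) j).2, fun T hT => by
        have h1 : (fun j => ((a + b) j : F)) = (fun j => (a j : F)) + fun j => (b j : F) := rfl
        rw [h1, add_dotProduct, ha.2 T hT, hb.2 T hT, add_zero]⟩
      zero_mem' := ⟨fun j => ((0 : J → C) j).2, fun T hT => by
        have h1 : (fun j => ((0 : J → C) j : F)) = 0 := rfl
        rw [h1, zero_dotProduct]⟩
      smul_mem' := fun t a ha => ⟨fun j => ((t • a) j).2, fun T hT => by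
        have h1 : (fun j => ((t • a) j : F)) = (t : F) • (fun j => (a j : F)) := rfl
        rw [h1, smul_dotProduct, ha.2 T hT, smul_zero]⟩ }
  let φ : U →ₗ[C] C :=
    { toFun := fun a => ⟨(fun j => ((a : J → C) j : F)) ⬝ᵥ c.b T, c.Ann_const h a.2⟩
      map_add' := fun a b => Subtype.ext (by
        change (fun j => ((a : J → C) j : F) + ((b : J → C) j : F)) ⬝ᵥ c.b T =
          (fun j => ((a : J → C) j : F)) ⬝ᵥ c.b T + (fun j => ((b : J → C) j : F)) ⬝ᵥ c.b T
        rw [← add_dotProduct]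
        rfl)
      map_smul' := fun t a => Subtype.ext (by
        change (fun j => (t : F) * ((a : J → C) j : F)) ⬝ᵥ c.b T =
          (t : F) * ((fun j => ((a : J → C) j : F)) ⬝ᵥ c.b T)
        rw [← smul_eq_mul, ← smul_dotProduct]
        rfl) }
  obtain ⟨ψ, hψ⟩ := LinearMap.exists_extend φ
  refine ⟨fun j => ψ (Pi.single j 1), fun a ha => ?_⟩
  let a' : J → C := fun j => ⟨a j, ha.1 j⟩
  have ha' : a' ∈ U := ha
  have h1 : ψ a' = φ ⟨a', ha'⟩ := LinearMap.congr_fun hψ ⟨a', ha'⟩
  have h2 : a' = ∑ j, a' j • (Pi.single j (1 : C) : J → C) := by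
    funext j
    rw [Finset.sum_apply]
    simp only [Pi.smul_apply, smul_eq_mul, Pi.single_apply]
    simp
  have h3 : ψ a' = ∑ j, a' j * ψ (Pi.single j 1) := by
    conv_lhs => rw [h2]
    rw [map_sum]
    exact Finset.sum_congr rfl (fun j _ => by rw [map_smul, smul_eq_mul])
  rw [h3] at h1
  have h4 := congrArg (fun t : C => (t : F)) h1
  have h5 : ((∑ j, a' j * ψ (Pi.single j 1) : C) : F) =
      a ⬝ᵥ (fun j => ((ψ (Pi.single j 1) : C) : F)) := by
    push_cast
    rfl
  exact h5.symm.trans h4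

/-- the cocycle of the defects is a coboundary on the annihilator -/
theorem exists_cob [IsAlgClosed (constants d)] (hr : HasTrivialRadical (constants d) c.lieAlg) :
    ∃ u0 : J → F, (∀ j, d (u0 j) = 0) ∧ ∀ T m, c.Good T m → ∀ a ∈ c.Ann,
      a ⬝ᵥ c.b T = a ⬝ᵥ (m *ᵥ u0) := by
  classical
  let C := constants d
  have hch : ∀ x : c.lieAlg, ∃ T, c.Good T (up x.1) := fun x => x.2
  choose T hT using hch
  have hw : ∀ x : c.lieAlg, ∃ w : J → C, ∀ a ∈ c.Ann,
      a ⬝ᵥ (fun j => (w j : F)) = a ⬝ᵥ c.b (T x) := fun x => c.exists_repr (hT x)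
  choose w hw using hw
  let q : (J → C) →ₗ[C] ((J → C) ⧸ c.perp) := c.perp.toSubmodule.mkQ
  have hq : ∀ u v, q u = q v ↔ ∀ a ∈ c.Ann, a ⬝ᵥ (fun j => (u j : F)) =
      a ⬝ᵥ (fun j => (v j : F)) := by
    intro u v
    have h1 : q u = q v ↔ u - v ∈ c.perp := Submodule.Quotient.eq c.perp.toSubmodule
    rw [h1, mem_perp]
    refine forall₂_congr (fun a _ => ?_)
    have h2 : (fun j => ((u - v) j : F)) = (fun j => (u j : F)) - fun j => (v j : F) := rfl
    rw [h2, dotProduct_sub, sub_eq_zero]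
  have hql : ∀ (x : c.lieAlg) (v : J → C), q ⁅x, v⁆ = ⁅x, q v⁆ := fun x v => rfl
  let β : c.lieAlg →ₗ[C] ((J → C) ⧸ c.perp) :=
    { toFun := fun x => q (w x)
      map_add' := fun x y => by
        rw [← map_add, hq]
        intro a ha
        have h1 : (fun j => ((w x + w y) j : F)) = (fun j => (w x j : F)) + fun j => (w y j : F) :=
          rfl
        rw [h1, dotProduct_add, hw _ a ha, hw _ a ha, hw _ a ha, ← dotProduct_add, ← c.b_add]
        refine c.Ann_unique (hT (x + y)) ⟨fun s hs => ?_, fun i j => ((x + y).1 i j).2, ?_⟩ ha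
        · rw [Derivation.add_apply, (hT x).kill s hs, (hT y).kill s hs, add_zero]
        · have h1 : c.Φ.map (T x + T y : Derivation ℤ F F) = c.Φ.map (T x) + c.Φ.map (T y) :=
            rfl
          have h2 : up (x + y).1 = up x.1 + up y.1 := rfl
          rw [h1, (hT x).map, (hT y).map, h2, Matrix.mul_add]
      map_smul' := fun t x => by
        rw [RingHom.id_apply, ← map_smul, hq]
        intro a ha
        have h1 : (fun j => ((t • w x) j : F)) = (t : F) • (fun j => (w x j : F)) := rfl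
        rw [h1, dotProduct_smul, hw _ a ha, hw _ a ha, ← dotProduct_smul, ← c.b_smul]
        refine c.Ann_unique (hT (t • x)) ⟨fun s hs => ?_, fun i j => ((t • x).1 i j).2, ?_⟩ ha
        · rw [Derivation.smul_apply, (hT x).kill s hs, smul_zero]
        · have h1 : c.Φ.map ((t : F) • T x : Derivation ℤ F F) = (t : F) • c.Φ.map (T x) := rfl
          have h2 : up (t • x).1 = (t : F) • up x.1 := rfl
          rw [h1, (hT x).map, h2, Matrix.mul_smul] }
  have hfq : Module.Finite C ((J → C) ⧸ c.perp) :=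
    inferInstanceAs (Module.Finite C ((J → C) ⧸ c.perp.toSubmodule))
  have hup : ∀ (x : c.lieAlg) (v : J → C), (fun j => ((⁅x, v⁆ : J → C) j : F)) =
      up x.1 *ᵥ fun j => (v j : F) := fun x v => funext fun j => up_mulVec x.1 v j
  obtain ⟨ū, hū⟩ := whitehead_all C c.lieAlg _ ((J → C) ⧸ c.perp) rfl β (fun x y => by
    change q (w ⁅x, y⁆) = ⁅x, q (w y)⁆ - ⁅y, q (w x)⁆
    rw [← hql, ← hql, ← map_sub, hq]
    intro a ha
    have h1 : (fun j => ((⁅x, w y⁆ - ⁅y, w x⁆ : J → C) j : F)) =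
        up x.1 *ᵥ (fun j => (w y j : F)) - up y.1 *ᵥ (fun j => (w x j : F)) := by
      rw [← hup, ← hup]
      rfl
    rw [h1, hw _ a ha, dotProduct_sub, Matrix.dotProduct_mulVec, Matrix.dotProduct_mulVec,
      hw _ _ (Ann_stab _ _ (hT x) a ha), hw _ _ (Ann_stab _ _ (hT y) a ha),
      ← c.Ann_lie (hT x) (hT y) ha]
    have h0 : up (⁅x, y⁆ : c.lieAlg).1 = up x.1 * up y.1 - up y.1 * up x.1 := by
      rw [LieSubalgebra.coe_bracket, LieRing.of_associative_ring_bracket, up_sub, up_mul, up_mul]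
    have h2 : c.Good ⁅T x, T y⁆ (up (⁅x, y⁆ : c.lieAlg).1) := by
      rw [h0]
      exact (hT x).lie (hT y)
    exact c.Ann_unique (hT ⁅x, y⁆) h2 ha)
  obtain ⟨u, hu⟩ := Submodule.mkQ_surjective c.perp.toSubmodule ū
  have hu' : q u = ū := hu
  refine ⟨fun j => (u j : F), fun j => (u j).2, fun S m hS a ha => ?_⟩
  let m' : Matrix J J C := fun i j => ⟨m i j, hS.const i j⟩
  have hm' : m' ∈ c.lieAlg := ⟨S, hS⟩
  have h1 : c.Good (T ⟨m', hm'⟩) m := hT ⟨m', hm'⟩
  have h2 : q (w ⟨m', hm'⟩) = q ⁅(⟨m', hm'⟩ : c.lieAlg), u⁆ := by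
    rw [hql, hu', ← hū]
    rfl
  have h3 := (hq _ _).1 h2 a ha
  rw [hw _ a ha, hup] at h3
  rw [c.Ann_unique hS h1 ha]
  exact h3

end SCtx

end Pool.Agent.AXE
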