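import Mathlib
import Pool.Agent.AXE.SCoc

/-!
# The dichotomy for a semisimple connection
-/

set_option autoImplicit false
set_option linter.unusedSectionVars false

namespace Pool.Agent.AXE

open Matrix LieModule LieAlgebra

attribute [local instance 100] LieRing.ofAssociativeRing

variable {F : Type} [Field F] [CharZero F] {d : Derivation ℤ F F} {K : Subfield F} {I : Type}
  [Fintype I] [DecidableEq I]
  {J : Type} [Fintype J] [DecidableEq J]

namespace SCtx

variable (c : SCtx d K I J)

/-- the Galois Lie algebra has trivial radical -/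
theorem radical_trivial (hss : SemisimpleOver d (cl (K : Set F)) c.A)
    (hexp : NoExponential d K (Subfield.closure c.gen)) [IsAlgClosed (constants d)] :
    HasTrivialRadical (constants d) c.lieAlg :=
  trivial_radical (V := J → constants d) (c.semisimple hss) (c.trace_zero hexp)

/-- the corrected logarithm is a primitive of the differential forms in the annihilator -/
theorem corrected (u0 : J → F) (hu0 : ∀ j, d (u0 j) = 0)
    (hb : ∀ T m, c.Good T m → ∀ a ∈ c.Ann, a ⬝ᵥ c.b T = a ⬝ᵥ (m *ᵥ u0))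
    (D : Derivation ℤ F F) (hD : Kills D K) (a : J → F) (ha : a ∈ c.Ann) :
    (a ᵥ* c.Ψ) ⬝ᵥ (fun i => D (c.x i - (c.Φ *ᵥ u0) i) - c.ω D i) = 0 := by
  have hu0K : ∀ j, u0 j ∈ K := fun j => c.hC _ (hu0 j)
  let Q : Submodule F (Derivation ℤ F F) :=
    { carrier := {T | (a ᵥ* c.Ψ) ⬝ᵥ (fun i => T (c.x i - (c.Φ *ᵥ u0) i) - c.ω T i) = 0}
      add_mem' := fun {S T} hS hT => by
        have h1 : (fun i => (S + T) (c.x i - (c.Φ *ᵥ u0) i) - c.ω (S + T) i) =
            (fun i => S (c.x i - (c.Φ *ᵥ u0) i) - c.ω S i) +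
              fun i => T (c.x i - (c.Φ *ᵥ u0) i) - c.ω T i := by
          funext i
          rw [Pi.add_apply, Derivation.add_apply, c.ω_add]
          ring
        have hS' : (a ᵥ* c.Ψ) ⬝ᵥ (fun i => S (c.x i - (c.Φ *ᵥ u0) i) - c.ω S i) = 0 := hS
        have hT' : (a ᵥ* c.Ψ) ⬝ᵥ (fun i => T (c.x i - (c.Φ *ᵥ u0) i) - c.ω T i) = 0 := hT
        change (a ᵥ* c.Ψ) ⬝ᵥ (fun i => (S + T) (c.x i - (c.Φ *ᵥ u0) i) - c.ω (S + T) i) = 0
        rw [h1, dotProduct_add, hS', hT', add_zero]
      zero_mem' := by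
        have h1 : (fun i => (0 : Derivation ℤ F F) (c.x i - (c.Φ *ᵥ u0) i) - c.ω 0 i) = 0 := by
          funext i
          have h2 := c.ω_smul 0 0 i
          rw [zero_smul, zero_mul] at h2
          rw [h2]
          exact sub_zero _
        change (a ᵥ* c.Ψ) ⬝ᵥ (fun i => (0 : Derivation ℤ F F) (c.x i - (c.Φ *ᵥ u0) i) -
          c.ω 0 i) = 0
        rw [h1, dotProduct_zero]
      smul_mem' := fun t T hT => by
        have h1 : (fun i => (t • T) (c.x i - (c.Φ *ᵥ u0) i) - c.ω (t • T) i) =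
            t • fun i => T (c.x i - (c.Φ *ᵥ u0) i) - c.ω T i := by
          funext i
          rw [Pi.smul_apply, Derivation.smul_apply, c.ω_smul, smul_eq_mul, smul_eq_mul]
          ring
        have hT' : (a ᵥ* c.Ψ) ⬝ᵥ (fun i => T (c.x i - (c.Φ *ᵥ u0) i) - c.ω T i) = 0 := hT
        change (a ᵥ* c.Ψ) ⬝ᵥ (fun i => (t • T) (c.x i - (c.Φ *ᵥ u0) i) - c.ω (t • T) i) = 0
        rw [h1, dotProduct_smul, hT', smul_zero] }
  have hQ : ∀ T, T ∈ Q ↔ (a ᵥ* c.Ψ) ⬝ᵥ (fun i => T (c.x i - (c.Φ *ᵥ u0) i) - c.ω T i) = 0 :=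
    fun T => Iff.rfl
  have hT0 : ∀ T : Derivation ℤ F F, Kills T K → (fun i => T (c.x i - (c.Φ *ᵥ u0) i) - c.ω T i) =
      c.Φ *ᵥ c.b T - c.Φ.map T *ᵥ u0 := by
    intro T hT
    funext i
    have h1 : (fun j => T (u0 j)) = 0 := funext fun j => hT _ (hu0K j)
    rw [map_sub, map_mulVec_der, h1, Matrix.mulVec_zero, Pi.zero_apply, add_zero, Pi.sub_apply,
      c.Φb, B_eq]
    ring
  have hGS : c.GS ≤ Q := Submodule.span_le.2 (fun T hT => by
    obtain ⟨m, hm⟩ := hT
    rw [SetLike.mem_coe, hQ, hT0 T hm.kill, hm.map, ← Matrix.mulVec_mulVec, dotProduct_sub,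
      Matrix.dotProduct_mulVec, Matrix.vecMul_vecMul, c.ΨΦ, Matrix.vecMul_one,
      Matrix.dotProduct_mulVec, Matrix.vecMul_vecMul, c.ΨΦ, Matrix.vecMul_one, hb T m hm a ha,
      sub_self])
  obtain ⟨D', hD', hDD'⟩ := c.exists_dec hD
  have h1 : D' ∈ Q := hGS hD'
  have h2 : D - D' ∈ Q := by
    rw [hQ, hT0 _ (kills_K hDD')]
    have h3 : c.Φ.map (D - D' : Derivation ℤ F F) = 0 :=
      map_zero_of (fun i j => hDD' _ (c.Φ_mem i j))
    rw [h3, Matrix.zero_mulVec, sub_zero, Matrix.dotProduct_mulVec, Matrix.vecMul_vecMul, c.ΨΦ,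
      Matrix.vecMul_one]
    exact ha.2 _ hDD'
  have h3 : D ∈ Q := by
    have h4 := Q.add_mem h2 h1
    rw [sub_add_cancel] at h4
    exact h4
  exact h3

/-- the transcendence degree bounds the dimension of the space of defects -/
theorem le_trdeg_of_span (M : Subfield F) (hKM : K ≤ M) (Z : Set F) (hxZ : ∀ i, c.x i ∈ Z)
    (hVZ : c.V ⊆ Z) :
    ((Module.finrank F ((derM' M).map c.bL) : ℕ) : Cardinal) ≤
      Algebra.trdeg M (IntermediateField.adjoin M Z) := by
  classical
  let S := (derM' M).map c.bL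
  let b := Module.finBasis F S
  have hex : ∀ j, ∃ T : Derivation ℤ F F, Kills T M ∧ c.b T = (b j : J → F) := by
    intro j
    obtain ⟨T, hT, hTj⟩ := (b j).2
    exact ⟨T, hT, hTj⟩
  choose T hT hTj using hex
  have h0 := le_trdeg M Z T hT (fun l hl => by
    have h2 : c.b (∑ j, l j • T j) = ∑ j, l j • (b j : J → F) := by
      have h3 := map_sum c.bL (fun j => l j • T j) Finset.univ
      change c.b (∑ j, l j • T j) = ∑ j, c.b (l j • T j) at h3
      rw [h3]
      exact Finset.sum_congr rfl (fun j _ => by rw [c.b_smul, hTj])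
    have h4 : ∀ z ∈ Z, (∑ j, l j • T j) z = 0 := fun z hz => by
      rw [sum_smul_apply]
      exact hl z hz
    have hk : Kills (∑ j, l j • T j) K := fun s hs => by
      rw [sum_smul_apply]
      exact Finset.sum_eq_zero (fun j _ => by rw [hT j s (hKM hs), mul_zero])
    have h5 : c.b (∑ j, l j • T j) = 0 := by
      have h6 : c.B (∑ j, l j • T j) = 0 := by
        funext i
        rw [B_eq, h4 _ (hxZ i), c.zero _ hk (fun v hv => h4 v (hVZ hv)), sub_zero]
        rfl
      rw [b_eq, h6, Matrix.mulVec_zero]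
    rw [h5] at h2
    have h6 : ∑ j, l j • b j = 0 := by
      apply Subtype.ext
      have h7 := map_sum S.subtype (fun j => l j • b j) Finset.univ
      exact h7.trans (Eq.trans (Finset.sum_congr rfl (fun j _ => rfl)) h2.symm)
    exact Fintype.linearIndependent_iff.1 b.linearIndependent l h6)
  rw [Fintype.card_fin] at h0
  exact h0

/-- the bound for a semisimple connection without exponentials -/
theorem main (hss : SemisimpleOver d (cl (K : Set F)) c.A)
    (hexp : NoExponential d K (Subfield.closure c.gen)) [IsAlgClosed (constants d)] (Z : Set F)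
    (hxZ : ∀ i, c.x i ∈ Z) (hVZ : c.V ⊆ Z) :
    ∃ R : Submodule (cl (K : Set F)) (I → F), (∀ γ ∈ R, ∀ i, γ i ∈ cl (K : Set F)) ∧
      (∀ γ ∈ R, (fun i => d (γ i) + (γ ᵥ* c.A) i) ∈ R) ∧
      (∃ u0 : J → F, (∀ j, d (u0 j) = 0) ∧ ∀ γ ∈ R, ∀ D : Derivation ℤ F F, Kills D K →
        D (∑ i, γ i * (c.x i - (c.Φ *ᵥ u0) i)) = ∑ i, γ i * c.ω D i) ∧
      ((Fintype.card J : ℕ) : Cardinal) ≤ Algebra.trdeg (Subfield.closure c.gen)
        (IntermediateField.adjoin (Subfield.closure c.gen) Z) + Module.rank (cl (K : Set F)) R := by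
  classical
  set M := Subfield.closure c.gen with hM
  have hKM : K ≤ M := fun a ha => Subfield.subset_closure (Or.inl ha)
  have hMd : ∀ a ∈ M, d a ∈ M := closure_stab (by
    intro s hs
    rcases hs with hs | ⟨a, b, rfl⟩
    · exact hKM (c.hK s hs)
    · have h1 := congrFun (congrFun c.hΦ a) b
      rw [Matrix.map_apply, Matrix.mul_apply] at h1
      rw [h1]
      exact M.sum_mem (fun l _ => M.mul_mem (hKM (c.hA a l))
        (Subfield.subset_closure (Or.inr ⟨l, b, rfl⟩))))
  have hkM : ∀ T : Derivation ℤ F F, Kills T c.k ↔ Kills T M := by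
    intro T
    have h1 : Subfield.closure c.gen ≤ c.k := Subfield.closure_le.2 (subset_cl _)
    refine ⟨fun h s hs => h s (h1 hs), fun h => kills_cl (fun s hs => h s ?_)⟩
    exact Subfield.subset_closure hs
  obtain ⟨u0, hu0, hb⟩ := c.exists_cob (c.radical_trivial hss hexp)
  have hAcl : ∀ i j, c.A i j ∈ cl (K : Set F) := fun i j => subset_cl _ (c.hA i j)
  have hdcl : ∀ a ∈ cl (K : Set F), d a ∈ cl (K : Set F) := fun a ha =>
    stab (fun s hs => subset_cl _ (c.hK s hs)) ha
  set X := Submodule.span F {v | ∃ u ∈ c.Ann, v = u ᵥ* c.Ψ} with hX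
  have hXD : ∀ D : Derivation ℤ F F, Kills D K → ∀ v ∈ X, (fun i => D (v i)) ∈ X :=
    fun D hD v hv => c.row_stab c.Ann (fun u hu => hu.1)
      (fun T m hT u hu => Ann_stab T m hT u hu) D hD v hv
  have hXd : ∀ v ∈ X, (fun i => d (v i) + (v ᵥ* c.A) i) ∈ X :=
    fun v hv => c.row_conn c.Ann (fun u hu => hu.1) v hv
  let R : Submodule (cl (K : Set F)) (I → F) :=
    { carrier := {v | v ∈ X ∧ ∀ i, v i ∈ cl (K : Set F)}
      add_mem' := fun {a b} ha hb => ⟨X.add_mem ha.1 hb.1, fun i => add_mem (ha.2 i) (hb.2 i)⟩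
      zero_mem' := ⟨X.zero_mem, fun i => zero_mem _⟩
      smul_mem' := fun t a ha => ⟨X.smul_mem (t : F) ha.1, fun i => mul_mem t.2 (ha.2 i)⟩ }
  have hXR : X ≤ Submodule.span F (R : Set (I → F)) := span_alg K X hXD
  refine ⟨R, fun γ hγ => hγ.2, fun γ hγ => ⟨hXd γ hγ.1, fun i =>
    add_mem (hdcl _ (hγ.2 i)) (vecMul_mem _ _ γ hAcl hγ.2 i)⟩, ⟨u0, hu0,
    fun γ hγ D hD => ?_⟩, ?_⟩
  · let Q : Submodule F (I → F) :=
      { carrier := {v | v ⬝ᵥ (fun i => D (c.x i - (c.Φ *ᵥ u0) i) - c.ω D i) = 0}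
        add_mem' := fun {a b} ha hb => by
          have ha' : a ⬝ᵥ (fun i => D (c.x i - (c.Φ *ᵥ u0) i) - c.ω D i) = 0 := ha
          have hb' : b ⬝ᵥ (fun i => D (c.x i - (c.Φ *ᵥ u0) i) - c.ω D i) = 0 := hb
          change (a + b) ⬝ᵥ (fun i => D (c.x i - (c.Φ *ᵥ u0) i) - c.ω D i) = 0
          rw [add_dotProduct, ha', hb', add_zero]
        zero_mem' := zero_dotProduct _
        smul_mem' := fun t a ha => by
          have ha' : a ⬝ᵥ (fun i => D (c.x i - (c.Φ *ᵥ u0) i) - c.ω D i) = 0 := ha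
          change (t • a) ⬝ᵥ (fun i => D (c.x i - (c.Φ *ᵥ u0) i) - c.ω D i) = 0
          rw [smul_dotProduct, ha', smul_zero] }
    have hQ : X ≤ Q := Submodule.span_le.2 (by
      rintro _ ⟨a, ha, rfl⟩
      exact c.corrected u0 hu0 hb D hD a ha)
    have h1 : γ ⬝ᵥ (fun i => D (c.x i - (c.Φ *ᵥ u0) i) - c.ω D i) = 0 := hQ hγ.1
    rw [map_sum, ← sub_eq_zero, ← Finset.sum_sub_distrib, ← h1]
    change _ = ∑ i, γ i * (D (c.x i - (c.Φ *ᵥ u0) i) - c.ω D i)
    refine Finset.sum_congr rfl (fun i _ => ?_)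
    rw [Derivation.leibniz, hγ.2 i D hD, smul_zero, add_zero, smul_eq_mul]
    ring
  · -- dimensions
    let S := (derM' M).map c.bL
    let b := Module.finBasis F S
    -- the orthogonal complement of the space of defects
    let f : (J → F) →ₗ[F] (Fin (Module.finrank F S) → F) :=
      { toFun := fun v l => v ⬝ᵥ (b l : J → F)
        map_add' := fun u v => by
          funext l
          exact add_dotProduct _ _ _
        map_smul' := fun t v => by
          funext l
          exact smul_dotProduct _ _ _ }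
    have hf : ∀ v, v ∈ LinearMap.ker f ↔ ∀ T : Derivation ℤ F F, Kills T c.k →
        v ⬝ᵥ c.b T = 0 := by
      intro v
      rw [LinearMap.mem_ker]
      constructor
      · intro h T hT
        have hTS : c.b T ∈ S := ⟨T, (hkM T).1 hT, rfl⟩
        have h1 : ∀ s : S, v ⬝ᵥ (s : J → F) = 0 := by
          intro s
          rw [← b.sum_repr s]
          have h2 := map_sum S.subtype (fun l => b.repr s l • b l) Finset.univ
          have h3 : ((∑ l, b.repr s l • b l : S) : J → F) = ∑ l, b.repr s l • (b l : J → F) := h2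
          rw [h3]
          change v ⬝ᵥ (∑ l, b.repr s l • (b l : J → F)) = 0
          rw [dotProduct_sum]
          refine Finset.sum_eq_zero (fun l _ => ?_)
          rw [dotProduct_smul]
          have h4 : v ⬝ᵥ (b l : J → F) = 0 := congrFun h l
          rw [h4, smul_zero]
        exact h1 ⟨c.b T, hTS⟩
      · intro h
        funext l
        obtain ⟨T, hT, hTl⟩ := (b l).2
        change v ⬝ᵥ (b l : J → F) = 0
        have h1 : c.b T = (b l : J → F) := hTl
        rw [← h1]
        exact h T ((hkM T).2 hT)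
    have hker : ∀ v ∈ LinearMap.ker f, (fun j => d (v j)) ∈ LinearMap.ker f := by
      intro v hv
      rw [hf] at hv ⊢
      intro T hT
      have h3 := congrArg d (hv T hT)
      rw [map_dotProduct_der, map_zero] at h3
      have h4 : (fun j => d (c.b T j)) = c.b ⁅d, T⁆ := funext fun j => c.db (kills_K hT) j
      have h5 : Kills ⁅d, T⁆ c.k := (hkM _).2 (kills_lie' hMd ((hkM T).1 hT))
      rw [h4, hv _ h5, add_zero] at h3
      exact h3
    -- the map to the rows over `F`
    let g : (J → F) →ₗ[F] (I → F) := Matrix.vecMulLinear c.Ψ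
    have hg : ∀ v, g v = v ᵥ* c.Ψ := fun v => rfl
    have hginj : Function.Injective g := by
      intro u v huv
      rw [hg, hg] at huv
      have h1 : (u ᵥ* c.Ψ) ᵥ* c.Φ = (v ᵥ* c.Ψ) ᵥ* c.Φ := by rw [huv]
      rw [Matrix.vecMul_vecMul, Matrix.vecMul_vecMul, c.ΨΦ, Matrix.vecMul_one,
        Matrix.vecMul_one] at h1
      exact h1
    have hgX : (LinearMap.ker f).map g ≤ X := by
      rw [Submodule.map_le_iff_le_comap]
      refine (span_const d _ hker).trans (Submodule.span_le.2 ?_)
      rintro v ⟨hv, hvd⟩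
      exact Submodule.subset_span ⟨v, ⟨hvd, (hf v).1 hv⟩, rfl⟩
    have h1 : Fintype.card J ≤ Module.finrank F S + Module.finrank F (LinearMap.ker f) := by
      have h2 := LinearMap.finrank_range_add_finrank_ker f
      rw [Module.finrank_fintype_fun_eq_card] at h2
      have h3 : Module.finrank F (LinearMap.range f) ≤ Module.finrank F S := by
        have h4 := (LinearMap.range f).finrank_le
        rw [Module.finrank_fin_fun] at h4
        exact h4
      omega
    have h2 : Module.finrank F (LinearMap.ker f) ≤ Module.finrank F X := by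
      rw [(Submodule.equivMapOfInjective g hginj (LinearMap.ker f)).finrank_eq]
      exact Submodule.finrank_mono hgX
    have h3 : (Module.finrank F X : Cardinal) ≤ Module.rank (cl (K : Set F)) R := by
      let e := Module.Free.chooseBasis (cl (K : Set F)) R
      have h4 : X ≤ Submodule.span F (Set.range fun i => ((e i : R) : I → F)) := by
        refine hXR.trans (Submodule.span_le.2 ?_)
        intro r hr
        have h5 : (⟨r, hr⟩ : R) ∈ Submodule.span (cl (K : Set F)) (Set.range e) := by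
          rw [e.span_eq]
          exact Submodule.mem_top
        have h6 := Submodule.mem_map_of_mem (f := R.subtype) h5
        rw [Submodule.map_span, ← Set.range_comp] at h6
        exact Submodule.span_le_restrictScalars (cl (K : Set F)) F _ h6
      have h5 : Module.rank F X ≤ Cardinal.mk (Set.range fun i => ((e i : R) : I → F)) :=
        (Submodule.rank_mono h4).trans (rank_span_le _)
      rw [← Module.finrank_eq_rank] at h5
      exact h5.trans (Cardinal.mk_range_le.trans_eq e.mk_eq_rank'')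
    have h4 := c.le_trdeg_of_span M hKM Z hxZ hVZ
    calc ((Fintype.card J : ℕ) : Cardinal) ≤
        ((Module.finrank F S + Module.finrank F X : ℕ) : Cardinal) := by
          exact_mod_cast h1.trans (Nat.add_le_add_left h2 _)
      _ = (Module.finrank F S : Cardinal) + (Module.finrank F X : Cardinal) := by push_cast; rfl
      _ ≤ _ := add_le_add h4 h3

end SCtx

end Pool.Agent.AXE
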