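import Mathlib
import Pool.Agent.AXE.KPoint
import Pool.Agent.AXE.SMain

/-!
# A regular exact form vanishes; the bound for forms on an affine variety
-/

set_option autoImplicit false
set_option linter.unusedSectionVars false

namespace Pool.Agent.AXE

open Matrix

variable {F : Type} [Field F] [CharZero F]

/-- a form which is regular in all charts and exact over `k1` vanishes -/
theorem hol_single (k1 : Subfield F) (V : Set F) {I : Type} [Finite I] (τ : I → F)
    (hτ : ∃ a, τ a ≠ 0) (hτV : ∀ b, τ b ∈ V) (φ : Derivation ℤ F F → F)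
    (hφ : ∀ (c : F) T, φ (c • T) = c * φ T)
    (hreg : ∀ a, τ a ≠ 0 → ∀ T : Derivation ℤ F F, Kills T k1 → φ T ∈ regSums k1 τ a T)
    (h : F) (hT : ∀ T : Derivation ℤ F F, Kills T k1 → T h = φ T) :
    h ∈ cl (k1 : Set F) := by
  classical
  by_contra hcon
  obtain ⟨u, hvu, hui, hu⟩ := exists_basis_through k1 (V ∪ {h}) h (Or.inr rfl) hcon
  obtain ⟨D, hDk1, hDu⟩ := exists_der_sub k1 (fun i : u => (i : F)) hui
    (fun i => if (i : F) = h then 1 else 0)
  have hDh : D h = 1 := by
    have h1 := hDu ⟨h, hvu⟩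
    rw [if_pos rfl] at h1
    exact h1
  set S0 : Set F := (k1 : Set F) ∪ (u \ {h}) with hS0
  have hDS : Kills D S0 := by
    rintro s (hs | ⟨hs, hs'⟩)
    · exact hDk1 s hs
    · have h1 := hDu ⟨s, hs⟩
      exact h1.trans (if_neg hs')
  let k' : Subfield F := cl S0
  have hk1 : ∀ a ∈ k1, a ∈ k' := fun a ha => subset_cl _ (Or.inl ha)
  have hDk' : Kills D k' := kills_cl hDS
  have h0 := hol_gen k' D hDk' τ hτ φ hφ (fun a ha T hT => by
    have h1 := hreg a ha T (fun s hs => hT s (hk1 s hs))
    have hle : ∀ s ∈ Algebra.adjoin k1 (Set.range fun b => τ b / τ a),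
        s ∈ Algebra.adjoin k' (Set.range fun b => τ b / τ a) := by
      intro s hs
      induction hs using Algebra.adjoin_induction with
      | mem x hx => exact Algebra.subset_adjoin hx
      | algebraMap r => exact Subalgebra.algebraMap_mem _ (⟨r.1, hk1 r.1 r.2⟩ : k')
      | add x y _ _ hx hy => exact add_mem hx hy
      | mul x y _ _ hx hy => exact mul_mem hx hy
    refine (AddSubgroup.closure_mono ?_) h1
    rintro z ⟨s, hs, s', hs', rfl⟩
    exact ⟨s, hle s hs, s', hle s' hs', rfl⟩) h (fun b D1 hD1 => by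
      refine hu D1 (fun a ha => hD1 a (Or.inl (hk1 a ha))) (fun a ha => ?_) _ (Or.inl (hτV b))
      by_cases h0 : a = h
      · rw [h0]
        exact hD1 _ (Or.inr rfl)
      · exact hD1 _ (Or.inl (subset_cl _ (Or.inr ⟨ha, h0⟩)))) (hT D hDk1)
  rw [hDh] at h0
  exact one_ne_zero h0

theorem regSums_mono {κ κ' : Subfield F} (hκ : κ ≤ κ') {I : Type} (τ : I → F) (a : I)
    (T : F → F) : regSums κ τ a T ≤ regSums κ' τ a T := by
  have hle : ∀ s ∈ Algebra.adjoin κ (Set.range fun b => τ b / τ a),
      s ∈ Algebra.adjoin κ' (Set.range fun b => τ b / τ a) := by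
    intro s hs
    induction hs using Algebra.adjoin_induction with
    | mem x hx => exact Algebra.subset_adjoin hx
    | algebraMap r => exact Subalgebra.algebraMap_mem _ (⟨r.1, hκ r.2⟩ : κ')
    | add x y _ _ hx hy => exact add_mem hx hy
    | mul x y _ _ hx hy => exact mul_mem hx hy
  refine AddSubgroup.closure_mono ?_
  rintro z ⟨s, hs, s', hs', rfl⟩
  exact ⟨s, hle s hs, s', hle s' hs', rfl⟩

theorem regSums_mul {κ : Subfield F} {I : Type} (τ : I → F) (a : I)
    (T : F → F) {t : F} (ht : t ∈ κ) {z : F} (hz : z ∈ regSums κ τ a T) :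
    t * z ∈ regSums κ τ a T := by
  induction hz using AddSubgroup.closure_induction with
  | mem z hz =>
    obtain ⟨s, hs, s', hs', rfl⟩ := hz
    refine AddSubgroup.subset_closure ⟨t * s, ?_, s', hs', by ring⟩
    exact mul_mem (Subalgebra.algebraMap_mem _ (⟨t, ht⟩ : κ)) hs
  | zero =>
    rw [mul_zero]
    exact AddSubgroup.zero_mem _
  | add u v _ _ hu hv =>
    rw [mul_add]
    exact AddSubgroup.add_mem _ hu hv
  | neg u _ hu =>
    rw [mul_neg]
    exact AddSubgroup.neg_mem _ hu

end Pool.Agent.AXE
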