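import Mathlib
import Pool.Agent.AXE.KSingle

/-!
# The bound for closed forms on an affine variety with a semisimple connection
-/

set_option autoImplicit false
set_option linter.unusedSectionVars false

namespace Pool.Agent.AXE

open Matrix KaehlerDifferential

variable {F : Type} [Field F] [CharZero F] {d : Derivation ℤ F F} {K : Subfield F}
  {hK : ∀ a ∈ K, d a ∈ K} {n N B : ℕ} {R : Type} [CommRing R] [Algebra K R]

namespace FormChart

variable (c : FormChart d K hK n B R) (y : R →ₐ[K] F)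

/-- the value of a form which is regular in a chart -/
theorem val_regular (t : Fin (N + 1) → R) (i : Fin n) (a : Fin (N + 1)) (ha : y (t a) ≠ 0)
    (hreg : RegularOn t a (dform K (c.q i) c.z)) {T : Derivation ℤ F F} (hT : Kills T K) :
    c.val y T i ∈ regSums K (fun b => y (t b)) a T := by
  let L := Localization.Away (t a)
  have hunit : ∀ m : Submonoid.powers (t a), IsUnit (y.toRingHom (m : R)) := by
    rintro ⟨_, n, rfl⟩
    change IsUnit (y (t a ^ n))
    rw [map_pow]
    exact (isUnit_iff_ne_zero.2 ha).pow n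
  let yl : L →+* F := IsLocalization.lift hunit
  have hyl : ∀ s : R, yl (algebraMap R L s) = y s := fun s => IsLocalization.lift_eq hunit s
  let yL : L →ₐ[K] F :=
    { yl with
      commutes' := fun r => by
        change yl (algebraMap K L r) = _
        rw [IsScalarTower.algebraMap_apply K R L, hyl]
        exact y.commutes r }
  have hyL : ∀ s : R, yL (algebraMap R L s) = y s := hyl
  have hinv : yL (IsLocalization.Away.invSelf (t a)) = (y (t a))⁻¹ := by
    have h1 := IsLocalization.Away.mul_invSelf (S := L) (t a)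
    have h2 := congrArg yL h1
    rw [map_mul, hyL, map_one] at h2
    exact eq_inv_of_mul_eq_one_right h2
  obtain ⟨l, hl, hl'⟩ := (isDer_of_kills (y := yL) hT).exists_lift
  have h1 : l (KaehlerDifferential.map K K R L (dform K (c.q i) c.z)) = c.val y T i := by
    unfold dform
    rw [map_sum, map_sum]
    unfold FormChart.val
    refine Finset.sum_congr rfl (fun b _ => ?_)
    rw [map_smul, KaehlerDifferential.map_D, ← algebraMap_smul L (c.q i b), hl, hl', hyL, hyL]
  rw [← h1]
  have h2 : ∀ s ∈ Algebra.adjoin K (Set.range fun b => algebraMap R L (t b) *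
      IsLocalization.Away.invSelf (t a)), yL s ∈
      Algebra.adjoin K (Set.range fun b => y (t b) / y (t a)) := by
    intro s hs
    have h3 : (Algebra.adjoin K (Set.range fun b => algebraMap R L (t b) *
      IsLocalization.Away.invSelf (t a))).map yL =
      Algebra.adjoin K (Set.range fun b => y (t b) / y (t a)) := by
      rw [AlgHom.map_adjoin, ← Set.range_comp]
      congr 1
      congr 1
      funext b
      change yL (algebraMap R L (t b) * IsLocalization.Away.invSelf (t a)) = _
      rw [map_mul, hyL, hinv, div_eq_mul_inv]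
    rw [← h3]
    exact ⟨s, hs, rfl⟩
  have h4 := hreg
  unfold RegularOn ratios at h4
  generalize KaehlerDifferential.map K K R L (dform K (c.q i) c.z) = η at h4 ⊢
  induction h4 using AddSubgroup.closure_induction with
  | mem η hη =>
    obtain ⟨s, hs, s', hs', rfl⟩ := hη
    exact AddSubgroup.subset_closure ⟨yL s, h2 s hs, yL s', h2 s' hs', by rw [hl, hl']⟩
  | zero =>
    rw [map_zero]
    exact AddSubgroup.zero_mem _
  | add u v _ _ hu hv =>
    rw [map_add]
    exact AddSubgroup.add_mem _ hu hv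
  | neg u _ hu =>
    rw [map_neg]
    exact AddSubgroup.neg_mem _ hu

/-- the context of a chart, a point and a logarithm -/
noncomputable def toSCtx (hC : ∀ a, d a = 0 → a ∈ K) (Φ : Matrix (Fin n) (Fin n) F)
    (hΦ : Φ.map d = c.A.map (algebraMap K F) * Φ) (hdet : Φ.det ≠ 0) (x : Fin n → F)
    (hx : ∀ i, d (x i) = ∑ j, (c.A i j : F) * x j + c.dlog y i) : SCtx d K (Fin n) (Fin n) where
  hK := hK
  hC := hC
  A := c.A.map (algebraMap K F)
  hA := fun i j => (c.A i j).2
  Φ := Φ
  Ψ := Φ⁻¹
  ΨΦ := Matrix.nonsing_inv_mul _ (isUnit_iff_ne_zero.2 hdet)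
  ΦΨ := Matrix.mul_nonsing_inv _ (isUnit_iff_ne_zero.2 hdet)
  hΦ := hΦ
  ω := c.val y
  ω_add := c.val_add y
  ω_smul := c.val_smul y
  closed := fun T T' hT hT' i => c.val_closed y hT hT' i
  r := c.dlog y
  gm := fun T hT i => c.val_gm y hT i
  x := x
  hx := hx
  V := Set.range y
  zero := fun T _ hV i => c.val_zero y (fun s => hV _ ⟨s, rfl⟩) i

theorem bound (hC : ∀ a, d a = 0 → a ∈ K) (hAC : IsAlgClosed (constants d))
    (hss : SemisimpleOver d (cl (K : Set F)) (c.A.map (algebraMap K F)))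
    (Φ : Matrix (Fin n) (Fin n) F)
    (hΦ : Φ.map d = c.A.map (algebraMap K F) * Φ) (hdet : Φ.det ≠ 0)
    (hexp : NoExponential d K (Subfield.closure ((K : Set F) ∪ {z | ∃ a b, z = Φ a b})))
    (t : Fin (N + 1) → R) (hy : ∃ a, y (t a) ≠ 0) (x : Fin n → F)
    (hx : ∀ i, d (x i) = ∑ j, (c.A i j : F) * x j + c.dlog y i) :
    ∃ (W : Submodule (cl (K : Set F)) (Fin n → F)) (v : Fin n → F),
      (∀ γ ∈ W, ∀ i, γ i ∈ cl (K : Set F)) ∧
      (∀ γ ∈ W, (fun i => d (γ i) + ∑ j, γ j * (c.A j i : F)) ∈ W) ∧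
      (∀ j, d (v j) = 0) ∧
      (∀ γ ∈ W, ∀ T : Derivation ℤ F F, (∀ a ∈ K, T a = 0) →
        T (∑ i, γ i * (x i - (Φ *ᵥ v) i)) = ∑ i, γ i * c.val y T i) ∧
      (∀ γ ∈ W, (∀ i, γ i ≠ 0 → ∀ a, RegularOn t a (dform K (c.q i) c.z)) →
        ∑ i, γ i * (x i - (Φ *ᵥ v) i) ∈ cl (K : Set F)) ∧
      (n : Cardinal) ≤ Algebra.trdeg (Subfield.closure ((K : Set F) ∪ {z | ∃ a b, z = Φ a b}))
        (IntermediateField.adjoin (Subfield.closure ((K : Set F) ∪ {z | ∃ a b, z = Φ a b}))
          (Set.range x ∪ Set.range y)) + Module.rank (cl (K : Set F)) W := by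
  let e := c.toSCtx y hC Φ hΦ hdet x hx
  obtain ⟨W, h1, h2, ⟨v, hv, h3⟩, h4⟩ := e.main hss hexp (Set.range x ∪ Set.range y)
    (fun i => Or.inl ⟨i, rfl⟩) (fun v hv => Or.inr hv)
  rw [Fintype.card_fin] at h4
  refine ⟨W, v, h1, h2, hv, h3, fun γ hγ hreg => ?_, h4⟩
  have hKcl : K ≤ cl (K : Set F) := fun a ha => subset_cl _ ha
  have h5 := hol_single (cl (K : Set F)) (Set.range y) (fun a => y (t a)) hy
    (fun b => ⟨_, rfl⟩) (fun T => ∑ i, γ i * c.val y T i) (fun s T => by
      rw [Finset.mul_sum]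
      refine Finset.sum_congr rfl (fun i _ => ?_)
      rw [c.val_smul]
      ring) (fun a ha T hT => by
      refine AddSubgroup.sum_mem _ (fun i _ => ?_)
      by_cases hi : γ i = 0
      · rw [hi, zero_mul]
        exact AddSubgroup.zero_mem _
      · exact regSums_mul _ _ _ (h1 γ hγ i) (regSums_mono hKcl _ _ _
          (c.val_regular y t i a ha (hreg i hi a) (fun s hs => hT s (hKcl hs)))))
    (∑ i, γ i * (x i - (Φ *ᵥ v) i)) (fun T hT => h3 γ hγ T (fun s hs => hT s (hKcl hs)))
  intro D hD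
  exact h5 D (kills_cl hD)

end FormChart

end Pool.Agent.AXE
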