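import Mathlib
import Pool.Agent.AXE.KSem
import Pool.Agent.AXE.KDesc2

/-!
# The space of exact combinations of the forms at a point
-/

set_option autoImplicit false
set_option linter.unusedSectionVars false

namespace Pool.Agent.AXE

open Matrix

variable {F : Type} [Field F] {d : Derivation ℤ F F} {K : Subfield F}
  {hK : ∀ a ∈ K, d a ∈ K} {n N B : ℕ} {R : Type} [CommRing R] [Algebra K R]

/-- the form `∑ γ_i ω_i` at the point `y` is the differential of `f` over `K` -/
def Primitive (c : FormChart d K hK n B R) (y : R →ₐ[K] F) (γ : Fin n → F) (f : F) : Prop :=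
  ∀ T : Derivation ℤ F F, (∀ a ∈ K, T a = 0) → T f = ∑ i, γ i * c.val y T i

/-- the combination `∑ γ_i (x_i - (Φv)_i)` of the logarithm `x` corrected by the period `Φv` -/
def correctedLog (Φ : Matrix (Fin n) (Fin n) F) (x v γ : Fin n → F) : F :=
  ∑ i, γ i * (x i - (Φ *ᵥ v) i)

/-- `W` is a space of vectors over `K^alg`, stable under the connection on the forms, and `v` is a
constant vector, such that for `γ` in `W` the corrected logarithm is a primitive of `∑ γ_i ω_i` at
the point `y`, which is algebraic over `K` if the forms involved are regular on the projective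
variety with coordinates `t`; if `K` is algebraically closed in `K(y)` and `W` is not zero, then a
non-zero combination of the `ω_i` at `y` with coefficients in `K` has a primitive in `K(y)`. -/
structure IsDefect (c : FormChart d K hK n B R) (t : Fin (N + 1) → R) (y : R →ₐ[K] F)
    (Φ : Matrix (Fin n) (Fin n) F) (x : Fin n → F)
    (W : Submodule (algebraicClosure K F).toSubfield (Fin n → F)) (v : Fin n → F) : Prop where
  algebraic : ∀ γ ∈ W, ∀ i, IsAlgebraic K (γ i)
  stable : ∀ γ ∈ W, (fun i => d (γ i) + ∑ j, γ j * (c.A j i : F)) ∈ W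
  const : ∀ j, d (v j) = 0
  primitive : ∀ γ ∈ W, Primitive c y γ (correctedLog Φ x v γ)
  regular : ∀ γ ∈ W, (∀ i, γ i ≠ 0 → ∀ a, RegularOn t a (dform K (c.q i) c.z)) →
    IsAlgebraic K (correctedLog Φ x v γ)
  descends : (∀ s ∈ IntermediateField.adjoin K (Set.range y), IsAlgebraic K s → s ∈ K) →
    W ≠ ⊥ → ∃ g : Fin n → K, g ≠ 0 ∧ ∃ h ∈ IntermediateField.adjoin K (Set.range y),
      Primitive c y (fun i => (g i : F)) h

theorem exists_defect [CharZero F] (c : FormChart d K hK n B R) (y : R →ₐ[K] F)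
    (hC : ∀ a, d a = 0 → a ∈ K) (hAC : IsAlgClosed (constants d))
    (hss : SemisimpleOver d (algebraicClosure K F).toSubfield (c.A.map (algebraMap K F)))
    (Φ : Matrix (Fin n) (Fin n) F)
    (hΦ : Φ.map d = c.A.map (algebraMap K F) * Φ) (hdet : Φ.det ≠ 0)
    (hexp : NoExponential d K (Subfield.closure ((K : Set F) ∪ {z | ∃ a b, z = Φ a b})))
    (t : Fin (N + 1) → R) (hy : ∃ a, y (t a) ≠ 0) (x : Fin n → F)
    (hx : ∀ i, d (x i) = ∑ j, (c.A i j : F) * x j + c.dlog y i) :
    ∃ (W : Submodule (algebraicClosure K F).toSubfield (Fin n → F)) (v : Fin n → F),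
      IsDefect c t y Φ x W v ∧
      (n : Cardinal) ≤ Algebra.trdeg (Subfield.closure ((K : Set F) ∪ {z | ∃ a b, z = Φ a b}))
        (IntermediateField.adjoin (Subfield.closure ((K : Set F) ∪ {z | ∃ a b, z = Φ a b}))
          (Set.range x ∪ Set.range y)) + Module.rank (algebraicClosure K F).toSubfield W := by
  have hcl : (algebraicClosure K F).toSubfield = cl (K : Set F) := by
    ext z
    rw [mem_cl_iff]
    exact mem_algebraicClosure_iff
  rw [hcl] at hss
  have key := c.bound y hC hAC hss Φ hΦ hdet hexp t hy x hx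
  rw [← hcl] at key
  obtain ⟨W, v, h1, h2, h3, h4, h5, h6⟩ := key
  have h1' : ∀ γ ∈ W, ∀ i, γ i ∈ cl (K : Set F) := fun γ hγ i => by
    rw [← hcl]
    exact h1 γ hγ i
  refine ⟨W, v, ⟨fun γ hγ i => mem_cl_iff.1 (h1' γ hγ i), h2, h3, h4, fun γ hγ hr =>
    mem_cl_iff.1 ?_, fun hgeo hW => ?_⟩, h6⟩
  · rw [← hcl]
    exact h5 γ hγ hr
  · obtain ⟨γ, hγ, hγ0⟩ := (Submodule.ne_bot_iff _).1 hW
    let p : Fin B ⊕ (Fin n × Fin B) → F := fun s => match s with
      | Sum.inl b => y (c.z b)
      | Sum.inr (i, b) => y (c.q i b)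
    set E0 := Subfield.closure ((K : Set F) ∪ Set.range p) with hE0
    have hle : E0 ≤ (IntermediateField.adjoin K (Set.range y)).toSubfield := by
      refine Subfield.closure_le.2 ?_
      rintro s (hs | ⟨q, rfl⟩)
      · exact (IntermediateField.adjoin K (Set.range y)).algebraMap_mem ⟨s, hs⟩
      · rcases q with b | ⟨i, b⟩
        · exact IntermediateField.subset_adjoin _ _ ⟨_, rfl⟩
        · exact IntermediateField.subset_adjoin _ _ ⟨_, rfl⟩
    obtain ⟨g, hg, hg0, h, hh, hT⟩ := descend_exact (K := K) p (c.val y) (c.val_add y)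
      (c.val_smul y) (fun T hT hp i => by
        unfold FormChart.val
        exact Finset.sum_eq_zero (fun b _ => by
          have h7 : T (y (c.z b)) = 0 := hp (Sum.inl b)
          rw [h7, mul_zero]))
      (fun T hT hTE i => by
        unfold FormChart.val
        refine Subfield.sum_mem _ (fun b _ => Subfield.mul_mem _ ?_ (hTE _ ?_))
        · exact Subfield.subset_closure (Or.inr ⟨Sum.inr (i, b), rfl⟩)
        · exact Subfield.subset_closure (Or.inr ⟨Sum.inl b, rfl⟩))
      (fun s hs hs' => hgeo s (hle hs) (mem_cl_iff.1 hs')) γ (h1' γ hγ) hγ0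
      (∑ i, γ i * (x i - (Φ *ᵥ v) i)) (fun T hT => h4 γ hγ T hT)
    refine ⟨fun i => ⟨g i, hg i⟩, fun h0 => hg0 ?_, h, hle hh, fun T hT' => hT T hT'⟩
    funext i
    have h7 := congrArg (fun t : Fin n → K => (t i : F)) h0
    exact h7

end Pool.Agent.AXE
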