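import Mathlib
import Pool.Agent.AXE.JMain
import Pool.Agent.AXE.JEnd
import Pool.Agent.AXE.SMain

/-!
# Products of hyperelliptic Jacobians as contexts of closed forms
-/

set_option autoImplicit false
set_option linter.unusedSectionVars false

namespace Pool.Agent.AXE

open Matrix Polynomial

variable {F : Type} [Field F] [CharZero F] {d : Derivation ℤ F F} {K : Subfield F}

/-- the Gauss-Manin relation for the values of the forms -/
theorem JCtx.gm {g : ℕ} {J P : Type} [Fintype J] [DecidableEq J] [Fintype P]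
    (c : JCtx d K g J P) {T : Derivation ℤ F F} (hT : Kills T K) (i : Fin (2 * g)) :
    d (c.ω T (i : ℕ)) - c.ω ⁅d, T⁆ (i : ℕ) = ∑ j : Fin (2 * g), c.A i j * c.ω T (j : ℕ) +
      T (∑ p, (c.n p : F) * ((c.X p ^ (i : ℕ) * d (c.X p) + (c.ρ i).eval (c.X p)) / c.Y p)) := by
  have h0 : ∀ p, T ((c.n p : F) * ((c.X p ^ (i : ℕ) * d (c.X p) + (c.ρ i).eval (c.X p)) / c.Y p))
      = (c.n p : F) * d (c.σ T p * c.X p ^ (i : ℕ)) -
        (c.n p : F) * ∑ j : Fin (2 * g), c.A i j * (c.σ T p * c.X p ^ (j : ℕ)) -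
        (c.n p : F) * (c.σ ⁅d, T⁆ p * c.X p ^ (i : ℕ)) := fun p => by
    have h1 := c.E.TR (JCtx.kc_of_kills hT) p i
    have h2 : T ((c.X p ^ (i : ℕ) * d (c.X p) + (c.ρ i).eval (c.X p)) / c.Y p) =
      d (c.σ T p * c.X p ^ (i : ℕ)) - ∑ j : Fin (2 * g), c.A i j * (c.σ T p * c.X p ^ (j : ℕ))
        - c.σ ⁅d, T⁆ p * c.X p ^ (i : ℕ) := h1
    rw [HDat.der_wt, h2]
    ring
  rw [map_sum, Finset.sum_congr rfl (fun p _ => h0 p), Finset.sum_sub_distrib,
    Finset.sum_sub_distrib]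
  have h3 : d (c.ω T (i : ℕ)) = ∑ p, (c.n p : F) * d (c.σ T p * c.X p ^ (i : ℕ)) := by
    unfold JCtx.ω
    rw [map_sum]
    exact Finset.sum_congr rfl (fun p _ => HDat.der_wt _ _ _)
  have h4 : c.ω ⁅d, T⁆ (i : ℕ) = ∑ p, (c.n p : F) * (c.σ ⁅d, T⁆ p * c.X p ^ (i : ℕ)) := rfl
  have h5 : ∑ j : Fin (2 * g), c.A i j * c.ω T (j : ℕ) =
      ∑ p, (c.n p : F) * ∑ j : Fin (2 * g), c.A i j * (c.σ T p * c.X p ^ (j : ℕ)) := by
    unfold JCtx.ω
    simp only [Finset.mul_sum]
    rw [Finset.sum_comm]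
    exact Finset.sum_congr rfl (fun p _ => Finset.sum_congr rfl (fun j _ => by ring))
  rw [h3, h4, h5]
  ring

variable {n : ℕ} {g m : Fin n → ℕ}

theorem blockDiagonal'_mulVec (A : ∀ i, Matrix (Fin (2 * g i)) (Fin (2 * g i)) F)
    (x : (Σ i, Fin (2 * g i)) → F) (s : Σ i, Fin (2 * g i)) :
    (Matrix.blockDiagonal' A *ᵥ x) s = ∑ j, A s.1 s.2 j * x ⟨s.1, j⟩ := by
  obtain ⟨i, l⟩ := s
  change ∑ t, Matrix.blockDiagonal' A ⟨i, l⟩ t * x t = _
  rw [Fintype.sum_sigma, Finset.sum_eq_single i]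
  · exact Finset.sum_congr rfl (fun j _ => by rw [Matrix.blockDiagonal'_apply_eq])
  · intro i' _ hi
    exact Finset.sum_eq_zero (fun j _ => by
      rw [Matrix.blockDiagonal'_apply_ne _ _ _ (fun h => hi h.symm), zero_mul])
  · intro h
    exact absurd (Finset.mem_univ _) h

/-- the context of a family of curves -/
def prodCtx (c : ∀ i, JCtx d K (g i) (Fin (2 * g i)) (Fin (m i))) (hK : ∀ a ∈ K, d a ∈ K)
    (hC : ∀ a, d a = 0 → a ∈ K) :
    SCtx d K (Σ i, Fin (2 * g i)) (Σ i, Fin (2 * g i)) where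
  hK := hK
  hC := hC
  A := Matrix.blockDiagonal' fun i => (c i).A
  hA := fun s t => by
    rw [Matrix.blockDiagonal'_apply]
    split_ifs with h
    · exact (c s.1).hGM.A_mem _ _
    · exact K.zero_mem
  Φ := Matrix.blockDiagonal' fun i => (c i).Φ
  Ψ := Matrix.blockDiagonal' fun i => (c i).Ψ
  ΨΦ := by
    rw [← Matrix.blockDiagonal'_mul]
    have h1 : (fun i => (c i).Ψ * (c i).Φ) = fun i => (1 : Matrix _ _ F) :=
      funext fun i => (c i).ΨΦ
    rw [h1]
    exact Matrix.blockDiagonal'_one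
  ΦΨ := by
    rw [← Matrix.blockDiagonal'_mul]
    have h1 : (fun i => (c i).Φ * (c i).Ψ) = fun i => (1 : Matrix _ _ F) :=
      funext fun i => (c i).ΦΨ
    rw [h1]
    exact Matrix.blockDiagonal'_one
  hΦ := by
    rw [← Matrix.blockDiagonal'_mul, Matrix.blockDiagonal'_map _ _ (map_zero d)]
    congr 1
    funext i
    exact (c i).hΦ
  ω := fun T s => (c s.1).ω T (s.2 : ℕ)
  ω_add := fun T T' s => JCtx.ω_add _ T T' _
  ω_smul := fun a T s => JCtx.ω_smul _ a T _
  closed := fun T T' hT hT' s => JCtx.omega_lie hT hT' _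
  r := fun s => ∑ p, ((c s.1).n p : F) * (((c s.1).X p ^ (s.2 : ℕ) * d ((c s.1).X p) +
    ((c s.1).ρ s.2).eval ((c s.1).X p)) / (c s.1).Y p)
  gm := fun T hT s => by
    have h1 := blockDiagonal'_mulVec (fun i => (c i).A) (fun s => (c s.1).ω T (s.2 : ℕ)) s
    change (∑ t, Matrix.blockDiagonal' (fun i => (c i).A) s t * (c t.1).ω T (t.2 : ℕ)) = _ at h1
    rw [h1]
    exact (c s.1).gm hT s.2
  x := fun s => (c s.1).x s.2
  hx := fun s => by
    have h1 := blockDiagonal'_mulVec (fun i => (c i).A) (fun s => (c s.1).x s.2) s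
    change (∑ t, Matrix.blockDiagonal' (fun i => (c i).A) s t * (c t.1).x t.2) = _ at h1
    rw [h1]
    exact (c s.1).hx s.2
  V := {z | ∃ i q, z = (c i).X q ∨ z = (c i).Y q}
  zero := fun T _ hV s => (c s.1).ω_zero (fun p => hV _ ⟨_, p, Or.inl rfl⟩) _

/-- if a coordinate is transcendental over the other points, then the space of defects has no
component there -/
theorem prod_component (c : ∀ i, JCtx d K (g i) (Fin (2 * g i)) (Fin (m i))) (i : Fin n)
    (p : Fin (m i)) (hw : (c i).n p ≠ 0)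
    (hp : (c i).X p ∉ cl ((K : Set F) ∪ {z | ∃ q : (Σ i, Fin (m i)), q ≠ ⟨i, p⟩ ∧
      z = (c q.1).X q.2}))
    (γ : (Σ i, Fin (2 * g i)) → F) (hγ : ∀ s, γ s ∈ cl (K : Set F)) (f : F)
    (hf : ∀ D : Derivation ℤ F F, Kills D K → D f = ∑ s, γ s * (c s.1).ω D (s.2 : ℕ))
    (l : Fin (2 * g i)) : γ ⟨i, l⟩ = 0 := by
  classical
  set S0 : Set F := (K : Set F) ∪ {z | ∃ q : (Σ i, Fin (m i)), q ≠ ⟨i, p⟩ ∧
      z = (c q.1).X q.2} with hS0
  have hex : ∃ D : Derivation ℤ F F, Kills D S0 ∧ D ((c i).X p) ≠ 0 := by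
    by_contra h
    push Not at h
    exact hp h
  obtain ⟨D0, hD0, hD0X⟩ := hex
  set D : Derivation ℤ F F := ((c i).Y p / D0 ((c i).X p)) • D0 with hD
  have hDS : Kills D S0 := fun s hs => by
    rw [hD, Derivation.smul_apply, hD0 s hs, smul_zero]
  have hDX : D ((c i).X p) = (c i).Y p := by
    rw [hD, Derivation.smul_apply, smul_eq_mul, div_mul_cancel₀ _ hD0X]
  have hDK : Kills D K := fun s hs => hDS s (Or.inl hs)
  have hoth : ∀ q : (Σ i, Fin (m i)), q ≠ ⟨i, p⟩ → D ((c q.1).X q.2) = 0 := fun q hq =>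
    hDS _ (Or.inr ⟨q, hq, rfl⟩)
  have hY := (c i).hY p
  let θ : F[X] := ∑ l : Fin (2 * g i), C (((c i).n p : F) * γ ⟨i, l⟩) * X ^ (l : ℕ)
  have hθc : ∀ k, θ.coeff k = ∑ l : Fin (2 * g i),
      if k = (l : ℕ) then ((c i).n p : F) * γ ⟨i, l⟩ else 0 := fun k => by
    rw [finsetSum_coeff]
    exact Finset.sum_congr rfl (fun l _ => coeff_C_mul_X_pow _ _ _)
  have hθ : θ = 0 := by
    refine exactness' (2 * g i) (cl S0) D (kills_cl hDS) ((c i).X p) ((c i).Y p) (c i).f θ f
      (fun k => subset_cl _ (Or.inl ((c i).hGM.coeff_mem k))) (c i).hcop (c i).hGM.natDegree hY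
      ((c i).hXY p) (fun h => hp (fun T hT => h T (kills_cl hT))) hDX (fun k => ?_) ?_ ?_ ?_
    · rw [hθc]
      refine (cl S0).sum_mem (fun l _ => ?_)
      split_ifs
      · refine (cl S0).mul_mem (intCast_mem _ _) ?_
        exact cl_mono (fun s hs => Or.inl hs) (hγ _)
      · exact (cl S0).zero_mem
    · refine (degree_sum_le _ _).trans_lt ?_
      rw [Finset.sup_lt_iff (WithBot.bot_lt_coe _)]
      intro l _
      refine (degree_C_mul_X_pow_le _ _).trans_lt ?_
      exact_mod_cast l.2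
    · intro T hT
      have hTS : Kills T S0 := fun s hs => hT s (Or.inl (subset_cl _ hs))
      have hTX : ∀ i' q, T ((c i').X q) = 0 := fun i' q => by
        by_cases hq : (⟨i', q⟩ : Σ i, Fin (m i)) = ⟨i, p⟩
        · have h1 : ∀ s t : (Σ i, Fin (m i)), s = t → (c s.1).X s.2 = (c t.1).X t.2 := by
            rintro s t rfl
            rfl
          have h2 := h1 _ _ hq
          change (c i').X q = (c i).X p at h2
          rw [h2]
          exact hT _ (Or.inr rfl)
        · exact hTS _ (Or.inr ⟨⟨i', q⟩, hq, rfl⟩)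
      rw [hf T (fun s hs => hTS s (Or.inl hs))]
      exact Finset.sum_eq_zero (fun s _ => by
        rw [(c s.1).ω_zero (fun q => hTX _ q), mul_zero])
    · rw [hf D hDK]
      have h1 : ∀ i', i' ≠ i → ∀ l, (c i').ω D l = 0 := fun i' hi' l =>
        (c i').ω_zero (fun q => hoth ⟨i', q⟩ (fun h => hi' (congrArg Sigma.fst h))) l
      have h2 : ∀ l : ℕ, (c i).ω D l = ((c i).n p : F) * (c i).X p ^ l := by
        intro l
        unfold JCtx.ω JCtx.σ
        rw [Finset.sum_eq_single p]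
        · rw [hDX, div_self hY, one_mul]
        · intro q _ hq
          rw [hoth ⟨i, q⟩ (fun h => hq (by
            have h3 := eq_of_heq (Sigma.mk.inj_iff.1 h).2
            exact h3)), zero_div, zero_mul, mul_zero]
        · intro h
          exact absurd (Finset.mem_univ _) h
      rw [Fintype.sum_sigma, Finset.sum_eq_single i]
      · change _ = (∑ l : Fin (2 * g i), C (((c i).n p : F) * γ ⟨i, l⟩) * X ^ (l : ℕ)).eval _
        rw [eval_finsetSum]
        refine Finset.sum_congr rfl (fun l _ => ?_)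
        rw [h2, eval_mul, eval_C, eval_pow, eval_X]
        ring
      · intro i' _ hi'
        exact Finset.sum_eq_zero (fun l _ => by rw [h1 i' hi', mul_zero])
      · intro h
        exact absurd (Finset.mem_univ _) h
  have h1 := hθc (l : ℕ)
  rw [hθ, coeff_zero, Finset.sum_eq_single l] at h1
  · rw [if_pos rfl] at h1
    exact (mul_eq_zero.1 h1.symm).resolve_left (Int.cast_ne_zero.2 hw)
  · intro l' _ hl'
    exact if_neg (fun h => hl' (Fin.ext h.symm))
  · intro h
    exact absurd (Finset.mem_univ _) h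

end Pool.Agent.AXE
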